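import Mathlib
import Pool.Agent.N753.DR.Stm7
import Pool.Agent.N415.DR.VK
import Pool.Agent.N572.DR.Inv
import Pool.Agent.N196.PC.Prk

/-!
# Basic lemmas for the final assembly: heights, integrality
-/

set_option autoImplicit false

namespace Pool.Agent.Helper89V

open NumberField IsDedekindDomain Module Polynomial Height Pool.Agent.N753.DR
open IntermediateField (AdjoinSimple.gen)

/-- the roots of a given polynomial have bounded height -/
theorem root_ht {K : Type} [Field K] [NumberField K] (F : K[X]) (hF : F ≠ 0) :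
    ∃ C : ℝ, 0 ≤ C ∧ ∀ (M : Type) [Field M] [NumberField M] [Algebra K M] (x : M),
      aeval x F = 0 → logHeight₁ x ≤ finrank ℚ M * C := by
  classical
  have key : ∀ p : K[X], ∃ C : ℝ, 0 ≤ C ∧ (Irreducible p →
      ∀ (M : Type) [Field M] [NumberField M] [Algebra K M] (x : M),
        aeval x p = 0 → logHeight₁ x ≤ finrank ℚ M * C) := by
    intro p
    by_cases hp : Irreducible p
    · obtain ⟨C, hC, h⟩ := Pool.Agent.N415.DRVK.conj_ht p hp
      exact ⟨C, hC, fun _ => h⟩
    · exact ⟨0, le_rfl, fun h => absurd h hp⟩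
  choose c hc0 hc using key
  set T := (UniqueFactorizationMonoid.normalizedFactors F).toFinset with hT
  refine ⟨∑ p ∈ T, c p, Finset.sum_nonneg fun p _ => hc0 p, ?_⟩
  intro M _ _ _ x hx
  have hfd : FiniteDimensional K M := FiniteDimensional.right ℚ K M
  have hint : IsIntegral K x := IsIntegral.of_finite K x
  have hmem : minpoly K x ∈ T := by
    rw [hT, Multiset.mem_toFinset, Polynomial.mem_normalizedFactors_iff hF]
    exact ⟨minpoly.irreducible hint, minpoly.monic hint, minpoly.dvd K x hx⟩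
  have h1 := hc (minpoly K x) (minpoly.irreducible hint) M x (minpoly.aeval K x)
  exact h1.trans (mul_le_mul_of_nonneg_left
    (Finset.single_le_sum (fun p (_ : p ∈ T) => hc0 p) hmem) (Nat.cast_nonneg _))

/-- elements are integral at most primes -/
theorem elt_int {k : Type} [Field k] [NumberField k] (z : k) : ∃ n : ℕ, n ≠ 0 ∧
    ∀ (M : Type) [Field M] [NumberField M] [Algebra k M] (w : HeightOneSpectrum (𝓞 M)),
      (n : 𝓞 M) ∉ w.asIdeal → w.valuation M (algebraMap k M z) ≤ 1 := by
  rcases eq_or_ne z 0 with rfl | hz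
  · exact ⟨1, one_ne_zero, fun M _ _ _ w _ => by rw [map_zero, map_zero]; exact zero_le_one⟩
  · obtain ⟨n, hn, h⟩ := Pool.Agent.N415.DRVK.sep (inv_ne_zero hz)
    refine ⟨n, hn, fun M _ _ _ w hw => ?_⟩
    have h1 := h M w hw
    rw [not_lt, map_inv₀, map_inv₀] at h1
    have hz' : w.valuation M (algebraMap k M z) ≠ 0 := by
      rw [Valuation.ne_zero_iff]
      exact fun h0 => hz ((map_eq_zero _).1 h0)
    rwa [one_le_inv₀ (zero_lt_iff.2 hz')] at h1

/-- the values of a polynomial are integral at most primes -/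
theorem coef_int {k : Type} [Field k] [NumberField k] (H : k[X]) : ∃ n : ℕ, n ≠ 0 ∧
    ∀ (M : Type) [Field M] [NumberField M] [Algebra k M] (w : HeightOneSpectrum (𝓞 M)),
      (n : 𝓞 M) ∉ w.asIdeal → ∀ x : M, w.valuation M x ≤ 1 →
        w.valuation M (aeval x H) ≤ 1 := by
  induction H using Polynomial.induction_on' with
  | add p q hp hq =>
    obtain ⟨n1, h1, h1'⟩ := hp
    obtain ⟨n2, h2, h2'⟩ := hq
    refine ⟨n1 * n2, mul_ne_zero h1 h2, fun M _ _ _ w hw x hx => ?_⟩
    have k1 := h1' M w (fun h => hw (by rw [Nat.cast_mul]; exact Ideal.mul_mem_right _ _ h)) x hx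
    have k2 := h2' M w (fun h => hw (by rw [Nat.cast_mul]; exact Ideal.mul_mem_left _ _ h)) x hx
    rw [map_add]
    exact (Valuation.map_add _ _ _).trans (max_le k1 k2)
  | monomial i c =>
    obtain ⟨n, hn, h⟩ := elt_int c
    refine ⟨n, hn, fun M _ _ _ w hw x hx => ?_⟩
    rw [aeval_monomial, map_mul, map_pow]
    exact mul_le_one' (h M w hw) (pow_le_one' hx i)

/-- a point near `a` is near the zeros of `F` if `F(a) = 0` -/
theorem near_root {k : Type} [Field k] [NumberField k] (F : k[X]) (a : k) (hF : F.eval a = 0) :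
    ∃ n : ℕ, n ≠ 0 ∧
    ∀ (M : Type) [Field M] [NumberField M] [Algebra k M] (w : HeightOneSpectrum (𝓞 M)),
      (n : 𝓞 M) ∉ w.asIdeal → ∀ x : M, w.valuation M x ≤ 1 →
        w.valuation M (x - algebraMap k M a) < 1 → w.valuation M (aeval x F) < 1 := by
  obtain ⟨H, hH⟩ : (X - C a) ∣ F := by rwa [dvd_iff_isRoot, IsRoot]
  obtain ⟨n, hn, h⟩ := coef_int H
  refine ⟨n, hn, fun M _ _ _ w hw x hx hxa => ?_⟩
  rw [hH, map_mul, map_sub, aeval_X, aeval_C, map_mul]
  calc w.valuation M (x - algebraMap k M a) * w.valuation M (aeval x H) ≤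
      w.valuation M (x - algebraMap k M a) * 1 := mul_le_mul' le_rfl (h M w hw x hx)
    _ < 1 := by rwa [mul_one]

section

variable {K L : Type} [Field K] [NumberField K] [Field L] [NumberField L] [Algebra K L]

theorem gen_ht (x : L) : logHeight₁ x =
    finrank (IntermediateField.adjoin K {x}) L * logHeight₁ (AdjoinSimple.gen K x) := by
  have h := Pool.Agent.N572.DR.Inv.ht_ext (M := L) (AdjoinSimple.gen K x)
  rw [← h]
  rfl

theorem gen_minpoly (x : L) : minpoly K (AdjoinSimple.gen K x) = minpoly K x :=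
  IntermediateField.minpoly_gen K x

theorem adj_rank (x : L) : finrank K (IntermediateField.adjoin K {x}) =
    (minpoly K x).natDegree := by
  have hfd : FiniteDimensional K L := FiniteDimensional.right ℚ K L
  exact IntermediateField.adjoin.finrank (IsIntegral.of_finite K x)

theorem rank_mul (x : L) : ((minpoly K x).natDegree : ℝ) *
    finrank (IntermediateField.adjoin K {x}) L = finrank K L := by
  have h := finrank_mul_finrank K (IntermediateField.adjoin K {x}) L
  rw [adj_rank] at h
  exact_mod_cast h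

theorem atH_mono {r : ℕ} {U U' : ℝ} {p : K[X]} (h : U ≤ U') (hp : AtH r U p) : AtH r U' p := by
  obtain ⟨M, i1, i2, i3, x, h3, h4, h5, h6⟩ := hp
  exact ⟨M, i1, i2, i3, x, h3, h4, h5, h6.trans h⟩

theorem HT_mono {m : ℕ} {r : Fin m → ℕ} {T T' : ℝ} {P : Fin m → K[X]} (h : T ≤ T')
    (hP : HT r T P) : HT r T' P := fun i =>
  atH_mono (mul_le_mul_of_nonneg_left h (Nat.cast_nonneg _)) (hP i)

/-- the height of a tuple -/
theorem HT_of {m : ℕ} {r : Fin m → ℕ} (x : Fin m → L) (hx : ∀ i, (minpoly K (x i)).natDegree = r i)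
    {T : ℝ} (hT : ∑ i, logHeight₁ (x i) ≤ finrank K L * T) :
    HT r T (fun i => minpoly K (x i)) := by
  intro i
  refine ⟨IntermediateField.adjoin K {x i}, inferInstance, inferInstance, inferInstance,
    AdjoinSimple.gen K (x i), ?_, ?_, gen_minpoly _, ?_⟩
  · rw [adj_rank, hx]
  · rw [gen_minpoly, hx]
  · have h1 := gen_ht (K := K) (x i)
    have h2 := rank_mul (K := K) (x i)
    rw [hx] at h2
    have h3 : (0 : ℝ) < finrank (IntermediateField.adjoin K {x i}) L := by
      have : FiniteDimensional (IntermediateField.adjoin K {x i}) L :=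
        FiniteDimensional.right ℚ _ L
      exact_mod_cast finrank_pos
    have h4 : logHeight₁ (x i) ≤ finrank K L * T :=
      (Finset.single_le_sum (f := fun i => logHeight₁ (x i))
        (fun i _ => zero_le_logHeight₁ _) (Finset.mem_univ i)).trans hT
    rw [h1, ← h2, mul_comm (r i : ℝ), mul_assoc] at h4
    exact le_of_mul_le_mul_left h4 h3

theorem HT_le {m : ℕ} {r : Fin m → ℕ} (x : Fin m → L)
    {T : ℝ} (hT : HT r T (fun i => minpoly K (x i))) (i : Fin m) :
    logHeight₁ (x i) ≤ finrank K L * T := by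
  obtain ⟨M, i1, i2, i3, x', h3, h4, h5, h6⟩ := hT i
  have h1 := gen_ht (K := K) (x i)
  have h2 := rank_mul (K := K) (x i)
  have hdeg : (minpoly K (x i)).natDegree = r i := by
    have h8 : minpoly K x' = minpoly K (x i) := h5
    rw [← h8, h4]
  rw [hdeg] at h2
  have h7 : logHeight₁ (AdjoinSimple.gen K (x i)) = logHeight₁ x' := by
    refine Pool.Agent.N572.DR.Inv.ht_inv (K := K) _ _ ?_ ?_ ?_
    · rw [gen_minpoly, adj_rank]
    · rw [h4, h3]
    · rw [gen_minpoly, h5]
  rw [h1, h7, ← h2, mul_comm (r i : ℝ), mul_assoc]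
  exact mul_le_mul_of_nonneg_left h6 (Nat.cast_nonneg _)

/-- the primes above a rational prime -/
theorem sum_above {n : ℕ} (hn : n ≠ 0) (T : Finset (HeightOneSpectrum (𝓞 L)))
    (hT : ∀ w ∈ T, (n : 𝓞 L) ∈ w.asIdeal) : ∑ w ∈ T, lN w ≤ finrank ℚ L * Real.log n := by
  have hz : ((n : ℕ) : L) ≠ 0 := Nat.cast_ne_zero.2 hn
  have h1 := Pool.Agent.N415.DRVK.wt_le hz T (fun w hw => by
    have := (w.valuation_lt_one_iff_mem (K := L) (n : 𝓞 L)).2 (hT w hw)
    simpa using this)
  have h2 : logHeight₁ ((n : ℕ) : L) = finrank ℚ L * Real.log n := by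
    have h3 := Pool.Agent.N415.DRVK.ht_ext (k := ℚ) (L := L) (n : ℚ)
    rw [map_natCast] at h3
    rw [h3]
    congr 1
    have h4 := Rat.logHeight₁_eq_log_max (n : ℚ)
    rw [h4]
    have h5 : (1 : ℝ) ≤ n := by exact_mod_cast Nat.one_le_iff_ne_zero.2 hn
    simp [h5]
  rw [← h2]
  exact h1

end

end Pool.Agent.Helper89V
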