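import Pool.Agent.N297.CV.MainC
import Pool.Agent.N849.CV.CntC
import Pool.Agent.N328.CV.CoreV
import Pool.Agent.N490.CV.CoreB
import Pool.Agent.N394.CV.TypB
import Pool.Agent.N966.CV.LargeB
import Pool.Agent.N966.CV.PlacesB
import Pool.Agent.N488.CV.LinkC
import Pool.Agent.N265.CV.Htc
import Pool.Agent.N752.CV.UniC
import Pool.Agent.N752.CV.ZeroC
import Pool.Agent.N650.CV.FldC
import Pool.Agent.N776.CV.Sep
import Pool.Agent.N776.CV.VnC
import Pool.Agent.N753.DR.ProxE
import Pool.Agent.Helper89V.Exc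

/-!
# Linear systems on curves: the statements of the project CV
-/

set_option autoImplicit false

namespace Pool.Agent.Helper89V

open NumberField IsDedekindDomain Module Polynomial Pool.Agent.N753.DR
open scoped LinearAlgebra.Projectivization

theorem sCoreB : StmCoreB := Pool.Agent.N490.CV.CoreB.t Pool.Agent.N394.CV.t
    (Pool.Agent.N966.CV.LargeB.t Pool.Agent.N147.DR.t Pool.Agent.N394.CV.t) smallB
    Pool.Agent.N966.CV.PlacesB.t

theorem sCntC : StmCntC := Pool.Agent.N849.CVN.cntC (Pool.Agent.N328.CV.t sCoreB)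
  Pool.Agent.N488.CV.t Pool.Agent.N498.CV.t

theorem sZeroC : StmZeroC := Pool.Agent.N752.CV.t2 Pool.Agent.N498.CV.t

theorem sMainC : StmMainC := Pool.Agent.N297.CV.MainC.t sDiag sCntC Pool.Agent.N265.CV.t
  Pool.Agent.N752.CV.t sZeroC (Pool.Agent.N650.CV.FldC.t Pool.Agent.N265.CV.t)
  Pool.Agent.N776.CV.t

/-- the conjugates of an algebraic integer -/
theorem conj_le (K : Type) [Field K] [NumberField K] : ∃ C : ℕ, 1 ≤ C ∧
    ∀ (x : 𝓞 K) (φ : K →+* ℂ), ‖φ (x : K)‖ ≤ C * sz x := by
  obtain ⟨C, hC, h⟩ := Pool.Agent.N31.FR.el_bound K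
  refine ⟨C, hC, fun x φ => ?_⟩
  have h1 := h ((RingOfIntegers.basis K).equivFun x) (sz x)
    (fun j => (Pool.Agent.N262.DR.sz_le_iff (z := x)).1 le_rfl j) φ
  have h2 : Pool.Agent.N31.FR.el ((RingOfIntegers.basis K).equivFun x) = x :=
    (RingOfIntegers.basis K).sum_equivFun x
  rw [h2] at h1
  exact h1

/-- the number of points of projective space -/
theorem low_proj (K : Type) [Field K] [NumberField K] (r : ℕ) (hr : 1 ≤ r) :
    ∃ c U₀ : ℝ, 0 < c ∧ ∀ U : ℝ, U₀ ≤ U →
      {P : ℙ K (Fin (r + 1) → K) | Height.logHeight P.rep ≤ U}.Finite ∧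
      c * Real.exp ((r + 1) * U) ≤
        ({P : ℙ K (Fin (r + 1) → K) | Height.logHeight P.rep ≤ U}.ncard : ℝ) := by
  classical
  obtain ⟨c, U₀, hc, hT⟩ := Pool.Agent.N31.FR.t K r hr
  obtain ⟨Bad, C, hC, hred⟩ := sRed K r hr
  obtain ⟨C₁, hC₁, hconj⟩ := conj_le K
  have hn : (0 : ℝ) < finrank ℚ K := by exact_mod_cast finrank_pos
  obtain ⟨ν, Cz, -, hz⟩ := sZeroC K (r + 1) 1 0 one_ne_zero (MvPolynomial.isHomogeneous_one _ _)
  set C₂ : ℝ := finrank ℚ K * Real.log (max 1 (C₁ * C)) with hC₂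
  have hC₂0 : 0 ≤ C₂ := mul_nonneg hn.le (Real.log_nonneg (le_max_left _ _))
  refine ⟨c * Real.exp (-((r + 1) * C₂)), max 0 (U₀) + C₂, by positivity, fun U hU => ?_⟩
  have hU1 : U₀ ≤ U - C₂ := by
    have := le_max_right 0 U₀
    linarith
  have hU2 : 0 ≤ U - C₂ := by
    have := le_max_left 0 U₀
    linarith
  have hfin := (hz U (by linarith)).1
  refine ⟨hfin, ?_⟩
  obtain ⟨T, hT1, hT2⟩ := hT (U - C₂) hU1
  have hvec : ∀ p : K[X], AtH r (U - C₂) p → (fun i : Fin (r + 1) => p.coeff i) ≠ 0 := by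
    rintro p ⟨M, _, _, _, x, h1, h2, h3, -⟩ h0
    have hfd : FiniteDimensional K M := FiniteDimensional.right ℚ K M
    have h4 := (minpoly.monic (IsIntegral.of_finite K x)).coeff_natDegree
    rw [h2, h3] at h4
    have h5 := congrFun h0 (Fin.last r)
    simp only [Fin.val_last, Pi.zero_apply] at h5
    rw [h4] at h5
    exact one_ne_zero h5
  set F : K[X] → ℙ K (Fin (r + 1) → K) := fun p =>
    if h : (fun i : Fin (r + 1) => p.coeff i) ≠ 0 then Projectivization.mk K _ h else
      Projectivization.mk K (fun _ => 1) (fun h => one_ne_zero (congrFun h 0)) with hF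
  have hFp : ∀ p, AtH r (U - C₂) p → ∀ h, F p =
      Projectivization.mk K (fun i : Fin (r + 1) => p.coeff i) h := by
    intro p hp h
    rw [hF]
    exact dif_pos h
  have hmaps : ∀ p ∈ (T : Set K[X]), F p ∈
      {P : ℙ K (Fin (r + 1) → K) | Height.logHeight P.rep ≤ U} := by
    intro p hp
    have hpT := hT1 p hp
    have hp0 := hvec p hpT
    rw [hFp p hpT hp0, Set.mem_ofPred_eq]
    obtain ⟨M, i1, i2, i3, x, h1, h2, h3, h4⟩ := hpT
    obtain ⟨b, l, hl, hb, -, hsz⟩ := hred M x h1 h2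
    have e1 : Height.logHeight (Projectivization.mk K (fun i : Fin (r + 1) => p.coeff i) hp0).rep =
        Height.logHeight (fun i : Fin (r + 1) => p.coeff i) := by
      obtain ⟨a, ha⟩ := Projectivization.exists_smul_eq_mk_rep K
        (fun i : Fin (r + 1) => p.coeff i) hp0
      rw [← ha]
      exact Height.logHeight_smul_eq_logHeight _ (Units.ne_zero a)
    have e2 : Height.logHeight (fun i : Fin (r + 1) => (b i : K)) =
        Height.logHeight (fun i : Fin (r + 1) => p.coeff i) := by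
      have : (fun i : Fin (r + 1) => (b i : K)) = l • fun i : Fin (r + 1) => p.coeff i := by
        funext i
        rw [hb i, h3]
        rfl
      rw [this]
      exact Height.logHeight_smul_eq_logHeight _ hl
    rw [e1, ← e2]
    have hb0 : b ≠ 0 := by
      rintro rfl
      apply hp0
      funext i
      have h5 := hb i
      rw [h3] at h5
      have h6 : (((0 : Fin (r + 1) → 𝓞 K) i : 𝓞 K) : K) = 0 := by
        rw [Pi.zero_apply]
        rfl
      rw [h6] at h5
      exact (mul_eq_zero.1 h5.symm).resolve_left hl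
    have hR : 1 ≤ max 1 (C₁ * C) * Real.exp (Height.logHeight₁ x / finrank ℚ K) := by
      have h7 : 1 ≤ Real.exp (Height.logHeight₁ x / finrank ℚ K) :=
        Real.one_le_exp (div_nonneg (Height.zero_le_logHeight₁ x) hn.le)
      have h8 : (1 : ℝ) ≤ max 1 (C₁ * C) := le_max_left _ _
      nlinarith
    refine (Pool.Agent.N31.FR.logHeight_le hb0 hR (fun i φ => ?_)).trans ?_
    · refine (hconj (b i) φ).trans ?_
      calc (C₁ : ℝ) * sz (b i) ≤ C₁ * (C * Real.exp (Height.logHeight₁ x / finrank ℚ K)) :=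
            mul_le_mul_of_nonneg_left (hsz i) (Nat.cast_nonneg _)
        _ = (C₁ * C) * Real.exp (Height.logHeight₁ x / finrank ℚ K) := by ring
        _ ≤ _ := mul_le_mul_of_nonneg_right (le_max_right _ _) (Real.exp_pos _).le
    · rw [Real.log_mul (by positivity) (Real.exp_pos _).ne', Real.log_exp, mul_add, ← hC₂,
        mul_div_cancel₀ _ hn.ne']
      linarith
  have hinj : Set.InjOn F (T : Set K[X]) := by
    intro p hp p' hp' h
    have hpT := hT1 p hp
    have hpT' := hT1 p' hp'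
    rw [hFp p hpT (hvec p hpT), hFp p' hpT' (hvec p' hpT'),
      Projectivization.mk_eq_mk_iff'] at h
    obtain ⟨a, ha⟩ := h
    obtain ⟨M, i1, i2, i3, x, h1, h2, h3, h4⟩ := hpT
    obtain ⟨M', i1', i2', i3', x', h1', h2', h3', h4'⟩ := hpT'
    have hfd : FiniteDimensional K M := FiniteDimensional.right ℚ K M
    have hfd' : FiniteDimensional K M' := FiniteDimensional.right ℚ K M'
    have k1 := (minpoly.monic (IsIntegral.of_finite K x)).coeff_natDegree
    have k1' := (minpoly.monic (IsIntegral.of_finite K x')).coeff_natDegree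
    rw [h2, h3] at k1
    rw [h2', h3'] at k1'
    have h5 := congrFun ha (Fin.last r)
    simp only [Fin.val_last, Pi.smul_apply, smul_eq_mul] at h5
    rw [k1, k1', mul_one] at h5
    ext i
    by_cases hi : i ≤ r
    · have h6 := congrFun ha ⟨i, Nat.lt_succ_of_le hi⟩
      simp only [Pi.smul_apply, smul_eq_mul] at h6
      rw [h5, one_mul] at h6
      exact h6.symm
    · rw [coeff_eq_zero_of_natDegree_lt, coeff_eq_zero_of_natDegree_lt]
      · rw [← h3', h2']; omega
      · rw [← h3, h2]; omega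
  have h1 := Set.ncard_le_ncard_of_injOn F hmaps hinj hfin
  rw [Set.ncard_coe_finset] at h1
  have h2 : (T.card : ℝ) ≤
      ({P : ℙ K (Fin (r + 1) → K) | Height.logHeight P.rep ≤ U}.ncard : ℝ) := by
    exact_mod_cast h1
  refine le_trans (le_of_eq ?_) (hT2.trans h2)
  rw [mul_assoc, ← Real.exp_add]
  congr 2
  ring

end Pool.Agent.Helper89V
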