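import Pool.Agent.Helper89V.PCK

/-!
# The main inequality for products of curves
-/

set_option autoImplicit false

namespace Pool.Agent.Helper89V

open NumberField IsDedekindDomain Module Polynomial Height Pool.Agent.N753.DR
open IntermediateField (AdjoinSimple.gen)

theorem sum_biUnion_le' {ι α : Type} [DecidableEq α] (s : Finset ι) (t : ι → Finset α)
    (f : α → ℝ) (hf : ∀ x, 0 ≤ f x) : ∑ x ∈ s.biUnion t, f x ≤ ∑ i ∈ s, ∑ x ∈ t i, f x := by
  classical
  induction s using Finset.induction_on with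
  | empty => simp
  | insert i s hi ih =>
    rw [Finset.biUnion_insert, Finset.sum_insert hi]
    have h := Finset.sum_union_inter (s₁ := t i) (s₂ := s.biUnion t) (f := f)
    have h2 : 0 ≤ ∑ x ∈ t i ∩ s.biUnion t, f x := Finset.sum_nonneg fun x _ => hf x
    linarith

theorem log_disc_nonneg (F : Type) [Field F] [NumberField F] : 0 ≤ Real.log |(discr F : ℝ)| := by
  refine Real.log_nonneg ?_
  have h : discr F ≠ 0 := discr_ne_zero F
  have h2 : (1 : ℤ) ≤ |discr F| := Int.one_le_abs h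
  exact_mod_cast h2

theorem main_ineq (hKB : StmKeyB) (K : Type) [Field K] [NumberField K] {m : ℕ} (r : Fin m → ℕ)
    (E : Set (Fin m → K[X])) (E' : ∀ _ : Fin m, Set K[X]) (hcoin : GoodCoin r E)
    (hline : ∀ i, GoodLine (r i) (E' i)) (hEE : ∀ P, P ∉ E → ∀ i, P i ∉ E' i)
    (k : Type) [Field k] [NumberField k] [Algebra K k] (A : Fin m → Type) [∀ i, CommRing (A i)]
    [∀ i, IsDedekindDomain (A i)] [∀ i, Algebra k (A i)] [∀ i, Algebra k[X] (A i)]
    [∀ i, IsScalarTower k k[X] (A i)] [∀ i, Module.Finite k[X] (A i)]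
    [∀ i, FaithfulSMul k[X] (A i)]
    (q : Fin m → ℕ) (a : ∀ i, Fin (q i) → k) (ha : ∀ i, Function.Injective (a i))
    (hdeg : ∀ i j, (minpoly K (a i j)).natDegree ≤ 2 * r i + 1)
    (v : ∀ i, Fin (q i) → ℕ) (y : ∀ i j, Fin (v i j) → A i) (F : ∀ i, Fin (q i) → Ideal (A i))
    (hF : ∀ i j, F i j ≠ ⊥)
    (hyF : ∀ i j l, ∀ f ∈ F i j,
      y i j l * f ∈ (Ideal.span {algebraMap k[X] (A i) (X - C (a i j))}).radical)
    (S : Finset ℕ) (hS : ∀ p ∈ S, p ≠ 0) (ε : ℝ) (hε : 0 < ε) :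
    ∃ C : ℝ, 0 ≤ C ∧ ∀ (L : Type) [Field L] [NumberField L] [Algebra K L] [Algebra k L]
      [IsScalarTower K k L] (φ : ∀ i, A i →ₐ[k] L),
      (∀ i, (minpoly K (tv (φ i))).natDegree = r i) → (fun i => minpoly K (tv (φ i))) ∉ E →
      (∀ i j, tv (φ i) ≠ algebraMap k L (a i j)) →
      ∀ W : Finset (HeightOneSpectrum (𝓞 L)),
        (∀ w, (∀ p ∈ S, (p : 𝓞 L) ∉ w.asIdeal) → ∀ i, w.valuation L (tv (φ i)) ≤ 1 →
          (∃ j, w.valuation L (tv (φ i) - algebraMap k L (a i j)) < 1 ∧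
            ∀ l, w.valuation L (φ i (y i j l)) < 1) → w ∈ W) →
        ∑ i, ((q i : ℝ) - (∑ j, (finrank k (A i ⧸ F i j) : ℝ)) / finrank k[X] (A i) - ε) *
            logHeight₁ (tv (φ i)) ≤
          ∑ w ∈ W, lN w + Real.log |(discr L : ℝ)| + finrank ℚ L * C := by
  classical
  -- the constants
  set κ : ℝ := ε / (2 * (1 + (m : ℝ) ^ 3)) with hκ
  have hm3 : (0 : ℝ) < 1 + (m : ℝ) ^ 3 := by positivity
  have hκ0 : 0 < κ := by positivity
  have hκm : κ * (1 + (m : ℝ) ^ 3) = ε / 2 := by rw [hκ]; field_simp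
  have hkey := fun i => key_line hKB k (A i) (a i) (v i) (y i) (F i) (hF i) (hyF i) (half_pos hε)
  choose T Ck G hT hCk hG hkey using hkey
  choose Cr hCr hroot using fun i => root_ht (K := ℚ) (G i) (hG i)
  set FK : Fin m → K[X] := fun i => ∏ j, minpoly K (a i j) with hFK
  have hfdk : FiniteDimensional K k := FiniteDimensional.right ℚ K k
  have hFK0 : ∀ i, FK i ≠ 0 := fun i => Finset.prod_ne_zero_iff.2 fun j _ =>
    minpoly.ne_zero (IsIntegral.of_finite K (a i j))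
  have hFKa : ∀ i j, ((FK i).map (algebraMap K k)).eval (a i j) = 0 := by
    intro i j
    rw [eval_map_algebraMap, hFK]
    simp only [map_prod]
    exact Finset.prod_eq_zero (Finset.mem_univ j) (minpoly.aeval K (a i j))
  choose n hn hnear using fun i j => near_root ((FK i).map (algebraMap K k)) (a i j) (hFKa i j)
  have hcoin2 : ∀ i j : Fin m, ∃ S : Finset ℕ, (∀ p ∈ S, p ≠ 0) ∧ ∃ C : ℝ, 0 ≤ C ∧ (i ≠ j →
      ∀ (L : Type) [Field L] [NumberField L] [Algebra K L]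
      (x : Fin m → L), (∀ i, (minpoly K (x i)).natDegree = r i) →
      (fun i => minpoly K (x i)) ∉ E →
      (∑ i, logHeight₁ (x i) ≤ finrank ℚ L * C) ∨
      ∀ Q : Finset ℕ, (∀ p ∈ Q, p.Prime ∧ NearP S (FK i) (minpoly K (x i)) p ∧
        NearP S (FK j) (minpoly K (x j)) p) →
        finrank ℚ L * ∑ p ∈ Q, Real.log p ≤ κ * ∑ i, logHeight₁ (x i)) := by
    intro i j
    by_cases hij : i = j
    · exact ⟨∅, by simp, 0, le_rfl, fun h => absurd hij h⟩
    · obtain ⟨S', h1, h2⟩ := hcoin i j hij (FK i) (FK j) (hFK0 i) (hFK0 j)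
      obtain ⟨C, h3, h4⟩ := h2 κ hκ0
      exact ⟨S', h1, C, h3, fun _ => h4⟩
  choose Sc hSc Cc hCc hcoin3 using hcoin2
  set SA : Finset ℕ := S ∪ Finset.univ.image T ∪
    (Finset.univ.biUnion fun i => Finset.univ.biUnion fun j => Sc i j) ∪
    Finset.univ.biUnion fun i => Finset.univ.image (n i) with hSA
  have hSA0 : ∀ p ∈ SA, p ≠ 0 := by
    intro p hp
    simp only [hSA, Finset.mem_union, Finset.mem_image, Finset.mem_biUnion, Finset.mem_univ,
      true_and] at hp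
    rcases hp with ((hp | ⟨i, rfl⟩) | ⟨i, j, hp⟩) | ⟨i, j, rfl⟩
    · exact hS p hp
    · exact hT i
    · exact hSc i j p hp
    · exact hn i j
  have hSSA : S ⊆ SA := fun p hp => by
    simp only [hSA, Finset.mem_union]
    exact Or.inl (Or.inl (Or.inl hp))
  have hTSA : ∀ i, T i ∈ SA := fun i => by
    simp only [hSA, Finset.mem_union, Finset.mem_image, Finset.mem_univ, true_and]
    exact Or.inl (Or.inl (Or.inr ⟨i, rfl⟩))
  have hScSA : ∀ i j, Sc i j ⊆ SA := fun i j p hp => by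
    simp only [hSA, Finset.mem_union, Finset.mem_biUnion, Finset.mem_univ, true_and]
    exact Or.inl (Or.inr ⟨i, j, hp⟩)
  have hnSA : ∀ i j, n i j ∈ SA := fun i j => by
    simp only [hSA, Finset.mem_union, Finset.mem_biUnion, Finset.mem_image, Finset.mem_univ,
      true_and]
    exact Or.inr ⟨i, j, rfl⟩
  choose Cl hCl hlin using fun i => line_le (hline i) k (a i) (ha i) (hdeg i) SA hSA0 hκ0
  have hq0 : (0 : ℝ) ≤ ∑ i, (q i : ℝ) := Finset.sum_nonneg fun i _ => Nat.cast_nonneg _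
  have hCc0 : 0 ≤ ∑ i, ∑ j, Cc i j :=
    Finset.sum_nonneg fun i _ => Finset.sum_nonneg fun j _ => hCc i j
  have hC1 : 0 ≤ ∑ i, (Cl i + Ck i + q i * Cr i) := Finset.sum_nonneg fun i _ =>
    add_nonneg (add_nonneg (hCl i) (hCk i)) (mul_nonneg (Nat.cast_nonneg _) (hCr i))
  refine ⟨∑ i, (Cl i + Ck i + q i * Cr i) + (∑ i, (q i : ℝ)) * ∑ i, ∑ j, Cc i j,
    add_nonneg hC1 (mul_nonneg hq0 hCc0), ?_⟩
  intro L _ _ _ _ _ φ hxr hxE hxa W hW
  have hd0 : 0 ≤ Real.log |(discr L : ℝ)| := log_disc_nonneg L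
  have hW0 : 0 ≤ ∑ w ∈ W, lN w :=
    Finset.sum_nonneg fun w _ => Pool.Agent.N415.DRVK.lN_nonneg w
  have hnL : (0 : ℝ) ≤ finrank ℚ L := Nat.cast_nonneg _
  have hh0 : ∀ i, 0 ≤ logHeight₁ (tv (φ i)) := fun i => zero_le_logHeight₁ _
  have hH0 : 0 ≤ ∑ i, logHeight₁ (tv (φ i)) := Finset.sum_nonneg fun i _ => hh0 i
  have hD0 : ∀ i, 0 ≤ (∑ j, (finrank k (A i ⧸ F i j) : ℝ)) / finrank k[X] (A i) :=
    fun i => by positivity
  by_cases hcase : ∃ i j, i ≠ j ∧
      ∑ i, logHeight₁ (tv (φ i)) ≤ finrank ℚ L * Cc i j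
  · obtain ⟨i₀, j₀, -, h1⟩ := hcase
    have h2 : Cc i₀ j₀ ≤ ∑ i, ∑ j, Cc i j :=
      (Finset.single_le_sum (f := fun j => Cc i₀ j) (fun j _ => hCc i₀ j)
        (Finset.mem_univ j₀)).trans
        (Finset.single_le_sum (f := fun i => ∑ j, Cc i j)
          (fun i _ => Finset.sum_nonneg fun j _ => hCc i j) (Finset.mem_univ i₀))
    have h3 : ∑ i, ((q i : ℝ) - (∑ j, (finrank k (A i ⧸ F i j) : ℝ)) / finrank k[X] (A i) - ε) *
            logHeight₁ (tv (φ i)) ≤ (∑ i, (q i : ℝ)) * ∑ i, logHeight₁ (tv (φ i)) := by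
      rw [Finset.sum_mul]
      refine Finset.sum_le_sum fun i _ => ?_
      have h4 : logHeight₁ (tv (φ i)) ≤ ∑ i, logHeight₁ (tv (φ i)) :=
        Finset.single_le_sum (f := fun i => logHeight₁ (tv (φ i))) (fun i _ => hh0 i)
          (Finset.mem_univ i)
      have h7 : (q i : ℝ) - (∑ j, (finrank k (A i ⧸ F i j) : ℝ)) / finrank k[X] (A i) - ε ≤
          q i := by
        have := hD0 i
        linarith
      exact (mul_le_mul_of_nonneg_right h7 (hh0 i)).trans
        (mul_le_mul_of_nonneg_left h4 (Nat.cast_nonneg _))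
    have h5 : (∑ i, (q i : ℝ)) * ∑ i, logHeight₁ (tv (φ i)) ≤
        finrank ℚ L * ((∑ i, (q i : ℝ)) * ∑ i, ∑ j, Cc i j) := by
      calc (∑ i, (q i : ℝ)) * ∑ i, logHeight₁ (tv (φ i))
          ≤ (∑ i, (q i : ℝ)) * (finrank ℚ L * ∑ i, ∑ j, Cc i j) :=
            mul_le_mul_of_nonneg_left
              (h1.trans (mul_le_mul_of_nonneg_left h2 hnL)) hq0
        _ = _ := by ring
    have h6 : 0 ≤ (finrank ℚ L : ℝ) * ∑ i, (Cl i + Ck i + q i * Cr i) := mul_nonneg hnL hC1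
    rw [mul_add]
    linarith
  push Not at hcase
  -- the coincidences
  have hfull : ∀ i, {u : HeightOneSpectrum (𝓞 L) | NearA SA (a i) (tv (φ i)) u}.Finite :=
    fun i => nearA_finite SA (hxa i)
  set P : Fin m → Finset ℕ := fun i => (hfull i).toFinset.image chr with hP
  have hPmem : ∀ i u, NearA SA (a i) (tv (φ i)) u → chr u ∈ P i := by
    intro i u hu
    rw [hP]
    refine Finset.mem_image_of_mem _ ?_
    rw [Set.Finite.mem_toFinset]
    exact hu
  have hPnear : ∀ i, ∀ p ∈ P i, p.Prime ∧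
      ∀ S' ⊆ SA, NearP S' (FK i) (minpoly K (tv (φ i))) p := by
    intro i p hp
    rw [hP] at hp
    obtain ⟨u, hu, rfl⟩ := Finset.mem_image.1 hp
    rw [Set.Finite.mem_toFinset] at hu
    refine ⟨chr_prime u, fun S' hS' => ?_⟩
    obtain ⟨h1, h2, l, hl⟩ := hu
    refine ⟨L, inferInstance, inferInstance, inferInstance, tv (φ i), u, rfl, ⟨?_, h2, ?_⟩,
      chr_mem u⟩
    · exact fun p hp _ => h1 p (hS' hp)
    · have h3 := hnear i l L u (h1 _ (hnSA i l)) (tv (φ i)) h2 hl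
      rw [aeval_map_algebraMap] at h3
      exact h3
  set Pr : Finset (Fin m × Fin m) := Finset.univ.filter fun s => s.1 ≠ s.2 with hPr
  set B : Finset ℕ := Pr.biUnion fun s => P s.1 ∩ P s.2 with hB
  have hBprime : ∀ p ∈ B, p.Prime := by
    intro p hp
    obtain ⟨s, -, hs⟩ := Finset.mem_biUnion.1 hp
    exact (hPnear s.1 p (Finset.mem_inter.1 hs).1).1
  have hBlog : (finrank ℚ L : ℝ) * ∑ p ∈ B, Real.log (p : ℝ) ≤
      (m : ℝ) ^ 2 * (κ * ∑ i, logHeight₁ (tv (φ i))) := by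
    have h1 : ∑ p ∈ B, Real.log (p : ℝ) ≤ ∑ s ∈ Pr, ∑ p ∈ P s.1 ∩ P s.2, Real.log (p : ℝ) :=
      sum_biUnion_le' Pr _ _ fun p => Real.log_natCast_nonneg p
    have h2 : ∀ s ∈ Pr, (finrank ℚ L : ℝ) * ∑ p ∈ P s.1 ∩ P s.2, Real.log (p : ℝ) ≤
        κ * ∑ i, logHeight₁ (tv (φ i)) := by
      intro s hs
      have hne : s.1 ≠ s.2 := by
        rw [hPr] at hs
        exact (Finset.mem_filter.1 hs).2
      rcases hcoin3 s.1 s.2 hne L (fun i => tv (φ i)) hxr hxE with h3 | h3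
      · exact absurd h3 (not_le.2 (hcase s.1 s.2 hne))
      · refine h3 _ fun p hp => ?_
        obtain ⟨h4, h5⟩ := Finset.mem_inter.1 hp
        exact ⟨(hPnear s.1 p h4).1, (hPnear s.1 p h4).2 _ (hScSA _ _),
          (hPnear s.2 p h5).2 _ (hScSA _ _)⟩
    have h3 : (Pr.card : ℝ) ≤ (m : ℝ) ^ 2 := by
      have h4 : Pr.card ≤ (Finset.univ : Finset (Fin m × Fin m)).card := Finset.card_le_univ _
      rw [Finset.card_univ, Fintype.card_prod, Fintype.card_fin] at h4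
      have h5 : (Pr.card : ℝ) ≤ ((m * m : ℕ) : ℝ) := by exact_mod_cast h4
      rw [Nat.cast_mul] at h5
      rw [sq]
      exact h5
    calc (finrank ℚ L : ℝ) * ∑ p ∈ B, Real.log (p : ℝ)
        ≤ finrank ℚ L * ∑ s ∈ Pr, ∑ p ∈ P s.1 ∩ P s.2, Real.log (p : ℝ) :=
          mul_le_mul_of_nonneg_left h1 hnL
      _ = ∑ s ∈ Pr, (finrank ℚ L : ℝ) * ∑ p ∈ P s.1 ∩ P s.2, Real.log (p : ℝ) :=
          Finset.mul_sum _ _ _
      _ ≤ ∑ _s ∈ Pr, κ * ∑ i, logHeight₁ (tv (φ i)) := Finset.sum_le_sum h2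
      _ = Pr.card * (κ * ∑ i, logHeight₁ (tv (φ i))) := by
          rw [Finset.sum_const, nsmul_eq_mul]
      _ ≤ _ := mul_le_mul_of_nonneg_right h3 (mul_nonneg hκ0.le hH0)
  -- the primes
  have hxM : ∀ i j, AdjoinSimple.gen k (tv (φ i)) ≠
      algebraMap k (IntermediateField.adjoin k {tv (φ i)}) (a i j) := by
    intro i j h
    apply hxa i j
    have := congrArg (algebraMap (IntermediateField.adjoin k {tv (φ i)}) L) h
    rw [← IsScalarTower.algebraMap_apply] at this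
    exact this
  set WM : ∀ i, Finset (HeightOneSpectrum (𝓞 (IntermediateField.adjoin k {tv (φ i)}))) :=
    fun i => if aeval (tv (φ i)) (G i) ≠ 0 then
      (nearA_finite (a := a i) (SA ∪ B) (hxM i)).toFinset else ∅ with hWM
  set VL : Fin m → Finset (HeightOneSpectrum (𝓞 L)) :=
    fun i => if aeval (tv (φ i)) (G i) ≠ 0 then
      (nearA_finite (a := a i) (SA ∪ B) (hxa i)).toFinset else ∅ with hVL
  set W' : Fin m → Finset (HeightOneSpectrum (𝓞 L)) :=
    fun i => W.filter fun u => NearA (SA ∪ B) (a i) (tv (φ i)) u with hW'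
  have hdisj0 : ∀ i j, i ≠ j → ∀ u, NearA (SA ∪ B) (a i) (tv (φ i)) u →
      NearA (SA ∪ B) (a j) (tv (φ j)) u → False := by
    intro i j hij u h1 h2
    have h3 : chr u ∈ B := by
      rw [hB]
      refine Finset.mem_biUnion.2 ⟨(i, j), ?_, Finset.mem_inter.2
        ⟨hPmem i u (nearA_mono Finset.subset_union_left h1),
          hPmem j u (nearA_mono Finset.subset_union_left h2)⟩⟩
      rw [hPr]
      exact Finset.mem_filter.2 ⟨Finset.mem_univ _, hij⟩
    exact h1.1 (chr u) (Finset.mem_union_right _ h3) (chr_mem u)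
  have hVLmem : ∀ i u, u ∈ VL i → NearA (SA ∪ B) (a i) (tv (φ i)) u := by
    intro i u hu
    rw [hVL] at hu
    dsimp only at hu
    split_ifs at hu with h
    · rw [Set.Finite.mem_toFinset] at hu
      exact hu
    · exact absurd hu (Finset.notMem_empty u)
  have hVW : ∀ i, ∀ u : HeightOneSpectrum (𝓞 L), u ∈ VL i ↔
      ∃ w ∈ WM i, u.asIdeal.LiesOver w.asIdeal := by
    intro i u
    by_cases h : aeval (tv (φ i)) (G i) ≠ 0
    · have h1 : VL i = (nearA_finite (a := a i) (SA ∪ B) (hxa i)).toFinset := by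
        rw [hVL]
        exact if_pos h
      have h2 : WM i = (nearA_finite (a := a i) (SA ∪ B) (hxM i)).toFinset := by
        rw [hWM]
        exact if_pos h
      refine nearA_V (S := SA ∪ B) (a := a i) (M := IntermediateField.adjoin k {tv (φ i)})
        (L := L) (AdjoinSimple.gen k (tv (φ i))) (WM i) ?_ (VL i) ?_ u
      · intro w
        rw [h2, Set.Finite.mem_toFinset]
        rfl
      · intro w
        rw [h1, Set.Finite.mem_toFinset]
        rfl
    · have h1 : VL i = ∅ := by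
        rw [hVL]
        exact if_neg h
      have h2 : WM i = ∅ := by
        rw [hWM]
        exact if_neg h
      rw [h1, h2]
      simp
  have hcomb := sComb k L m (fun i => IntermediateField.adjoin k {tv (φ i)}) WM VL hVW
    (fun i j hij => Finset.disjoint_left.2 fun u h1 h2 =>
      hdisj0 i j hij u (hVLmem i u h1) (hVLmem j u h2))
  -- the line
  have hA : ∀ i, ((q i : ℝ) - κ) * logHeight₁ (tv (φ i)) ≤
      finrank (IntermediateField.adjoin k {tv (φ i)}) L * ∑ w ∈ WM i, lN w +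
        (finrank ℚ L * ∑ p ∈ B, Real.log (p : ℝ) + finrank ℚ L * (Cl i + q i * Cr i)) := by
    intro i
    have hB0 := nonneg_sum_log B
    have h5 : 0 ≤ (finrank ℚ L : ℝ) * ∑ p ∈ B, Real.log (p : ℝ) := mul_nonneg hnL hB0
    have h6 : 0 ≤ (finrank ℚ L : ℝ) * Cl i := mul_nonneg hnL (hCl i)
    have h7 : 0 ≤ (finrank ℚ L : ℝ) * (q i * Cr i) :=
      mul_nonneg hnL (mul_nonneg (Nat.cast_nonneg _) (hCr i))
    by_cases h : aeval (tv (φ i)) (G i) ≠ 0
    · have h2 : WM i = (nearA_finite (a := a i) (SA ∪ B) (hxM i)).toFinset := by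
        rw [hWM]
        exact if_pos h
      have h1 := hlin i L (tv (φ i)) (hxr i) (hEE _ hxE i) (hxa i) B hBprime (WM i) (by
        intro w hw
        rw [h2, Set.Finite.mem_toFinset]
        exact hw)
      rw [mul_add] at h1 ⊢
      linarith
    · have h2 : WM i = ∅ := by
        rw [hWM]
        exact if_neg h
      have h3 := hroot i L (tv (φ i)) (not_not.1 h)
      rw [h2, Finset.sum_empty, mul_zero, zero_add, mul_add]
      have h4 : ((q i : ℝ) - κ) * logHeight₁ (tv (φ i)) ≤ q i * (finrank ℚ L * Cr i) :=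
        (mul_le_mul_of_nonneg_right (by linarith) (hh0 i)).trans
          (mul_le_mul_of_nonneg_left h3 (Nat.cast_nonneg _))
      have h8 : (q i : ℝ) * (finrank ℚ L * Cr i) = finrank ℚ L * (q i * Cr i) := by ring
      linarith
  -- the covers
  have hK : ∀ i, ∑ u ∈ VL i, lN u ≤ ∑ u ∈ W' i, lN u +
      (((∑ j, (finrank k (A i ⧸ F i j) : ℝ)) / finrank k[X] (A i) + ε / 2) *
        logHeight₁ (tv (φ i)) + finrank ℚ L * Ck i) := by
    intro i
    by_cases h : aeval (tv (φ i)) (G i) ≠ 0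
    · have h1 := hkey i (SA ∪ B) (Finset.mem_union_left _ (hTSA i)) L (φ i) h (hxa i) (VL i) (W' i)
        (hVLmem i) (by
          intro w h2 h3 h4
          obtain ⟨j, h5, h6⟩ := h4
          rw [hW']
          refine Finset.mem_filter.2 ⟨hW w (fun p hp => h2 p (Finset.mem_union_left _ (hSSA hp)))
            i h3 ⟨j, h5, h6⟩, h2, h3, j, h5⟩)
      linarith
    · have h2 : VL i = ∅ := by
        rw [hVL]
        exact if_neg h
      rw [h2, Finset.sum_empty]
      have h3 : 0 ≤ ∑ u ∈ W' i, lN u :=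
        Finset.sum_nonneg fun w _ => Pool.Agent.N415.DRVK.lN_nonneg w
      have h4 : 0 ≤ ((∑ j, (finrank k (A i ⧸ F i j) : ℝ)) / finrank k[X] (A i) + ε / 2) *
        logHeight₁ (tv (φ i)) := mul_nonneg (add_nonneg (hD0 i) (half_pos hε).le) (hh0 i)
      have h5 : 0 ≤ (finrank ℚ L : ℝ) * Ck i := mul_nonneg hnL (hCk i)
      linarith
  have hWW : ∑ i, ∑ u ∈ W' i, lN u ≤ ∑ w ∈ W, lN w := by
    have h1 : ∑ u ∈ Finset.univ.biUnion W', lN u = ∑ i, ∑ u ∈ W' i, lN u := by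
      refine Finset.sum_biUnion ?_
      intro i _ j _ hij
      refine Finset.disjoint_left.2 fun u h1 h2 => ?_
      rw [hW'] at h1 h2
      exact hdisj0 i j hij u (Finset.mem_filter.1 h1).2 (Finset.mem_filter.1 h2).2
    rw [← h1]
    refine Finset.sum_le_sum_of_subset_of_nonneg ?_ fun w _ _ =>
      Pool.Agent.N415.DRVK.lN_nonneg w
    intro u hu
    obtain ⟨i, -, hi⟩ := Finset.mem_biUnion.1 hu
    rw [hW'] at hi
    exact (Finset.mem_filter.1 hi).1
  -- the sum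
  have hs1 := Finset.sum_le_sum fun i (_ : i ∈ (Finset.univ : Finset (Fin m))) => hA i
  have hs2 := Finset.sum_le_sum fun i (_ : i ∈ (Finset.univ : Finset (Fin m))) => hK i
  rw [Finset.sum_add_distrib] at hs1 hs2
  have e1 : ∑ i : Fin m, (finrank ℚ L * ∑ p ∈ B, Real.log (p : ℝ) +
      finrank ℚ L * (Cl i + q i * Cr i)) = m * (finrank ℚ L * ∑ p ∈ B, Real.log (p : ℝ)) +
      finrank ℚ L * ∑ i, (Cl i + q i * Cr i) := by
    rw [Finset.sum_add_distrib, Finset.sum_const, Finset.card_univ, Fintype.card_fin,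
      nsmul_eq_mul, ← Finset.mul_sum]
  have e2 : ∑ i, (((∑ j, (finrank k (A i ⧸ F i j) : ℝ)) / finrank k[X] (A i) + ε / 2) *
        logHeight₁ (tv (φ i)) + finrank ℚ L * Ck i) =
      ∑ i, ((∑ j, (finrank k (A i ⧸ F i j) : ℝ)) / finrank k[X] (A i) *
        logHeight₁ (tv (φ i))) + ε / 2 * ∑ i, logHeight₁ (tv (φ i)) +
        finrank ℚ L * ∑ i, Ck i := by
    rw [Finset.mul_sum, Finset.mul_sum, ← Finset.sum_add_distrib, ← Finset.sum_add_distrib]
    exact Finset.sum_congr rfl fun i _ => by ring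
  have e3 : ∑ i, ((q i : ℝ) - κ) * logHeight₁ (tv (φ i)) =
      ∑ i, (q i : ℝ) * logHeight₁ (tv (φ i)) - κ * ∑ i, logHeight₁ (tv (φ i)) := by
    rw [Finset.mul_sum, ← Finset.sum_sub_distrib]
    exact Finset.sum_congr rfl fun i _ => by ring
  have e4 : ∑ i, ((q i : ℝ) - (∑ j, (finrank k (A i ⧸ F i j) : ℝ)) / finrank k[X] (A i) - ε) *
            logHeight₁ (tv (φ i)) = ∑ i, (q i : ℝ) * logHeight₁ (tv (φ i)) -
      ∑ i, ((∑ j, (finrank k (A i ⧸ F i j) : ℝ)) / finrank k[X] (A i) *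
        logHeight₁ (tv (φ i))) - ε * ∑ i, logHeight₁ (tv (φ i)) := by
    rw [Finset.mul_sum, ← Finset.sum_sub_distrib, ← Finset.sum_sub_distrib]
    exact Finset.sum_congr rfl fun i _ => by ring
  have e5 : ∑ i, (Cl i + Ck i + q i * Cr i) = ∑ i, (Cl i + q i * Cr i) + ∑ i, Ck i := by
    rw [← Finset.sum_add_distrib]
    exact Finset.sum_congr rfl fun i _ => by ring
  rw [e1, e3] at hs1
  rw [e2] at hs2
  rw [e4, e5]
  set H := ∑ i, logHeight₁ (tv (φ i)) with hH
  have hmB : (m : ℝ) * (finrank ℚ L * ∑ p ∈ B, Real.log (p : ℝ)) ≤ m * ((m : ℝ) ^ 2 * (κ * H)) :=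
    mul_le_mul_of_nonneg_left hBlog (Nat.cast_nonneg _)
  have e6 : (m : ℝ) * ((m : ℝ) ^ 2 * (κ * H)) + κ * H = ε / 2 * H := by
    rw [← hκm]
    ring
  have h9 : 0 ≤ (finrank ℚ L : ℝ) * ((∑ i, (q i : ℝ)) * ∑ i, ∑ j, Cc i j) :=
    mul_nonneg hnL (mul_nonneg hq0 hCc0)
  rw [mul_add, mul_add]
  have e7 : ε * H = ε / 2 * H + ε / 2 * H := by ring
  rw [e7]
  linarith

end Pool.Agent.Helper89V
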