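import Pool.Agent.N753.DR.Stm5
import Pool.Agent.Y729.RV.Base
import Pool.Agent.N901.PC.Comb
import Pool.Agent.N572.DR.Link
import Pool.Agent.N415.DR.VK
import Pool.Agent.N803.PX.Ex
import Pool.Agent.Helper89V.PCM
import Pool.Agent.Helper89V.CV1

/-!
# Covers of a curve above the members of a linear system
-/

set_option autoImplicit false

namespace Pool.Agent.Helper89V

open NumberField IsDedekindDomain Module Polynomial Pool.Agent.N753.DR
open scoped LinearAlgebra.Projectivization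

section

variable {K A : Type} [Field K] [NumberField K] [CommRing A] [IsDomain A]
  [Algebra K A] [Algebra K[X] A] [IsScalarTower K K[X] A] [Module.Finite K[X] A]
  [FaithfulSMul K[X] A]

/-- finitely many maximal ideals contain a given polynomial in `X` -/
theorem fin_max (F : K[X]) (hF : F ≠ 0) :
    {p : Ideal A | p.IsMaximal ∧ algebraMap K[X] A F ∈ p}.Finite := by
  set G : K[X] := F * C F.leadingCoeff⁻¹ with hG
  have hGm : G.Monic := monic_mul_leadingCoeff_inv hF
  obtain ⟨hfd, -, -⟩ := Pool.Agent.N803.PX.t K A 1 (fun _ => 1) (by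
    rw [Set.range_const, Ideal.span_singleton_one]) G hGm
  have hart : IsArtinianRing (A ⧸ Ideal.span {algebraMap K[X] A G}) :=
    IsArtinianRing.of_finite K _
  have h1 := IsArtinianRing.setOfPred_isMaximal_finite (A ⧸ Ideal.span {algebraMap K[X] A G})
  refine (h1.image (Ideal.comap (Ideal.Quotient.mk (Ideal.span {algebraMap K[X] A G})))).subset ?_
  rintro p ⟨hp, hFp⟩
  have hle : Ideal.span {algebraMap K[X] A G} ≤ p := by
    rw [Ideal.span_singleton_le_iff_mem, hG, map_mul]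
    exact Ideal.mul_mem_right _ _ hFp
  have hcm : Ideal.comap (Ideal.Quotient.mk (Ideal.span {algebraMap K[X] A G}))
      (Ideal.map (Ideal.Quotient.mk (Ideal.span {algebraMap K[X] A G})) p) = p := by
    rw [Ideal.comap_map_of_surjective _ Ideal.Quotient.mk_surjective, ← RingHom.ker_eq_comap_bot,
      Ideal.mk_ker]
    exact sup_eq_left.2 hle
  refine ⟨_, ?_, hcm⟩
  rcases Ideal.map_eq_top_or_isMaximal_of_surjective
    (Ideal.Quotient.mk (Ideal.span {algebraMap K[X] A G})) Ideal.Quotient.mk_surjective hp with h | h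
  · exfalso
    rw [h, Ideal.comap_top] at hcm
    exact hp.ne_top hcm.symm
  · exact h

theorem bound_of {m : ℕ} (f : Fin m → A) (Q : MvPolynomial (Fin m) K)
    (hQ : ∀ c c' : Fin m → K, MvPolynomial.eval c Q ≠ 0 →
      Ideal.span {mem f c} = Ideal.span {mem f c'} → ∃ l : K, l ≠ 0 ∧ c' = l • c)
    (F : K[X]) (hF : F ≠ 0) : ∃ C : ℝ, 0 ≤ C ∧ ∀ P : ℙ K (Fin m → K),
      MvPolynomial.eval P.rep Q ≠ 0 → (Ideal.span {mem f P.rep}).IsMaximal →
      algebraMap K[X] A F ∈ Ideal.span {mem f P.rep} → Height.logHeight P.rep ≤ C := by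
  classical
  have key : ∀ p : Ideal A, ∃ C : ℝ, 0 ≤ C ∧ ∀ P : ℙ K (Fin m → K),
      MvPolynomial.eval P.rep Q ≠ 0 → Ideal.span {mem f P.rep} = p →
      Height.logHeight P.rep ≤ C := by
    intro p
    by_cases h : ∃ P : ℙ K (Fin m → K), MvPolynomial.eval P.rep Q ≠ 0 ∧
        Ideal.span {mem f P.rep} = p
    · obtain ⟨P, hP1, hP2⟩ := h
      refine ⟨Height.logHeight P.rep, Height.logHeight_nonneg _, fun P' hP1' hP2' => ?_⟩
      obtain ⟨l, hl, hll⟩ := hQ P.rep P'.rep hP1 (hP2.trans hP2'.symm)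
      rw [hll, Height.logHeight_smul_eq_logHeight _ hl]
    · exact ⟨0, le_rfl, fun P' h1 h2 => absurd ⟨P', h1, h2⟩ h⟩
  choose c hc0 hc using key
  have hfin := fin_max (A := A) F hF
  refine ⟨∑ p ∈ hfin.toFinset, c p, Finset.sum_nonneg fun p _ => hc0 p, fun P h1 h2 h3 => ?_⟩
  refine (hc _ P h1 rfl).trans (Finset.single_le_sum (f := c) (fun p _ => hc0 p) ?_)
  rw [Set.Finite.mem_toFinset]
  exact ⟨h2, h3⟩

/-- outside `E` the truncated counting functions are large -/
def GoodTr {m : ℕ} (f : Fin m → A) (E : Set (ℙ K (Fin m → K))) : Prop :=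
  ∀ (q : ℕ) (u : Fin q → ℕ) (g : ∀ j, Fin (u j) → A),
      (∀ j, (Ideal.span (Set.range (g j))).IsMaximal) →
      (∀ i j, i ≠ j → Ideal.span (Set.range (g i)) ≠ Ideal.span (Set.range (g j))) →
      (∀ j, ∃ (L : Type) (_ : Field L) (_ : NumberField L) (_ : Algebra K L) (ψ : A →ₐ[K] L),
        Function.Surjective ψ ∧ RingHom.ker ψ = Ideal.span (Set.range (g j)) ∧
          Wide K (fun i => ψ (f i))) →
      ∀ (S : Finset ℕ) (κ : ℝ), 0 < κ → ∃ C : ℝ,
        ∀ (M : Type) [Field M] [NumberField M] [Algebra K M] (φ : A →ₐ[K] M)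
          (P : ℙ K (Fin m → K)), P ∉ E → Function.Surjective φ →
          RingHom.ker φ = Ideal.span {mem f P.rep} →
          (∀ j, RingHom.ker φ ≠ Ideal.span (Set.range (g j))) →
          ∃ W : Finset (HeightOneSpectrum (𝓞 M)), (∀ w ∈ W, ∃ j, NearC S (g j) φ w) ∧
            (∑ j, (finrank K (A ⧸ Ideal.span (Set.range (g j))) : ℝ) - κ) *
              Height.logHeight P.rep ≤ ∑ w ∈ W, lN w + C

/-- outside `E` the members through the zeros of a given polynomial in `X` have bounded height -/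
def GoodBd {m : ℕ} (f : Fin m → A) (E : Set (ℙ K (Fin m → K))) : Prop :=
  ∀ F : K[X], F ≠ 0 → ∃ C : ℝ, 0 ≤ C ∧ ∀ (M : Type) [Field M] [NumberField M] [Algebra K M]
    (φ : A →ₐ[K] M) (P : ℙ K (Fin m → K)), P ∉ E → Function.Surjective φ →
      RingHom.ker φ = Ideal.span {mem f P.rep} → aeval (φ (algebraMap K[X] A X)) F = 0 →
      Height.logHeight P.rep ≤ C

omit [NumberField K] [IsDomain A] [Module.Finite K[X] A] [FaithfulSMul K[X] A] in
theorem aeval_X_eq {M : Type} [Field M] [Algebra K M] (φ : A →ₐ[K] M) (F : K[X]) :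
    aeval (φ (algebraMap K[X] A X)) F = φ (algebraMap K[X] A F) := by
  have h1 : (aeval (φ (algebraMap K[X] A X)) : K[X] →ₐ[K] M) =
      φ.comp (IsScalarTower.toAlgHom K K[X] A) := by
    refine Polynomial.algHom_ext ?_
    rw [aeval_X]
    rfl
  rw [h1]
  rfl

theorem goodBd_of {m : ℕ} (f : Fin m → A) (Q : MvPolynomial (Fin m) K)
    (hQ : ∀ c c' : Fin m → K, MvPolynomial.eval c Q ≠ 0 →
      Ideal.span {mem f c} = Ideal.span {mem f c'} → ∃ l : K, l ≠ 0 ∧ c' = l • c)
    (E : Set (ℙ K (Fin m → K))) (hE : ∀ P ∉ E, MvPolynomial.eval P.rep Q ≠ 0) : GoodBd f E := by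
  intro F hF
  obtain ⟨C, hC, h⟩ := bound_of f Q hQ F hF
  refine ⟨C, hC, ?_⟩
  intro M _ _ _ φ P hPE hφ hker hz
  refine h P (hE P hPE) ?_ ?_
  · rw [← hker]
    exact RingHom.ker_isMaximal_of_surjective φ hφ
  · rw [← hker, RingHom.mem_ker, ← aeval_X_eq]
    exact hz

end

/-- the truncated counting functions in terms of the height of the point -/
theorem tr_x {K A : Type} [Field K] [NumberField K] [CommRing A] [IsDomain A]
    [Algebra K A] [Algebra K[X] A] [IsScalarTower K K[X] A] [Module.Finite K[X] A]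
    [FaithfulSMul K[X] A] {m : ℕ} (f : Fin m → A) (E : Set (ℙ K (Fin m → K)))
    (htr : GoodTr f E) {Ch : ℝ}
    (hht : ∀ (M : Type) [Field M] [NumberField M] [Algebra K M] (φ : A →ₐ[K] M)
        (P : ℙ K (Fin m → K)), Function.Surjective φ →
        RingHom.ker φ = Ideal.span {mem f P.rep} →
        Height.logHeight₁ (φ (algebraMap K[X] A X)) ≤
          (finrank K[X] A : ℝ) * Height.logHeight P.rep + Ch)
    (hN : 0 < finrank K[X] A) (q : ℕ) (u : Fin q → ℕ) (g : ∀ j, Fin (u j) → A)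
    (hmax : ∀ j, (Ideal.span (Set.range (g j))).IsMaximal)
    (hne : ∀ i j, i ≠ j → Ideal.span (Set.range (g i)) ≠ Ideal.span (Set.range (g j)))
    (hwide : ∀ j, ∃ (L : Type) (_ : Field L) (_ : NumberField L) (_ : Algebra K L) (ψ : A →ₐ[K] L),
        Function.Surjective ψ ∧ RingHom.ker ψ = Ideal.span (Set.range (g j)) ∧
          Wide K (fun i => ψ (f i)))
    (S : Finset ℕ) (κ : ℝ) (hκ : 0 < κ) :
    ∃ C : ℝ, 0 ≤ C ∧ ∀ (M : Type) [Field M] [NumberField M] [Algebra K M] (φ : A →ₐ[K] M)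
      (P : ℙ K (Fin m → K)), P ∉ E → Function.Surjective φ →
      RingHom.ker φ = Ideal.span {mem f P.rep} →
      (∀ j, RingHom.ker φ ≠ Ideal.span (Set.range (g j))) →
      ∃ W : Finset (HeightOneSpectrum (𝓞 M)), (∀ w ∈ W, ∃ j, NearC S (g j) φ w) ∧
        ((∑ j, (finrank K (A ⧸ Ideal.span (Set.range (g j))) : ℝ)) / (finrank K[X] A : ℝ) - κ) *
          Height.logHeight₁ (φ (algebraMap K[X] A X)) ≤ ∑ w ∈ W, lN w + C := by
  classical
  set N : ℝ := (finrank K[X] A : ℝ) with hNd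
  have hN0 : 0 < N := Nat.cast_pos.2 hN
  set dg : ℝ := ∑ j, (finrank K (A ⧸ Ideal.span (Set.range (g j))) : ℝ) with hdg
  have hdg0 : 0 ≤ dg := Finset.sum_nonneg fun j _ => Nat.cast_nonneg _
  rcases le_or_gt (dg / N) κ with hle | hlt
  · refine ⟨0, le_rfl, ?_⟩
    intro M _ _ _ φ P _ _ _ _
    refine ⟨∅, by simp, ?_⟩
    rw [Finset.sum_empty, add_zero]
    exact mul_nonpos_of_nonpos_of_nonneg (by linarith) (Height.zero_le_logHeight₁ _)
  · obtain ⟨Ct, htr'⟩ := htr q u g hmax hne hwide S (N * κ) (mul_pos hN0 hκ)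
    refine ⟨|Ct| + dg / N * |Ch|, by positivity, ?_⟩
    intro M _ _ _ φ P hPE hφ hker hkne
    obtain ⟨W, hW1, hW2⟩ := htr' M φ P hPE hφ hker hkne
    refine ⟨W, hW1, ?_⟩
    have h1 := hht M φ P hφ hker
    have h2 : (dg / N - κ) * Height.logHeight₁ (φ (algebraMap K[X] A X)) ≤
        (dg / N - κ) * (N * Height.logHeight P.rep + |Ch|) :=
      mul_le_mul_of_nonneg_left (h1.trans (by linarith [le_abs_self Ch])) (by linarith)
    have h3 : (dg / N - κ) * (N * Height.logHeight P.rep + |Ch|) =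
        (dg - N * κ) * Height.logHeight P.rep + dg / N * |Ch| - κ * |Ch| := by
      field_simp
      ring
    have h4 : 0 ≤ κ * |Ch| := by positivity
    have h5 := le_abs_self Ct
    linarith

/-- **the inequality for the covers** -/
theorem cv_ineq (hKB : StmKeyB) {K A : Type} [Field K] [NumberField K] [CommRing A] [IsDomain A]
    [Algebra K A] [Algebra K[X] A] [IsScalarTower K K[X] A] [Module.Finite K[X] A]
    [FaithfulSMul K[X] A] {m : ℕ} (f : Fin m → A) (E : Set (ℙ K (Fin m → K)))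
    (htr : GoodTr f E) (hbd : GoodBd f E) {Ch : ℝ}
    (hht : ∀ (M : Type) [Field M] [NumberField M] [Algebra K M] (φ : A →ₐ[K] M)
        (P : ℙ K (Fin m → K)), Function.Surjective φ →
        RingHom.ker φ = Ideal.span {mem f P.rep} →
        Height.logHeight₁ (φ (algebraMap K[X] A X)) ≤
          (finrank K[X] A : ℝ) * Height.logHeight P.rep + Ch)
    (hN : 0 < finrank K[X] A)
    (A' : Type) [CommRing A'] [IsDedekindDomain A'] [Algebra K A'] [Algebra K[X] A']
    [IsScalarTower K K[X] A'] [Module.Finite K[X] A'] [FaithfulSMul K[X] A']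
    (π : A →ₐ[K[X]] A') (q : ℕ) (u v : Fin q → ℕ) (g : ∀ j, Fin (u j) → A)
    (y : ∀ j, Fin (v j) → A') (F : Fin q → Ideal A') (hF : ∀ j, F j ≠ ⊥)
    (hyF : ∀ j i, ∀ f ∈ F j, y j i * f ∈ (Ideal.span (Set.range fun l => π (g j l))).radical)
    (hmax : ∀ j, (Ideal.span (Set.range (g j))).IsMaximal)
    (hne : ∀ i j, i ≠ j → Ideal.span (Set.range (g i)) ≠ Ideal.span (Set.range (g j)))
    (hwide : ∀ j, ∃ (L : Type) (_ : Field L) (_ : NumberField L) (_ : Algebra K L) (ψ : A →ₐ[K] L),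
        Function.Surjective ψ ∧ RingHom.ker ψ = Ideal.span (Set.range (g j)) ∧
          Wide K (fun i => ψ (f i)))
    (S : Finset ℕ) (hS : ∀ p ∈ S, p ≠ 0) (ε : ℝ) (hε : 0 < ε) :
    ∃ C : ℝ, 0 ≤ C ∧ ∀ (M : Type) [Field M] [NumberField M] [Algebra K M] (φ : A →ₐ[K] M)
      (P : ℙ K (Fin m → K)), P ∉ E → Function.Surjective φ →
      RingHom.ker φ = Ideal.span {mem f P.rep} →
      (∀ j, RingHom.ker φ ≠ Ideal.span (Set.range (g j))) →
      ∀ (L : Type) [Field L] [NumberField L] [Algebra K L] [Algebra M L] [IsScalarTower K M L]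
        (φ' : A' →ₐ[K] L), (∀ b, φ' (π b) = algebraMap M L (φ b)) →
      ∀ W' : Finset (HeightOneSpectrum (𝓞 L)),
        (∀ w, (∀ p ∈ S, (p : 𝓞 L) ∉ w.asIdeal) →
          w.valuation L (φ' (algebraMap K[X] A' X)) ≤ 1 →
          (∃ j, (∀ l, w.valuation L (φ' (π (g j l))) < 1) ∧
            ∀ i, w.valuation L (φ' (y j i)) < 1) → w ∈ W') →
        finrank M L * (((∑ j, (finrank K (A ⧸ Ideal.span (Set.range (g j))) : ℝ)) /
            (finrank K[X] A : ℝ) -
            (∑ j, (finrank K (A' ⧸ F j) : ℝ)) / (finrank K[X] A' : ℝ) - ε) *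
              Height.logHeight₁ (φ (algebraMap K[X] A X)) + Real.log |(discr M : ℝ)|) ≤
          ∑ w ∈ W', lN w + Real.log |(discr L : ℝ)| + finrank ℚ L * C := by
  classical
  obtain ⟨T, Ck, G, hT, hCk, hG, hkey⟩ := hKB K A A' π q u v g y F hF hyF (ε / 2)
    (by positivity)
  obtain ⟨Ct, hCt, htr'⟩ := tr_x f E htr hht hN q u g hmax hne hwide (insert T S)
    (ε / 2) (half_pos hε)
  have hGK : G.map (algebraMap ℚ K) ≠ 0 := by rwa [Ne, Polynomial.map_eq_zero]
  obtain ⟨CG, hCG, hbG⟩ := hbd (G.map (algebraMap ℚ K)) hGK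
  set N : ℝ := (finrank K[X] A : ℝ) with hNd
  have hN0 : 0 < N := Nat.cast_pos.2 hN
  set D : ℝ := (∑ j, (finrank K (A' ⧸ F j) : ℝ)) / (finrank K[X] A' : ℝ) with hD
  have hD0 : 0 ≤ D := by positivity
  set dg : ℝ := ∑ j, (finrank K (A ⧸ Ideal.span (Set.range (g j))) : ℝ) with hdg
  have hdg0 : 0 ≤ dg := Finset.sum_nonneg fun j _ => Nat.cast_nonneg _
  refine ⟨dg / N * (N * CG + |Ch|) + Ck + Ct, by positivity, ?_⟩
  intro M _ _ _ φ P hPE hφ hker hkne L _ _ _ _ _ φ' hφ' W' hW'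
  have hX : φ' (algebraMap K[X] A' X) = algebraMap M L (φ (algebraMap K[X] A X)) := by
    rw [← hφ', π.commutes]
  have hfdML : FiniteDimensional M L := FiniteDimensional.right ℚ M L
  have hrM : (1 : ℝ) ≤ finrank ℚ M := by exact_mod_cast finrank_pos (R := ℚ) (M := M)
  have hrML : (0 : ℝ) < finrank M L := by exact_mod_cast finrank_pos (R := M) (M := L)
  have hmul : (finrank M L : ℝ) * finrank ℚ M = finrank ℚ L := by
    rw [mul_comm]
    exact_mod_cast finrank_mul_finrank ℚ M L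
  have hrL : (finrank M L : ℝ) ≤ finrank ℚ L := by
    rw [← hmul]
    nlinarith
  have hnL : (0 : ℝ) ≤ finrank ℚ L := Nat.cast_nonneg _
  have hW0 : 0 ≤ ∑ w ∈ W', lN w :=
    Finset.sum_nonneg fun w _ => Pool.Agent.N415.DRVK.lN_nonneg w
  have hhX : Height.logHeight₁ (φ' (algebraMap K[X] A' X)) =
      finrank M L * Height.logHeight₁ (φ (algebraMap K[X] A X)) := by
    rw [hX, Pool.Agent.N415.DRVK.ht_ext]
  set h := Height.logHeight₁ (φ (algebraMap K[X] A X)) with hh
  have hh0 : 0 ≤ h := Height.zero_le_logHeight₁ _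
  have e : (finrank ℚ L : ℝ) * (dg / N * (N * CG + |Ch|) + Ck + Ct) =
      finrank ℚ L * (dg / N * (N * CG + |Ch|)) + finrank ℚ L * Ck + finrank ℚ L * Ct := by ring
  have e1 : 0 ≤ (finrank ℚ L : ℝ) * (dg / N * (N * CG + |Ch|)) := by positivity
  have e2 : 0 ≤ (finrank ℚ L : ℝ) * Ck := by positivity
  have e3 : 0 ≤ (finrank ℚ L : ℝ) * Ct := by positivity
  by_cases hcase : aeval (φ' (algebraMap K[X] A' X)) G = 0
  · -- bounded height
    have h1 : aeval (φ (algebraMap K[X] A X)) (G.map (algebraMap ℚ K)) = 0 := by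
      rw [aeval_map_algebraMap]
      apply (algebraMap M L).injective
      rw [map_zero, ← hcase, hX, ← aeval_algebraMap_apply]
    have h2 := hbG M φ P hPE hφ hker h1
    have h2' : h ≤ N * CG + |Ch| := by
      have h3 := hht M φ P hφ hker
      have h4 := mul_le_mul_of_nonneg_left h2 hN0.le
      have h5 := le_abs_self Ch
      linarith
    have h3 := Pool.Agent.Y729.RV.base_change (k := M) (L := L) ∅ ∅ (by simp)
    rw [Finset.sum_empty, Finset.sum_empty, add_zero, add_zero] at h3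
    have h4 : (dg / N - D - ε) * h ≤ dg / N * (N * CG + |Ch|) := by
      have h5 : (dg / N - D - ε) * h ≤ dg / N * h :=
        mul_le_mul_of_nonneg_right (by linarith) hh0
      exact h5.trans (mul_le_mul_of_nonneg_left h2' (by positivity))
    have h6 : (finrank M L : ℝ) * ((dg / N - D - ε) * h) ≤
        finrank ℚ L * (dg / N * (N * CG + |Ch|)) :=
      (mul_le_mul_of_nonneg_left h4 hrML.le).trans
        (mul_le_mul_of_nonneg_right hrL (by positivity))
    rw [mul_add, e]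
    linarith
  -- the primes
  obtain ⟨W, hW1, hW2⟩ := htr' M φ P hPE hφ hker hkne
  choose Tw hTw _ using fun w : HeightOneSpectrum (𝓞 M) =>
    Pool.Agent.N901.PC.Comb.sum_over (L := L) w
  set V := W.biUnion Tw with hV
  have hVmem : ∀ x ∈ V, ∃ w ∈ W, x.asIdeal.LiesOver w.asIdeal := by
    intro x hx
    obtain ⟨w, hw, hx⟩ := Finset.mem_biUnion.1 hx
    exact ⟨w, hw, (hTw w x).1 hx⟩
  have hbc := Pool.Agent.Y729.RV.base_change (k := M) (L := L) W V (by
    intro w hw x hx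
    exact Finset.mem_biUnion.2 ⟨w, hw, (hTw w x).2 hx⟩)
  have hk := hkey S L φ' hcase (by
    intro j
    by_contra hcon
    push Not at hcon
    apply hkne j
    refine ((hmax j).eq_of_le (RingHom.ker_ne_top _) ?_).symm
    rw [Ideal.span_le]
    rintro _ ⟨l, rfl⟩
    have h1 := hcon l
    rw [hφ'] at h1
    exact (map_eq_zero (algebraMap M L)).1 h1) V W' (by
    intro x hx
    obtain ⟨w, hw, hxw⟩ := hVmem x hx
    obtain ⟨j, h1, h2, h3⟩ := hW1 w hw
    have h4 := Pool.Agent.N572.DR.Link.val_le_one_iff w x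
    have h5 : ∀ p : ℕ, (p : 𝓞 L) ∈ x.asIdeal ↔ (p : 𝓞 M) ∈ w.asIdeal := by
      intro p
      rw [hxw.over, Ideal.under_def, Ideal.mem_comap, map_natCast]
    refine ⟨?_, ?_, ?_, j, ?_⟩
    · rw [h5]
      exact h1 T (Finset.mem_insert_self _ _) hT
    · intro p hp
      rw [h5]
      exact h1 p (Finset.mem_insert_of_mem hp) (hS p hp)
    · rw [hX]
      exact (h4 _).1.2 h2
    · intro l
      rw [hφ']
      exact (h4 _).2.2 (h3 l)) (by
    intro w h1 h2 h3
    obtain ⟨j, h4, h5⟩ := h3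
    exact hW' w h1 h2 ⟨j, h4, h5⟩)
  rw [hhX] at hk
  have h2 : (finrank M L : ℝ) * ((dg / N - ε / 2) * h) ≤
      finrank M L * ∑ w ∈ W, lN w + finrank ℚ L * Ct := by
    calc (finrank M L : ℝ) * ((dg / N - ε / 2) * h) ≤ finrank M L * (∑ w ∈ W, lN w + Ct) :=
          mul_le_mul_of_nonneg_left hW2 hrML.le
      _ = finrank M L * ∑ w ∈ W, lN w + finrank M L * Ct := by ring
      _ ≤ _ := by
          have h3 : (finrank M L : ℝ) * Ct ≤ finrank ℚ L * Ct :=
            mul_le_mul_of_nonneg_right hrL hCt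
          linarith
  have h3 : (finrank M L : ℝ) * (Real.log |(discr M : ℝ)| + ∑ w ∈ W, lN w) ≤
      Real.log |(discr L : ℝ)| + ∑ w ∈ V, lN w := hbc
  rw [e]
  have e4 : (finrank M L : ℝ) * ((dg / N - D - ε) * h + Real.log |(discr M : ℝ)|) =
      finrank M L * ((dg / N - ε / 2) * h) - (D + ε / 2) * (finrank M L * h) +
        finrank M L * Real.log |(discr M : ℝ)| := by ring
  rw [e4]
  rw [mul_add] at h3
  linarith

end Pool.Agent.Helper89V
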