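import Pool.Agent.Helper89V.CV1

/-!
# The height of the point for most members of a linear system
-/

set_option autoImplicit false

namespace Pool.Agent.Helper89V

open NumberField IsDedekindDomain Module Polynomial Pool.Agent.N753.DR
open scoped LinearAlgebra.Projectivization

theorem minpoly_AtH {K M : Type} [Field K] [NumberField K] [Field M] [NumberField M]
    [Algebra K M] (x : M) {V : ℝ} (hx : Height.logHeight₁ x ≤ V) :
    AtH (minpoly K x).natDegree V (minpoly K x) := by
  have hfd : FiniteDimensional K M := FiniteDimensional.right ℚ K M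
  have hint : IsIntegral K x := IsIntegral.of_finite K x
  have hfF : FiniteDimensional K (IntermediateField.adjoin K {x}) := inferInstance
  have hnF : NumberField (IntermediateField.adjoin K {x}) := NumberField.of_module_finite K _
  have hmin : minpoly K (IntermediateField.AdjoinSimple.gen K x) = minpoly K x :=
    IntermediateField.minpoly_gen K x
  refine ⟨IntermediateField.adjoin K {x}, inferInstance, hnF, inferInstance,
    IntermediateField.AdjoinSimple.gen K x, IntermediateField.adjoin.finrank hint, ?_, hmin, ?_⟩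
  · rw [hmin]
  · have hfd2 : FiniteDimensional (IntermediateField.adjoin K {x}) M := inferInstance
    have h1 := Pool.Agent.N415.DRVK.ht_ext (k := IntermediateField.adjoin K {x}) (L := M)
      (IntermediateField.AdjoinSimple.gen K x)
    rw [IntermediateField.AdjoinSimple.algebraMap_gen] at h1
    have h2 : (1 : ℝ) ≤ finrank (IntermediateField.adjoin K {x}) M := by
      exact_mod_cast finrank_pos (R := IntermediateField.adjoin K {x}) (M := M)
    have h3 : 0 ≤ Height.logHeight₁ (IntermediateField.AdjoinSimple.gen K x) :=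
      Height.zero_le_logHeight₁ _
    nlinarith

/-- the number of algebraic numbers of degree at most `r` and of small height -/
theorem card_alg (K : Type) [Field K] [NumberField K] (r : ℕ) : ∃ C : ℝ, 0 ≤ C ∧
    ∀ V : ℝ, 0 ≤ V → ∀ T : Finset (AlgebraicClosure K),
      (∀ z ∈ T, ∃ (L : IntermediateField K (AlgebraicClosure K)) (_ : NumberField L) (y : L),
        (y : AlgebraicClosure K) = z ∧ finrank K L ≤ r ∧ Height.logHeight₁ y ≤ V) →
      (T.card : ℝ) ≤ C * Real.exp ((r + 1) * V) := by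
  classical
  have key : ∀ d : ℕ, ∃ C : ℝ, 0 ≤ C ∧ (1 ≤ d → ∀ V : ℝ, 0 ≤ V → {p : K[X] | AtH d V p}.Finite ∧
      ({p : K[X] | AtH d V p}.ncard : ℝ) ≤ C * Real.exp ((d + 1) * V)) := by
    intro d
    by_cases hd : 1 ≤ d
    · obtain ⟨C, hC, h1, -⟩ := HT_card K (fun _ : Fin 1 => d) (fun _ => hd)
      refine ⟨C, by linarith, fun _ V hV => ?_⟩
      have hd0 : (0 : ℝ) < d := by exact_mod_cast hd
      have h2 := h1 (V / d) (div_nonneg hV hd0.le) 0
      have e1 : (d : ℝ) * (V / d) = V := by field_simp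
      have e2 : (d : ℝ) * (d + 1) * (V / d) = (d + 1) * V := by field_simp
      rw [e1, e2] at h2
      exact h2
    · exact ⟨0, le_rfl, fun h => absurd h hd⟩
  choose c hc0 hc using key
  refine ⟨∑ d ∈ Finset.Icc 1 r, d * c d, Finset.sum_nonneg fun d _ =>
    mul_nonneg (Nat.cast_nonneg _) (hc0 d), fun V hV T hT => ?_⟩
  -- the polynomials
  have hfin : ∀ d ∈ Finset.Icc 1 r, {p : K[X] | AtH d V p}.Finite := fun d hd =>
    (hc d (Finset.mem_Icc.1 hd).1 V hV).1
  set Y : ℕ → Finset (AlgebraicClosure K) := fun d => if h : d ∈ Finset.Icc 1 r then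
    (hfin d h).toFinset.biUnion fun p => (p.aroots (AlgebraicClosure K)).toFinset else ∅ with hY
  have hsub : T ⊆ (Finset.Icc 1 r).biUnion Y := by
    intro z hz
    obtain ⟨L, hL, y, hyz, hLr, hyV⟩ := hT z hz
    have hfL : FiniteDimensional K L := FiniteDimensional.right ℚ K L
    have hint : IsIntegral K y := IsIntegral.of_finite K y
    have hd : (minpoly K y).natDegree ∈ Finset.Icc 1 r := Finset.mem_Icc.2
      ⟨minpoly.natDegree_pos hint, (minpoly.natDegree_le y).trans hLr⟩
    refine Finset.mem_biUnion.2 ⟨_, hd, ?_⟩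
    rw [hY]
    simp only [dif_pos hd]
    refine Finset.mem_biUnion.2 ⟨minpoly K y, ?_, ?_⟩
    · rw [Set.Finite.mem_toFinset]
      exact minpoly_AtH y hyV
    · rw [Multiset.mem_toFinset, mem_aroots]
      refine ⟨minpoly.ne_zero hint, ?_⟩
      rw [← hyz]
      have h1 : aeval (y : AlgebraicClosure K) (minpoly K y) =
          ((aeval y (minpoly K y) : L) : AlgebraicClosure K) :=
        aeval_algebraMap_apply (AlgebraicClosure K) y (minpoly K y)
      rw [h1, minpoly.aeval]
      rfl
  have hYc : ∀ d ∈ Finset.Icc 1 r, ((Y d).card : ℝ) ≤ d * c d * Real.exp ((r + 1) * V) := by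
    intro d hd
    have hd1 := (Finset.mem_Icc.1 hd).1
    have hd2 : (d : ℝ) ≤ r := by exact_mod_cast (Finset.mem_Icc.1 hd).2
    have e : Y d = (hfin d hd).toFinset.biUnion
        fun p => (p.aroots (AlgebraicClosure K)).toFinset := by
      rw [hY]
      simp only [dif_pos hd]
    have h1 : (Y d).card ≤ ∑ p ∈ (hfin d hd).toFinset, d := by
      rw [e]
      refine Finset.card_biUnion_le.trans (Finset.sum_le_sum fun p hp => ?_)
      rw [Set.Finite.mem_toFinset] at hp
      obtain ⟨M, i1, i2, i3, x, h1, h2, h3, h4⟩ := hp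
      refine (Multiset.toFinset_card_le _).trans ((card_roots' _).trans ?_)
      rw [natDegree_map, ← h3, h2]
    rw [Finset.sum_const, smul_eq_mul, ← Set.ncard_eq_toFinset_card _ (hfin d hd)] at h1
    have h2 := (hc d hd1 V hV).2
    have h3 : Real.exp ((d + 1) * V) ≤ Real.exp ((r + 1) * V) :=
      Real.exp_le_exp.2 (mul_le_mul_of_nonneg_right (by linarith) hV)
    calc ((Y d).card : ℝ) ≤ ({p : K[X] | AtH d V p}.ncard : ℝ) * d := by exact_mod_cast h1
      _ ≤ (c d * Real.exp ((d + 1) * V)) * d :=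
          mul_le_mul_of_nonneg_right h2 (Nat.cast_nonneg _)
      _ ≤ (c d * Real.exp ((r + 1) * V)) * d :=
          mul_le_mul_of_nonneg_right (mul_le_mul_of_nonneg_left h3 (hc0 d)) (Nat.cast_nonneg _)
      _ = _ := by ring
  calc (T.card : ℝ) ≤ ∑ d ∈ Finset.Icc 1 r, ((Y d).card : ℝ) := by
        exact_mod_cast (Finset.card_le_card hsub).trans Finset.card_biUnion_le
    _ ≤ ∑ d ∈ Finset.Icc 1 r, (d * c d * Real.exp ((r + 1) * V)) := Finset.sum_le_sum hYc
    _ = _ := by rw [Finset.sum_mul]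

/-- the height of the point is small compared to the height of the member -/
def LowH {K A : Type} [Field K] [NumberField K] [CommRing A] [Algebra K A] [Algebra K[X] A]
    {m : ℕ} (f : Fin m → A) (c : ℝ) (P : ℙ K (Fin m → K)) : Prop :=
  ∃ (M : Type) (_ : Field M) (_ : NumberField M) (_ : Algebra K M) (φ : A →ₐ[K] M),
    Function.Surjective φ ∧ RingHom.ker φ = Ideal.span {mem f P.rep} ∧
    Height.logHeight₁ (φ (algebraMap K[X] A X)) < c * Height.logHeight P.rep

/-- the height of the point is rarely small -/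
theorem lowH {K A : Type} [Field K] [NumberField K] [CommRing A] [IsDomain A]
    [Algebra K A] [Algebra K[X] A] [IsScalarTower K K[X] A] [Module.Finite K[X] A]
    [FaithfulSMul K[X] A] {m : ℕ} (hm : 1 ≤ m) (f : Fin m → A) (Q : MvPolynomial (Fin m) K) (r : ℕ)
    (hQ1 : ∀ c c' : Fin m → K, MvPolynomial.eval c Q ≠ 0 →
      Ideal.span {mem f c} = Ideal.span {mem f c'} → ∃ l : K, l ≠ 0 ∧ c' = l • c)
    (hQ2 : ∀ c : Fin m → K, MvPolynomial.eval c Q ≠ 0 →
      finrank K (A ⧸ Ideal.span {mem f c}) = r) :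
    ∃ c C : ℝ, 0 < c ∧ ∀ U : ℝ, 0 ≤ U →
      {P : ℙ K (Fin m → K) | (MvPolynomial.eval P.rep Q ≠ 0 ∧ LowH f c P) ∧
        Height.logHeight P.rep ≤ U}.Finite ∧
      ({P : ℙ K (Fin m → K) | (MvPolynomial.eval P.rep Q ≠ 0 ∧ LowH f c P) ∧
        Height.logHeight P.rep ≤ U}.ncard : ℝ) ≤ C * Real.exp (m * U / 2) := by
  classical
  obtain ⟨C₁, hC₁, hcard⟩ := card_alg K r
  obtain ⟨N0, hN0⟩ := Pool.Agent.N650.CV.FldC.homs K A
  have hr1 : (0 : ℝ) < r + 1 := by positivity
  refine ⟨1 / (2 * (r + 1)), N0 * C₁, by positivity, fun U hU => ?_⟩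
  refine Pool.Agent.N650.CV.FldC.fin_of fun T hT => ?_
  set V : ℝ := U / (2 * (r + 1)) with hV
  have hV0 : 0 ≤ V := by positivity
  have hm0 : (1 : ℝ) ≤ m := by exact_mod_cast hm
  have key : ∀ P ∈ T, ∃ φ' : A →ₐ[K] AlgebraicClosure K,
      RingHom.ker φ' = Ideal.span {mem f P.rep} ∧
      ∃ (L : IntermediateField K (AlgebraicClosure K)) (_ : NumberField L) (y : L),
        (y : AlgebraicClosure K) = φ' (algebraMap K[X] A X) ∧ finrank K L ≤ r ∧
        Height.logHeight₁ y ≤ V := by
    intro P hP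
    obtain ⟨⟨hQP, M, _, _, _, φ, hφ, hker, hlow⟩, hPU⟩ := hT P hP
    obtain ⟨φ', L, hL, y, h1, h2, -, h4, h5⟩ :=
      Pool.Agent.N650.CV.FldC.emb φ (algebraMap K[X] A X)
    refine ⟨φ', h1.trans hker, L, hL, y, h4, ?_, ?_⟩
    · have h6 : finrank K M = finrank K (A ⧸ Ideal.span {mem f P.rep}) := by
        rw [← hker]
        exact (Ideal.quotientKerAlgEquivOfSurjective hφ).toLinearEquiv.finrank_eq.symm
      rw [h2, h6, hQ2 _ hQP]
    · rw [h5]
      refine hlow.le.trans ?_
      have h7 : 1 / (2 * ((r : ℝ) + 1)) * Height.logHeight P.rep ≤ 1 / (2 * (r + 1)) * U :=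
        mul_le_mul_of_nonneg_left hPU (by positivity)
      refine h7.trans (le_of_eq ?_)
      rw [hV]
      ring
  rcases T.eq_empty_or_nonempty with h0 | ⟨P₀, hP₀⟩
  · rw [h0, Finset.card_empty, Nat.cast_zero]
    positivity
  haveI : Nonempty (A →ₐ[K] AlgebraicClosure K) := ⟨(key P₀ hP₀).choose⟩
  choose! Φ hΦ1 hΦ2 using key
  have hinj : Set.InjOn Φ (T : Set (ℙ K (Fin m → K))) := by
    intro P hP P' hP' h
    have h1 : Ideal.span {mem f P.rep} = Ideal.span {mem f P'.rep} := by
      rw [← hΦ1 P hP, ← hΦ1 P' hP', h]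
    obtain ⟨l, hl, hll⟩ := hQ1 P.rep P'.rep (hT P hP).1.1 h1
    have h2 : Projectivization.mk K P'.rep P'.rep_nonzero =
        Projectivization.mk K P.rep P.rep_nonzero := by
      rw [Projectivization.mk_eq_mk_iff']
      exact ⟨l, hll.symm⟩
    rw [Projectivization.mk_rep, Projectivization.mk_rep] at h2
    exact h2.symm
  set T' : Finset (A →ₐ[K] AlgebraicClosure K) := T.image Φ with hT'
  have h1 : T'.card = T.card := Finset.card_image_of_injOn hinj
  set ev : (A →ₐ[K] AlgebraicClosure K) → AlgebraicClosure K :=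
    fun φ => φ (algebraMap K[X] A X) with hev
  have h2 : T'.card ≤ N0 * (T'.image ev).card := by
    refine Finset.card_le_mul_card_image T' N0 fun y _ => ?_
    refine hN0 y _ fun φ hφ => ?_
    rw [Finset.mem_filter] at hφ
    exact hφ.2
  have h3 : ((T'.image ev).card : ℝ) ≤ C₁ * Real.exp ((r + 1) * V) := by
    refine hcard V hV0 _ fun z hz => ?_
    obtain ⟨φ, hφ, rfl⟩ := Finset.mem_image.1 hz
    obtain ⟨P, hP, rfl⟩ := Finset.mem_image.1 hφ
    exact hΦ2 P hP
  have h4 : (r + 1) * V ≤ m * U / 2 := by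
    have e : (r + 1) * V = U / 2 := by
      rw [hV]
      field_simp
    rw [e]
    nlinarith
  rw [← h1]
  calc (T'.card : ℝ) ≤ N0 * ((T'.image ev).card : ℝ) := by exact_mod_cast h2
    _ ≤ N0 * (C₁ * Real.exp ((r + 1) * V)) := mul_le_mul_of_nonneg_left h3 (Nat.cast_nonneg _)
    _ ≤ N0 * (C₁ * Real.exp (m * U / 2)) :=
        mul_le_mul_of_nonneg_left (mul_le_mul_of_nonneg_left (Real.exp_le_exp.2 h4) hC₁)
          (Nat.cast_nonneg _)
    _ = _ := by ring

end Pool.Agent.Helper89V
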