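import Pool.Agent.Helper89V.CV2
import Pool.Agent.Helper89V.CV3

/-!
# The exceptional set of one linear system
-/

set_option autoImplicit false

namespace Pool.Agent.Helper89V

open NumberField IsDedekindDomain Module Polynomial Pool.Agent.N753.DR
open scoped LinearAlgebra.Projectivization
open Pool.Agent.N751.CV (prox)

theorem exp_sqrt_le {ν : ℝ} (hν : 0 < ν) (m U : ℝ) (hU : 0 ≤ U) :
    Real.exp ((m - ν) * U) ≤ Real.exp (1 / (4 * ν)) * Real.exp (m * U - √U) := by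
  rw [← Real.exp_add]
  refine Real.exp_le_exp.2 ?_
  have h1 : √U * √U = U := Real.mul_self_sqrt hU
  have h2 : 0 ≤ (2 * ν * √U - 1) ^ 2 := sq_nonneg _
  have h3 : √U ≤ ν * U + 1 / (4 * ν) := by
    have h4 : ν * U + 1 / (4 * ν) - √U = (2 * ν * √U - 1) ^ 2 / (4 * ν) := by
      field_simp
      nlinarith
    have h5 : 0 ≤ (2 * ν * √U - 1) ^ 2 / (4 * ν) := by positivity
    linarith
  linarith

theorem union_card {ι : Type} {A B : Set ι} {a b : ℝ} (hA : A.Finite ∧ (A.ncard : ℝ) ≤ a)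
    (hB : B.Finite ∧ (B.ncard : ℝ) ≤ b) : (A ∪ B).Finite ∧ ((A ∪ B).ncard : ℝ) ≤ a + b := by
  refine ⟨hA.1.union hB.1, ?_⟩
  have h1 : ((A ∪ B).ncard : ℝ) ≤ A.ncard + B.ncard := by exact_mod_cast Set.ncard_union_le A B
  linarith [hA.2, hB.2]

/-- the function `e` -/
theorem lin_bound (e : ℕ → ℝ) (he : ∀ c : ℝ, 1 / (8 * (Real.log 2) ^ 2) < c →
      ∀ᶠ n : ℕ in Filter.atTop, e n ≤ c * (Real.log n) ^ 2) (he0 : ∀ n, 0 ≤ e n) :
    ∃ B : ℝ, 0 < B ∧ ∀ r : ℕ, e r ≤ B * (Real.log (r + 2)) ^ 2 := by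
  have hl2 : 0 < Real.log 2 := Real.log_pos one_lt_two
  set c : ℝ := 1 / (8 * (Real.log 2) ^ 2) + 1 with hc
  have hc0 : 0 < c := by positivity
  obtain ⟨n₀, hn₀⟩ := Filter.eventually_atTop.1 (he c (by rw [hc]; linarith))
  set B₁ : ℝ := (∑ k ∈ Finset.range n₀, e k) / (Real.log 2) ^ 2 with hB₁
  have hB₁0 : 0 ≤ B₁ := div_nonneg (Finset.sum_nonneg fun k _ => he0 k) (sq_nonneg _)
  refine ⟨c + B₁, by linarith, fun r => ?_⟩
  have h2 : Real.log 2 ≤ Real.log (r + 2) := Real.log_le_log (by norm_num) (by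
    have : (0 : ℝ) ≤ r := Nat.cast_nonneg r
    linarith)
  have h22 : (Real.log 2) ^ 2 ≤ (Real.log (r + 2)) ^ 2 := pow_le_pow_left₀ hl2.le h2 2
  have hsq : 0 ≤ (Real.log (r + 2)) ^ 2 := sq_nonneg _
  rcases lt_or_ge r n₀ with h | h
  · have h3 : e r ≤ ∑ k ∈ Finset.range n₀, e k :=
      Finset.single_le_sum (f := e) (fun k _ => he0 k) (Finset.mem_range.2 h)
    have h4 : ∑ k ∈ Finset.range n₀, e k = B₁ * (Real.log 2) ^ 2 := by
      rw [hB₁]
      field_simp
    have h5 : B₁ * (Real.log 2) ^ 2 ≤ B₁ * (Real.log (r + 2)) ^ 2 :=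
      mul_le_mul_of_nonneg_left h22 hB₁0
    have h6 : 0 ≤ c * (Real.log (r + 2)) ^ 2 := by positivity
    rw [add_mul]
    linarith
  · have h3 := hn₀ r h
    have h4 : Real.log r ≤ Real.log (r + 2) := by
      rcases Nat.eq_zero_or_pos r with h0 | h0
      · rw [h0]
        simp only [Nat.cast_zero, Real.log_zero, zero_add]
        exact hl2.le
      · exact Real.log_le_log (by exact_mod_cast h0) (by linarith)
    have h40 : 0 ≤ Real.log r := Real.log_natCast_nonneg r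
    have h5 : (Real.log r) ^ 2 ≤ (Real.log (r + 2)) ^ 2 := pow_le_pow_left₀ h40 h4 2
    have h6 : 0 ≤ B₁ * (Real.log (r + 2)) ^ 2 := by positivity
    rw [add_mul]
    nlinarith

/-- the exceptional set of one linear system -/
theorem exists_lin {K A : Type} [Field K] [NumberField K] [CommRing A] [IsDomain A]
    [Algebra K A] [Algebra K[X] A] [IsScalarTower K K[X] A] [Module.Finite K[X] A]
    [FaithfulSMul K[X] A] (hint : IsDomain (TensorProduct K (AlgebraicClosure K) A))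
    {N : ℕ} (e : Basis (Fin N) K[X] A) (he : ∃ i, e i = 1) :
    ∃ γ : ℝ, 0 < γ ∧ ∀ n : ℕ, 1 ≤ n → ∃ E : Set (ℙ K (Fin (N * (n + 1)) → K)),
      (∃ C : ℝ, 0 ≤ C ∧ ∀ U : ℝ, 0 ≤ U →
        {P : ℙ K (Fin (N * (n + 1)) → K) | P ∈ E ∧ Height.logHeight P.rep ≤ U}.Finite ∧
        ({P : ℙ K (Fin (N * (n + 1)) → K) | P ∈ E ∧ Height.logHeight P.rep ≤ U}.ncard : ℝ) ≤
          C * Real.exp (((N * (n + 1) : ℕ) : ℝ) * U - √U)) ∧
      GoodTr (Vn (K := K) e n) E ∧ GoodBd (Vn (K := K) e n) E ∧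
      (∃ C : ℝ, ∀ (M : Type) [Field M] [NumberField M] [Algebra K M] (φ : A →ₐ[K] M)
        (P : ℙ K (Fin (N * (n + 1)) → K)), Function.Surjective φ →
        RingHom.ker φ = Ideal.span {mem (Vn (K := K) e n) P.rep} →
        Height.logHeight₁ (φ (algebraMap K[X] A X)) ≤
          (finrank K[X] A : ℝ) * Height.logHeight P.rep + C) ∧
      (∃ C : ℝ, 0 ≤ C ∧ ∀ (M : Type) [Field M] [NumberField M] [Algebra K M] (φ : A →ₐ[K] M)
        (P : ℙ K (Fin (N * (n + 1)) → K)), P ∉ E → Function.Surjective φ →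
        RingHom.ker φ = Ideal.span {mem (Vn (K := K) e n) P.rep} →
        Height.logHeight P.rep ≤ C * Height.logHeight₁ (φ (algebraMap K[X] A X))) ∧
      (∀ p : K[X], p.Monic → ∀ S : Finset ℕ, (∀ l ∈ S, l.Prime) → ∀ κ : ℝ, 0 < κ →
        ∃ C : ℝ, ∀ (M : Type) [Field M] [NumberField M] [Algebra K M] (φ : A →ₐ[K] M)
        (P : ℙ K (Fin (N * (n + 1)) → K)), P ∉ E → Function.Surjective φ →
        RingHom.ker φ = Ideal.span {mem (Vn (K := K) e n) P.rep} →
        aeval (φ (algebraMap K[X] A X)) p ≠ 0 →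
        prox S p (φ (algebraMap K[X] A X)) ≤
          κ * Height.logHeight₁ (φ (algebraMap K[X] A X)) + C) ∧
      (2 ≤ n → ∃ C : ℝ, ∀ (M : Type) [Field M] [NumberField M] [Algebra K M] (φ : A →ₐ[K] M)
        (P : ℙ K (Fin (N * (n + 1)) → K)), P ∉ E → Function.Surjective φ →
        RingHom.ker φ = Ideal.span {mem (Vn (K := K) e n) P.rep} →
        γ * n / (Real.log n) ^ 2 * Height.logHeight₁ (φ (algebraMap K[X] A X)) ≤
          Real.log |(discr M : ℝ)| + C) := by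
  classical
  have hN1 : 1 ≤ N := by
    obtain ⟨i, -⟩ := he
    exact Nat.one_le_iff_ne_zero.2 fun h => by subst h; exact i.elim0
  have hN0 : (0 : ℝ) < N := by exact_mod_cast hN1
  have hfr : finrank K[X] A = N := by
    rw [Module.finrank_eq_card_basis e, Fintype.card_fin]
  have htop : ∀ n, Ideal.span (Set.range (Vn (K := K) e n)) = ⊤ := by
    intro n
    obtain ⟨i, hi⟩ := he
    rw [Ideal.eq_top_iff_one]
    refine Ideal.subset_span ⟨finProdFinEquiv (i, 0), ?_⟩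
    unfold Vn
    rw [Equiv.symm_apply_apply]
    simp [hi]
  obtain ⟨ee, hee1, hee0, hM⟩ := sMainC
  obtain ⟨B, hB0, hB⟩ := lin_bound ee hee1 hee0
  obtain ⟨c₀, hVn⟩ := Pool.Agent.N776.CV.tVnC K A N e he
  have hl2 : 0 < Real.log 2 := Real.log_pos one_lt_two
  set a : ℝ := Real.log (N + c₀ + 2) / Real.log 2 + 1 with ha
  have hlN : 0 ≤ Real.log ((N : ℝ) + c₀ + 2) := Real.log_nonneg (by
    have : (0 : ℝ) ≤ c₀ := Nat.cast_nonneg _
    linarith)
  have ha1 : 1 ≤ a := by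
    have : 0 ≤ Real.log ((N : ℝ) + c₀ + 2) / Real.log 2 := div_nonneg hlN hl2.le
    rw [ha]; linarith
  set γ' : ℝ := N / (4 * (B * a ^ 2 + 1)) with hγ'
  have hγ'0 : 0 < γ' := by positivity
  refine ⟨γ' / N, by positivity, fun n hn => ?_⟩
  obtain ⟨hli, hwide, hdeg⟩ := hVn n hn
  have hm : 1 ≤ N * (n + 1) := Nat.one_le_iff_ne_zero.2 (Nat.mul_ne_zero (by omega) (by omega))
  set m := N * (n + 1) with hmd
  obtain ⟨r, EM, ⟨c, hc1, hc2⟩, ⟨CM, hCM⟩, htr, hdisc, Ch, hCh⟩ :=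
    hM K A hint m hm (Vn (K := K) e n) hli
  obtain ⟨Q, d, r', hQ0, hQh, hQ1, hQ2⟩ := Pool.Agent.N752.CV.t K A hint m hm (Vn (K := K) e n) hli
  obtain ⟨νz, Cz, hνz, hCz⟩ := sZeroC K m Q d hQ0 hQh
  obtain ⟨EP, hEP, hprox⟩ := Pool.Agent.N753.DR.ProxE.proxE K A m (Vn (K := K) e n) hm hli (htop n)
  obtain ⟨cl, Cl, hcl, hlow⟩ := lowH hm (Vn (K := K) e n) Q r' hQ1 hQ2
  have hm0 : (0 : ℝ) < m := by exact_mod_cast hm
  set E : Set (ℙ K (Fin m → K)) := {P | P ∈ EM ∨ MvPolynomial.eval P.rep Q = 0 ∨ P ∈ EP ∨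
    (MvPolynomial.eval P.rep Q ≠ 0 ∧ LowH (Vn (K := K) e n) cl P)} with hE
  have hEM : ∀ P, P ∉ E → P ∉ EM := fun P h h1 => h (Or.inl h1)
  have hEQ : ∀ P, P ∉ E → MvPolynomial.eval P.rep Q ≠ 0 := fun P h h1 => h (Or.inr (Or.inl h1))
  have hEP' : ∀ P, P ∉ E → P ∉ EP := fun P h h1 => h (Or.inr (Or.inr (Or.inl h1)))
  have hEl : ∀ P, P ∉ E → ¬ LowH (Vn (K := K) e n) cl P := fun P h h1 =>
    h (Or.inr (Or.inr (Or.inr ⟨hEQ P h, h1⟩)))
  have hlow' : ∃ C : ℝ, 0 ≤ C ∧ ∀ (M : Type) [Field M] [NumberField M] [Algebra K M]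
      (φ : A →ₐ[K] M) (P : ℙ K (Fin m → K)), P ∉ E → Function.Surjective φ →
        RingHom.ker φ = Ideal.span {mem (Vn (K := K) e n) P.rep} →
        Height.logHeight P.rep ≤ C * Height.logHeight₁ (φ (algebraMap K[X] A X)) := by
    refine ⟨1 / cl, by positivity, ?_⟩
    intro M _ _ _ φ P hP hφ hker
    by_contra hcon
    push Not at hcon
    rw [one_div, inv_mul_lt_iff₀ hcl] at hcon
    exact hEl P hP ⟨M, inferInstance, inferInstance, inferInstance, φ, hφ, hker, hcon⟩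
  refine ⟨E, ?_, ?_, ?_, ⟨Ch, hCh⟩, hlow', ?_, ?_⟩
  · -- the density
    refine ⟨|CM| + (|Cz| * Real.exp (1 / (4 * νz)) + (1 + |Cl| * Real.exp (1 / (4 * (m / 2))))),
      by positivity, fun U hU => ?_⟩
    have hX : 0 < Real.exp ((m : ℝ) * U - √U) := Real.exp_pos _
    have h1 := hCM U hU
    have h2 := hCz U hU
    have h2' : {P : ℙ K (Fin m → K) | MvPolynomial.eval P.rep Q = 0 ∧
        Height.logHeight P.rep ≤ U}.Finite := h2.1.subset fun P hP => hP.2
    have h3 := hEP U hU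
    have h4 := hlow U hU
    have k2 : Real.exp (((m : ℝ) - νz) * U) ≤ _ := exp_sqrt_le hνz m U hU
    have k4 : Real.exp ((m : ℝ) * U / 2) ≤ Real.exp (1 / (4 * ((m : ℝ) / 2))) *
        Real.exp ((m : ℝ) * U - √U) := by
      refine le_trans (le_of_eq ?_) (exp_sqrt_le (half_pos hm0) m U hU)
      congr 1
      ring
    have h5 := union_card (a := |CM| * Real.exp ((m : ℝ) * U - √U)) ⟨h1.1, h1.2.trans
      (mul_le_mul_of_nonneg_right (le_abs_self CM) hX.le)⟩
      (union_card (a := |Cz| * Real.exp (1 / (4 * νz)) * Real.exp ((m : ℝ) * U - √U))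
        ⟨h2', h2.2.trans (by
          rw [mul_assoc]
          exact (mul_le_mul_of_nonneg_right (le_abs_self Cz) (Real.exp_pos _).le).trans
            (mul_le_mul_of_nonneg_left k2 (abs_nonneg _)))⟩
      (union_card (a := 1 * Real.exp ((m : ℝ) * U - √U)) ⟨h3.1, h3.2.trans (by rw [one_mul])⟩
        (b := |Cl| * Real.exp (1 / (4 * (m / 2))) * Real.exp ((m : ℝ) * U - √U))
        ⟨h4.1, h4.2.trans (by
          rw [mul_assoc]
          exact (mul_le_mul_of_nonneg_right (le_abs_self Cl) (Real.exp_pos _).le).trans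
            (mul_le_mul_of_nonneg_left k4 (abs_nonneg _)))⟩))
    have e1 : {P : ℙ K (Fin m → K) | P ∈ E ∧ Height.logHeight P.rep ≤ U} =
        {P : ℙ K (Fin m → K) | P ∈ EM ∧ Height.logHeight P.rep ≤ U} ∪
        ({P : ℙ K (Fin m → K) | MvPolynomial.eval P.rep Q = 0 ∧ Height.logHeight P.rep ≤ U} ∪
        ({P : ℙ K (Fin m → K) | P ∈ EP ∧ Height.logHeight P.rep ≤ U} ∪
        {P : ℙ K (Fin m → K) | (MvPolynomial.eval P.rep Q ≠ 0 ∧
          LowH (Vn (K := K) e n) cl P) ∧ Height.logHeight P.rep ≤ U})) := by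
      ext P
      simp only [hE, Set.mem_ofPred_eq, Set.mem_union]
      tauto
    rw [e1]
    refine ⟨h5.1, h5.2.trans (le_of_eq ?_)⟩
    ring
  · intro q u g h1 h2 h3 S κ hκ
    obtain ⟨C, hC⟩ := htr q u g h1 h2 h3 S κ hκ
    exact ⟨C, fun M _ _ _ φ P hP => hC M φ P (hEM P hP)⟩
  · exact goodBd_of _ Q hQ1 E hEQ
  · intro p hp S hS κ hκ
    obtain ⟨Cb, hCb0, hCb⟩ := hlow'
    obtain ⟨C, hC⟩ := hprox p hp S hS (κ / (Cb + 1)) (by positivity)
    refine ⟨C, ?_⟩
    intro M _ _ _ φ P hP hφ hker hne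
    refine (hC M φ P (hEP' P hP) hφ hker hne).trans ?_
    have h1 := hCb M φ P hP hφ hker
    have h2 : 0 ≤ Height.logHeight₁ (φ (algebraMap K[X] A X)) := Height.zero_le_logHeight₁ _
    have h3 : κ / (Cb + 1) * Height.logHeight P.rep ≤
        κ / (Cb + 1) * ((Cb + 1) * Height.logHeight₁ (φ (algebraMap K[X] A X))) :=
      mul_le_mul_of_nonneg_left (h1.trans (by nlinarith)) (by positivity)
    have h4 : κ / (Cb + 1) * ((Cb + 1) * Height.logHeight₁ (φ (algebraMap K[X] A X))) =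
        κ * Height.logHeight₁ (φ (algebraMap K[X] A X)) := by
      field_simp
    linarith
  · intro hn2
    have hn0 : (0 : ℝ) < n := by positivity
    have hn2' : (2 : ℝ) ≤ n := by exact_mod_cast hn2
    have hln : Real.log 2 ≤ Real.log n := Real.log_le_log two_pos hn2'
    have hln0 : 0 < Real.log n := hl2.trans_le hln
    have hr : (r : ℝ) ≤ N * n + c₀ := by
      have := hdeg c hc1
      rw [hc2] at this
      exact_mod_cast this
    have hr0 : (0 : ℝ) ≤ r := Nat.cast_nonneg r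
    have hc00 : (0 : ℝ) ≤ c₀ := Nat.cast_nonneg c₀
    have h1 : Real.log (r + 2) ≤ a * Real.log n := by
      have h2 : (r : ℝ) + 2 ≤ (N + c₀ + 2) * n := by nlinarith
      have h3 : Real.log (r + 2) ≤ Real.log (((N : ℝ) + c₀ + 2) * n) :=
        Real.log_le_log (by linarith) h2
      rw [Real.log_mul (by positivity) hn0.ne'] at h3
      have h4 : Real.log ((N : ℝ) + c₀ + 2) ≤
          Real.log ((N : ℝ) + c₀ + 2) / Real.log 2 * Real.log n := by
        rw [div_mul_eq_mul_div, le_div_iff₀ hl2]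
        exact mul_le_mul_of_nonneg_left hln hlN
      rw [ha, add_mul, one_mul]
      linarith
    have h0 : 0 ≤ Real.log (r + 2) := Real.log_nonneg (by linarith)
    have h2 : ee r ≤ B * (a ^ 2 * (Real.log n) ^ 2) := by
      refine (hB r).trans (mul_le_mul_of_nonneg_left ?_ hB0.le)
      rw [← mul_pow]
      exact pow_le_pow_left₀ h0 h1 2
    set G : ℝ := γ' * n / (Real.log n) ^ 2 with hG
    have hG0 : 0 ≤ G := by positivity
    have h3 : G * ee r ≤ N / 4 * n := by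
      calc G * ee r ≤ G * (B * (a ^ 2 * (Real.log n) ^ 2)) := mul_le_mul_of_nonneg_left h2 hG0
        _ = γ' * (B * a ^ 2) * n := by
            rw [hG]
            field_simp
        _ ≤ N / 4 * n := by
            refine mul_le_mul_of_nonneg_right ?_ hn0.le
            rw [hγ', div_mul_eq_mul_div, div_le_iff₀ (by positivity)]
            nlinarith [sq_nonneg a, mul_nonneg hB0.le (sq_nonneg a)]
    have h4 : G * ee r + 2 * finrank K[X] A < m := by
      rw [hfr, hmd]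
      push_cast
      nlinarith
    obtain ⟨C, hC⟩ := hdisc G hG0 h4
    refine ⟨C + G / N * |Ch|, ?_⟩
    intro M _ _ _ φ P hP hφ hker
    have h5 := hC M φ P (hEM P hP) hφ hker
    have h6 := hCh M φ P hφ hker
    rw [hfr] at h6
    have h7 : G / N * Height.logHeight₁ (φ (algebraMap K[X] A X)) ≤
        G / N * (N * Height.logHeight P.rep + |Ch|) :=
      mul_le_mul_of_nonneg_left (h6.trans (by linarith [le_abs_self Ch])) (by positivity)
    have h8 : G / N * (N * Height.logHeight P.rep + |Ch|) =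
        G * Height.logHeight P.rep + G / N * |Ch| := by
      field_simp
    have h9 : γ' / N * n / (Real.log n) ^ 2 = G / N := by
      rw [hG]
      field_simp
    rw [h9]
    linarith

end Pool.Agent.Helper89V
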