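import Pool.Agent.Helper89V.CV1

/-!
# Residue fields
-/

set_option autoImplicit false

namespace Pool.Agent.Helper89V

open NumberField IsDedekindDomain Module Polynomial Pool.Agent.N753.DR
open scoped LinearAlgebra.Projectivization

theorem residue_fin (K : Type) {A : Type} [Field K] [NumberField K] [CommRing A]
    [Algebra K A] [Algebra K[X] A] [IsScalarTower K K[X] A] [Module.Finite K[X] A]
    (I : Ideal A) (hI : I.IsMaximal) : Module.Finite K (A ⧸ I) := by
  have h1 : Algebra.FiniteType K A := Algebra.FiniteType.trans (S := K[X]) inferInstance inferInstance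
  have h2 : Algebra.FiniteType K (A ⧸ I) :=
    Algebra.FiniteType.of_surjective (Ideal.Quotient.mkₐ K I) (Ideal.Quotient.mkₐ_surjective K I)
  letI := Ideal.Quotient.field I
  exact finite_of_finite_type_of_isJacobsonRing K (A ⧸ I)

theorem residue_field (K : Type) {A : Type} [Field K] [NumberField K] [CommRing A]
    [Algebra K A] [Algebra K[X] A] [IsScalarTower K K[X] A] [Module.Finite K[X] A]
    (I : Ideal A) (hI : I.IsMaximal) : ∃ (L : Type) (_ : Field L) (_ : NumberField L)
      (_ : Algebra K L) (ψ : A →ₐ[K] L), Function.Surjective ψ ∧ RingHom.ker ψ = I ∧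
      finrank K L = finrank K (A ⧸ I) := by
  have h0 := residue_fin K I hI
  letI := Ideal.Quotient.field I
  have h1 : NumberField (A ⧸ I) := NumberField.of_module_finite K (A ⧸ I)
  exact ⟨A ⧸ I, inferInstance, h1, inferInstance, Ideal.Quotient.mkₐ K I,
    Ideal.Quotient.mkₐ_surjective K I, Ideal.Quotient.mkₐ_ker K I, rfl⟩

end Pool.Agent.Helper89V
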