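import Mathlib
import Pool.Agent.N753.DR.Stm6
import Pool.Agent.N530.DR.Large2

/-!
# Project PC: congruence conditions in boxes
-/

set_option autoImplicit false

namespace Pool.Agent.Helper89V.Mod

open NumberField IsDedekindDomain Module Pool.Agent.N753.DR

/-- Schwartz and Zippel -/
theorem sz_count {N : ℕ} {R : Type} [CommRing R] [IsDomain R] [DecidableEq R]
    (H : MvPolynomial (Fin N) R) (hH : H ≠ 0) (S : Fin N → Finset R) (l : ℕ) (hl : 1 ≤ l)
    (hS : ∀ i, (S i).card = l) :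
    ((Fintype.piFinset S).filter (fun x => MvPolynomial.eval x H = 0)).card * l ≤
      (∑ i, H.degreeOf i) * l ^ N := by
  have h1 := MvPolynomial.schwartz_zippel_sum_degreeOf hH S
  simp only [hS, Finset.prod_const, Finset.card_univ, Fintype.card_fin] at h1
  rw [← Finset.sum_div] at h1
  have hl0 : (0 : ℚ≥0) < l := by exact_mod_cast hl
  rw [div_le_div_iff₀ (by positivity) hl0] at h1
  exact_mod_cast h1

section

variable {K : Type} [Field K] [NumberField K]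

/-- the coordinates of the vectors of algebraic integers -/
theorem exists_H (n : ℕ) (G : MvPolynomial (Fin n) (𝓞 K)) (hG : G ≠ 0) (N : ℕ)
    (hN : N = finrank ℚ K * n) :
    ∃ (φ : (Fin N → ℤ) ≃+ (Fin n → 𝓞 K)) (H : MvPolynomial (Fin N) (𝓞 K)),
      (∀ (x : Fin N → ℤ) (T : ℕ), (∀ i, sz (φ x i) ≤ T) ↔ ∀ j, |x j| ≤ T) ∧
      H ≠ 0 ∧ ∀ x, MvPolynomial.eval (fun j => ((x j : ℤ) : 𝓞 K)) H =
        MvPolynomial.eval (φ x) G := by
  classical
  subst hN
  obtain ⟨φ, hφ⟩ := Pool.Agent.N530.DR.exists_coord K n _ rfl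
  set ψ : Fin n → MvPolynomial (Fin (finrank ℚ K * n)) (𝓞 K) := fun i =>
    ∑ j, MvPolynomial.C (φ (Pi.single j 1) i) * MvPolynomial.X j with hψ
  have hev : ∀ x : Fin (finrank ℚ K * n) → ℤ,
      MvPolynomial.eval (fun j => ((x j : ℤ) : 𝓞 K)) (MvPolynomial.bind₁ ψ G) =
        MvPolynomial.eval (φ x) G := by
    intro x
    rw [← MvPolynomial.coe_aeval_eq_eval, RingHom.coe_coe, MvPolynomial.aeval_bind₁,
      ← MvPolynomial.coe_aeval_eq_eval, RingHom.coe_coe]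
    congr 1
    congr 1
    funext i
    have h1 : x = ∑ j, x j • (Pi.single j 1 : Fin (finrank ℚ K * n) → ℤ) := by
      ext k
      simp [Finset.sum_apply, Pi.single_apply]
    have h2 : φ x = ∑ j, x j • φ (Pi.single j 1) := by
      conv_lhs => rw [h1]
      rw [map_sum]
      exact Finset.sum_congr rfl fun j _ => map_zsmul φ _ _
    rw [h2, hψ]
    simp only [map_sum, map_mul, MvPolynomial.aeval_C, MvPolynomial.aeval_X, Finset.sum_apply,
      Pi.smul_apply, zsmul_eq_mul]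
    refine Finset.sum_congr rfl fun j _ => ?_
    rw [mul_comm]
    rfl
  refine ⟨φ, MvPolynomial.bind₁ ψ G, hφ, ?_, hev⟩
  intro h0
  apply hG
  refine MvPolynomial.funext fun c => ?_
  have h1 := hev (φ.symm c)
  rw [φ.apply_symm_apply, h0, map_zero] at h1
  rw [← h1, map_zero]

theorem int_mem {v : HeightOneSpectrum (𝓞 K)} {p : ℕ} (hp : p.Prime) (hpv : (p : 𝓞 K) ∈ v.asIdeal)
    (z : ℤ) (hz : (z : 𝓞 K) ∈ v.asIdeal) : (p : ℤ) ∣ z := by
  by_contra h
  have hc : IsCoprime (p : ℤ) z := (Nat.prime_iff_prime_int.1 hp).coprime_iff_not_dvd.2 h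
  obtain ⟨a, b, hab⟩ := hc
  apply v.isPrime.ne_top
  rw [Ideal.eq_top_iff_one]
  have h1 : (1 : 𝓞 K) = (a : 𝓞 K) * (p : 𝓞 K) + (b : 𝓞 K) * (z : 𝓞 K) := by
    have := congrArg (fun t : ℤ => (t : 𝓞 K)) hab
    push_cast at this
    exact this.symm
  rw [h1]
  exact v.asIdeal.add_mem (Ideal.mul_mem_left _ _ hpv) (Ideal.mul_mem_left _ _ hz)

/-- one prime -/
theorem one_prime {N : ℕ} (H : MvPolynomial (Fin N) (𝓞 K)) (s : Fin N →₀ ℕ)
    (v : HeightOneSpectrum (𝓞 K)) (hs : H.coeff s ∉ v.asIdeal) (p : ℕ) (hp : p.Prime)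
    (hpv : (p : 𝓞 K) ∈ v.asIdeal) (a : Fin N → ℤ) (l : ℕ) (h1 : 1 ≤ l) (h2 : l ≤ p) :
    {z : Fin N → ℤ | (∀ j, z j ∈ Finset.Ico (a j) (a j + l)) ∧
      MvPolynomial.eval (fun j => ((z j : ℤ) : 𝓞 K)) H ∈ v.asIdeal}.ncard * l ≤
      (∑ i, H.degreeOf i) * l ^ N := by
  classical
  have hmax := v.isMaximal
  have hdom : IsDomain (𝓞 K ⧸ v.asIdeal) := Ideal.Quotient.isDomain v.asIdeal
  set q := Ideal.Quotient.mk v.asIdeal with hq
  set Hv := MvPolynomial.map q H with hHv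
  have hHv0 : Hv ≠ 0 := by
    intro h
    have h3 := congrArg (MvPolynomial.coeff s) h
    rw [hHv, MvPolynomial.coeff_map, MvPolynomial.coeff_zero, hq,
      Ideal.Quotient.eq_zero_iff_mem] at h3
    exact hs h3
  have hinj : ∀ x y : ℤ, q (x : 𝓞 K) = q (y : 𝓞 K) → (p : ℤ) ∣ x - y := by
    intro x y h
    have h3 : ((x - y : ℤ) : 𝓞 K) ∈ v.asIdeal := by
      push_cast
      exact (Ideal.Quotient.eq).1 h
    exact int_mem hp hpv _ h3
  have hinj' : ∀ c : ℤ, ∀ x ∈ Finset.Ico c (c + l), ∀ y ∈ Finset.Ico c (c + l),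
      q (x : 𝓞 K) = q (y : 𝓞 K) → x = y := by
    intro c x hx y hy h
    rw [Finset.mem_Ico] at hx hy
    have h3 := hinj x y h
    have h4 : |x - y| < p := by
      rw [abs_lt]
      have : (l : ℤ) ≤ p := by exact_mod_cast h2
      constructor <;> linarith
    have h5 := Int.eq_zero_of_abs_lt_dvd h3 h4
    linarith
  set S : Fin N → Finset (𝓞 K ⧸ v.asIdeal) := fun j =>
    (Finset.Ico (a j) (a j + l)).image (fun x : ℤ => q (x : 𝓞 K)) with hS
  have hScard : ∀ i, (S i).card = l := by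
    intro i
    rw [hS, Finset.card_image_of_injOn, Int.card_Ico]
    · simp
    · intro x hx y hy h
      exact hinj' (a i) x hx y hy h
  have h3 := sz_count Hv hHv0 S l h1 hScard
  have h4 : ∑ i, Hv.degreeOf i ≤ ∑ i, H.degreeOf i :=
    Finset.sum_le_sum fun i _ => by
      rw [MvPolynomial.degreeOf_le_iff]
      intro m hm
      exact MvPolynomial.monomial_le_degreeOf i (MvPolynomial.support_map_subset _ _ hm)
  refine le_trans (Nat.mul_le_mul_right l ?_) (h3.trans (Nat.mul_le_mul_right _ h4))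
  rw [← Set.ncard_coe_finset]
  refine Set.ncard_le_ncard_of_injOn (fun z j => q ((z j : ℤ) : 𝓞 K)) ?_ ?_ (Finset.finite_toSet _)
  · rintro z ⟨hz1, hz2⟩
    rw [Finset.mem_coe, Finset.mem_filter, Fintype.mem_piFinset]
    refine ⟨fun j => Finset.mem_image_of_mem _ (hz1 j), ?_⟩
    have h5 : MvPolynomial.eval (fun j => q ((z j : ℤ) : 𝓞 K)) Hv =
        q (MvPolynomial.eval (fun j => ((z j : ℤ) : 𝓞 K)) H) := by
      have h6 := MvPolynomial.eval₂_comp_left q (RingHom.id (𝓞 K))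
        (fun j => ((z j : ℤ) : 𝓞 K)) H
      rw [hHv, MvPolynomial.eval_map]
      rw [RingHom.comp_id, MvPolynomial.eval₂_id] at h6
      exact h6.symm
    rw [h5, hq, Ideal.Quotient.eq_zero_iff_mem]
    exact hz2
  · rintro z ⟨hz1, _⟩ z' ⟨hz1', _⟩ h
    funext j
    exact hinj' (a j) (z j) (hz1 j) (z' j) (hz1' j) (congrFun h j)

/-- the number of primes above `p` -/
theorem card_above (p : ℕ) (hp : p.Prime) (T : Finset (HeightOneSpectrum (𝓞 K)))
    (hT : ∀ v ∈ T, (p : 𝓞 K) ∈ v.asIdeal) : T.card ≤ finrank ℚ K := by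
  classical
  have hp' : Prime (p : ℤ) := Nat.prime_iff_prime_int.1 hp
  have hprime : (Ideal.span {(p : ℤ)}).IsPrime := (Ideal.span_singleton_prime hp'.ne_zero).2 hp'
  have hne : Ideal.span {(p : ℤ)} ≠ ⊥ := by
    rw [Ne, Ideal.span_singleton_eq_bot]; exact hp'.ne_zero
  have hmax : (Ideal.span {(p : ℤ)}).IsMaximal := hprime.isMaximal hne
  refine le_trans ?_ (Ideal.card_primesOverFinset_le_finrank (𝓞 K) ℚ K hne)
  refine Finset.card_le_card_of_injOn (fun w => w.asIdeal) ?_ ?_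
  · intro v hv
    rw [Finset.mem_coe, IsDedekindDomain.mem_primesOverFinset_iff hne]
    refine ⟨v.isPrime, ⟨hmax.eq_of_le ?_ ?_⟩⟩
    · exact (v.isPrime.comap (algebraMap ℤ (𝓞 K))).ne_top
    · rw [Ideal.span_singleton_le_iff_mem]
      show algebraMap ℤ (𝓞 K) (p : ℤ) ∈ v.asIdeal
      have := hT v hv
      simpa using this
  · intro w _ w' _ h
    exact HeightOneSpectrum.ext h

theorem finite_above (p : ℕ) (hp : p.Prime) :
    {v : HeightOneSpectrum (𝓞 K) | (p : 𝓞 K) ∈ v.asIdeal}.Finite := by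
  by_contra h
  obtain ⟨T, hT1, hT2⟩ := Set.Infinite.exists_subset_card_eq h (finrank ℚ K + 1)
  have := card_above (K := K) p hp T (fun v hv => hT1 hv)
  omega

/-- the condition at `p` -/
def Mt {N : ℕ} (H : MvPolynomial (Fin N) (𝓞 K)) (z : Fin N → ℤ) (p : ℕ) : Prop :=
  ∃ v : HeightOneSpectrum (𝓞 K), (p : 𝓞 K) ∈ v.asIdeal ∧
    MvPolynomial.eval (fun j => ((z j : ℤ) : 𝓞 K)) H ∈ v.asIdeal

theorem finite_ico {N : ℕ} (a : Fin N → ℤ) (l : ℕ) :
    {z : Fin N → ℤ | ∀ j, z j ∈ Finset.Ico (a j) (a j + l)}.Finite := by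
  refine (Finset.finite_toSet (Fintype.piFinset fun j => Finset.Ico (a j) (a j + l))).subset ?_
  intro z hz
  rw [Finset.mem_coe, Fintype.mem_piFinset]
  exact hz

theorem one_meet {N : ℕ} (H : MvPolynomial (Fin N) (𝓞 K)) (s : Fin N →₀ ℕ) (p : ℕ) (hp : p.Prime)
    (hs : ∀ v : HeightOneSpectrum (𝓞 K), (p : 𝓞 K) ∈ v.asIdeal → H.coeff s ∉ v.asIdeal)
    (a : Fin N → ℤ) (l : ℕ) (h1 : 1 ≤ l) (h2 : l ≤ p) :
    {z : Fin N → ℤ | (∀ j, z j ∈ Finset.Ico (a j) (a j + l)) ∧ Mt H z p}.ncard * l ≤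
      (finrank ℚ K * ∑ i, H.degreeOf i) * l ^ N := by
  classical
  set T := (finite_above (K := K) p hp).toFinset with hT
  have hTm : ∀ v, v ∈ T ↔ (p : 𝓞 K) ∈ v.asIdeal := by
    intro v; rw [hT, Set.Finite.mem_toFinset]; rfl
  have hsub : {z : Fin N → ℤ | (∀ j, z j ∈ Finset.Ico (a j) (a j + l)) ∧ Mt H z p} ⊆
      ⋃ v ∈ T, {z : Fin N → ℤ | (∀ j, z j ∈ Finset.Ico (a j) (a j + l)) ∧
        MvPolynomial.eval (fun j => ((z j : ℤ) : 𝓞 K)) H ∈ v.asIdeal} := by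
    rintro z ⟨hz, v, hv1, hv2⟩
    rw [Set.mem_iUnion₂]
    exact ⟨v, (hTm v).2 hv1, hz, hv2⟩
  have hfin : (⋃ v ∈ T, {z : Fin N → ℤ | (∀ j, z j ∈ Finset.Ico (a j) (a j + l)) ∧
        MvPolynomial.eval (fun j => ((z j : ℤ) : 𝓞 K)) H ∈ v.asIdeal}).Finite := by
    refine (finite_ico a l).subset ?_
    intro z hz
    rw [Set.mem_iUnion₂] at hz
    obtain ⟨v, _, hz, _⟩ := hz
    exact hz
  have hle : ∀ (T : Finset (HeightOneSpectrum (𝓞 K)))
      (f : HeightOneSpectrum (𝓞 K) → Set (Fin N → ℤ)), (⋃ b ∈ T, f b).ncard ≤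
        ∑ b ∈ T, (f b).ncard := by
    intro T f
    induction T using Finset.induction_on with
    | empty => simp
    | insert x T hx ih =>
      rw [Finset.set_biUnion_insert, Finset.sum_insert hx]
      exact (Set.ncard_union_le _ _).trans (Nat.add_le_add_left ih _)
  refine (Nat.mul_le_mul_right l ((Set.ncard_le_ncard hsub hfin).trans (hle T _))).trans ?_
  rw [Finset.sum_mul]
  refine (Finset.sum_le_card_nsmul _ _ _ fun v hv => one_prime H s v (hs v ((hTm v).1 hv)) p hp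
    ((hTm v).1 hv) a l h1 h2).trans ?_
  rw [smul_eq_mul, mul_assoc]
  exact Nat.mul_le_mul_right _ (card_above p hp T fun v hv => (hTm v).1 hv)

theorem Mt_congr {N : ℕ} (H : MvPolynomial (Fin N) (𝓞 K)) {z z' : Fin N → ℤ} {p : ℕ}
    (h : ∀ j, (p : ℤ) ∣ z j - z' j) (hz : Mt H z p) : Mt H z' p := by
  obtain ⟨v, hv1, hv2⟩ := hz
  refine ⟨v, hv1, ?_⟩
  have h1 : ∀ j, Ideal.Quotient.mk v.asIdeal ((z j : ℤ) : 𝓞 K) =
      Ideal.Quotient.mk v.asIdeal ((z' j : ℤ) : 𝓞 K) := by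
    intro j
    rw [Ideal.Quotient.eq]
    obtain ⟨t, ht⟩ := h j
    have h2 : ((z j : ℤ) : 𝓞 K) - ((z' j : ℤ) : 𝓞 K) = (t : 𝓞 K) * (p : 𝓞 K) := by
      have := congrArg (fun t : ℤ => (t : 𝓞 K)) ht
      push_cast at this
      rw [this, mul_comm]
    rw [h2]
    exact Ideal.mul_mem_left _ _ hv1
  have h2 : ∀ x : Fin N → ℤ, Ideal.Quotient.mk v.asIdeal
      (MvPolynomial.eval (fun j => ((x j : ℤ) : 𝓞 K)) H) = MvPolynomial.eval₂
        (Ideal.Quotient.mk v.asIdeal) (fun j => Ideal.Quotient.mk v.asIdeal ((x j : ℤ) : 𝓞 K)) H := by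
    intro x
    have h6 := MvPolynomial.eval₂_comp_left (Ideal.Quotient.mk v.asIdeal) (RingHom.id (𝓞 K))
      (fun j => ((x j : ℤ) : 𝓞 K)) H
    rw [RingHom.comp_id, MvPolynomial.eval₂_id] at h6
    exact h6
  rw [← Ideal.Quotient.eq_zero_iff_mem, h2] at hv2 ⊢
  rw [← hv2]
  congr 1
  funext j
  exact (h1 j).symm

/-- several primes -/
theorem many_meet {N : ℕ} (H : MvPolynomial (Fin N) (𝓞 K)) (s : Fin N →₀ ℕ) (Q : Finset ℕ)
    (hQ : ∀ p ∈ Q, p.Prime)
    (hs : ∀ p ∈ Q, ∀ v : HeightOneSpectrum (𝓞 K), (p : 𝓞 K) ∈ v.asIdeal → H.coeff s ∉ v.asIdeal)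
    (a : Fin N → ℤ) :
    ({z : Fin N → ℤ | (∀ j, z j ∈ Finset.Ico (a j) (a j + (∏ p ∈ Q, p : ℕ))) ∧
      ∀ p ∈ Q, Mt H z p}.ncard : ℝ) ≤
      ((finrank ℚ K * ∑ i, H.degreeOf i : ℕ) : ℝ) ^ Q.card * ((∏ p ∈ Q, p : ℕ) : ℝ) ^ N /
        (∏ p ∈ Q, p : ℕ) := by
  classical
  set D := finrank ℚ K * ∑ i, H.degreeOf i with hD
  set M := ∏ p ∈ Q, p with hM
  set T : ℕ → Set (Fin N → ℤ) := fun p =>
    {z : Fin N → ℤ | (∀ j, z j ∈ Finset.Ico (0 : ℤ) (0 + p)) ∧ Mt H z p} with hT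
  have hTfin : ∀ p, (T p).Finite := fun p => (finite_ico (fun _ => 0) p).subset fun z hz => hz.1
  have hTcard : ∀ p ∈ Q, ((T p).ncard : ℝ) ≤ D * ((p : ℝ) ^ N / p) := by
    intro p hp
    have h1 := one_meet H s p (hQ p hp) (hs p hp) (fun _ => 0) p (hQ p hp).one_le le_rfl
    have h2 : (0 : ℝ) < p := by exact_mod_cast (hQ p hp).pos
    rw [mul_div_assoc', le_div_iff₀ h2]
    exact_mod_cast h1
  set F : Finset ((p : ↥Q) → (Fin N → ℤ)) := Fintype.piFinset fun p : ↥Q => (hTfin p.1).toFinset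
    with hF
  have hle : {z : Fin N → ℤ | (∀ j, z j ∈ Finset.Ico (a j) (a j + (M : ℕ))) ∧
      ∀ p ∈ Q, Mt H z p}.ncard ≤ F.card := by
    rw [← Set.ncard_coe_finset]
    refine Set.ncard_le_ncard_of_injOn (fun z => fun (p : ↥Q) (j : Fin N) => z j % (p.1 : ℤ)) ?_ ?_
      (Finset.finite_toSet _)
    · rintro z ⟨hz1, hz2⟩
      rw [Finset.mem_coe, hF, Fintype.mem_piFinset]
      intro p
      rw [Set.Finite.mem_toFinset]
      have hp0 : (0 : ℤ) < p.1 := by exact_mod_cast (hQ p.1 p.2).pos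
      refine ⟨fun j => ?_, Mt_congr H (fun j => ?_) (hz2 p.1 p.2)⟩
      · rw [Finset.mem_Ico, zero_add]
        exact ⟨Int.emod_nonneg _ hp0.ne', Int.emod_lt_of_pos _ hp0⟩
      · exact Int.dvd_self_sub_emod
    · rintro z ⟨hz1, _⟩ z' ⟨hz1', _⟩ h
      funext j
      have h1 : ∀ p ∈ Q, (p : ℤ) ∣ z j - z' j := by
        intro p hp
        have h2 : z j % (p : ℤ) = z' j % (p : ℤ) := congrFun (congrFun h ⟨p, hp⟩) j
        exact Int.ModEq.dvd h2.symm
      have h3 : (M : ℤ) ∣ z j - z' j := by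
        rw [hM]
        push_cast
        refine Finset.prod_dvd_of_coprime (fun p hp p' hp' hne => ?_) h1
        exact Nat.isCoprime_iff_coprime.2 ((Nat.coprime_primes (hQ p hp) (hQ p' hp')).2 hne)
      have h4 := Finset.mem_Ico.1 (hz1 j)
      have h5 := Finset.mem_Ico.1 (hz1' j)
      have h6 : |z j - z' j| < M := by
        rw [abs_lt]
        constructor <;> linarith
      have h7 := Int.eq_zero_of_abs_lt_dvd h3 h6
      linarith
  have hFc : (F.card : ℝ) = ∏ p ∈ Q, ((T p).ncard : ℝ) := by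
    rw [hF, Fintype.card_piFinset]
    push_cast
    rw [← Finset.prod_coe_sort Q (fun p => ((T p).ncard : ℝ))]
    refine Finset.prod_congr rfl fun p _ => ?_
    rw [Set.ncard_eq_toFinset_card _ (hTfin p.1)]
  refine (by exact_mod_cast hle : _ ≤ (F.card : ℝ)).trans ?_
  rw [hFc]
  refine (Finset.prod_le_prod (fun p _ => Nat.cast_nonneg _) hTcard).trans (le_of_eq ?_)
  rw [Finset.prod_mul_distrib, Finset.prod_const, Finset.prod_div_distrib, Finset.prod_pow, hM]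
  push_cast
  rw [mul_div_assoc]

/-- covering a box by small boxes -/
theorem cover {N : ℕ} (S : Set (Fin N → ℤ)) (X l : ℕ) (hl : 1 ≤ l) (hlX : l ≤ X) (A : ℝ)
    (hA : ∀ a : Fin N → ℤ, ({z : Fin N → ℤ | (∀ j, z j ∈ Finset.Ico (a j) (a j + l)) ∧
      z ∈ S}.ncard : ℝ) ≤ A) :
    ({z : Fin N → ℤ | (∀ j, |z j| ≤ (X : ℤ)) ∧ z ∈ S}.ncard : ℝ) ≤ A * (3 * (X / l : ℝ)) ^ N := by
  classical
  have hA0 : 0 ≤ A := (Nat.cast_nonneg _).trans (hA fun _ => 0)
  have hl0 : (0 : ℤ) < l := by exact_mod_cast hl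
  have hl0' : (0 : ℝ) < l := by exact_mod_cast hl
  have hfin : {z : Fin N → ℤ | (∀ j, |z j| ≤ (X : ℤ)) ∧ z ∈ S}.Finite :=
    (Pool.Agent.N530.DR.finite_box N X).subset fun z hz => hz.1
  rw [Set.ncard_eq_toFinset_card _ hfin]
  set t : Finset (Fin N → ℤ) := Fintype.piFinset fun _ => Finset.Icc (0 : ℤ) (2 * X / l) with ht
  have h1 : hfin.toFinset.card ≤ ⌊A⌋₊ * t.card := by
    refine Finset.card_le_mul_card_image_of_maps_to (f := fun z j => (z j + X) / (l : ℤ)) ?_ _ ?_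
    · intro z hz
      rw [Set.Finite.mem_toFinset] at hz
      rw [ht, Fintype.mem_piFinset]
      intro j
      have h2 := abs_le.1 (hz.1 j)
      rw [Finset.mem_Icc]
      exact ⟨Int.ediv_nonneg (by linarith) hl0.le, Int.ediv_le_ediv hl0 (by linarith)⟩
    · intro b _
      refine Nat.le_floor ?_
      refine le_trans ?_ (hA (fun j => b j * l - X))
      rw [← Set.ncard_coe_finset]
      refine Nat.cast_le.2 (Set.ncard_le_ncard ?_ ((finite_ico (fun j => b j * l - X) l).subset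
        fun z hz => hz.1))
      intro z hz
      rw [Finset.mem_coe, Finset.mem_filter, Set.Finite.mem_toFinset] at hz
      refine ⟨fun j => ?_, hz.1.2⟩
      have h3 : (z j + X) / (l : ℤ) = b j := congrFun hz.2 j
      rw [Finset.mem_Ico]
      have h4 := Int.ediv_mul_le (z j + X) hl0.ne'
      have h5 := Int.lt_ediv_add_one_mul_self (z j + X) hl0
      rw [h3] at h4 h5
      constructor <;> linarith
  have h2 : (t.card : ℝ) ≤ (3 * (X / l : ℝ)) ^ N := by
    rw [ht, Fintype.card_piFinset, Finset.prod_const, Finset.card_univ, Fintype.card_fin,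
      Int.card_Icc]
    push_cast
    refine pow_le_pow_left₀ (Nat.cast_nonneg _) ?_ N
    have h3 : ((2 * (X : ℤ) / l + 1 - 0 : ℤ)) = ((2 * X / l + 1 : ℕ) : ℤ) := by push_cast; ring
    rw [h3, Int.toNat_natCast]
    have h4 : ((2 * X / l : ℕ) : ℝ) ≤ (2 * X : ℕ) / (l : ℝ) := Nat.cast_div_le
    have h5 : (1 : ℝ) ≤ X / l := by
      rw [le_div_iff₀ hl0', one_mul]; exact_mod_cast hlX
    push_cast at h4 ⊢
    rw [mul_div_assoc] at h4
    linarith
  calc (hfin.toFinset.card : ℝ) ≤ ((⌊A⌋₊ * t.card : ℕ) : ℝ) := by exact_mod_cast h1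
    _ = ⌊A⌋₊ * t.card := by push_cast; ring
    _ ≤ A * (3 * (X / l : ℝ)) ^ N := mul_le_mul (Nat.floor_le hA0) h2 (Nat.cast_nonneg _) hA0

end

/-- **PC/MOD** congruence conditions in boxes -/
theorem t : StmMod := by
  classical
  intro K _ _ n hn G hG
  obtain ⟨N, hN⟩ : ∃ N, N = finrank ℚ K * n := ⟨_, rfl⟩
  obtain ⟨φ, H, hφ, hH, hev⟩ := exists_H n G hG N hN
  obtain ⟨s, hs⟩ := MvPolynomial.ne_zero_iff.1 hH
  have hK1 : 1 ≤ finrank ℚ K := finrank_pos
  have hN1 : 1 ≤ N := by rw [hN]; exact Nat.mul_pos hK1 hn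
  set D := finrank ℚ K * ∑ i, H.degreeOf i with hD
  set P₀ := Ideal.absNorm (Ideal.span {H.coeff s}) + 1 with hP₀
  have hNC : ((finrank ℚ K : ℝ) * n) = (N : ℝ) := by rw [hN]; push_cast; rfl
  -- the coefficient is prime to large primes
  have hcop : ∀ p : ℕ, p.Prime → P₀ ≤ p → ∀ v : HeightOneSpectrum (𝓞 K), (p : 𝓞 K) ∈ v.asIdeal →
      H.coeff s ∉ v.asIdeal := by
    intro p hp hpP v hpv hsv
    have h1 : ((Ideal.absNorm (Ideal.span {H.coeff s}) : ℕ) : 𝓞 K) ∈ v.asIdeal := by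
      have h2 := Ideal.absNorm_mem (Ideal.span {H.coeff s})
      have h3 : Ideal.span {H.coeff s} ≤ v.asIdeal := by
        rw [Ideal.span_singleton_le_iff_mem]; exact hsv
      exact h3 h2
    have h2 := int_mem hp hpv (Ideal.absNorm (Ideal.span {H.coeff s}) : ℤ) (by
      simpa using h1)
    have h3 : p ∣ Ideal.absNorm (Ideal.span {H.coeff s}) := by exact_mod_cast h2
    have h4 : Ideal.absNorm (Ideal.span {H.coeff s}) ≠ 0 := by
      rw [Ne, Ideal.absNorm_eq_zero_iff, Ideal.span_singleton_eq_bot]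
      exact hs
    have h5 := Nat.le_of_dvd (Nat.pos_of_ne_zero h4) h3
    omega
  -- translation to integers
  have htr : ∀ (X : ℕ) (A : (Fin n → 𝓞 K) → Prop) (A' : (Fin N → ℤ) → Prop),
      (∀ z, A (φ z) ↔ A' z) → {c ∈ Bx K n X | A c}.ncard =
        {z : Fin N → ℤ | (∀ j, |z j| ≤ (X : ℤ)) ∧ z ∈ {z | A' z}}.ncard := by
    intro X A A' h
    have h1 : {c ∈ Bx K n X | A c} =
        φ '' {z : Fin N → ℤ | (∀ j, |z j| ≤ (X : ℤ)) ∧ z ∈ {z | A' z}} := by
      ext c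
      constructor
      · rintro ⟨hc1, hc2⟩
        refine ⟨φ.symm c, ⟨(hφ _ _).1 (by rw [φ.apply_symm_apply]; exact hc1), ?_⟩,
          φ.apply_symm_apply c⟩
        show A' (φ.symm c)
        rw [← h, φ.apply_symm_apply]
        exact hc2
      · rintro ⟨z, ⟨hz1, hz2⟩, rfl⟩
        exact ⟨(hφ _ _).2 hz1, (h z).2 hz2⟩
    rw [h1, Set.ncard_image_of_injective _ φ.injective]
  have hmt : ∀ (p : ℕ) (z : Fin N → ℤ), Meet G (φ z) p ↔ Mt H z p := by
    intro p z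
    unfold Meet Mt
    simp only [hev]
  set C : ℝ := ((9 ^ N * (D + 1) + 1 : ℕ) : ℝ) with hC
  have hC1 : (1 : ℝ) ≤ C := by
    rw [hC]
    push_cast
    have : (0 : ℝ) ≤ 9 ^ N * (D + 1) := by positivity
    linarith
  have hDC : (D : ℝ) ≤ C := by
    rw [hC]
    push_cast
    have h9 : (1 : ℝ) ≤ 9 ^ N := one_le_pow₀ (by norm_num)
    have : (0 : ℝ) ≤ D := Nat.cast_nonneg _
    nlinarith
  have h3C : (3 : ℝ) ^ N ≤ C := by
    rw [hC]
    push_cast
    have h9 : (3 : ℝ) ^ N ≤ 9 ^ N := pow_le_pow_left₀ (by norm_num) (by norm_num) N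
    have h9' : (0 : ℝ) ≤ 9 ^ N := by positivity
    have : (0 : ℝ) ≤ D := Nat.cast_nonneg _
    nlinarith
  have h3DC : (3 : ℝ) ^ N * D ≤ C := by
    rw [hC]
    push_cast
    have h9 : (3 : ℝ) ^ N ≤ 9 ^ N := pow_le_pow_left₀ (by norm_num) (by norm_num) N
    have h9' : (0 : ℝ) ≤ 9 ^ N := by positivity
    have : (0 : ℝ) ≤ D := Nat.cast_nonneg _
    nlinarith
  -- several primes
  have hmany : ∀ X : ℕ, 1 ≤ X → ∀ Q : Finset ℕ, (∀ p ∈ Q, p.Prime ∧ P₀ ≤ p) → ∏ p ∈ Q, p ≤ X →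
      ({c ∈ Bx K n X | ∀ p ∈ Q, Meet G c p}.ncard : ℝ) ≤
        C ^ (Q.card + 1) * (X : ℝ) ^ ((finrank ℚ K : ℝ) * n) / ∏ p ∈ Q, (p : ℝ) := by
    intro X hX Q hQ hQX
    rw [htr X _ (fun z => ∀ p ∈ Q, Mt H z p) (fun z => by simp only [hmt])]
    have hM1 : 1 ≤ ∏ p ∈ Q, p := Finset.one_le_prod' fun p hp => (hQ p hp).1.one_le
    have hM0 : (0 : ℝ) < ((∏ p ∈ Q, p : ℕ) : ℝ) := by exact_mod_cast hM1
    have h1 := cover {z : Fin N → ℤ | ∀ p ∈ Q, Mt H z p} X (∏ p ∈ Q, p) hM1 hQX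
      ((D : ℝ) ^ Q.card * ((∏ p ∈ Q, p : ℕ) : ℝ) ^ N / (∏ p ∈ Q, p : ℕ))
      (fun a => many_meet H s Q (fun p hp => (hQ p hp).1)
        (fun p hp => hcop p (hQ p hp).1 (hQ p hp).2) a)
    refine h1.trans ?_
    have h2 : (D : ℝ) ^ Q.card * ((∏ p ∈ Q, p : ℕ) : ℝ) ^ N / (∏ p ∈ Q, p : ℕ) *
        (3 * (X / (∏ p ∈ Q, p : ℕ) : ℝ)) ^ N =
        (D : ℝ) ^ Q.card * 3 ^ N * (X : ℝ) ^ N / (∏ p ∈ Q, p : ℕ) := by
      rw [mul_pow, div_pow]
      field_simp
    rw [h2, hNC, Real.rpow_natCast]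
    push_cast
    gcongr
    rw [pow_succ]
    exact mul_le_mul (pow_le_pow_left₀ (Nat.cast_nonneg _) hDC _) h3C (by positivity)
      (by positivity)
  refine ⟨C ^ 2, P₀, by nlinarith, fun X hX => ⟨?_, ?_, ?_⟩⟩
  · -- zeros
    rw [htr X _ (fun z => MvPolynomial.eval (fun j => ((z j : ℤ) : 𝓞 K)) H = 0)
      (fun z => by rw [hev])]
    have hX0 : (0 : ℝ) < X := by exact_mod_cast hX
    have h1 : {z : Fin N → ℤ | (∀ j, |z j| ≤ (X : ℤ)) ∧
        z ∈ {z | MvPolynomial.eval (fun j => ((z j : ℤ) : 𝓞 K)) H = 0}}.ncard * (2 * X + 1) ≤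
        (∑ i, H.degreeOf i) * (2 * X + 1) ^ N := by
      have h2 := sz_count H hH (fun _ => (Finset.Icc (-(X : ℤ)) X).image (fun x : ℤ => (x : 𝓞 K)))
        (2 * X + 1) (by omega) (fun i => by
          rw [Finset.card_image_of_injective _ Int.cast_injective, Int.card_Icc]
          omega)
      refine le_trans (Nat.mul_le_mul_right _ ?_) h2
      rw [← Set.ncard_coe_finset]
      refine Set.ncard_le_ncard_of_injOn (fun z j => ((z j : ℤ) : 𝓞 K)) ?_ ?_
        (Finset.finite_toSet _)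
      · rintro z ⟨hz1, hz2⟩
        rw [Finset.mem_coe, Finset.mem_filter, Fintype.mem_piFinset]
        refine ⟨fun j => Finset.mem_image_of_mem _ ?_, hz2⟩
        rw [Finset.mem_Icc]
        exact abs_le.1 (hz1 j)
      · intro z _ z' _ h
        funext j
        exact Int.cast_injective (congrFun h j)
    set c0 := {z : Fin N → ℤ | (∀ j, |z j| ≤ (X : ℤ)) ∧
        z ∈ {z | MvPolynomial.eval (fun j => ((z j : ℤ) : 𝓞 K)) H = 0}}.ncard with hc0
    have h2 : (c0 : ℝ) * (2 * X + 1) ≤ D * (3 * X) ^ N := by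
      have h3 : (c0 : ℝ) * (2 * X + 1) ≤ (∑ i, H.degreeOf i : ℕ) * (2 * X + 1) ^ N := by
        exact_mod_cast h1
      refine h3.trans ?_
      have h4 : ((∑ i, H.degreeOf i : ℕ) : ℝ) ≤ D := by
        rw [hD]
        exact_mod_cast Nat.le_mul_of_pos_left _ hK1
      have h5 : (2 * (X : ℝ) + 1) ^ N ≤ (3 * X) ^ N := by
        refine pow_le_pow_left₀ (by positivity) ?_ N
        have : (1 : ℝ) ≤ X := by exact_mod_cast hX
        linarith
      exact mul_le_mul h4 h5 (by positivity) (Nat.cast_nonneg _)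
    have h3 : (c0 : ℝ) * X ≤ 3 ^ N * D * (X : ℝ) ^ N := by
      have : (c0 : ℝ) * X ≤ c0 * (2 * X + 1) :=
        mul_le_mul_of_nonneg_left (by linarith) (Nat.cast_nonneg _)
      rw [mul_pow] at h2
      linarith
    rw [hNC, Real.rpow_sub hX0, Real.rpow_one, Real.rpow_natCast, mul_div_assoc',
      le_div_iff₀ hX0]
    refine h3.trans (mul_le_mul_of_nonneg_right ?_ (by positivity))
    nlinarith
  · intro p hp hpP
    have hX1 : (1 : ℝ) ≤ X := by exact_mod_cast hX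
    have hX0 : (0 : ℝ) < X := by linarith
    have hp0 : (0 : ℝ) < p := by exact_mod_cast hp.pos
    rcases le_or_gt p X with h | h
    · have h1 := hmany X hX {p} (by simpa using ⟨hp, hpP⟩) (by simpa using h)
      simp only [Finset.mem_singleton, forall_eq, Finset.card_singleton,
        Finset.prod_singleton] at h1
      refine h1.trans ?_
      rw [mul_div_assoc, mul_assoc]
      refine mul_le_mul_of_nonneg_left ?_ (by positivity)
      rw [div_eq_mul_one_div]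
      refine mul_le_mul_of_nonneg_left ?_ (by positivity)
      have : (0 : ℝ) < 1 / X := by positivity
      linarith
    · rw [htr X _ (fun z => Mt H z p) (fun z => hmt p z)]
      have h1 := cover {z : Fin N → ℤ | Mt H z p} X X hX le_rfl (D * ((X : ℝ) ^ N / X)) (fun a => by
        have h2 := one_meet H s p hp (hcop p hp hpP) a X hX h.le
        rw [mul_div_assoc', le_div_iff₀ hX0]
        exact_mod_cast h2)
      refine h1.trans ?_
      rw [div_self hX0.ne', mul_one, hNC, Real.rpow_natCast]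
      have h2 : (D : ℝ) * ((X : ℝ) ^ N / X) * 3 ^ N = 3 ^ N * D * (X : ℝ) ^ N * (1 / X) := by
        ring
      rw [h2]
      refine mul_le_mul (mul_le_mul_of_nonneg_right (by nlinarith) (by positivity)) ?_
        (by positivity) (by positivity)
      have : (0 : ℝ) < 1 / p := by positivity
      linarith
  · intro Q hQ hQX
    refine (hmany X hX Q hQ hQX).trans ?_
    refine div_le_div_of_nonneg_right ?_ (Finset.prod_nonneg fun p _ => Nat.cast_nonneg _)
    refine mul_le_mul_of_nonneg_right ?_ (by positivity)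
    exact pow_le_pow_left₀ (by linarith) (by nlinarith) _

end Pool.Agent.Helper89V.Mod
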