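import Mathlib
import Pool.Agent.N530.DR.Large1

/-! Auxiliary lemmas: points of a lattice in a box, indices, sums over primes. -/

set_option autoImplicit false

namespace Pool.Agent.Helper89V

open NumberField IsDedekindDomain Module

/-- a subset with a sum in a given interval -/
theorem exists_sub {ι : Type} (V : Finset ι) (a : ι → ℝ) (S T : ℝ) (hT : ∀ i ∈ V, a i ≤ T)
    (hST : 0 ≤ S + T) (hS : S ≤ ∑ i ∈ V, a i) :
    ∃ V' ⊆ V, S ≤ ∑ i ∈ V', a i ∧ ∑ i ∈ V', a i ≤ S + T := by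
  classical
  induction V using Finset.induction_on with
  | empty => exact ⟨∅, subset_rfl, hS, by simpa using hST⟩
  | insert x V hx ih =>
    rw [Finset.sum_insert hx] at hS
    by_cases h : S ≤ ∑ i ∈ V, a i
    · obtain ⟨V', h1, h2⟩ := ih (fun i hi => hT i (Finset.mem_insert_of_mem hi)) h
      exact ⟨V', h1.trans (Finset.subset_insert _ _), h2⟩
    · push Not at h
      refine ⟨insert x V, subset_rfl, ?_, ?_⟩
      · rw [Finset.sum_insert hx]; exact hS
      · rw [Finset.sum_insert hx]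
        have := hT x (Finset.mem_insert_self _ _)
        linarith

/-- points of a subgroup of small index in a box -/
theorem count_Z {N : ℕ} (Λ : AddSubgroup (Fin N → ℤ)) (hΛ : Λ.index ≠ 0) (B : ℕ)
    (hB : Λ.index ≤ B) :
    (({x : Fin N → ℤ | (∀ j, |x j| ≤ (B : ℤ)) ∧ x ∈ Λ}.ncard : ℝ)) ≤
      4 ^ N * (B : ℝ) ^ N / Λ.index := by
  classical
  set I := Λ.index with hI
  have hI1 : 1 ≤ I := Nat.one_le_iff_ne_zero.2 hΛ
  have : NeZero I := ⟨hΛ⟩
  -- reduction modulo `I`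
  let π : (Fin N → ℤ) →+ (Fin N → ZMod I) :=
    { toFun := fun x j => (x j : ZMod I)
      map_zero' := by ext j; simp
      map_add' := fun x y => by ext j; simp }
  have hπ : Function.Surjective π := by
    intro y
    refine ⟨fun j => ((y j).val : ℤ), ?_⟩
    ext j
    simp [π]
  have hker : π.ker ≤ Λ := by
    intro x hx
    have h1 : ∀ j, (I : ℤ) ∣ x j := by
      intro j
      have h2 : π x j = 0 := by
        have : π x = 0 := hx
        rw [this]; rfl
      have h3 : ((x j : ℤ) : ZMod I) = 0 := h2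
      exact (ZMod.intCast_zmod_eq_zero_iff_dvd _ _).1 h3
    choose y hy using h1
    have h4 : x = I • y := by
      ext j
      rw [hy j, Pi.smul_apply, nsmul_eq_mul]
    rw [h4, hI]
    exact Λ.nsmul_index_mem y
  have hidx : (Λ.map π).index = I := AddSubgroup.index_map_eq _ hπ hker
  have hcard : Nat.card (Λ.map π) * I = I ^ N := by
    have h1 := (Λ.map π).card_mul_index
    rw [hidx, Nat.card_eq_fintype_card (α := Fin N → ZMod I), Fintype.card_fun, ZMod.card,
      Fintype.card_fin] at h1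
    exact h1
  set S : Finset ((Fin N → ℤ) × (Fin N → ZMod I)) :=
    (Fintype.piFinset fun _ : Fin N => Finset.Icc (0 : ℤ) (2 * B / I)) ×ˢ
      (Finset.univ.filter fun y => y ∈ Λ.map π) with hS
  have hScard : S.card = (2 * B / I + 1) ^ N * Nat.card (Λ.map π) := by
    rw [hS, Finset.card_product, Fintype.card_piFinset]
    congr 1
    · rw [Finset.prod_const, Finset.card_univ, Fintype.card_fin, Int.card_Icc]
      have : ((2 * (B : ℤ) / I + 1 - 0 : ℤ)) = ((2 * B / I + 1 : ℕ) : ℤ) := by push_cast; ring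
      rw [this, Int.toNat_natCast]
    · rw [Nat.card_eq_fintype_card, Fintype.card_subtype]
  have hle : {x : Fin N → ℤ | (∀ j, |x j| ≤ (B : ℤ)) ∧ x ∈ Λ}.ncard ≤ S.card := by
    rw [← Set.ncard_coe_finset S]
    refine Set.ncard_le_ncard_of_injOn (fun x => ((fun j => (x j + B) / (I : ℤ)), π x)) ?_ ?_
      (Finset.finite_toSet S)
    · rintro x ⟨hx, hxΛ⟩
      have hI0 : (0 : ℤ) < I := by exact_mod_cast hI1
      rw [hS, Finset.mem_coe, Finset.mem_product, Fintype.mem_piFinset, Finset.mem_filter]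
      refine ⟨fun j => ?_, Finset.mem_univ _, AddSubgroup.mem_map_of_mem π hxΛ⟩
      rw [Finset.mem_Icc]
      have h1 := abs_le.1 (hx j)
      refine ⟨Int.ediv_nonneg (by linarith) hI0.le, Int.ediv_le_ediv hI0 (by linarith)⟩
    · rintro x _ y _ hxy
      simp only [Prod.mk.injEq] at hxy
      obtain ⟨h1, h2⟩ := hxy
      ext j
      have h3 := congrFun h1 j
      have h4 : ((x j : ℤ) : ZMod I) = ((y j : ℤ) : ZMod I) := congrFun h2 j
      have h5 : (x j) ≡ (y j) [ZMOD I] := (ZMod.intCast_eq_intCast_iff _ _ _).1 h4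
      have h6 : (x j + B) % (I : ℤ) = (y j + B) % (I : ℤ) := h5.add_right _
      have h7 := Int.emod_add_mul_ediv (x j + B) I
      have h8 := Int.emod_add_mul_ediv (y j + B) I
      rw [h3, h6] at h7
      linarith
  have hI0 : (0 : ℝ) < I := by exact_mod_cast hI1
  have hBI : (1 : ℝ) ≤ B / I := by
    rw [le_div_iff₀ hI0, one_mul]; exact_mod_cast hB
  have h1 : ((2 * B / I + 1 : ℕ) : ℝ) ≤ 3 * (B / I) := by
    have h2 : ((2 * B / I : ℕ) : ℝ) ≤ (2 * B : ℕ) / (I : ℝ) := Nat.cast_div_le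
    push_cast at h2 ⊢
    rw [mul_div_assoc] at h2
    linarith
  have h2 : (Nat.card (Λ.map π) : ℝ) = (I : ℝ) ^ N / I := by
    rw [eq_div_iff hI0.ne']
    exact_mod_cast hcard
  calc (({x : Fin N → ℤ | (∀ j, |x j| ≤ (B : ℤ)) ∧ x ∈ Λ}.ncard : ℝ)) ≤ (S.card : ℝ) := by
        exact_mod_cast hle
    _ = ((2 * B / I + 1 : ℕ) : ℝ) ^ N * (Nat.card (Λ.map π) : ℝ) := by
        rw [hScard]; push_cast; ring
    _ ≤ (3 * (B / I)) ^ N * ((I : ℝ) ^ N / I) := by
        rw [h2]
        exact mul_le_mul_of_nonneg_right (pow_le_pow_left₀ (Nat.cast_nonneg _) h1 N) (by positivity)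
    _ = 3 ^ N * (B : ℝ) ^ N / I := by
        rw [mul_pow, div_pow]
        field_simp
    _ ≤ 4 ^ N * (B : ℝ) ^ N / I := by
        gcongr
        norm_num

/-- the index of an intersection of subgroups -/
theorem index_inf_of_sup {G : Type} [AddCommGroup G] (H K : AddSubgroup G) (h : H ⊔ K = ⊤) :
    (H ⊓ K).index = H.index * K.index := by
  have h1 := AddSubgroup.relIndex_mul_index (H := H ⊓ K) (K := K) inf_le_right
  rw [AddSubgroup.inf_relIndex_right, ← AddSubgroup.relIndex_sup_right K H, sup_comm, h,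
    AddSubgroup.relIndex_top_right] at h1
  exact h1.symm

/-- sums over a set with few elements of small norm -/
theorem sum_norms {α : Type} (Nm : α → ℕ) (h0 : ∀ a, Nm a ≠ 0) (C : ℕ)
    (hfin : ∀ X : ℕ, {a | Nm a ≤ X}.Finite)
    (hC : ∀ X : ℕ, 1 ≤ X → {a | Nm a ≤ X}.ncard ≤ C * X) : ∃ C' : ℝ, 0 < C' ∧
    ∀ P : Finset α, ∑ v ∈ P, (Nm v : ℝ) ^ (-(3 / 2) : ℝ) ≤ C' := by
  classical
  set r : ℝ := (2 : ℝ) ^ (-(1 / 2) : ℝ) with hr
  have hr0 : 0 < r := Real.rpow_pos_of_pos two_pos _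
  have hr1 : r < 1 := Real.rpow_lt_one_of_one_lt_of_neg one_lt_two (by norm_num)
  have h1r : 0 < 1 - r := sub_pos.2 hr1
  refine ⟨2 * (C + 1) * (1 - r)⁻¹, by positivity, fun P => ?_⟩
  have hmaps : ∀ v ∈ P, Nat.log 2 (Nm v) ∈ P.image (fun v => Nat.log 2 (Nm v)) :=
    fun v hv => Finset.mem_image_of_mem _ hv
  rw [← Finset.sum_fiberwise_of_maps_to hmaps]
  have hj : ∀ j ∈ P.image (fun v => Nat.log 2 (Nm v)), ∑ v ∈ P with Nat.log 2 (Nm v) = j,
      (Nm v : ℝ) ^ (-(3 / 2) : ℝ) ≤ 2 * (C + 1) * r ^ j := by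
    intro j _
    have h1 : ∀ v ∈ P.filter (fun v => Nat.log 2 (Nm v) = j),
        (Nm v : ℝ) ^ (-(3 / 2) : ℝ) ≤ ((2 : ℝ) ^ j) ^ (-(3 / 2) : ℝ) := by
      intro v hv
      rw [Finset.mem_filter] at hv
      have h3 := Nat.pow_log_le_self 2 (h0 v)
      rw [hv.2] at h3
      refine Real.rpow_le_rpow_of_nonpos (by positivity) ?_ (by norm_num)
      exact_mod_cast h3
    have h2 : ((P.filter (fun v => Nat.log 2 (Nm v) = j)).card : ℝ) ≤
        C * 2 ^ (j + 1) := by
      have h3 := hC (2 ^ (j + 1)) Nat.one_le_two_pow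
      have h4 : (P.filter (fun v => Nat.log 2 (Nm v) = j)).card ≤
          {v | Nm v ≤ 2 ^ (j + 1)}.ncard := by
        rw [← Set.ncard_coe_finset]
        refine Set.ncard_le_ncard ?_ (hfin _)
        intro v hv
        rw [Finset.mem_coe, Finset.mem_filter] at hv
        have h5 := Nat.lt_pow_succ_log_self (b := 2) one_lt_two (Nm v)
        rw [hv.2] at h5
        exact h5.le
      exact_mod_cast h4.trans h3
    calc ∑ v ∈ P with Nat.log 2 (Nm v) = j, (Nm v : ℝ) ^ (-(3 / 2) : ℝ)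
        ≤ ∑ v ∈ P with Nat.log 2 (Nm v) = j,
          ((2 : ℝ) ^ j) ^ (-(3 / 2) : ℝ) := Finset.sum_le_sum h1
      _ = ((P.filter (fun v => Nat.log 2 (Nm v) = j)).card : ℝ) *
          ((2 : ℝ) ^ j) ^ (-(3 / 2) : ℝ) := by rw [Finset.sum_const, nsmul_eq_mul]
      _ ≤ C * 2 ^ (j + 1) * ((2 : ℝ) ^ j) ^ (-(3 / 2) : ℝ) :=
          mul_le_mul_of_nonneg_right h2 (by positivity)
      _ = 2 * C * r ^ j := by
          have h3 : r ^ j = 2 ^ j * ((2 : ℝ) ^ j) ^ (-(3 / 2) : ℝ) := by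
            rw [hr, ← Real.rpow_natCast, ← Real.rpow_mul two_pos.le]
            have h4 : (2 : ℝ) ^ j * ((2 : ℝ) ^ j) ^ (-(3 / 2) : ℝ) =
                ((2 : ℝ) ^ j) ^ (1 : ℝ) * ((2 : ℝ) ^ j) ^ (-(3 / 2) : ℝ) := by rw [Real.rpow_one]
            rw [h4, ← Real.rpow_add (by positivity), ← Real.rpow_natCast 2 j,
              ← Real.rpow_mul two_pos.le]
            congr 1
            ring
          rw [h3, pow_succ]
          ring
      _ ≤ 2 * (C + 1) * r ^ j := by
          have := pow_pos hr0 j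
          nlinarith
  refine (Finset.sum_le_sum hj).trans ?_
  rw [← Finset.mul_sum]
  refine mul_le_mul_of_nonneg_left ?_ (by positivity)
  rw [← tsum_geometric_of_lt_one hr0.le hr1]
  exact (summable_geometric_of_lt_one hr0.le hr1).sum_le_tsum _ (fun i _ => (pow_pos hr0 i).le)

/-- sums over the primes of a number field -/
theorem sum_primes (K : Type) [Field K] [NumberField K] : ∃ C : ℝ, 0 < C ∧
    ∀ P : Finset (HeightOneSpectrum (𝓞 K)),
      ∑ v ∈ P, (Ideal.absNorm v.asIdeal : ℝ) ^ (-(3 / 2) : ℝ) ≤ C := by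
  obtain ⟨C, hC⟩ := Pool.Agent.N530.DR.exists_primes_card K
  refine sum_norms (fun v : HeightOneSpectrum (𝓞 K) => Ideal.absNorm v.asIdeal) (fun v => ?_) C
    (fun X => Pool.Agent.N530.DR.finite_primes K X) hC
  rw [Ne, Ideal.absNorm_eq_zero_iff]
  exact v.ne_bot

end Pool.Agent.Helper89V
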