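import Mathlib
import Pool.Agent.Helper89V.Lem
import Pool.Agent.N394.CV.TypB
import Pool.Agent.N530.DR.Large2

/-!
# Project CV: the part of small primes with double zeros is rarely large
-/

set_option autoImplicit false

namespace Pool.Agent.Helper89V

open NumberField IsDedekindDomain Module Pool.Agent.N753.DR Pool.Agent.N147.DR

section

variable {K L : Type} [Field K] [NumberField K] [Field L] [NumberField L] [Algebra K L]

/-- the vectors for which the value of the linear form is in the ideal `b` -/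
noncomputable def Lam (K : Type) {L : Type} [Field K] [NumberField K] [Field L] [NumberField L]
    [Algebra K L] {m : ℕ} (β : Fin m → 𝓞 L) (b : Ideal (𝓞 L)) : AddSubgroup (Fin m → 𝓞 K) :=
  (Submodule.toAddSubgroup b).comap (evB K β)

theorem mem_Lam {m : ℕ} {β : Fin m → 𝓞 L} {b : Ideal (𝓞 L)} {c : Fin m → 𝓞 K} :
    c ∈ Lam K β b ↔ evB K β c ∈ b := Iff.rfl

theorem Lam_index_dvd {m : ℕ} (β : Fin m → 𝓞 L) (b : Ideal (𝓞 L)) :
    (Lam K β b).index ∣ Ideal.absNorm b := by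
  unfold Lam
  rw [AddSubgroup.index_comap, ← index_ideal]
  exact AddSubgroup.relIndex_dvd_index_of_normal _ _

theorem Lam_index_ne {m : ℕ} (β : Fin m → 𝓞 L) {b : Ideal (𝓞 L)} (hb : b ≠ ⊥) :
    (Lam K β b).index ≠ 0 := by
  intro h
  have h1 := Lam_index_dvd (K := K) β b
  rw [h] at h1
  exact hb (Ideal.absNorm_eq_zero_iff.1 (Nat.eq_zero_of_zero_dvd h1))

theorem Lam_index_le {m : ℕ} (β : Fin m → 𝓞 L) {b : Ideal (𝓞 L)} (hb : b ≠ ⊥) :
    (Lam K β b).index ≤ Ideal.absNorm b := by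
  refine Nat.le_of_dvd (Nat.pos_of_ne_zero ?_) (Lam_index_dvd β b)
  rw [Ne, Ideal.absNorm_eq_zero_iff]
  exact hb

theorem Lam_top {m : ℕ} (β : Fin m → 𝓞 L) : Lam K β ⊤ = ⊤ := by
  ext c
  simp [mem_Lam]

theorem Lam_index_pow {m : ℕ} {β : Fin m → 𝓞 L} {i0 : Fin m} {v : HeightOneSpectrum (𝓞 K)}
    {w : HeightOneSpectrum (𝓞 L)} (hw : w.asIdeal.LiesOver v.asIdeal) (hβ : β i0 ∉ w.asIdeal)
    (hunr : ∀ (e : ℕ) (c : 𝓞 K), algebraMap (𝓞 K) (𝓞 L) c ∈ w.asIdeal ^ e → c ∈ v.asIdeal ^ e)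
    (e : ℕ) : Ideal.absNorm v.asIdeal ^ e ≤ (Lam K β (w.asIdeal ^ e)).index := by
  have h0 := Lam_index_ne (K := K) β (pow_ne_zero e w.ne_bot : w.asIdeal ^ e ≠ ⊥)
  let g : 𝓞 K →+ (Fin m → 𝓞 K) := AddMonoidHom.single (fun _ : Fin m => 𝓞 K) i0
  have h1 := index_lower g (Lam K β (w.asIdeal ^ e)) h0
    (Submodule.toAddSubgroup (v.asIdeal ^ e)) (by
    intro c hc
    have hc' : evB K β (Pi.single i0 c) ∈ w.asIdeal ^ e := hc
    rw [Pool.Agent.N394.CV.evB_single] at hc'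
    have hp := w.isPrime
    rw [mul_comm] at hc'
    rcases Ideal.IsPrime.mul_mem_pow w.asIdeal hc' with h3 | h3
    · exact absurd h3 hβ
    · exact hunr e _ h3)
  rw [index_ideal, map_pow] at h1
  exact h1

theorem evB_smul {m : ℕ} (β : Fin m → 𝓞 L) (a : 𝓞 K) (c : Fin m → 𝓞 K) :
    evB K β (a • c) = algebraMap (𝓞 K) (𝓞 L) a * evB K β c := by
  show ∑ i, algebraMap (𝓞 K) (𝓞 L) ((a • c) i) * β i =
    algebraMap (𝓞 K) (𝓞 L) a * ∑ i, algebraMap (𝓞 K) (𝓞 L) (c i) * β i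
  rw [Finset.mul_sum]
  refine Finset.sum_congr rfl fun i _ => ?_
  rw [Pi.smul_apply, smul_eq_mul, map_mul, mul_assoc]

theorem coprime_primes {u v : HeightOneSpectrum (𝓞 K)} (h : u ≠ v) :
    IsCoprime u.asIdeal v.asIdeal := by
  rw [Ideal.isCoprime_iff_sup_eq]
  exact u.isMaximal.coprime_of_ne v.isMaximal fun h' => h (HeightOneSpectrum.ext h')

/-- independence of the conditions at different primes of `K` -/
theorem index_iInf {m : ℕ} (β : Fin m → 𝓞 L) {ι : Type} (s : Finset ι)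
    (p : ι → HeightOneSpectrum (𝓞 K)) (hp : Function.Injective p) (x : ι → Ideal (𝓞 L))
    (hx : ∀ i, ∃ k : ℕ, ∀ z ∈ (p i).asIdeal ^ k, algebraMap (𝓞 K) (𝓞 L) z ∈ x i) :
    (⨅ i ∈ s, Lam K β (x i)).index = ∏ i ∈ s, (Lam K β (x i)).index := by
  classical
  choose k hk using hx
  induction s using Finset.induction_on with
  | empty => simp
  | insert j s hj ih =>
    rw [Finset.iInf_insert, Finset.prod_insert hj, index_inf_of_sup, ih]
    have hcop : IsCoprime ((p j).asIdeal ^ k j) (∏ i ∈ s, (p i).asIdeal ^ k i) := by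
      refine IsCoprime.prod_right fun i hi => ?_
      exact (coprime_primes fun h => hj (by rw [hp h]; exact hi)).pow
    rw [Ideal.isCoprime_iff_exists] at hcop
    obtain ⟨a, ha, b, hb, hab⟩ := hcop
    rw [eq_top_iff]
    intro c _
    have h1 : c = a • c + b • c := by rw [← add_smul, hab, one_smul]
    rw [h1]
    refine AddSubgroup.add_mem_sup ?_ ?_
    · rw [mem_Lam, evB_smul]
      exact Ideal.mul_mem_right _ _ (hk j a ha)
    · simp only [AddSubgroup.mem_iInf]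
      intro i hi
      rw [mem_Lam, evB_smul]
      refine Ideal.mul_mem_right _ _ (hk i b ?_)
      exact (Ideal.prod_le_inf.trans (Finset.inf_le hi)) hb

/-- the number of vectors in a box with given conditions -/
theorem count_cond {m : ℕ} (β : Fin m → 𝓞 L) {ι : Type} [Fintype ι]
    (p : ι → HeightOneSpectrum (𝓞 K)) (hp : Function.Injective p) (x : ι → Ideal (𝓞 L))
    (hx0 : ∀ i, x i ≠ ⊥)
    (hx : ∀ i, ∃ k : ℕ, ∀ z ∈ (p i).asIdeal ^ k, algebraMap (𝓞 K) (𝓞 L) z ∈ x i)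
    (B : ℕ) (hB : ∏ i, Ideal.absNorm (x i) ≤ B) :
    ({c ∈ Bx K m B | ∀ i, evB K β c ∈ x i}.ncard : ℝ) ≤
      4 ^ (finrank ℚ K * m) * (B : ℝ) ^ (finrank ℚ K * m) *
        ∏ i, (1 / ((Lam K β (x i)).index : ℝ)) := by
  classical
  obtain ⟨φ, hφ⟩ := Pool.Agent.N530.DR.exists_coord K m _ rfl
  set Λ : AddSubgroup (Fin m → 𝓞 K) := ⨅ i ∈ (Finset.univ : Finset ι), Lam K β (x i) with hΛ
  have hidx : Λ.index = ∏ i, (Lam K β (x i)).index := index_iInf β _ p hp x hx
  have hne : Λ.index ≠ 0 := by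
    rw [hidx]
    exact Finset.prod_ne_zero_iff.2 fun i _ => Lam_index_ne β (hx0 i)
  have hle : Λ.index ≤ B := by
    rw [hidx]
    exact (Finset.prod_le_prod' fun i _ => Lam_index_le β (hx0 i)).trans hB
  have hc : (Λ.comap (φ : (Fin (finrank ℚ K * m) → ℤ) →+ (Fin m → 𝓞 K))).index = Λ.index :=
    AddSubgroup.index_comap_of_surjective _ φ.surjective
  have h1 := count_Z (Λ.comap (φ : (Fin (finrank ℚ K * m) → ℤ) →+ (Fin m → 𝓞 K)))
    (by rw [hc]; exact hne) B (by rw [hc]; exact hle)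
  rw [hc] at h1
  have h2 : {c ∈ Bx K m B | ∀ i, evB K β c ∈ x i} =
      φ '' {x | (∀ j, |x j| ≤ (B : ℤ)) ∧
        x ∈ Λ.comap (φ : (Fin (finrank ℚ K * m) → ℤ) →+ (Fin m → 𝓞 K))} := by
    ext c
    constructor
    · rintro ⟨hc1, hc2⟩
      refine ⟨φ.symm c, ⟨(hφ _ _).1 (by rw [φ.apply_symm_apply]; exact hc1), ?_⟩,
        φ.apply_symm_apply c⟩
      rw [AddSubgroup.mem_comap]
      show φ (φ.symm c) ∈ Λ
      rw [φ.apply_symm_apply, hΛ]
      simp only [AddSubgroup.mem_iInf]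
      intro i _
      exact hc2 i
    · rintro ⟨z, ⟨hz1, hz2⟩, rfl⟩
      refine ⟨(hφ _ _).2 hz1, fun i => ?_⟩
      rw [AddSubgroup.mem_comap] at hz2
      have hz3 : φ z ∈ Λ := hz2
      rw [hΛ] at hz3
      simp only [AddSubgroup.mem_iInf] at hz3
      exact hz3 i (Finset.mem_univ _)
  rw [h2, Set.ncard_image_of_injective _ φ.injective]
  refine h1.trans (le_of_eq ?_)
  rw [hidx, Finset.prod_div_distrib, Finset.prod_const_one]
  push_cast
  rw [mul_one_div]

/-- the norm of a prime above `v` -/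
theorem norm_le_pow {v : HeightOneSpectrum (𝓞 K)} {w : HeightOneSpectrum (𝓞 L)}
    (hw : w.asIdeal.LiesOver v.asIdeal) :
    Ideal.absNorm w.asIdeal ≤ Ideal.absNorm v.asIdeal ^ finrank K L := by
  have hmax : v.asIdeal.IsMaximal := v.isMaximal
  have := nzsd (K := K) (L := L)
  have h1 := Ideal.inertiaDeg_le_finrank (𝓞 L) K L w.asIdeal (p := v.asIdeal) v.ne_bot
  rw [norm_pow hw]
  exact Nat.pow_le_pow_right (by have := two_le_norm v; omega) h1

theorem typ_norm_le {v : HeightOneSpectrum (𝓞 K)} {b : Ideal (𝓞 L)} (hb : IsTyp v b) :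
    Ideal.absNorm b ≤ Ideal.absNorm v.asIdeal ^ (2 * finrank K L) := by
  have h2 : Ideal.absNorm v.asIdeal ^ (2 * finrank K L) =
      Ideal.absNorm v.asIdeal ^ finrank K L * Ideal.absNorm v.asIdeal ^ finrank K L := by
    rw [← pow_add, two_mul]
  obtain ⟨w, hw, rfl | ⟨w', hw', _, rfl⟩ | ⟨rfl, h⟩⟩ := hb
  · rw [pow_two, map_mul, h2]
    exact Nat.mul_le_mul (norm_le_pow hw) (norm_le_pow hw)
  · rw [map_mul, h2]
    exact Nat.mul_le_mul (norm_le_pow hw) (norm_le_pow hw')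
  · exact (norm_le_pow hw).trans (Nat.pow_le_pow_right (by have := two_le_norm v; omega) (by omega))

/-- the ideals which are used at `v` -/
noncomputable def Fv (v : HeightOneSpectrum (𝓞 K)) (L : Type) [Field L] [NumberField L]
    [Algebra K L] (E : ℕ) : Finset (Ideal (𝓞 L)) := by
  classical
  exact insert ⊤ ((typ_fin (L := L) v).1.toFinset ∪
    ((IsDedekindDomain.primesOverFinset v.asIdeal (𝓞 L)) ×ˢ Finset.Icc 2 E).image
      (fun p => p.1 ^ p.2))

theorem mem_Fv {v : HeightOneSpectrum (𝓞 K)} {E : ℕ} {y : Ideal (𝓞 L)} :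
    y ∈ Fv v L E ↔ y = ⊤ ∨ IsTyp v y ∨ ∃ w : HeightOneSpectrum (𝓞 L),
      w.asIdeal.LiesOver v.asIdeal ∧ ∃ e, 2 ≤ e ∧ e ≤ E ∧ y = w.asIdeal ^ e := by
  classical
  have hmax : v.asIdeal.IsMaximal := v.isMaximal
  have := nzsd (K := K) (L := L)
  unfold Fv
  rw [Finset.mem_insert, Finset.mem_union, Set.Finite.mem_toFinset, Finset.mem_image]
  refine or_congr Iff.rfl (or_congr Iff.rfl ?_)
  constructor
  · rintro ⟨⟨w, e⟩, h1, rfl⟩
    rw [Finset.mem_product, Finset.mem_Icc,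
      IsDedekindDomain.mem_primesOverFinset_iff v.ne_bot] at h1
    obtain ⟨⟨h1, h2⟩, h3, h4⟩ := h1
    have h2' : w.LiesOver v.asIdeal := h2
    have hb : w ≠ ⊥ := Ideal.ne_bot_of_liesOver_of_ne_bot v.ne_bot w
    exact ⟨⟨w, h1, hb⟩, h2', e, h3, h4, rfl⟩
  · rintro ⟨w, hw, e, h3, h4, rfl⟩
    refine ⟨(w.asIdeal, e), ?_, rfl⟩
    rw [Finset.mem_product, Finset.mem_Icc,
      IsDedekindDomain.mem_primesOverFinset_iff v.ne_bot]
    exact ⟨⟨w.isPrime, hw⟩, h3, h4⟩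

/-- sums over an image -/
theorem sum_image_le' {α β : Type} [DecidableEq β] (s : Finset α) (f : α → β) (g : β → ℝ)
    (hg : ∀ b, 0 ≤ g b) : ∑ b ∈ s.image f, g b ≤ ∑ a ∈ s, g (f a) := by
  rw [← Finset.sum_fiberwise_of_maps_to (t := s.image f) (g := f)
    (fun a ha => Finset.mem_image_of_mem f ha)]
  refine Finset.sum_le_sum fun b hb => ?_
  obtain ⟨a, ha, rfl⟩ := Finset.mem_image.1 hb
  exact Finset.single_le_sum (f := fun a => g (f a)) (fun _ _ => hg _)
    (Finset.mem_filter.2 ⟨ha, rfl⟩)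

/-- the weight of an ideal -/
noncomputable def wt (K : Type) {L : Type} [Field K] [NumberField K] [Field L] [NumberField L]
    [Algebra K L] {m : ℕ} (β : Fin m → 𝓞 L) (b : Ideal (𝓞 L)) : ℝ :=
  (Ideal.absNorm b : ℝ) ^ (1 / (4 * (finrank K L : ℝ))) * (1 / ((Lam K β b).index : ℝ))

theorem wt_nonneg {m : ℕ} (β : Fin m → 𝓞 L) (b : Ideal (𝓞 L)) : 0 ≤ wt K β b := by
  unfold wt; positivity

/-- the local sum -/
theorem local_sum {m : ℕ} {β : Fin m → 𝓞 L} {i0 : Fin m} {v : HeightOneSpectrum (𝓞 K)}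
    (hβ : ∀ w : HeightOneSpectrum (𝓞 L), w.asIdeal.LiesOver v.asIdeal → β i0 ∉ w.asIdeal)
    (hunr : ∀ w : HeightOneSpectrum (𝓞 L), w.asIdeal.LiesOver v.asIdeal → ∀ (e : ℕ) (c : 𝓞 K),
      algebraMap (𝓞 K) (𝓞 L) c ∈ w.asIdeal ^ e → c ∈ v.asIdeal ^ e)
    (hidx : ∀ b : Ideal (𝓞 L), IsTyp v b →
      Ideal.absNorm v.asIdeal ^ 2 ≤ (Lam K β b).index) (E : ℕ) :
    ∑ y ∈ Fv v L E, wt K β y ≤
      1 + 5 * (finrank K L : ℝ) ^ 2 * (Ideal.absNorm v.asIdeal : ℝ) ^ (-(3 / 2) : ℝ) := by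
  classical
  have hmax : v.asIdeal.IsMaximal := v.isMaximal
  have := nzsd (K := K) (L := L)
  have hfd : FiniteDimensional K L := FiniteDimensional.right ℚ K L
  have hd1 : 1 ≤ finrank K L := finrank_pos
  set d := finrank K L with hd
  have hd0 : (0 : ℝ) < d := by exact_mod_cast hd1
  set q : ℝ := (Ideal.absNorm v.asIdeal : ℝ) with hq
  have hq2 : (2 : ℝ) ≤ q := by rw [hq]; exact_mod_cast two_le_norm v
  have hq0 : 0 < q := by linarith
  set s : ℝ := q ^ (-(3 / 4) : ℝ) with hs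
  have hs0 : 0 < s := Real.rpow_pos_of_pos hq0 _
  have hs2 : s ^ 2 = q ^ (-(3 / 2) : ℝ) := by
    rw [hs, ← Real.rpow_natCast, ← Real.rpow_mul hq0.le]
    norm_num
  have hs23 : s ≤ 2 / 3 := by
    have h1 : s ≤ (2 : ℝ) ^ (-(3 / 4) : ℝ) :=
      Real.rpow_le_rpow_of_nonpos two_pos hq2 (by norm_num)
    refine h1.trans ?_
    have h2 : ((2 : ℝ) ^ (-(3 / 4) : ℝ)) ^ 4 ≤ (2 / 3) ^ 4 := by
      rw [← Real.rpow_natCast, ← Real.rpow_mul two_pos.le]
      norm_num
    exact le_of_pow_le_pow_left₀ (by norm_num) (by norm_num) h2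
  -- norms
  have hnorm : ∀ (k : ℕ) (y : Ideal (𝓞 L)), Ideal.absNorm y ≤ Ideal.absNorm v.asIdeal ^ (d * k) →
      (Ideal.absNorm y : ℝ) ^ (1 / (4 * (d : ℝ))) ≤ q ^ ((k : ℝ) / 4) := by
    intro k y hy
    have h1 : (Ideal.absNorm y : ℝ) ≤ q ^ (d * k) := by rw [hq]; exact_mod_cast hy
    refine (Real.rpow_le_rpow (Nat.cast_nonneg _) h1 (by positivity)).trans (le_of_eq ?_)
    rw [← Real.rpow_natCast, ← Real.rpow_mul hq0.le]
    congr 1
    push_cast
    field_simp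
  have hwt : ∀ (k : ℕ) (y : Ideal (𝓞 L)), Ideal.absNorm y ≤ Ideal.absNorm v.asIdeal ^ (d * k) →
      Ideal.absNorm v.asIdeal ^ k ≤ (Lam K β y).index → wt K β y ≤ s ^ k := by
    intro k y h1 h2
    have h3 := hnorm k y h1
    have h4 : q ^ k ≤ ((Lam K β y).index : ℝ) := by rw [hq]; exact_mod_cast h2
    have h5 : 0 < q ^ k := by positivity
    have h6 : (1 / ((Lam K β y).index : ℝ)) ≤ 1 / q ^ k := one_div_le_one_div_of_le h5 h4
    unfold wt
    rw [← hd]
    calc (Ideal.absNorm y : ℝ) ^ (1 / (4 * (d : ℝ))) * (1 / ((Lam K β y).index : ℝ)) ≤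
        q ^ ((k : ℝ) / 4) * (1 / q ^ k) := mul_le_mul h3 h6 (by positivity) (by positivity)
      _ = s ^ k := by
        rw [hs, ← Real.rpow_natCast (q ^ (-(3 / 4) : ℝ)), ← Real.rpow_mul hq0.le, one_div,
          ← Real.rpow_natCast q k, ← Real.rpow_neg hq0.le, ← Real.rpow_add hq0]
        congr 1
        ring
  have htop : wt K β ⊤ = 1 := by
    unfold wt
    rw [Lam_top, Ideal.absNorm_top, AddSubgroup.index_top]
    simp
  have h1 : ∑ y ∈ (typ_fin (L := L) v).1.toFinset, wt K β y ≤ 2 * (d : ℝ) ^ 2 * s ^ 2 := by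
    have h2 : ∀ y ∈ (typ_fin (L := L) v).1.toFinset, wt K β y ≤ s ^ 2 := by
      intro y hy
      rw [Set.Finite.mem_toFinset] at hy
      exact hwt 2 y (by rw [mul_comm]; exact typ_norm_le hy) (hidx y hy)
    refine (Finset.sum_le_card_nsmul _ _ _ h2).trans ?_
    rw [nsmul_eq_mul]
    refine mul_le_mul_of_nonneg_right ?_ (by positivity)
    have h3 := (typ_fin (L := L) v).2
    rw [Set.ncard_eq_toFinset_card _ (typ_fin (L := L) v).1] at h3
    exact_mod_cast h3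
  have h2 : ∑ y ∈ ((IsDedekindDomain.primesOverFinset v.asIdeal (𝓞 L)) ×ˢ Finset.Icc 2 E).image
      (fun p => p.1 ^ p.2), wt K β y ≤ d * (3 * s ^ 2) := by
    refine (sum_image_le' _ _ _ (wt_nonneg β)).trans ?_
    rw [Finset.sum_product]
    have h3 : ∀ w ∈ IsDedekindDomain.primesOverFinset v.asIdeal (𝓞 L),
        ∑ e ∈ Finset.Icc 2 E, wt K β (w ^ e) ≤ 3 * s ^ 2 := by
      intro w hw
      rw [IsDedekindDomain.mem_primesOverFinset_iff v.ne_bot] at hw
      obtain ⟨hw1, hw2⟩ := hw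
      have hw2' : w.LiesOver v.asIdeal := hw2
      have hb : w ≠ ⊥ := Ideal.ne_bot_of_liesOver_of_ne_bot v.ne_bot w
      have h4 : ∀ e ∈ Finset.Icc 2 E, wt K β (w ^ e) ≤ s ^ e := by
        intro e _
        refine hwt e (w ^ e) ?_ (Lam_index_pow (v := v) (w := ⟨w, hw1, hb⟩) hw2'
          (hβ ⟨w, hw1, hb⟩ hw2') (hunr ⟨w, hw1, hb⟩ hw2') e)
        rw [map_pow, pow_mul]
        exact Nat.pow_le_pow_left (norm_le_pow (v := v) (w := ⟨w, hw1, hb⟩) hw2') e
      refine (Finset.sum_le_sum h4).trans ?_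
      have h5 : ∑ e ∈ Finset.Icc 2 E, s ^ e ≤ ∑ j ∈ Finset.range E, s ^ (j + 2) := by
        refine (Finset.sum_le_sum_of_subset_of_nonneg (t := Finset.Ico 2 (E + 2)) ?_ ?_).trans
          (le_of_eq ?_)
        · intro e he
          rw [Finset.mem_Icc] at he
          rw [Finset.mem_Ico]
          omega
        · intro i _ _
          positivity
        · rw [Finset.sum_Ico_eq_sum_range]
          refine Finset.sum_congr (by congr 1) fun j _ => ?_
          rw [add_comm]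
      refine h5.trans ?_
      have h6 : ∑ j ∈ Finset.range E, s ^ (j + 2) = (∑ j ∈ Finset.range E, s ^ j) * s ^ 2 := by
        rw [Finset.sum_mul]
        exact Finset.sum_congr rfl fun j _ => pow_add _ _ _
      rw [h6]
      refine mul_le_mul_of_nonneg_right ?_ (by positivity)
      have h7 : ∑ j ∈ Finset.range E, s ^ j ≤ (1 - s)⁻¹ := by
        rw [← tsum_geometric_of_lt_one hs0.le (by linarith)]
        exact (summable_geometric_of_lt_one hs0.le (by linarith)).sum_le_tsum _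
          (fun i _ => (pow_pos hs0 i).le)
      refine h7.trans ?_
      rw [inv_le_comm₀ (by linarith) (by norm_num)]
      linarith
    refine (Finset.sum_le_card_nsmul _ _ _ h3).trans ?_
    rw [nsmul_eq_mul]
    refine mul_le_mul_of_nonneg_right ?_ (by positivity)
    exact_mod_cast Ideal.card_primesOverFinset_le_finrank (𝓞 L) K L v.ne_bot
  unfold Fv
  set U1 := (typ_fin (L := L) v).1.toFinset with hU1
  set U2 := ((IsDedekindDomain.primesOverFinset v.asIdeal (𝓞 L)) ×ˢ Finset.Icc 2 E).image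
      (fun p => p.1 ^ p.2) with hU2
  have h3 : ∑ y ∈ U1 ∪ U2, wt K β y ≤ ∑ y ∈ U1, wt K β y + ∑ y ∈ U2, wt K β y := by
    rw [← Finset.sum_union_inter]
    have := Finset.sum_nonneg fun y (_ : y ∈ U1 ∩ U2) => wt_nonneg (K := K) β y
    linarith
  have h4 : ∑ y ∈ insert ⊤ (U1 ∪ U2), wt K β y ≤ wt K β ⊤ + ∑ y ∈ U1 ∪ U2, wt K β y := by
    by_cases h : ⊤ ∈ U1 ∪ U2
    · rw [Finset.insert_eq_of_mem h]
      have := wt_nonneg (K := K) β ⊤
      linarith
    · rw [Finset.sum_insert h]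
  have h5 : (d : ℝ) * (3 * s ^ 2) ≤ 3 * (d : ℝ) ^ 2 * s ^ 2 := by
    have h6 : (d : ℝ) ≤ (d : ℝ) ^ 2 := by
      have : (1 : ℝ) ≤ d := by exact_mod_cast hd1
      nlinarith
    have h7 : 0 ≤ s ^ 2 := by positivity
    nlinarith
  rw [← hs2]
  linarith

theorem Fv_props {v : HeightOneSpectrum (𝓞 K)} {E : ℕ} {y : Ideal (𝓞 L)} (hy : y ∈ Fv v L E) :
    y ≠ ⊥ ∧ ∃ k : ℕ, ∀ z ∈ v.asIdeal ^ k, algebraMap (𝓞 K) (𝓞 L) z ∈ y := by
  have hmap : ∀ w : HeightOneSpectrum (𝓞 L), w.asIdeal.LiesOver v.asIdeal →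
      v.asIdeal.map (algebraMap (𝓞 K) (𝓞 L)) ≤ w.asIdeal := by
    intro w hw
    rw [Ideal.map_le_iff_le_comap]
    intro z hz
    exact (under_mem hw z).2 hz
  have hpow : ∀ (k : ℕ) (z : 𝓞 K), z ∈ v.asIdeal ^ k →
      algebraMap (𝓞 K) (𝓞 L) z ∈ (v.asIdeal.map (algebraMap (𝓞 K) (𝓞 L))) ^ k := by
    intro k z hz
    rw [← Ideal.map_pow]
    exact Ideal.mem_map_of_mem _ hz
  rcases mem_Fv.1 hy with rfl | h | ⟨w, hw, e, _, _, rfl⟩
  · exact ⟨top_ne_bot, 0, fun z _ => Submodule.mem_top⟩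
  · refine ⟨(typ_norm h).1, ?_⟩
    obtain ⟨w, hw, rfl | ⟨w', hw', _, rfl⟩ | ⟨rfl, h⟩⟩ := h
    · exact ⟨2, fun z hz => Ideal.pow_right_mono (hmap w hw) 2 (hpow 2 z hz)⟩
    · refine ⟨2, fun z hz => ?_⟩
      have h1 := hpow 2 z hz
      rw [pow_two] at h1
      exact Ideal.mul_mono (hmap w hw) (hmap w' hw') h1
    · refine ⟨1, fun z hz => ?_⟩
      have h1 := hpow 1 z hz
      rw [pow_one] at h1
      exact hmap w hw h1
  · exact ⟨pow_ne_zero e w.ne_bot, e, fun z hz => Ideal.pow_right_mono (hmap w hw) e (hpow e z hz)⟩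

theorem two_le_normL (w : HeightOneSpectrum (𝓞 L)) : 2 ≤ Ideal.absNorm w.asIdeal := by
  have h0 : Ideal.absNorm w.asIdeal ≠ 0 := by
    rw [Ne, Ideal.absNorm_eq_zero_iff]; exact w.ne_bot
  have h1 : Ideal.absNorm w.asIdeal ≠ 1 := by
    rw [Ne, Ideal.absNorm_eq_one_iff]; exact w.isPrime.ne_top
  omega

/-- the ideal used at `v`, for one vector -/
theorem choose_v {m : ℕ} {β : Fin m → 𝓞 L} {v : HeightOneSpectrum (𝓞 K)} {c : Fin m → 𝓞 K}
    {t : Ideal (𝓞 L)} (ht : IsTyp v t) (htc : evB K β c ∈ t)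
    (W : Finset (HeightOneSpectrum (𝓞 L))) (hW : ∀ w ∈ W, w.asIdeal.LiesOver v.asIdeal)
    (e : HeightOneSpectrum (𝓞 L) → ℕ) (hWe : ∀ w ∈ W, evB K β c ∈ w.asIdeal ^ e w)
    (B : ℕ) (hB : 1 ≤ B) (T : ℝ) (hT1 : T ≤ Real.log B)
    (hT : 2 * (finrank K L : ℝ) * lN v ≤ T) :
    ∃ y ∈ Fv v L B, evB K β c ∈ y ∧ 0 ≤ Real.log (Ideal.absNorm y : ℝ) ∧
      Real.log (Ideal.absNorm y : ℝ) ≤ T ∧ (T / 2 ≤ Real.log (Ideal.absNorm y : ℝ) ∨
        ∑ w ∈ W, e w * lN w ≤ (finrank K L : ℝ) ^ 2 * Real.log (Ideal.absNorm y : ℝ)) := by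
  classical
  have hmax : v.asIdeal.IsMaximal := v.isMaximal
  have := nzsd (K := K) (L := L)
  have hfd : FiniteDimensional K L := FiniteDimensional.right ℚ K L
  have hd1 : 1 ≤ finrank K L := finrank_pos
  have hWd : W.card ≤ finrank K L := by
    refine le_trans ?_ (Ideal.card_primesOverFinset_le_finrank (𝓞 L) K L v.ne_bot)
    refine Finset.card_le_card_of_injOn (fun w => w.asIdeal) ?_ ?_
    · intro w hw
      rw [Finset.mem_coe, IsDedekindDomain.mem_primesOverFinset_iff v.ne_bot]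
      exact ⟨w.isPrime, hW w hw⟩
    · intro w _ w' _ h
      exact HeightOneSpectrum.ext h
  set d := finrank K L with hd
  have hd1' : (1 : ℝ) ≤ d := by exact_mod_cast hd1
  have hWd' : (W.card : ℝ) ≤ d := by exact_mod_cast hWd
  have hv2 : (2 : ℝ) ≤ (Ideal.absNorm v.asIdeal : ℝ) := by exact_mod_cast two_le_norm v
  have hv0 : 0 < lN v := Real.log_pos (by linarith)
  have hlw : ∀ w ∈ W, 0 < lN w ∧ lN w ≤ d * lN v := by
    intro w hw
    have h1 : (2 : ℝ) ≤ (Ideal.absNorm w.asIdeal : ℝ) := by exact_mod_cast two_le_normL w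
    refine ⟨Real.log_pos (by linarith), ?_⟩
    have h2 : (Ideal.absNorm w.asIdeal : ℝ) ≤ (Ideal.absNorm v.asIdeal : ℝ) ^ d := by
      exact_mod_cast norm_le_pow (hW w hw)
    have h3 := Real.log_le_log (by linarith) h2
    rw [Real.log_pow] at h3
    exact h3
  -- the type
  have ht1 : 2 * lN v ≤ Real.log (Ideal.absNorm t : ℝ) := by
    have h2 : (Ideal.absNorm v.asIdeal : ℝ) ^ 2 ≤ (Ideal.absNorm t : ℝ) := by
      exact_mod_cast (typ_norm ht).2
    have h3 := Real.log_le_log (by positivity) h2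
    rw [Real.log_pow] at h3
    exact_mod_cast h3
  have ht2 : Real.log (Ideal.absNorm t : ℝ) ≤ 2 * d * lN v := by
    have h2 : (Ideal.absNorm t : ℝ) ≤ (Ideal.absNorm v.asIdeal : ℝ) ^ (2 * d) := by
      exact_mod_cast typ_norm_le ht
    have h0 : (0 : ℝ) < (Ideal.absNorm t : ℝ) := by
      have h4 : (Ideal.absNorm v.asIdeal : ℝ) ^ 2 ≤ (Ideal.absNorm t : ℝ) := by
        exact_mod_cast (typ_norm ht).2
      have h5 : (0 : ℝ) < (Ideal.absNorm v.asIdeal : ℝ) ^ 2 := by positivity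
      linarith
    have h3 := Real.log_le_log h0 h2
    rw [Real.log_pow] at h3
    push_cast at h3
    exact h3
  by_cases hA : ∀ w ∈ W, e w * lN w ≤ d * Real.log (Ideal.absNorm t : ℝ)
  · refine ⟨t, mem_Fv.2 (Or.inr (Or.inl ht)), htc, by linarith, by linarith, Or.inr ?_⟩
    refine (Finset.sum_le_card_nsmul _ _ _ hA).trans ?_
    rw [nsmul_eq_mul, pow_two, mul_assoc]
    refine mul_le_mul_of_nonneg_right hWd' ?_
    have : 0 ≤ Real.log (Ideal.absNorm t : ℝ) := by linarith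
    positivity
  · push Not at hA
    obtain ⟨w1, hw1, h1⟩ := hA
    obtain ⟨w0, hw0, h0⟩ := Finset.exists_max_image W (fun w => e w * lN w) ⟨w1, hw1⟩
    have h2 : d * Real.log (Ideal.absNorm t : ℝ) < e w0 * lN w0 := lt_of_lt_of_le h1 (h0 w1 hw1)
    obtain ⟨hl0, hl1⟩ := hlw w0 hw0
    have h3 : 2 * lN w0 < e w0 * lN w0 := by
      refine lt_of_le_of_lt ?_ h2
      have : 2 * lN w0 ≤ d * (2 * lN v) := by linarith
      refine this.trans (mul_le_mul_of_nonneg_left ht1 (by positivity))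
    have h4 : 2 < (e w0 : ℝ) := lt_of_mul_lt_mul_right h3 hl0.le
    have h4' : 2 < e w0 := by exact_mod_cast h4
    have hT2 : 2 ≤ T / lN w0 := by
      rw [le_div_iff₀ hl0]
      nlinarith
    set k := ⌊T / lN w0⌋₊ with hk
    have hk2 : 2 ≤ k := Nat.le_floor (by exact_mod_cast hT2)
    have hkT : (k : ℝ) * lN w0 ≤ T := by
      rw [← le_div_iff₀ hl0]
      exact Nat.floor_le (by linarith)
    set e' := min (e w0) k with he'
    have he2 : 2 ≤ e' := le_min (by omega) hk2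
    have hlog : Real.log (Ideal.absNorm (w0.asIdeal ^ e') : ℝ) = e' * lN w0 := by
      rw [map_pow, Nat.cast_pow, Real.log_pow]
      rfl
    have hek : (e' : ℝ) ≤ k := by exact_mod_cast min_le_right _ _
    have hlT : Real.log (Ideal.absNorm (w0.asIdeal ^ e') : ℝ) ≤ T := by
      rw [hlog]
      exact (mul_le_mul_of_nonneg_right hek hl0.le).trans hkT
    have heB : e' ≤ B := by
      have h5 : (1 : ℝ) ≤ (B : ℝ) := by exact_mod_cast hB
      have h6 : (0 : ℝ) < (Ideal.absNorm (w0.asIdeal ^ e') : ℝ) := by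
        rw [map_pow]
        have := two_le_normL w0
        positivity
      have h7 : (Ideal.absNorm (w0.asIdeal ^ e') : ℝ) ≤ B :=
        (Real.log_le_log_iff h6 (by linarith)).1 (hlT.trans hT1)
      have h8 : Ideal.absNorm (w0.asIdeal ^ e') ≤ B := by exact_mod_cast h7
      have h9 : 2 ^ e' ≤ Ideal.absNorm (w0.asIdeal ^ e') := by
        rw [map_pow]
        exact Nat.pow_le_pow_left (two_le_normL w0) e'
      exact (Nat.lt_two_pow_self.trans_le (h9.trans h8)).le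
    refine ⟨w0.asIdeal ^ e', mem_Fv.2 (Or.inr (Or.inr ⟨w0, hW w0 hw0, e', he2, heB, rfl⟩)),
      Ideal.pow_le_pow_right (min_le_left _ _) (hWe w0 hw0), ?_, hlT, ?_⟩
    · rw [hlog]; positivity
    · rcases le_or_gt (e w0) k with h5 | h5
      · right
        have h6 : e' = e w0 := min_eq_left h5
        rw [hlog, h6]
        refine (Finset.sum_le_card_nsmul _ _ _ h0).trans ?_
        rw [nsmul_eq_mul]
        have h7 : 0 ≤ (e w0 : ℝ) * lN w0 := by positivity
        have h8 : (W.card : ℝ) ≤ (d : ℝ) ^ 2 := hWd'.trans (by nlinarith)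
        exact mul_le_mul_of_nonneg_right h8 h7
      · left
        have h6 : e' = k := min_eq_right h5.le
        rw [hlog, h6]
        have h7 : T / lN w0 < k + 1 := Nat.lt_floor_add_one _
        rw [div_lt_iff₀ hl0] at h7
        nlinarith

theorem ncard_biUnion_le' {α β : Type} (T : Finset β) (f : β → Set α) :
    (⋃ b ∈ T, f b).ncard ≤ ∑ b ∈ T, (f b).ncard := by
  classical
  induction T using Finset.induction_on with
  | empty => simp
  | insert x T hx ih =>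
    rw [Finset.set_biUnion_insert, Finset.sum_insert hx]
    exact (Set.ncard_union_le _ _).trans (Nat.add_le_add_left ih _)

end

/-- **CV/SMALLB** the part of small primes with double zeros is rarely large -/
theorem smallB : StmSmallB := by
  classical
  intro K L _ _ _ _ _ m β i0 i1 h0 hgen
  obtain ⟨Bad, hBad⟩ := Pool.Agent.N394.CV.t K L m β i0 i1 h0 hgen
  refine ⟨Bad, fun κ hκ => ?_⟩
  have hfd : FiniteDimensional K L := FiniteDimensional.right ℚ K L
  have hd1 : 1 ≤ finrank K L := finrank_pos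
  obtain ⟨C1, hC1, hsum⟩ := sum_primes K
  set d := finrank K L with hd
  have hd1' : (1 : ℝ) ≤ d := by exact_mod_cast hd1
  have hd0 : (0 : ℝ) < d := by linarith
  set N := finrank ℚ K * m with hN
  set τ : ℝ := min (1 / 2) (κ / (d : ℝ) ^ 2) with hτ
  have hτ0 : 0 < τ := lt_min (by norm_num) (by positivity)
  have hτ1 : τ ≤ 1 / 2 := min_le_left _ _
  have hτ2 : (d : ℝ) ^ 2 * τ ≤ κ := by
    have h1 : τ ≤ κ / (d : ℝ) ^ 2 := min_le_right _ _
    rw [le_div_iff₀ (by positivity)] at h1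
    linarith
  set cc : ℝ := 1 / (4 * (d : ℝ)) with hcc
  have hcc0 : 0 < cc := by positivity
  refine ⟨τ / (2 * d), τ / 2 * cc, 4 ^ N * Real.exp (5 * (d : ℝ) ^ 2 * C1), by positivity,
    by positivity, fun B hB => ?_⟩
  have hB1 : (1 : ℝ) ≤ B := by exact_mod_cast hB
  have hB0 : (0 : ℝ) < B := by linarith
  have hlB : 0 ≤ Real.log B := Real.log_nonneg hB1
  set P : Finset (HeightOneSpectrum (𝓞 K)) :=
    (Pool.Agent.N530.DR.finite_primes K B).toFinset.filter (fun v => v ∉ Bad) with hP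
  have hPm : ∀ v, v ∈ P ↔ Ideal.absNorm v.asIdeal ≤ B ∧ v ∉ Bad := by
    intro v
    rw [hP, Finset.mem_filter, Set.Finite.mem_toFinset]
    rfl
  set codes : Finset ((v : ↥P) → Ideal (𝓞 L)) :=
    (Fintype.piFinset fun v : ↥P => Fv v.1 L B).filter (fun x =>
      (B : ℝ) ^ (τ / 2) ≤ ∏ v, (Ideal.absNorm (x v) : ℝ) ∧
        (∏ v, (Ideal.absNorm (x v) : ℝ)) ≤ B) with hcodes
  set A : ((v : ↥P) → Ideal (𝓞 L)) → Set (Fin m → 𝓞 K) :=
    fun x => {c ∈ Bx K m B | ∀ v, evB K β c ∈ x v} with hA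
  have hbadd : ∀ v : ↥P, v.1 ∉ Bad := fun v => ((hPm v.1).1 v.2).2
  -- each code
  have hcard : ∀ x ∈ codes, ((A x).ncard : ℝ) ≤
      4 ^ N * (B : ℝ) ^ N * (B : ℝ) ^ (-(τ / 2 * cc)) * ∏ v, wt K β (x v) := by
    intro x hx
    rw [hcodes, Finset.mem_filter, Fintype.mem_piFinset] at hx
    obtain ⟨hx1, hx2, hx3⟩ := hx
    have h1 := count_cond (K := K) β (fun v : ↥P => v.1) Subtype.val_injective x
      (fun v => (Fv_props (hx1 v)).1) (fun v => (Fv_props (hx1 v)).2) B (by exact_mod_cast hx3)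
    refine h1.trans ?_
    rw [mul_assoc (4 ^ N * (B : ℝ) ^ N)]
    refine mul_le_mul_of_nonneg_left ?_ (by positivity)
    have h2 : ∏ v, wt K β (x v) = (∏ v, (Ideal.absNorm (x v) : ℝ)) ^ cc *
        ∏ v, (1 / ((Lam K β (x v)).index : ℝ)) := by
      unfold wt
      rw [Finset.prod_mul_distrib, Real.finsetProd_rpow _ _ (fun v _ => Nat.cast_nonneg _)]
    rw [h2, ← mul_assoc]
    refine le_mul_of_one_le_left (Finset.prod_nonneg fun v _ => by positivity) ?_
    have h3 : ((B : ℝ) ^ (τ / 2)) ^ cc ≤ (∏ v, (Ideal.absNorm (x v) : ℝ)) ^ cc :=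
      Real.rpow_le_rpow (by positivity) hx2 hcc0.le
    rw [← Real.rpow_mul hB0.le] at h3
    rw [Real.rpow_neg hB0.le]
    have h4 : 0 < (B : ℝ) ^ (τ / 2 * cc) := by positivity
    rw [inv_mul_eq_div, le_div_iff₀ h4, one_mul]
    exact h3
  -- the sum over the codes
  have hall : ∑ x ∈ codes, ∏ v, wt K β (x v) ≤ Real.exp (5 * (d : ℝ) ^ 2 * C1) := by
    have h1 : ∑ x ∈ codes, ∏ v, wt K β (x v) ≤
        ∑ x ∈ Fintype.piFinset (fun v : ↥P => Fv v.1 L B), ∏ v, wt K β (x v) :=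
      Finset.sum_le_sum_of_subset_of_nonneg (Finset.filter_subset _ _)
        (fun x _ _ => Finset.prod_nonneg fun v _ => wt_nonneg β _)
    refine h1.trans ?_
    rw [← Finset.prod_univ_sum (fun v : ↥P => Fv v.1 L B) (fun _ y => wt K β y)]
    have h2 : ∀ v : ↥P, ∑ y ∈ Fv v.1 L B, wt K β y ≤
        Real.exp (5 * (d : ℝ) ^ 2 * (Ideal.absNorm v.1.asIdeal : ℝ) ^ (-(3 / 2) : ℝ)) := by
      intro v
      obtain ⟨b1, b2, -, -, b5, -, -, -⟩ := hBad v.1 (hbadd v)
      refine (local_sum (K := K) b1 b2 (fun b hb => ?_) B).trans ?_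
      · have := (b5 b hb m id Function.injective_id ⟨i0, rfl⟩ (Or.inl ⟨i1, rfl⟩)).2
        exact this
      · rw [add_comm]
        exact Real.add_one_le_exp _
    refine (Finset.prod_le_prod (fun v _ => Finset.sum_nonneg fun y _ => wt_nonneg β y)
      (fun v _ => h2 v)).trans ?_
    rw [← Real.exp_sum, ← Finset.mul_sum]
    refine Real.exp_le_exp.2 (mul_le_mul_of_nonneg_left ?_ (by positivity))
    have h3 := hsum P
    rw [← Finset.sum_coe_sort] at h3
    exact h3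
  -- the codes cover
  have hsub : {c ∈ Bx K m B | ∃ W : Finset (HeightOneSpectrum (𝓞 L)),
      (∀ w ∈ W, ∃ v ∉ Bad, w.asIdeal.LiesOver v.asIdeal ∧
        (Ideal.absNorm v.asIdeal : ℝ) ≤ (B : ℝ) ^ (τ / (2 * d)) ∧ NSB β c v) ∧
      ∃ e : HeightOneSpectrum (𝓞 L) → ℕ, (∀ w ∈ W, evB K β c ∈ w.asIdeal ^ e w) ∧
        κ * Real.log B ≤ ∑ w ∈ W, e w * lN w} ⊆ ⋃ x ∈ codes, A x := by
    rintro c ⟨hcB, W, hW, e, hWe, hκB⟩
    set V : Finset (HeightOneSpectrum (𝓞 K)) := P.filter (fun v =>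
      (Ideal.absNorm v.asIdeal : ℝ) ≤ (B : ℝ) ^ (τ / (2 * d)) ∧ NSB β c v) with hV
    have hVm : ∀ v, v ∈ V ↔ v ∈ P ∧ (Ideal.absNorm v.asIdeal : ℝ) ≤ (B : ℝ) ^ (τ / (2 * d)) ∧
        NSB β c v := by
      intro v; rw [hV, Finset.mem_filter]
    have hch : ∀ v, v ∈ V → ∃ y : Ideal (𝓞 L), y ∈ Fv v L B ∧ evB K β c ∈ y ∧
        0 ≤ Real.log (Ideal.absNorm y : ℝ) ∧
        Real.log (Ideal.absNorm y : ℝ) ≤ τ * Real.log B ∧
        (τ * Real.log B / 2 ≤ Real.log (Ideal.absNorm y : ℝ) ∨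
        ∑ w ∈ W.filter (fun w => w.asIdeal.LiesOver v.asIdeal), e w * lN w ≤
          (d : ℝ) ^ 2 * Real.log (Ideal.absNorm y : ℝ)) := by
      intro v hv
      rw [hVm] at hv
      obtain ⟨hv1, hv2, t, ht, htc⟩ := hv
      have hT : 2 * (finrank K L : ℝ) * lN v ≤ τ * Real.log B := by
        have h1 : (0 : ℝ) < (Ideal.absNorm v.asIdeal : ℝ) := by
          have := two_le_norm v
          positivity
        have h2 := Real.log_le_log h1 hv2
        rw [Real.log_rpow hB0] at h2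
        have h3 : lN v ≤ τ / (2 * d) * Real.log B := h2
        calc 2 * (finrank K L : ℝ) * lN v ≤ 2 * d * (τ / (2 * d) * Real.log B) :=
              mul_le_mul_of_nonneg_left h3 (by positivity)
          _ = τ * Real.log B := by field_simp
      obtain ⟨y, h1, h2, h3⟩ := choose_v (K := K) ht htc
        (W.filter (fun w => w.asIdeal.LiesOver v.asIdeal)) (fun w hw => (Finset.mem_filter.1 hw).2) e
        (fun w hw => hWe w (Finset.mem_filter.1 hw).1) B hB (τ * Real.log B) (by nlinarith) hT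
      exact ⟨y, h1, h2, h3⟩
    choose! y hy1 hy2 hy3 hy4 hy5 using hch
    have hsumW : ∑ w ∈ W, e w * lN w ≤
        ∑ v ∈ V, ∑ w ∈ W.filter (fun w => w.asIdeal.LiesOver v.asIdeal), e w * lN w := by
      simp only [Finset.sum_filter]
      rw [Finset.sum_comm]
      refine Finset.sum_le_sum fun w hw => ?_
      obtain ⟨v, hv1, hv2, hv3, hv4⟩ := hW w hw
      have hlw : 0 ≤ (e w : ℝ) * lN w := by
        have : 0 ≤ lN w := Real.log_natCast_nonneg _
        positivity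
      have hvV : v ∈ V := by
        rw [hVm, hPm]
        refine ⟨⟨?_, hv1⟩, hv3, hv4⟩
        have h1 : (B : ℝ) ^ (τ / (2 * d)) ≤ (B : ℝ) ^ (1 : ℝ) := by
          refine Real.rpow_le_rpow_of_exponent_le hB1 ?_
          rw [div_le_one (by positivity)]
          nlinarith
        rw [Real.rpow_one] at h1
        exact_mod_cast hv3.trans h1
      have h1 := Finset.single_le_sum (s := V)
        (f := fun v => if w.asIdeal.LiesOver v.asIdeal then (e w : ℝ) * lN w else 0)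
        (fun v _ => by split_ifs <;> linarith) hvV
      simp only [if_pos hv2] at h1
      exact h1
    have hbig : τ * Real.log B / 2 ≤ ∑ v ∈ V, Real.log (Ideal.absNorm (y v) : ℝ) := by
      by_cases hex : ∃ v ∈ V, τ * Real.log B / 2 ≤ Real.log (Ideal.absNorm (y v) : ℝ)
      · obtain ⟨v, hv, h1⟩ := hex
        exact h1.trans (Finset.single_le_sum
          (f := fun v => Real.log (Ideal.absNorm (y v) : ℝ)) (fun v hv => hy3 v hv) hv)
      · push Not at hex
        have h1 : ∀ v ∈ V, ∑ w ∈ W.filter (fun w => w.asIdeal.LiesOver v.asIdeal), e w * lN w ≤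
          (d : ℝ) ^ 2 * Real.log (Ideal.absNorm (y v) : ℝ) := by
          intro v hv
          rcases hy5 v hv with h | h
          · exact absurd h (not_le.2 (hex v hv))
          · exact h
        have h2 := (hκB.trans hsumW).trans (Finset.sum_le_sum h1)
        rw [← Finset.mul_sum] at h2
        have h3 : (d : ℝ) ^ 2 * (τ * Real.log B) ≤ κ * Real.log B := by
          rw [← mul_assoc]
          exact mul_le_mul_of_nonneg_right hτ2 hlB
        have h4 : τ * Real.log B ≤ ∑ v ∈ V, Real.log (Ideal.absNorm (y v) : ℝ) :=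
          le_of_mul_le_mul_left (h3.trans h2) (by positivity)
        have h5 : 0 ≤ τ * Real.log B := by positivity
        linarith
    obtain ⟨V', hV'V, hV1, hV2⟩ := exists_sub V (fun v => Real.log (Ideal.absNorm (y v) : ℝ))
      (τ * Real.log B / 2) (τ * Real.log B) hy4 (by positivity) hbig
    have hPd : ∏ v : ↥P, (Ideal.absNorm (if v.1 ∈ V' then y v.1 else ⊤ : Ideal (𝓞 L)) : ℝ) =
        Real.exp (∑ v ∈ V', Real.log (Ideal.absNorm (y v) : ℝ)) := by
      rw [Finset.prod_coe_sort P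
        (fun v => (Ideal.absNorm (if v ∈ V' then y v else ⊤ : Ideal (𝓞 L)) : ℝ)), Real.exp_sum]
      have h1 : ∀ v ∈ P, (Ideal.absNorm (if v ∈ V' then y v else ⊤ : Ideal (𝓞 L)) : ℝ) =
          if v ∈ V' then (Ideal.absNorm (y v) : ℝ) else 1 := by
        intro v _
        split_ifs
        · rfl
        · simp
      rw [Finset.prod_congr rfl h1, Finset.prod_ite_mem, Finset.inter_eq_right.2
        (hV'V.trans (Finset.filter_subset _ _))]
      refine Finset.prod_congr rfl fun v hv => ?_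
      rw [Real.exp_log]
      have h2 := (Fv_props (hy1 v (hV'V hv))).1
      have h3 : Ideal.absNorm (y v) ≠ 0 := by
        rw [Ne, Ideal.absNorm_eq_zero_iff]; exact h2
      positivity
    rw [Set.mem_iUnion₂]
    refine ⟨fun v => if v.1 ∈ V' then y v.1 else ⊤, ?_, hcB, ?_⟩
    · rw [hcodes, Finset.mem_filter, Fintype.mem_piFinset]
      refine ⟨fun v => ?_, ?_, ?_⟩
      · split_ifs with h
        · exact hy1 v.1 (hV'V h)
        · exact mem_Fv.2 (Or.inl rfl)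
      · rw [hPd, Real.rpow_def_of_pos hB0]
        exact Real.exp_le_exp.2 (by linarith)
      · rw [hPd]
        have h1 : (B : ℝ) = Real.exp (Real.log B) := (Real.exp_log hB0).symm
        rw [h1]
        refine Real.exp_le_exp.2 ?_
        nlinarith
    · intro v
      show evB K β c ∈ (if v.1 ∈ V' then y v.1 else ⊤ : Ideal (𝓞 L))
      split_ifs with h
      · exact hy2 v.1 (hV'V h)
      · exact Submodule.mem_top
  have hfin : (⋃ x ∈ codes, A x).Finite := by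
    refine (Pool.Agent.N530.DR.finite_Bx K m B).subset ?_
    intro c hc
    rw [Set.mem_iUnion₂] at hc
    obtain ⟨x, _, hx⟩ := hc
    exact hx.1
  have hle := (Set.ncard_le_ncard hsub hfin).trans (ncard_biUnion_le' codes A)
  have hle' : (({c ∈ Bx K m B | ∃ W : Finset (HeightOneSpectrum (𝓞 L)),
      (∀ w ∈ W, ∃ v ∉ Bad, w.asIdeal.LiesOver v.asIdeal ∧
        (Ideal.absNorm v.asIdeal : ℝ) ≤ (B : ℝ) ^ (τ / (2 * d)) ∧ NSB β c v) ∧
      ∃ e : HeightOneSpectrum (𝓞 L) → ℕ, (∀ w ∈ W, evB K β c ∈ w.asIdeal ^ e w) ∧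
        κ * Real.log B ≤ ∑ w ∈ W, e w * lN w}.ncard : ℕ) : ℝ) ≤
      ∑ x ∈ codes, ((A x).ncard : ℝ) := by exact_mod_cast hle
  refine hle'.trans ((Finset.sum_le_sum hcard).trans ?_)
  rw [← Finset.mul_sum]
  calc 4 ^ N * (B : ℝ) ^ N * (B : ℝ) ^ (-(τ / 2 * cc)) * ∑ x ∈ codes, ∏ v, wt K β (x v)
      ≤ 4 ^ N * (B : ℝ) ^ N * (B : ℝ) ^ (-(τ / 2 * cc)) *
        Real.exp (5 * (d : ℝ) ^ 2 * C1) := mul_le_mul_of_nonneg_left hall (by positivity)
    _ = 4 ^ N * Real.exp (5 * (d : ℝ) ^ 2 * C1) *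
        (B : ℝ) ^ ((finrank ℚ K : ℝ) * m - τ / 2 * cc) := by
        rw [sub_eq_add_neg, Real.rpow_add hB0]
        have h1 : (B : ℝ) ^ ((finrank ℚ K : ℝ) * m) = (B : ℝ) ^ N := by
          rw [← Real.rpow_natCast, hN]
          push_cast
          rfl
        rw [h1]
        ring

/-- **DR/SMALL** -/
theorem small : StmSmall := by
  intro K L _ _ _ _ _ θ a r hθ ha hr
  have ha' : (a : L) ≠ 0 := Nat.cast_ne_zero.2 ha
  have ha'' : (a : 𝓞 L) ≠ 0 := Nat.cast_ne_zero.2 ha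
  have h0 : (fun i : Fin (r + 1) => (a : 𝓞 L) ^ (r - (i : ℕ)) * θ ^ (i : ℕ)) 0 ≠ 0 := by
    simp [ha'']
  have hgen : IntermediateField.adjoin K
      {(((fun i : Fin (r + 1) => (a : 𝓞 L) ^ (r - (i : ℕ)) * θ ^ (i : ℕ)) ⟨1, by omega⟩ : 𝓞 L) : L) /
        ((fun i : Fin (r + 1) => (a : 𝓞 L) ^ (r - (i : ℕ)) * θ ^ (i : ℕ)) 0 : 𝓞 L)} = ⊤ := by
    have h1 : (((fun i : Fin (r + 1) => (a : 𝓞 L) ^ (r - (i : ℕ)) * θ ^ (i : ℕ)) ⟨1, by omega⟩ :
        𝓞 L) : L) / ((fun i : Fin (r + 1) => (a : 𝓞 L) ^ (r - (i : ℕ)) * θ ^ (i : ℕ)) 0 : 𝓞 L) =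
        (θ : L) / a := by
      obtain ⟨k, rfl⟩ : ∃ k, r = k + 1 := ⟨r - 1, by omega⟩
      push_cast
      simp only [Fin.val_zero, Nat.sub_zero, pow_zero, mul_one, pow_one, Nat.add_sub_cancel]
      rw [div_eq_div_iff (pow_ne_zero _ ha') ha']
      ring
    rw [h1]
    rw [eq_top_iff, ← hθ, IntermediateField.adjoin_simple_le_iff]
    have h2 : (θ : L) / a * algebraMap K L (a : K) = (θ : L) := by
      rw [map_natCast]
      field_simp
    have h3 : (θ : L) / a * algebraMap K L (a : K) ∈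
        IntermediateField.adjoin K {(θ : L) / a} :=
      mul_mem (IntermediateField.mem_adjoin_simple_self K _)
        (IntermediateField.algebraMap_mem _ _)
    rw [h2] at h3
    exact h3
  have h := smallB K L (r + 1) (fun i : Fin (r + 1) => (a : 𝓞 L) ^ (r - (i : ℕ)) * θ ^ (i : ℕ))
    0 ⟨1, by omega⟩ h0 hgen
  obtain ⟨Bad, hBad⟩ := h
  refine ⟨Bad, fun κ hκ => ?_⟩
  obtain ⟨δ, ν, C, h1, h2, h3⟩ := hBad κ hκ
  refine ⟨δ, ν, C, h1, h2, fun B hB => ?_⟩
  have h4 := h3 B hB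
  push_cast at h4
  exact h4

end Pool.Agent.Helper89V
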