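import Pool.Agent.N262.DR.Deg
import Pool.Agent.N97.DR.Core
import Pool.Agent.N459.DR.Red
import Pool.Agent.N572.DR.KE
import Pool.Agent.N572.DR.Diag
import Pool.Agent.N572.DR.Link
import Pool.Agent.N262.DR.Places
import Pool.Agent.N530.DR.Large
import Pool.Agent.N147.DR.Lat
import Pool.Agent.N147.DR.Typ
import Pool.Agent.N415.DR.VK
import Pool.Agent.N787.PC.Gcd2
import Pool.Agent.N79.PC.Near
import Pool.Agent.N199.PC.Coin
import Pool.Agent.N130.PC.Cnt
import Pool.Agent.N130.PC.Root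
import Pool.Agent.N134.PC.Zero
import Pool.Agent.N935.PC.Elim
import Pool.Agent.N703.PC.PolyV
import Pool.Agent.N225.PC.ProxM
import Pool.Agent.N434.PC.Pxa
import Pool.Agent.N364.PC.Lin
import Pool.Agent.N93.PC.LOCW
import Pool.Agent.N490.PC.Triv
import Pool.Agent.N427.PC.HTMV
import Pool.Agent.N196.PC.Prk
import Pool.Agent.N901.PC.Comb
import Pool.Agent.Helper89V.SmallB
import Pool.Agent.Helper89V.Mod

/-!
# The statements of the projects DR and PC
-/

set_option autoImplicit false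

namespace Pool.Agent.Helper89V

open Pool.Agent.N753.DR

theorem sRed : StmRed := Pool.Agent.N459.DR.t

theorem sCore : StmCore := Pool.Agent.N97.DR.Core.t Pool.Agent.N147.DR.typ
  (Pool.Agent.N530.DR.t Pool.Agent.N147.DR.t Pool.Agent.N147.DR.typ) small
  Pool.Agent.N262.DR.places

theorem sDeg : StmDeg := Pool.Agent.N262.DR.deg sCore sRed Pool.Agent.N572.DR.Link.t

theorem sDiag : StmDiag := Pool.Agent.N572.DR.Diag.t

theorem sKE : StmKE := Pool.Agent.N572.DR.KE.t sDiag sDeg

theorem sVk : StmVk := Pool.Agent.N415.DRVK.t sKE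

theorem sCntAll : StmCntAll := Pool.Agent.N130.PC.Cnt.t

theorem sCoin : StmCoin := Pool.Agent.N199.PC.t (Pool.Agent.N787.PC.Gcd.t Mod.t)
  Pool.Agent.N79.PC.t sRed sCntAll

theorem sPolyV : StmPolyV := Pool.Agent.N703.PC.t

theorem sElim : StmElim := Pool.Agent.N935.PC.elim_

theorem sProxM : StmProxM := Pool.Agent.N225.PC.t
  (Pool.Agent.N434.PC.t Pool.Agent.N130.PC.Root.t Pool.Agent.N364.PC.t)
  (Pool.Agent.N93.PC.t sElim) sPolyV sRed sCntAll

theorem sZero : StmZero := Pool.Agent.N134.PC.t sElim sPolyV sRed sCntAll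

theorem sTriv : StmTriv := Pool.Agent.N490.PC.Triv.t

theorem sHtMv : StmHtMv := Pool.Agent.N427.PC.HTMV.t

theorem sPrk : StmPrk := Pool.Agent.N196.PC.t sTriv sHtMv

theorem sComb : StmComb := Pool.Agent.N901.PC.Comb.t

end Pool.Agent.Helper89V
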