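import Pool.Agent.Helper89V.Bas
import Pool.Agent.Helper89V.Chain
import Pool.Agent.N31.FR.Tot

/-!
# The exceptional set of tuples of points of degrees `r_i` of the line
-/

set_option autoImplicit false

namespace Pool.Agent.Helper89V

open NumberField IsDedekindDomain Module Polynomial Height Pool.Agent.N753.DR

/-- the exponent -/
def ex {m : ℕ} (r : Fin m → ℕ) : ℝ := ∑ i, (r i : ℝ) * (r i + 1)

section

variable {K : Type} [Field K] [NumberField K] {m : ℕ}

theorem HT_eq_pi (r : Fin m → ℕ) (T : ℝ) : {P : Fin m → K[X] | HT r T P} =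
    Set.univ.pi fun i => {p | AtH (r i) (r i * T) p} := by
  ext P
  simp [HT, Set.mem_pi]

theorem pi_card (A : Fin m → Set K[X]) (hA : ∀ i, (A i).Finite) :
    (Set.univ.pi A).Finite ∧ (Set.univ.pi A).ncard = ∏ i, (A i).ncard := by
  classical
  have h : Set.univ.pi A = ((Fintype.piFinset fun i => (hA i).toFinset : Finset (Fin m → K[X])) :
      Set (Fin m → K[X])) := by
    ext P
    simp [Set.mem_pi]
  constructor
  · rw [h]; exact Finset.finite_toSet _
  · rw [h, Set.ncard_coe_finset, Fintype.card_piFinset]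
    exact Finset.prod_congr rfl fun i _ => (Set.ncard_eq_toFinset_card _ (hA i)).symm

/-- the number of all tuples -/
theorem HT_card (K : Type) [Field K] [NumberField K] (r : Fin m → ℕ) (hr : ∀ i, 1 ≤ r i) :
    ∃ C : ℝ, 1 ≤ C ∧ (∀ T : ℝ, 0 ≤ T → ∀ i, {p : K[X] | AtH (r i) (r i * T) p}.Finite ∧
      ({p : K[X] | AtH (r i) (r i * T) p}.ncard : ℝ) ≤ C * Real.exp ((r i : ℝ) * (r i + 1) * T)) ∧
    ∀ T : ℝ, 0 ≤ T → {P : Fin m → K[X] | HT r T P}.Finite ∧
      ({P : Fin m → K[X] | HT r T P}.ncard : ℝ) ≤ C ^ m * Real.exp (ex r * T) := by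
  choose c hc0 hc using fun i => sCntAll K (r i) (hr i)
  set C : ℝ := ∑ i, c i + 1 with hC
  have hs : 0 ≤ ∑ i, c i := Finset.sum_nonneg fun i _ => (hc0 i).le
  have hci : ∀ i, c i ≤ C := by
    intro i
    have := Finset.single_le_sum (f := c) (fun i _ => (hc0 i).le) (Finset.mem_univ i)
    linarith
  have hone : ∀ T : ℝ, 0 ≤ T → ∀ i, {p : K[X] | AtH (r i) (r i * T) p}.Finite ∧
      ({p : K[X] | AtH (r i) (r i * T) p}.ncard : ℝ) ≤
        C * Real.exp ((r i : ℝ) * (r i + 1) * T) := by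
    intro T hT i
    obtain ⟨h1, h2⟩ := hc i (r i * T) (by positivity)
    refine ⟨h1, h2.trans ?_⟩
    have h3 : ((r i : ℝ) + 1) * (r i * T) = (r i : ℝ) * (r i + 1) * T := by ring
    rw [h3]
    exact mul_le_mul_of_nonneg_right (hci i) (Real.exp_pos _).le
  refine ⟨C, by linarith, hone, fun T hT => ?_⟩
  obtain ⟨h1, h2⟩ := pi_card _ (fun i => (hone T hT i).1)
  rw [HT_eq_pi]
  refine ⟨h1, ?_⟩
  rw [h2]
  push_cast
  refine (Finset.prod_le_prod (fun i _ => Nat.cast_nonneg _) fun i _ => (hone T hT i).2).trans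
    (le_of_eq ?_)
  rw [Finset.prod_mul_distrib, Finset.prod_const, Finset.card_univ, Fintype.card_fin,
    ← Real.exp_sum, ex, Finset.sum_mul]

/-- lower bound for the number of all tuples -/
theorem HT_low (K : Type) [Field K] [NumberField K] (r : Fin m → ℕ) (hr : ∀ i, 1 ≤ r i) :
    ∃ c T₀ : ℝ, 0 < c ∧ ∀ T : ℝ, T₀ ≤ T → {P : Fin m → K[X] | HT r T P}.Finite ∧
      c * Real.exp (ex r * T) ≤ ({P : Fin m → K[X] | HT r T P}.ncard : ℝ) := by
  classical
  choose c U hc0 hc using fun i => Pool.Agent.N31.FR.t K (r i) (hr i)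
  obtain ⟨C, hC1, -, hC2⟩ := HT_card K r hr
  refine ⟨∏ i, c i, ∑ i, |U i|, Finset.prod_pos fun i _ => hc0 i, fun T hT => ?_⟩
  have hs : 0 ≤ ∑ i, |U i| := Finset.sum_nonneg fun i _ => abs_nonneg _
  have hT0 : 0 ≤ T := hs.trans hT
  refine ⟨(hC2 T hT0).1, ?_⟩
  have hUi : ∀ i, U i ≤ r i * T := by
    intro i
    have h1 := Finset.single_le_sum (f := fun i => |U i|) (fun i _ => abs_nonneg _)
      (Finset.mem_univ i)
    have h2 : (1 : ℝ) ≤ r i := by exact_mod_cast hr i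
    calc U i ≤ |U i| := le_abs_self _
      _ ≤ T := h1.trans hT
      _ = 1 * T := (one_mul T).symm
      _ ≤ r i * T := mul_le_mul_of_nonneg_right h2 hT0
  choose F hF1 hF2 using fun i => hc i (r i * T) (hUi i)
  have hsub : ((Fintype.piFinset F : Finset (Fin m → K[X])) : Set (Fin m → K[X])) ⊆
      {P | HT r T P} := by
    intro P hP
    rw [Finset.mem_coe, Fintype.mem_piFinset] at hP
    exact fun i => hF1 i (P i) (hP i)
  have h1 := Set.ncard_le_ncard hsub (hC2 T hT0).1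
  rw [Set.ncard_coe_finset, Fintype.card_piFinset] at h1
  have h2 : (∏ i, ((F i).card : ℝ)) ≤ ({P : Fin m → K[X] | HT r T P}.ncard : ℝ) := by
    exact_mod_cast h1
  refine le_trans ?_ h2
  calc (∏ i, c i) * Real.exp (ex r * T) =
      ∏ i, (c i * Real.exp (((r i : ℝ) + 1) * (r i * T))) := by
        rw [Finset.prod_mul_distrib, ← Real.exp_sum, ex, Finset.sum_mul]
        congr 2
        exact Finset.sum_congr rfl fun i _ => by ring
    _ ≤ _ := Finset.prod_le_prod (fun i _ => mul_nonneg (hc0 i).le (Real.exp_pos _).le)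
        fun i _ => hF2 i

theorem ex_pos (hm : 1 ≤ m) (r : Fin m → ℕ) (hr : ∀ i, 1 ≤ r i) : 2 ≤ ex r := by
  have h1 : ∀ i ∈ (Finset.univ : Finset (Fin m)), (0 : ℝ) ≤ (r i : ℝ) * (r i + 1) :=
    fun i _ => by positivity
  have h2 := Finset.single_le_sum h1 (Finset.mem_univ (⟨0, hm⟩ : Fin m))
  have h3 : (1 : ℝ) ≤ r ⟨0, hm⟩ := by exact_mod_cast hr _
  unfold ex
  nlinarith

/-- conditions depending on the height -/
theorem half_count (r : Fin m → ℕ) (hr : ∀ i, 1 ≤ r i) (hm : 1 ≤ m)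
    (A : ℝ → (Fin m → K[X]) → Prop)
    (hA : ∃ ν C : ℝ, 0 < ν ∧ ∀ T : ℝ, 0 ≤ T → {P : Fin m → K[X] | A T P ∧ HT r T P}.Finite ∧
      ({P : Fin m → K[X] | A T P ∧ HT r T P}.ncard : ℝ) ≤ C * Real.exp ((ex r - ν) * T))
    (A' : (Fin m → K[X]) → Prop)
    (hA' : ∀ P, A' P → ∃ T : ℝ, 0 ≤ T ∧ HT r T P ∧ ∀ U : ℝ, U ≤ 2 * T → A U P) :
    ∃ ν C : ℝ, 0 < ν ∧ ∀ U : ℝ, 0 ≤ U → {P | A' P ∧ HT r U P}.Finite ∧
    ({P | A' P ∧ HT r U P}.ncard : ℝ) ≤ C * Real.exp ((ex r - ν) * U) := by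
  obtain ⟨ν, C, hν, h⟩ := hA
  obtain ⟨C1, hC1, -, hC2⟩ := HT_card K r hr
  have he := ex_pos hm r hr
  refine ⟨min ν 1, |C| + C1 ^ m, lt_min hν one_pos, fun U hU => ?_⟩
  have hsub : {P | A' P ∧ HT r U P} ⊆ {P | A U P ∧ HT r U P} ∪ {P | HT r (U / 2) P} := by
    rintro P ⟨hP1, hP2⟩
    obtain ⟨T, hT0, hT1, hT2⟩ := hA' P hP1
    rcases le_or_gt U (2 * T) with h1 | h1
    · exact Or.inl ⟨hT2 U h1, hP2⟩
    · exact Or.inr (HT_mono (by linarith) hT1)
  obtain ⟨h1, h2⟩ := h U hU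
  obtain ⟨h3, h4⟩ := hC2 (U / 2) (by linarith)
  have hfin := (h1.union h3).subset hsub
  refine ⟨hfin, ?_⟩
  have h5 : ({P | A' P ∧ HT r U P}.ncard : ℝ) ≤
      ({P | A U P ∧ HT r U P}.ncard : ℝ) + ({P : Fin m → K[X] | HT r (U / 2) P}.ncard : ℝ) := by
    exact_mod_cast (Set.ncard_le_ncard hsub (h1.union h3)).trans (Set.ncard_union_le _ _)
  have h6 : C * Real.exp ((ex r - ν) * U) ≤ |C| * Real.exp ((ex r - min ν 1) * U) := by
    refine mul_le_mul (le_abs_self C) (Real.exp_le_exp.2 ?_) (Real.exp_pos _).le (abs_nonneg C)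
    exact mul_le_mul_of_nonneg_right (by linarith [min_le_left ν 1]) hU
  have h7 : C1 ^ m * Real.exp (ex r * (U / 2)) ≤
      C1 ^ m * Real.exp ((ex r - min ν 1) * U) := by
    refine mul_le_mul_of_nonneg_left (Real.exp_le_exp.2 ?_) (by positivity)
    have := min_le_right ν 1
    nlinarith
  rw [add_mul]
  linarith

/-- outside `E` there are few coincidences -/
def GoodCoin (r : Fin m → ℕ) (E : Set (Fin m → K[X])) : Prop :=
  ∀ (i j : Fin m), i ≠ j → ∀ F F' : K[X], F ≠ 0 → F' ≠ 0 → ∃ S : Finset ℕ, (∀ p ∈ S, p ≠ 0) ∧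
    ∀ κ : ℝ, 0 < κ → ∃ C : ℝ, 0 ≤ C ∧ ∀ (L : Type) [Field L] [NumberField L] [Algebra K L]
      (x : Fin m → L), (∀ i, (minpoly K (x i)).natDegree = r i) →
      (fun i => minpoly K (x i)) ∉ E →
      (∑ i, logHeight₁ (x i) ≤ finrank ℚ L * C) ∨
      ∀ Q : Finset ℕ, (∀ p ∈ Q, p.Prime ∧ NearP S F (minpoly K (x i)) p ∧
        NearP S F' (minpoly K (x j)) p) →
        finrank ℚ L * ∑ p ∈ Q, Real.log p ≤ κ * ∑ i, logHeight₁ (x i)

theorem countable_mv (K : Type) [Field K] [NumberField K] (m : ℕ) :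
    Countable (MvPolynomial (Fin m) K) := by
  have := Pool.Agent.N572.DR.KE.countable_nf K
  rw [← Cardinal.mk_le_aleph0_iff]
  refine (MvPolynomial.cardinalMk_le_max (R := K) (σ := Fin m)).trans ?_
  refine max_le (max_le (Cardinal.mk_le_aleph0_iff.2 this) ?_) le_rfl
  exact Cardinal.mk_le_aleph0_iff.2 inferInstance

theorem exists_kappa {κ : ℝ} (hκ : 0 < κ) (n : ℕ) : ∃ i : ℕ, 1 / ((i : ℝ) + 1) * n ≤ κ := by
  obtain ⟨i, hi⟩ := exists_nat_one_div_lt (show 0 < κ / (n + 1) by positivity)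
  refine ⟨i, ?_⟩
  have h1 : (0 : ℝ) < n + 1 := by positivity
  rw [lt_div_iff₀ h1] at hi
  have h2 : 0 ≤ 1 / ((i : ℝ) + 1) := by positivity
  nlinarith

theorem degs {L : Type} [Field L] [NumberField L] [Algebra K L] :
    (finrank ℚ L : ℝ) = finrank ℚ K * finrank K L ∧ (0 : ℝ) < finrank K L ∧
      (finrank K L : ℝ) ≤ finrank ℚ L := by
  have h1 := finrank_mul_finrank ℚ K L
  have hfd : FiniteDimensional K L := FiniteDimensional.right ℚ K L
  have h2 : 0 < finrank K L := finrank_pos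
  have h3 : 0 < finrank ℚ K := finrank_pos
  refine ⟨by exact_mod_cast h1.symm, by exact_mod_cast h2, ?_⟩
  have : finrank K L ≤ finrank ℚ L := by
    rw [← h1]; exact Nat.le_mul_of_pos_left _ h3
  exact_mod_cast this

/-- the exceptional set -/
theorem exists_diag (K : Type) [Field K] [NumberField K] (hm : 1 ≤ m) (r : Fin m → ℕ)
    (hr : ∀ i, 1 ≤ r i) : ∃ E : Set (Fin m → K[X]),
    (∀ T : ℝ, 0 ≤ T → {P | P ∈ E ∧ HT r T P}.Finite ∧
      ({P | P ∈ E ∧ HT r T P}.ncard : ℝ) ≤ Real.exp (ex r * T - √T)) ∧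
    GoodCoin r E ∧ GoodProx r E := by
  classical
  have hc1 := Pool.Agent.N572.DR.KE.countable_pol K
  have hc2 := countable_mv K m
  have hcoin : ∀ (i j : Fin m) (F F' : K[X]), i ≠ j → F ≠ 0 → F' ≠ 0 → _ :=
    fun i j F F' hij hF hF' => sCoin K m r hr i j hij F F' hF hF'
  choose! S hS0 hS using hcoin
  obtain ⟨E, hE1, hE2⟩ := sDiag (Fin m → K[X])
    (((Fin m × Fin m) × (K[X] × K[X]) × ℕ) ⊕
      (((Fin m → ℕ) × MvPolynomial (Fin m) K × Finset ℕ × ℕ) ⊕ MvPolynomial (Fin m) K))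
    (fun T P => HT r T P) (fun U U' P h1 h2 => HT_mono h1 h2)
    (fun J P => match J with
      | Sum.inl ((i, j), (F, F'), n) => (i ≠ j ∧ F ≠ 0 ∧ F' ≠ 0) ∧ ∃ T : ℝ, 0 ≤ T ∧ HT r T P ∧
          ∃ Q : Finset ℕ, (∀ p ∈ Q, p.Prime ∧ NearP (S i j F F') F (P i) p ∧
            NearP (S i j F F') F' (P j) p) ∧ 1 / ((n : ℝ) + 1) * T < ∑ p ∈ Q, Real.log p
      | Sum.inr (Sum.inl (q, G, S', n)) =>
          (G ≠ 0 ∧ (∀ i, G.degreeOf i ≤ q i) ∧ (∀ p ∈ S', p.Prime)) ∧
          ∃ T : ℝ, 0 ≤ T ∧ HT r T P ∧ ∃ (L : Type) (_ : Field L) (_ : NumberField L)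
            (_ : Algebra K L) (x : Fin m → L), (∀ i, minpoly K (x i) = P i) ∧
            MvPolynomial.aeval x G ≠ 0 ∧ 1 / ((n : ℝ) + 1) * T * finrank ℚ L < proxM S' q G x
      | Sum.inr (Sum.inr G) => G ≠ 0 ∧ ∃ (L : Type) (_ : Field L) (_ : NumberField L)
            (_ : Algebra K L) (x : Fin m → L), (∀ i, minpoly K (x i) = P i) ∧
            MvPolynomial.aeval x G = 0) (ex r) (by linarith [ex_pos hm r hr]) (by
    rintro (⟨⟨i, j⟩, ⟨F, F'⟩, n⟩ | ⟨q, G, S', n⟩ | G)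
    · by_cases hc : i ≠ j ∧ F ≠ 0 ∧ F' ≠ 0
      · refine half_count r hr hm (fun T P => ∃ Q : Finset ℕ, (∀ p ∈ Q, p.Prime ∧
          NearP (S i j F F') F (P i) p ∧ NearP (S i j F F') F' (P j) p) ∧
            1 / ((n : ℝ) + 1) / 2 * T < ∑ p ∈ Q, Real.log p) ?_ _ ?_
        · exact hS i j F F' hc.1 hc.2.1 hc.2.2 (1 / ((n : ℝ) + 1) / 2) (by positivity)
        · rintro P ⟨-, T, hT0, hT1, Q, hQ1, hQ2⟩
          refine ⟨T, hT0, hT1, fun U hU => ⟨Q, hQ1, lt_of_le_of_lt ?_ hQ2⟩⟩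
          have h1 : 0 < 1 / ((n : ℝ) + 1) := by positivity
          nlinarith
      · refine ⟨1, 1, one_pos, fun U _ => ?_⟩
        have he : {P : Fin m → K[X] | ((i ≠ j ∧ F ≠ 0 ∧ F' ≠ 0) ∧ ∃ T : ℝ, 0 ≤ T ∧ HT r T P ∧
          ∃ Q : Finset ℕ, (∀ p ∈ Q, p.Prime ∧ NearP (S i j F F') F (P i) p ∧
            NearP (S i j F F') F' (P j) p) ∧ 1 / ((n : ℝ) + 1) * T < ∑ p ∈ Q, Real.log p) ∧
            HT r U P} = ∅ := by
          rw [Set.eq_empty_iff_forall_notMem]
          rintro P ⟨⟨h, _⟩, _⟩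
          exact hc h
        refine ⟨?_, ?_⟩
        · show Set.Finite {P : Fin m → K[X] | ((i ≠ j ∧ F ≠ 0 ∧ F' ≠ 0) ∧ ∃ T : ℝ, 0 ≤ T ∧
            HT r T P ∧ ∃ Q : Finset ℕ, (∀ p ∈ Q, p.Prime ∧ NearP (S i j F F') F (P i) p ∧
            NearP (S i j F F') F' (P j) p) ∧ 1 / ((n : ℝ) + 1) * T < ∑ p ∈ Q, Real.log p) ∧
            HT r U P}
          rw [he]; exact Set.finite_empty
        · show (Set.ncard {P : Fin m → K[X] | ((i ≠ j ∧ F ≠ 0 ∧ F' ≠ 0) ∧ ∃ T : ℝ, 0 ≤ T ∧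
            HT r T P ∧ ∃ Q : Finset ℕ, (∀ p ∈ Q, p.Prime ∧ NearP (S i j F F') F (P i) p ∧
            NearP (S i j F F') F' (P j) p) ∧ 1 / ((n : ℝ) + 1) * T < ∑ p ∈ Q, Real.log p) ∧
            HT r U P} : ℝ) ≤ _
          rw [he, Set.ncard_empty]
          push_cast
          positivity
    · by_cases hc : G ≠ 0 ∧ (∀ i, G.degreeOf i ≤ q i) ∧ (∀ p ∈ S', p.Prime)
      · refine half_count r hr hm (fun T P => ∃ (L : Type) (_ : Field L) (_ : NumberField L)
            (_ : Algebra K L) (x : Fin m → L), (∀ i, minpoly K (x i) = P i) ∧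
            MvPolynomial.aeval x G ≠ 0 ∧
            1 / ((n : ℝ) + 1) / 2 * T * finrank ℚ L < proxM S' q G x) ?_ _ ?_
        · exact sProxM K m r q hr G hc.1 hc.2.1 S' hc.2.2 (1 / ((n : ℝ) + 1) / 2) (by positivity)
        · rintro P ⟨-, T, hT0, hT1, L, iL1, iL2, iL3, x, hx1, hx2, hx3⟩
          refine ⟨T, hT0, hT1, fun U hU => ⟨L, iL1, iL2, iL3, x, hx1, hx2,
            lt_of_le_of_lt (mul_le_mul_of_nonneg_right ?_ (Nat.cast_nonneg _)) hx3⟩⟩
          have h1 : 0 < 1 / ((n : ℝ) + 1) := by positivity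
          nlinarith
      · refine ⟨1, 1, one_pos, fun U _ => ?_⟩
        have he : {P : Fin m → K[X] | ((G ≠ 0 ∧ (∀ i, G.degreeOf i ≤ q i) ∧ (∀ p ∈ S', p.Prime)) ∧
          ∃ T : ℝ, 0 ≤ T ∧ HT r T P ∧ ∃ (L : Type) (_ : Field L) (_ : NumberField L)
            (_ : Algebra K L) (x : Fin m → L), (∀ i, minpoly K (x i) = P i) ∧
            MvPolynomial.aeval x G ≠ 0 ∧ 1 / ((n : ℝ) + 1) * T * finrank ℚ L < proxM S' q G x) ∧
            HT r U P} = ∅ := by
          rw [Set.eq_empty_iff_forall_notMem]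
          rintro P ⟨⟨h, _⟩, _⟩
          exact hc h
        refine ⟨?_, ?_⟩
        · show Set.Finite {P : Fin m → K[X] | ((G ≠ 0 ∧ (∀ i, G.degreeOf i ≤ q i) ∧
            (∀ p ∈ S', p.Prime)) ∧
          ∃ T : ℝ, 0 ≤ T ∧ HT r T P ∧ ∃ (L : Type) (_ : Field L) (_ : NumberField L)
            (_ : Algebra K L) (x : Fin m → L), (∀ i, minpoly K (x i) = P i) ∧
            MvPolynomial.aeval x G ≠ 0 ∧ 1 / ((n : ℝ) + 1) * T * finrank ℚ L < proxM S' q G x) ∧
            HT r U P}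
          rw [he]; exact Set.finite_empty
        · show (Set.ncard {P : Fin m → K[X] | ((G ≠ 0 ∧ (∀ i, G.degreeOf i ≤ q i) ∧
            (∀ p ∈ S', p.Prime)) ∧
          ∃ T : ℝ, 0 ≤ T ∧ HT r T P ∧ ∃ (L : Type) (_ : Field L) (_ : NumberField L)
            (_ : Algebra K L) (x : Fin m → L), (∀ i, minpoly K (x i) = P i) ∧
            MvPolynomial.aeval x G ≠ 0 ∧ 1 / ((n : ℝ) + 1) * T * finrank ℚ L < proxM S' q G x) ∧
            HT r U P} : ℝ) ≤ _
          rw [he, Set.ncard_empty]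
          push_cast
          positivity
    · by_cases hc : G ≠ 0
      · obtain ⟨ν, C, hν, h⟩ := sZero K m r hr G hc
        refine ⟨ν, C, hν, fun T hT => ?_⟩
        obtain ⟨h1, h2⟩ := h T hT
        have he : {P : Fin m → K[X] | (G ≠ 0 ∧ ∃ (L : Type) (_ : Field L) (_ : NumberField L)
            (_ : Algebra K L) (x : Fin m → L), (∀ i, minpoly K (x i) = P i) ∧
            MvPolynomial.aeval x G = 0) ∧ HT r T P} =
            {P : Fin m → K[X] | (∃ (L : Type) (_ : Field L) (_ : NumberField L)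
            (_ : Algebra K L) (x : Fin m → L), (∀ i, minpoly K (x i) = P i) ∧
            MvPolynomial.aeval x G = 0) ∧ HT r T P} := by
          ext P
          exact ⟨fun h => ⟨h.1.2, h.2⟩, fun h => ⟨⟨hc, h.1⟩, h.2⟩⟩
        refine ⟨?_, ?_⟩
        · show Set.Finite {P : Fin m → K[X] | (G ≠ 0 ∧ ∃ (L : Type) (_ : Field L)
            (_ : NumberField L) (_ : Algebra K L) (x : Fin m → L), (∀ i, minpoly K (x i) = P i) ∧
            MvPolynomial.aeval x G = 0) ∧ HT r T P}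
          rw [he]; exact h1
        · show (Set.ncard {P : Fin m → K[X] | (G ≠ 0 ∧ ∃ (L : Type) (_ : Field L)
            (_ : NumberField L) (_ : Algebra K L) (x : Fin m → L), (∀ i, minpoly K (x i) = P i) ∧
            MvPolynomial.aeval x G = 0) ∧ HT r T P} : ℝ) ≤ _
          rw [he]; exact h2
      · refine ⟨1, 1, one_pos, fun U _ => ?_⟩
        have he : {P : Fin m → K[X] | (G ≠ 0 ∧ ∃ (L : Type) (_ : Field L) (_ : NumberField L)
            (_ : Algebra K L) (x : Fin m → L), (∀ i, minpoly K (x i) = P i) ∧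
            MvPolynomial.aeval x G = 0) ∧ HT r U P} = ∅ := by
          rw [Set.eq_empty_iff_forall_notMem]
          rintro P ⟨⟨h, _⟩, _⟩
          exact hc h
        refine ⟨?_, ?_⟩
        · show Set.Finite {P : Fin m → K[X] | (G ≠ 0 ∧ ∃ (L : Type) (_ : Field L)
            (_ : NumberField L) (_ : Algebra K L) (x : Fin m → L), (∀ i, minpoly K (x i) = P i) ∧
            MvPolynomial.aeval x G = 0) ∧ HT r U P}
          rw [he]; exact Set.finite_empty
        · show (Set.ncard {P : Fin m → K[X] | (G ≠ 0 ∧ ∃ (L : Type) (_ : Field L)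
            (_ : NumberField L) (_ : Algebra K L) (x : Fin m → L), (∀ i, minpoly K (x i) = P i) ∧
            MvPolynomial.aeval x G = 0) ∧ HT r U P} : ℝ) ≤ _
          rw [he, Set.ncard_empty]
          push_cast
          positivity)
  have hbd : ∀ {L : Type} [Field L] [NumberField L] [Algebra K L] (x : Fin m → L) (U : ℝ),
      0 ≤ U → HT r U (fun i => minpoly K (x i)) →
      ∑ i, logHeight₁ (x i) ≤ finrank ℚ L * (m * U) := by
    intro L _ _ _ x U hU h
    obtain ⟨d1, d2, d3⟩ := degs (K := K) (L := L)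
    have h1 : ∀ i ∈ (Finset.univ : Finset (Fin m)), logHeight₁ (x i) ≤ finrank ℚ L * U :=
      fun i _ => (HT_le x h i).trans (mul_le_mul_of_nonneg_right d3 hU)
    refine (Finset.sum_le_card_nsmul _ _ _ h1).trans (le_of_eq ?_)
    rw [Finset.card_univ, Fintype.card_fin, nsmul_eq_mul]
    ring
  refine ⟨E, hE1, ?_, ?_⟩
  · -- coincidences
    intro i j hij F F' hF hF'
    refine ⟨S i j F F', hS0 i j F F' hij hF hF', fun κ hκ => ?_⟩
    obtain ⟨n, hn⟩ := exists_kappa hκ (finrank ℚ K)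
    obtain ⟨U, hU0, hU⟩ := hE2 (Sum.inl ((i, j), (F, F'), n))
    refine ⟨m * U, by positivity, ?_⟩
    intro L _ _ _ x hx hxE
    obtain ⟨d1, d2, d3⟩ := degs (K := K) (L := L)
    by_cases hA : ∃ T : ℝ, 0 ≤ T ∧ HT r T (fun i => minpoly K (x i)) ∧
          ∃ Q : Finset ℕ, (∀ p ∈ Q, p.Prime ∧ NearP (S i j F F') F (minpoly K (x i)) p ∧
            NearP (S i j F F') F' (minpoly K (x j)) p) ∧
            1 / ((n : ℝ) + 1) * T < ∑ p ∈ Q, Real.log p
    · exact Or.inl (hbd x U hU0 (hU _ hxE ⟨⟨hij, hF, hF'⟩, hA⟩))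
    · right
      intro Q hQ
      push Not at hA
      have hs : 0 ≤ ∑ i, logHeight₁ (x i) := Finset.sum_nonneg fun i _ => zero_le_logHeight₁ _
      have h1 := hA ((∑ i, logHeight₁ (x i)) / finrank K L) (by positivity)
        (HT_of x hx (by rw [mul_div_cancel₀ _ d2.ne'])) Q hQ
      have h2 : (finrank ℚ L : ℝ) * ∑ p ∈ Q, Real.log p ≤
          finrank ℚ L * (1 / ((n : ℝ) + 1) * ((∑ i, logHeight₁ (x i)) / finrank K L)) :=
        mul_le_mul_of_nonneg_left h1 (Nat.cast_nonneg _)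
      refine h2.trans ?_
      have h3 : finrank ℚ L * (1 / ((n : ℝ) + 1) * ((∑ i, logHeight₁ (x i)) / finrank K L)) =
          1 / ((n : ℝ) + 1) * finrank ℚ K * ∑ i, logHeight₁ (x i) := by
        rw [d1]
        field_simp
      rw [h3]
      exact mul_le_mul_of_nonneg_right hn hs
  · -- proximity
    intro q G hG hGq S' hS' κ hκ
    obtain ⟨n, hn⟩ := exists_kappa hκ (finrank ℚ K)
    obtain ⟨U, hU0, hU⟩ := hE2 (Sum.inr (Sum.inl (q, G, S', n)))
    obtain ⟨U', hU'0, hU'⟩ := hE2 (Sum.inr (Sum.inr G))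
    obtain ⟨Cm, hCm0, hCm⟩ := sHtMv K m G
    have hqs : (0 : ℝ) ≤ ∑ i, (q i : ℝ) := Finset.sum_nonneg fun i _ => Nat.cast_nonneg _
    refine ⟨(∑ i, (q i : ℝ)) * (m * U) + Cm * (m * U + 1) + m * U', by positivity, ?_⟩
    intro L _ _ _ x hx hxE
    obtain ⟨d1, d2, d3⟩ := degs (K := K) (L := L)
    have hs : 0 ≤ ∑ i, logHeight₁ (x i) := Finset.sum_nonneg fun i _ => zero_le_logHeight₁ _
    have hL0 : (0 : ℝ) ≤ finrank ℚ L := Nat.cast_nonneg _
    refine ⟨fun hne => ?_, fun h0 => ?_⟩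
    · by_cases hA : ∃ T : ℝ, 0 ≤ T ∧ HT r T (fun i => minpoly K (x i)) ∧ ∃ (L : Type)
            (_ : Field L) (_ : NumberField L)
            (_ : Algebra K L) (x' : Fin m → L), (∀ i, minpoly K (x' i) = minpoly K (x i)) ∧
            MvPolynomial.aeval x' G ≠ 0 ∧ 1 / ((n : ℝ) + 1) * T * finrank ℚ L < proxM S' q G x'
      · have h1 := hbd x U hU0 (hU _ hxE ⟨⟨hG, hGq, hS'⟩, hA⟩)
        have h2 : proxM S' q G x ≤ ∑ i, (q i : ℝ) * logHeight₁ (x i) +
            logHeight₁ (MvPolynomial.aeval x G) := by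
          refine le_trans (le_of_eq ?_) (sTriv L m (fun v => ∃ p ∈ S', (p : 𝓞 L) ∈ v.asIdeal) q x
            (MvPolynomial.aeval x G) hne)
          unfold proxM prZ
          congr 1
          refine finsum_congr fun v => ?_
          by_cases hv : ∃ p ∈ S', (p : 𝓞 L) ∈ v.asIdeal
          · rw [if_pos hv, if_pos hv]
          · rw [if_neg hv, if_neg hv]
        have h3 := hCm L x
        have h4 : ∑ i, (q i : ℝ) * logHeight₁ (x i) ≤
            (∑ i, (q i : ℝ)) * (finrank ℚ L * (m * U)) := by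
          rw [Finset.sum_mul]
          refine Finset.sum_le_sum fun i _ => mul_le_mul_of_nonneg_left ?_ (Nat.cast_nonneg _)
          exact (Finset.single_le_sum (f := fun i => logHeight₁ (x i))
            (fun i _ => zero_le_logHeight₁ _) (Finset.mem_univ i)).trans h1
        have h5 : Cm * (∑ i, logHeight₁ (x i) + finrank ℚ L) ≤
            Cm * (finrank ℚ L * (m * U) + finrank ℚ L) :=
          mul_le_mul_of_nonneg_left (by linarith) hCm0
        have h6 : 0 ≤ κ * ∑ i, logHeight₁ (x i) := by positivity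
        have h7 : 0 ≤ (finrank ℚ L : ℝ) * (m * U') := by positivity
        nlinarith
      · push Not at hA
        have h1 := hA ((∑ i, logHeight₁ (x i)) / finrank K L) (by positivity)
          (HT_of x hx (by rw [mul_div_cancel₀ _ d2.ne'])) L inferInstance inferInstance
          inferInstance x (fun _ => rfl) hne
        have h3 : 1 / ((n : ℝ) + 1) * ((∑ i, logHeight₁ (x i)) / finrank K L) * finrank ℚ L =
            1 / ((n : ℝ) + 1) * finrank ℚ K * ∑ i, logHeight₁ (x i) := by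
          rw [d1]
          field_simp
        rw [h3] at h1
        have h4 := mul_le_mul_of_nonneg_right hn hs
        have h5 : 0 ≤ (finrank ℚ L : ℝ) *
          ((∑ i, (q i : ℝ)) * (m * U) + Cm * (m * U + 1) + m * U') := by positivity
        linarith
    · have h1 := hbd x U' hU'0 (hU' _ hxE ⟨hG, L, inferInstance, inferInstance, inferInstance, x,
        fun _ => rfl, h0⟩)
      have h2 : 0 ≤ (finrank ℚ L : ℝ) * ((∑ i, (q i : ℝ)) * (m * U) + Cm * (m * U + 1)) := by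
        positivity
      linarith

/-- the property of the exceptional sets of `StmVk` -/
def GoodLine (r : ℕ) (E : Set K[X]) : Prop :=
  ∀ (k : Type) [Field k] [NumberField k] [Algebra K k] (q : ℕ) (a : Fin q → k),
    Function.Injective a → (∀ j, (minpoly K (a j)).natDegree ≤ 2 * r + 1) → ∀ (S : Finset ℕ)
    (κ : ℝ), 0 < κ → ∃ C : ℝ, ∀ (M : Type) [Field M] [NumberField M] [Algebra K M] [Algebra k M]
      [IsScalarTower K k M] (x : M), IntermediateField.adjoin k {x} = ⊤ →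
      (minpoly K x).natDegree = r → minpoly K x ∉ E → (∀ j, x ≠ algebraMap k M (a j)) →
      ∀ W : Finset (HeightOneSpectrum (𝓞 M)),
        (∀ w, (∀ p ∈ S, p ≠ 0 → (p : 𝓞 M) ∉ w.asIdeal) → w.valuation M x ≤ 1 →
          (∃ j, w.valuation M (x - algebraMap k M (a j)) < 1) → w ∈ W) →
        (q - κ) * Height.logHeight₁ x ≤ ∑ w ∈ W, lN w + C

/-- **the exceptional set** -/
theorem exists_exc (K : Type) [Field K] [NumberField K] (hm : 1 ≤ m) (r : Fin m → ℕ)
    (hr : ∀ i, 1 ≤ r i) : ∃ (E : Set (Fin m → K[X])) (E' : ∀ _ : Fin m, Set K[X]) (C : ℝ), 0 ≤ C ∧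
    (∀ T : ℝ, 0 ≤ T → {P | P ∈ E ∧ HT r T P}.Finite ∧
      ({P | P ∈ E ∧ HT r T P}.ncard : ℝ) ≤ C * Real.exp (ex r * T - √T)) ∧
    GoodCoin r E ∧ GoodProx r E ∧ (∀ i, GoodLine (r i) (E' i)) ∧
    ∀ P, P ∉ E → ∀ i, P i ∉ E' i := by
  classical
  obtain ⟨E0, h1, h2, h3⟩ := exists_diag K hm r hr
  choose E' hE1 hE2 using fun i => sVk K (r i) (hr i)
  obtain ⟨C1, hC1, hC2, hC3⟩ := HT_card (m := m) K r hr
  refine ⟨E0 ∪ {P | ∃ i, P i ∈ E' i}, E', 1 + m * C1 ^ m, by positivity, ?_, ?_, ?_, hE2, ?_⟩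
  · intro T hT
    obtain ⟨k1, k2⟩ := h1 T hT
    have hi : ∀ i : Fin m, {P : Fin m → K[X] | P i ∈ E' i ∧ HT r T P}.Finite ∧
        ({P : Fin m → K[X] | P i ∈ E' i ∧ HT r T P}.ncard : ℝ) ≤
          C1 ^ m * Real.exp (ex r * T - √T) := by
      intro i
      have he : {P : Fin m → K[X] | P i ∈ E' i ∧ HT r T P} =
          Set.univ.pi fun j => {p | (j = i → p ∈ E' i) ∧ AtH (r j) (r j * T) p} := by
        ext P
        simp only [Set.mem_pi, Set.mem_univ, forall_true_left, Set.mem_ofPred_eq]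
        constructor
        · rintro ⟨h4, h5⟩ j
          exact ⟨fun h => by rw [h]; exact h4, h5 j⟩
        · intro h
          exact ⟨(h i).1 rfl, fun j => (h j).2⟩
      have hf : ∀ j, {p | (j = i → p ∈ E' i) ∧ AtH (r j) (r j * T) p}.Finite := fun j =>
        (hC2 T hT j).1.subset fun p hp => hp.2
      obtain ⟨h4, h5⟩ := pi_card _ hf
      rw [he]
      refine ⟨h4, ?_⟩
      rw [h5]
      push_cast
      have h6 : ∀ j ∈ (Finset.univ : Finset (Fin m)),
          ({p | (j = i → p ∈ E' i) ∧ AtH (r j) (r j * T) p}.ncard : ℝ) ≤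
            C1 * Real.exp ((r j : ℝ) * (r j + 1) * T - if j = i then √T else 0) := by
        intro j _
        by_cases hji : j = i
        · subst hji
          rw [if_pos rfl]
          have h7 : {p | (j = j → p ∈ E' j) ∧ AtH (r j) (r j * T) p} =
              {p | p ∈ E' j ∧ AtH (r j) (r j * T) p} := by
            ext p
            simp
          rw [h7]
          have h8 := (hE1 j (r j * T) (by positivity)).2
          refine h8.trans ?_
          have h9 : √T ≤ √(r j * T) := by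
            refine Real.sqrt_le_sqrt ?_
            have : (1 : ℝ) ≤ r j := by exact_mod_cast hr j
            nlinarith
          calc Real.exp (((r j : ℝ) + 1) * (r j * T) - √(r j * T)) ≤
              Real.exp ((r j : ℝ) * (r j + 1) * T - √T) := Real.exp_le_exp.2 (by nlinarith)
            _ ≤ _ := le_mul_of_one_le_left (Real.exp_pos _).le hC1
        · rw [if_neg hji, sub_zero]
          refine le_trans ?_ (hC2 T hT j).2
          have h10 : {p | (j = i → p ∈ E' i) ∧ AtH (r j) (r j * T) p} ⊆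
              {p | AtH (r j) (r j * T) p} := fun p hp => hp.2
          exact_mod_cast Set.ncard_le_ncard h10 (hC2 T hT j).1
      refine (Finset.prod_le_prod (fun j _ => Nat.cast_nonneg _) h6).trans (le_of_eq ?_)
      rw [Finset.prod_mul_distrib, Finset.prod_const, Finset.card_univ, Fintype.card_fin,
        ← Real.exp_sum, Finset.sum_sub_distrib, Finset.sum_ite_eq' Finset.univ i,
        if_pos (Finset.mem_univ i), ex, Finset.sum_mul]
    have hU : {P : Fin m → K[X] | (∃ i, P i ∈ E' i) ∧ HT r T P} =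
        ⋃ i ∈ (Finset.univ : Finset (Fin m)), {P | P i ∈ E' i ∧ HT r T P} := by
      ext P
      simp
    have hUf : {P : Fin m → K[X] | (∃ i, P i ∈ E' i) ∧ HT r T P}.Finite :=
      (hC3 T hT).1.subset fun P hP => hP.2
    have hUc : ({P : Fin m → K[X] | (∃ i, P i ∈ E' i) ∧ HT r T P}.ncard : ℝ) ≤
        m * (C1 ^ m * Real.exp (ex r * T - √T)) := by
      rw [hU]
      have h7 : ((⋃ i ∈ (Finset.univ : Finset (Fin m)),
          {P : Fin m → K[X] | P i ∈ E' i ∧ HT r T P}).ncard : ℝ) ≤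
          ∑ i : Fin m, ({P : Fin m → K[X] | P i ∈ E' i ∧ HT r T P}.ncard : ℝ) := by
        exact_mod_cast ncard_biUnion_le' _ _
      refine h7.trans ((Finset.sum_le_card_nsmul _ _ _ fun i _ => (hi i).2).trans (le_of_eq ?_))
      rw [Finset.card_univ, Fintype.card_fin, nsmul_eq_mul]
    have hsub : {P | P ∈ E0 ∪ {P | ∃ i, P i ∈ E' i} ∧ HT r T P} =
        {P | P ∈ E0 ∧ HT r T P} ∪ {P | (∃ i, P i ∈ E' i) ∧ HT r T P} := by
      ext P
      simp only [Set.mem_union, Set.mem_ofPred_eq]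
      tauto
    rw [hsub]
    refine ⟨k1.union hUf, ?_⟩
    have h8 : (({P | P ∈ E0 ∧ HT r T P} ∪ {P | (∃ i, P i ∈ E' i) ∧ HT r T P}).ncard : ℝ) ≤
        ({P | P ∈ E0 ∧ HT r T P}.ncard : ℝ) +
          ({P : Fin m → K[X] | (∃ i, P i ∈ E' i) ∧ HT r T P}.ncard : ℝ) := by
      exact_mod_cast Set.ncard_union_le _ _
    linarith
  · intro i j hij F F' hF hF'
    obtain ⟨S, hS0, hS⟩ := h2 i j hij F F' hF hF'
    refine ⟨S, hS0, fun κ hκ => ?_⟩
    obtain ⟨C, hC, h⟩ := hS κ hκ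
    exact ⟨C, hC, fun L _ _ _ x hx hxE => h L x hx fun h' => hxE (Or.inl h')⟩
  · intro q G hG hGq S hS κ hκ
    obtain ⟨C, hC, h⟩ := h3 q G hG hGq S hS κ hκ
    exact ⟨C, hC, fun L _ _ _ x hx hxE => h L x hx fun h' => hxE (Or.inl h')⟩
  · intro P hP i hi
    exact hP (Or.inr ⟨i, hi⟩)

end

end Pool.Agent.Helper89V
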