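import Pool.Agent.N751.FR.Stm2
import Pool.Agent.N751.FR.Loc
import Pool.Agent.N441.FR.TypD
import Pool.Agent.N901.PC.Comb
import Pool.Agent.N572.DR.Link
import Pool.Agent.N415.DR.VK
import Pool.Agent.Y729.RV.Base

/-!
# The Faltings height and the conductor over an extension: special primes
-/

set_option autoImplicit false

namespace Pool.Agent.Helper89V

open NumberField IsDedekindDomain Module Polynomial Pool.Agent.N753.DR
open Pool.Agent.N751.FR Pool.Agent.Y733.FF Pool.Agent.W223.AK Pool.Agent.Y733.LS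
open Pool.Agent.H691R3 hiding muA
open Pool.Agent.TH876.FH (GoodAt IsPeriod arch Hj_height)

/-- special primes of the invariant `j`: the poles (`μ = 0`) and the primes at which all curves with
this invariant have additive reduction, with the least exponent `μ` of the discriminant -/
def Spec {M : Type} [Field M] [NumberField M] (μ : ℕ) (j : M) (w : HeightOneSpectrum (𝓞 M)) :
    Prop :=
  w.valuation M 6 = 1 ∧ ((μ = 0 ∧ 1 < w.valuation M j) ∨ (μ ≠ 0 ∧ ∃ a c : ℕ,
    w.valuation M j = WithZero.exp (-(a : ℤ)) ∧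
    w.valuation M (j - 1728) = WithZero.exp (-(c : ℤ)) ∧ muA a c = μ))

theorem muA_le (a c : ℕ) : muA a c ≤ 4 := by
  unfold muA
  split_ifs <;> omega

theorem muA_ne {a c : ℕ} (h : muA a c ≠ 0) : 2 ≤ muA a c := by
  unfold muA at h ⊢
  split_ifs at h ⊢ <;> omega

theorem muA_mul {a c e : ℕ} (he : 1 ≤ e) (h : muA a c ≠ 0) :
    muA (e * a) (e * c) ≤ e * muA a c := by
  rcases Nat.eq_or_lt_of_le he with h1 | h1
  · rw [← h1, one_mul, one_mul, one_mul]
  · have h2 := muA_ne h
    have h3 := muA_le (e * a) (e * c)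
    nlinarith

theorem muA_zero {a c e : ℕ} (he : 1 ≤ e) (h : muA a c ≠ 0) (h0 : muA (e * a) (e * c) = 0) :
    6 ≤ e * muA a c := by
  have k1 : (e * a) % 3 = ((e % 3) * (a % 3)) % 3 := Nat.mul_mod _ _ _
  have k2 : (e * c) % 2 = ((e % 2) * (c % 2)) % 2 := Nat.mul_mod _ _ _
  have e3 : e % 3 = 0 ∨ e % 3 = 1 ∨ e % 3 = 2 := by omega
  have a3 : a % 3 = 0 ∨ a % 3 = 1 ∨ a % 3 = 2 := by omega
  have e2 : e % 2 = 0 ∨ e % 2 = 1 := by omega
  have c2 : c % 2 = 0 ∨ c % 2 = 1 := by omega
  unfold muA at h h0 ⊢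
  rcases a3 with a3 | a3 | a3 <;> rcases e3 with e3 | e3 | e3 <;> rcases c2 with c2 | c2 <;>
    rcases e2 with e2 | e2 <;> simp [k1, k2, a3, e3, c2, e2] at h h0 ⊢ <;> omega

theorem unit6 {L : Type} [Field L] [NumberField L] (w : HeightOneSpectrum (𝓞 L))
    (h : w.valuation L 6 = 1) : fv w (2 : L) = 1 ∧ fv w (3 : L) = 1 ∧ fv w (6 : L) = 1 := by
  have h6 : fv w (6 : L) = 1 := (fv_one_iff w).2 h
  have h2 : fv w (2 : L) ≤ 1 := (fv_Na w).ofNat 2
  have h3 : fv w (3 : L) ≤ 1 := (fv_Na w).ofNat 3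
  have h23 : fv w (2 : L) * fv w (3 : L) = 1 := by
    rw [← map_mul, ← h6]
    norm_num
  have p2 : 0 < fv w (2 : L) := (fv w).pos (by norm_num)
  have p3 : 0 < fv w (3 : L) := (fv w).pos (by norm_num)
  refine ⟨?_, ?_, h6⟩ <;> nlinarith

/-- the local inequality at a prime above a special prime -/
theorem loc_spec {M L : Type} [Field M] [NumberField M] [Field L] [NumberField L] [Algebra M L]
    (v : HeightOneSpectrum (𝓞 M)) (w : HeightOneSpectrum (𝓞 L)) [w.asIdeal.LiesOver v.asIdeal]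
    {μ : ℕ} {j : M} (h : Spec μ j v) (E : WeierstrassCurve L) (hE : E.Δ ≠ 0)
    (hj : E.c₄ ^ 3 / E.Δ = algebraMap M L j) :
    (discExp w E : ℝ) * Real.log (Nv w) +
      (6 - (v.asIdeal.ramificationIdx' w.asIdeal : ℝ) * μ) * Real.log (Nv w) ≤
    Real.log (max (fv w (E.c₄ ^ 3 / E.Δ)) 1) + 6 * mw w E + 12 * aw w E := by
  classical
  have he : v.asIdeal.ramificationIdx' w.asIdeal ≠ 0 :=
    Ideal.IsDedekindDomain.ramificationIdx'_ne_zero_of_liesOver w.asIdeal v.ne_bot
  have hval := fun x : M => HeightOneSpectrum.valuation_liesOver L v w x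
  set e := v.asIdeal.ramificationIdx' w.asIdeal with hed
  have he1 : 1 ≤ e := Nat.one_le_iff_ne_zero.2 he
  have hl : 0 < Real.log (Nv w) := log_Nv_pos w
  obtain ⟨h6, hcase⟩ := h
  have hw6 : w.valuation L 6 = 1 := by
    have h1 := hval 6
    rw [h6, one_pow, map_ofNat] at h1
    exact h1.symm
  obtain ⟨f2, f3, f6⟩ := unit6 w hw6
  have hm := mw_nonneg w E
  have ha := aw_nonneg w E
  have hlp : 0 ≤ Real.log (max (fv w (E.c₄ ^ 3 / E.Δ)) 1) := Real.log_nonneg (le_max_right _ _)
  rcases hcase with ⟨hμ, hpole⟩ | ⟨hμ, a, c, va, vc, hac⟩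
  · -- a pole
    rw [hμ, Nat.cast_zero, mul_zero, sub_zero]
    have hp : 1 < w.valuation L (E.c₄ ^ 3 / E.Δ) := by
      rw [hj, ← hval]
      exact one_lt_pow₀ hpole he
    have hfv : 1 < fv w (E.c₄ ^ 3 / E.Δ) := by
      by_contra hcon
      rw [not_lt, fv_le_one_iff] at hcon
      exact absurd hp (not_lt.2 hcon)
    have hbad : ¬ GoodAt w E := fun hg => absurd (good_int w E hE hg) (not_le.2 hfv)
    by_cases hs : SemiAt w E
    · have h7 : mw w E = Real.log (Nv w) := by
        unfold mw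
        exact if_pos ⟨hbad, hs, hw6⟩
      have h8 := semi_disc w E hE hs
      rw [h7]
      linarith
    · have h7 : aw w E = Real.log (Nv w) := by
        unfold aw
        exact if_pos ⟨hs, hw6⟩
      have h8 := (disc_bound w E hE).2 f2 f3 hfv
      rw [h7]
      linarith
  · -- potentially good reduction
    have va' : w.valuation L (E.c₄ ^ 3 / E.Δ) = WithZero.exp (-((e * a : ℕ) : ℤ)) := by
      rw [hj, ← hval, va, ← WithZero.exp_nsmul]
      congr 1
      push_cast
      simp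
    have vc' : w.valuation L (E.c₄ ^ 3 / E.Δ - 1728) = WithZero.exp (-((e * c : ℕ) : ℤ)) := by
      have : E.c₄ ^ 3 / E.Δ - 1728 = algebraMap M L (j - 1728) := by
        rw [hj, map_sub, map_ofNat]
      rw [this, ← hval, vc, ← WithZero.exp_nsmul]
      congr 1
      push_cast
      simp
    obtain ⟨t1, t2, t3⟩ := Pool.Agent.N441.FR.t L w E hE hw6 (e * a) (e * c) va' vc'
    have hμ' : muA a c ≠ 0 := by rw [hac]; exact hμ
    by_cases hs : SemiAt w E
    · have h0 : muA (e * a) (e * c) = 0 := by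
        by_contra hcon
        exact t2 hcon hs
      have h1 := muA_zero he1 hμ' h0
      rw [hac] at h1
      have h2 : (6 : ℝ) ≤ e * μ := by exact_mod_cast h1
      rw [t3 hs, Nat.cast_zero, zero_mul, zero_add]
      have h3 : (6 - (e : ℝ) * μ) * Real.log (Nv w) ≤ 0 :=
        mul_nonpos_of_nonpos_of_nonneg (by linarith) hl.le
      linarith
    · have h7 : aw w E = Real.log (Nv w) := by
        unfold aw
        exact if_pos ⟨hs, hw6⟩
      have h1 := muA_mul he1 hμ'
      rw [hac] at h1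
      have h2 : (discExp w E : ℝ) ≤ 6 + e * μ := by
        exact_mod_cast t1.trans (Nat.add_le_add_left h1 6)
      rw [h7]
      have h3 : (discExp w E : ℝ) * Real.log (Nv w) ≤ (6 + e * μ) * Real.log (Nv w) :=
        mul_le_mul_of_nonneg_right h2 hl.le
      nlinarith

end Pool.Agent.Helper89V
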