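import Pool.Agent.Helper89V.FR9

/-!
# Interpolation between the slopes three and six
-/

set_option autoImplicit false

namespace Pool.Agent.Helper89V

open NumberField IsDedekindDomain Module Polynomial Pool.Agent.N753.DR Pool.Agent.N751.FR
open Pool.Agent.Y733.FF (discSum multN addN log_multN_nonneg)
open Pool.Agent.TH876.FH (IsPeriod arch)

/-- **the inequality for all slopes between three and six** -/
theorem fr_comb (K : Type) [Field K] [NumberField K] (r : ℕ) (hr : 1 ≤ r) :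
    ∃ E : Set K[X],
      (∀ U : ℝ, 0 ≤ U → {p | p ∈ E ∧ AtH r U p}.Finite ∧
        ({p | p ∈ E ∧ AtH r U p}.ncard : ℝ) ≤ 5 * Real.exp ((r + 1) * U - √U)) ∧
      ∀ (A B : K[X]), IsCoprime A B → B ≠ 0 → 1 ≤ max A.natDegree B.natDegree →
      (∀ P ∈ badPl A B, P.natDegree ≤ 2 * r + 1) →
      Pool.Agent.N751.FR.wt A B + 12 ≤ 6 * gam A B ∧
      ∀ s : ℝ, 3 ≤ s → s ≤ 6 → ∀ ε : ℝ, 0 < ε → ∃ C : ℝ, 0 ≤ C ∧
      ∀ (L : Type) [Field L] [NumberField L] [Algebra K L] (x : L),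
        (minpoly K x).natDegree = r → minpoly K x ∉ E →
        aeval x (A * (A - 1728 * B) * B) ≠ 0 →
        ∀ (F₀ : Type) [Field F₀] [NumberField F₀] [Algebra F₀ L],
        (∀ z : F₀, algebraMap F₀ L z ∈ IntermediateField.adjoin K {x}) →
        ∀ (W : WeierstrassCurve L) (τ : InfinitePlace L → UpperHalfPlane), W.Δ ≠ 0 →
        W.c₄ ^ 3 / W.Δ = aeval x A / aeval x B → IsPeriod (W.c₄ ^ 3 / W.Δ) τ →
        discSum W + ∑ w : InfinitePlace L, (w.mult : ℝ) * arch (τ w) +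
          (2 * (s - 3) * (gam A B : ℝ) - Pool.Agent.N751.FR.wt A B - ε) *
            Height.logHeight₁ x ≤
        s * Real.log (multN W) + s * Real.log (addN W) +
          2 * (s - 3) * (Real.log |(discr L : ℝ)| - finrank F₀ L * Real.log |(discr F₀ : ℝ)|) +
          C * finrank ℚ L := by
  obtain ⟨E, hcard, hmain⟩ := fr_main K r hr
  refine ⟨E, hcard, ?_⟩
  intro A B hAB hB h1 hdeg
  refine ⟨Pool.Agent.N401.FR.t K A B hAB hB h1, ?_⟩
  intro s hs3 hs6 ε hε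
  obtain ⟨C6, hC6, h6⟩ := hmain A B hAB hB h1 hdeg ε hε
  obtain ⟨C3, hC3, h3⟩ := fr_three K hAB hB h1 r
  refine ⟨C6 + C3, by positivity, ?_⟩
  intro L _ _ _ x hxr hxE hFx F₀ _ _ _ hF₀ W τ hW hj hτ
  have hxB : aeval x B ≠ 0 := by
    intro h
    apply hFx
    rw [map_mul, h, mul_zero]
  have i6 := h6 L x hxr hxE hxB F₀ hF₀ W τ hW hj hτ
  have i3 := h3 L x hxr hFx W τ hW hj hτ
  set l : ℝ := (s - 3) / 3 with hl
  have hl0 : 0 ≤ l := by
    rw [hl]
    linarith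
  have hl1 : l ≤ 1 := by
    rw [hl]
    linarith
  have hs : s = 3 + 3 * l := by
    rw [hl]
    ring
  have j6 := mul_le_mul_of_nonneg_left i6 hl0
  have j3 := mul_le_mul_of_nonneg_left i3 (show 0 ≤ 1 - l by linarith)
  have hm := log_multN_nonneg W hW
  have hh : 0 ≤ Height.logHeight₁ x := Height.zero_le_logHeight₁ x
  have hq : (0 : ℝ) ≤ finrank ℚ L := Nat.cast_nonneg _
  have k1 : 0 ≤ (1 - l) * (C6 * finrank ℚ L) :=
    mul_nonneg (by linarith) (mul_nonneg hC6 hq)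
  have k2 : 0 ≤ l * (C3 * finrank ℚ L) := mul_nonneg hl0 (mul_nonneg hC3 hq)
  have k3 : 0 ≤ (1 - l) * (ε * Height.logHeight₁ x) :=
    mul_nonneg (by linarith) (mul_nonneg hε.le hh)
  have k4 : 0 ≤ (3 - 3 * l) * Real.log (multN W) := mul_nonneg (by linarith) hm
  rw [hs]
  linarith

end Pool.Agent.Helper89V
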