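import Pool.Agent.Helper89V.FR1

/-!
# The Faltings height and the conductor over an extension: the global inequality
-/

set_option autoImplicit false

namespace Pool.Agent.Helper89V

open NumberField IsDedekindDomain Module Polynomial Pool.Agent.N753.DR
open Pool.Agent.N751.FR Pool.Agent.Y733.FF Pool.Agent.W223.AK Pool.Agent.Y733.LS
open Pool.Agent.H691R3 hiding muA
open Pool.Agent.TH876.FH (GoodAt IsPeriod arch Hj_height)

section

variable {M L : Type} [Field M] [NumberField M] [Field L] [NumberField L] [Algebra M L]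

omit [NumberField M] [NumberField L] in
theorem over_unique {v v' : HeightOneSpectrum (𝓞 M)} {w : HeightOneSpectrum (𝓞 L)}
    (h : w.asIdeal.LiesOver v.asIdeal) (h' : w.asIdeal.LiesOver v'.asIdeal) : v = v' := by
  ext1
  rw [h.over, h'.over]

open Classical in
/-- the finite part -/
theorem fin_part (j : M) (E : WeierstrassCurve L) (hE : E.Δ ≠ 0)
    (hj : E.c₄ ^ 3 / E.Δ = algebraMap M L j) {ι : Type} (I : Finset ι) (μ : ι → ℕ)
    (W : ι → Finset (HeightOneSpectrum (𝓞 M)))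
    (hW : ∀ i ∈ I, ∀ v ∈ W i, Spec (μ i) j v)
    (hdisj : ∀ i ∈ I, ∀ i' ∈ I, i ≠ i' → Disjoint (W i) (W i')) :
    discSum E + finrank M L * ∑ i ∈ I, (6 - (μ i : ℝ)) * ∑ v ∈ W i, lN v ≤
      ∑ᶠ w : Pr L, Real.log (max (fv w (E.c₄ ^ 3 / E.Δ)) 1) + 6 * Real.log (multN E) +
        6 * Real.log (addN E) + 22 * (finrank ℚ L * Real.log 6) +
        6 * (Real.log |(discr L : ℝ)| - finrank M L * Real.log |(discr M : ℝ)|) := by
  choose Tw hTw hTs using fun v : HeightOneSpectrum (𝓞 M) =>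
    Pool.Agent.N901.PC.Comb.sum_over (L := L) v
  set J : Finset (Σ _ : ι, HeightOneSpectrum (𝓞 M)) := I.sigma W with hJ
  have hJm : ∀ x ∈ J, x.1 ∈ I ∧ x.2 ∈ W x.1 := fun x hx => Finset.mem_sigma.1 hx
  have hinj : ∀ x ∈ J, ∀ x' ∈ J, x.2 = x'.2 → x = x' := by
    rintro ⟨i, v⟩ hx ⟨i', v'⟩ hx' h
    have h' : v = v' := h
    subst h'
    obtain ⟨h1, h2⟩ := hJm _ hx
    obtain ⟨h3, h4⟩ := hJm _ hx'
    by_cases hi : i = i'
    · subst hi
      rfl
    · exact absurd h4 (Finset.disjoint_left.1 (hdisj i h1 i' h3 hi) h2)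
  have huniq : ∀ x ∈ J, ∀ x' ∈ J, ∀ w, w ∈ Tw x.2 → w ∈ Tw x'.2 → x = x' := by
    intro x hx x' hx' w hw hw'
    exact hinj x hx x' hx' (over_unique ((hTw _ _).1 hw) ((hTw _ _).1 hw'))
  set e : HeightOneSpectrum (𝓞 M) → HeightOneSpectrum (𝓞 L) → ℝ :=
    fun v w => (v.asIdeal.ramificationIdx' w.asIdeal : ℝ) with he
  set f : (Σ _ : ι, HeightOneSpectrum (𝓞 M)) → HeightOneSpectrum (𝓞 L) → ℝ :=
    fun x w => (6 - e x.2 w * μ x.1) * lN w with hf
  set G : HeightOneSpectrum (𝓞 L) → ℝ := fun w => ∑ x ∈ J, if w ∈ Tw x.2 then f x w else 0 with hG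
  set T := J.biUnion fun x => Tw x.2 with hT
  have hGsupp : Function.support G ⊆ (T : Set (HeightOneSpectrum (𝓞 L))) := by
    intro w hw
    rw [Function.mem_support] at hw
    rw [Finset.mem_coe, hT, Finset.mem_biUnion]
    by_contra hcon
    push Not at hcon
    exact hw (Finset.sum_eq_zero fun x hx => if_neg (hcon x hx))
  have hGfin : (Function.support G).Finite := T.finite_toSet.subset hGsupp
  -- the local inequalities
  have hloc : ∀ w : Pr L, (discExp w E : ℝ) * Real.log (Nv w) + G w ≤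
      Real.log (max (fv w (E.c₄ ^ 3 / E.Δ)) 1) + 6 * mw w E + 12 * aw w E +
        -22 * Real.log (fv w (6 : L)) := by
    intro w
    have h1 := loc w E hE (δ := 0) le_rfl (by norm_num)
    have hm := mw_nonneg w E
    have ha := aw_nonneg w E
    obtain ⟨s0, -⟩ := log_six w
    by_cases hex : ∃ x ∈ J, w ∈ Tw x.2
    · obtain ⟨x, hx, hwx⟩ := hex
      have h2 : G w = f x w := by
        rw [hG]
        simp only
        rw [Finset.sum_eq_single x]
        · rw [if_pos hwx]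
        · intro x' hx' hne
          rw [if_neg]
          intro hcon
          exact hne (huniq x' hx' x hx w hcon hwx)
        · exact fun h => absurd hx h
      haveI := (hTw _ _).1 hwx
      have h3 := loc_spec x.2 w (hW x.1 (hJm x hx).1 x.2 (hJm x hx).2) E hE hj
      rw [h2]
      have h4 : f x w = (6 - ((x.2).asIdeal.ramificationIdx' w.asIdeal : ℝ) * μ x.1) *
          Real.log (Nv w) := rfl
      rw [h4]
      linarith
    · push Not at hex
      have h2 : G w = 0 := Finset.sum_eq_zero fun x hx => if_neg (hex x hx)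
      rw [h2]
      have h5 : 0 ≤ (1 + (0 : ℝ)) * (if Sp (E.c₄ ^ 3 / E.Δ) w then Real.log (Nv w) else 0) := by
        have := (log_Nv_pos w).le
        split_ifs
        · linarith
        · norm_num
      linarith
  -- the sum
  have s1 := supp_disc E hE
  have s3 : (Function.support fun v : Pr L =>
    Real.log (max (fv v (E.c₄ ^ 3 / E.Δ)) 1)).Finite := Fs_ht (E.c₄ ^ 3 / E.Δ)
  have s4 := supp_mw E hE
  have s5 := supp_aw E hE
  have s6 : (Function.support fun v : Pr L => Real.log (fv v (6 : L))).Finite :=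
    Fs_log (K := L) (z := (6 : L)) (by norm_num)
  have s4' := supp_mul 6 s4
  have s5' := supp_mul 12 s5
  have s6' := supp_mul (-22) s6
  have s34 := supp_add s3 s4'
  have s345 := supp_add s34 s5'
  have key : ∑ᶠ w : Pr L, ((discExp w E : ℝ) * Real.log (Nv w) + G w) ≤
      ∑ᶠ w : Pr L, (Real.log (max (fv w (E.c₄ ^ 3 / E.Δ)) 1) + 6 * mw w E + 12 * aw w E +
        -22 * Real.log (fv w (6 : L))) :=
    finsum_le_finsum' (supp_add s1 hGfin) (supp_add s345 s6') hloc
  rw [sum_add s1 hGfin, sum_add s345 s6', sum_add s34 s5', sum_add s3 s4',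
    sum_mul _ s4, sum_mul _ s5, sum_mul _ s6] at key
  have h6 := fin_nat (K := L) (n := 6) (by norm_num)
  push_cast at h6
  rw [h6] at key
  -- the sum of `G`
  have hGs : ∑ᶠ w : Pr L, G w = 6 * ∑ w ∈ T, lN w -
      finrank M L * ∑ x ∈ J, (μ x.1 : ℝ) * lN x.2 := by
    rw [finsum_eq_sum_of_support_subset (s := T) G hGsupp]
    have h1 : ∑ w ∈ T, G w = ∑ x ∈ J, ∑ w ∈ Tw x.2, f x w := by
      rw [hG]
      simp only
      rw [Finset.sum_comm]
      refine Finset.sum_congr rfl fun x hx => ?_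
      rw [Finset.sum_ite_mem, Finset.inter_eq_right.2]
      exact Finset.subset_biUnion_of_mem (fun x => Tw x.2) hx
    have h2 : ∑ w ∈ T, lN w = ∑ x ∈ J, ∑ w ∈ Tw x.2, lN w := by
      rw [hT, Finset.sum_biUnion]
      intro x hx x' hx' hne
      rw [Function.onFun, Finset.disjoint_left]
      intro w hw hw'
      exact hne (huniq x hx x' hx' w hw hw')
    rw [h1, h2, Finset.mul_sum, Finset.mul_sum, ← Finset.sum_sub_distrib]
    refine Finset.sum_congr rfl fun x _ => ?_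
    have h3 := hTs x.2
    have h4 : ∑ w ∈ Tw x.2, f x w = 6 * ∑ w ∈ Tw x.2, lN w -
        μ x.1 * ∑ w ∈ Tw x.2, ((x.2).asIdeal.ramificationIdx' w.asIdeal : ℝ) * lN w := by
      rw [Finset.mul_sum, Finset.mul_sum, ← Finset.sum_sub_distrib]
      refine Finset.sum_congr rfl fun w _ => ?_
      rw [hf, he]
      ring
    rw [h4, h3]
    ring
  have hbc := Pool.Agent.Y729.RV.base_change (k := M) (L := L) (J.image fun x => x.2) T (by
    intro v hv w hw
    obtain ⟨x, hx, rfl⟩ := Finset.mem_image.1 hv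
    exact Finset.mem_biUnion.2 ⟨x, hx, (hTw _ _).2 hw⟩)
  have himg : ∑ v ∈ J.image (fun x => x.2), Real.log (Ideal.absNorm v.asIdeal : ℝ) =
      ∑ x ∈ J, lN x.2 := by
    rw [Finset.sum_image]
    · rfl
    · intro x hx x' hx' h
      exact hinj x hx x' hx' h
  rw [himg] at hbc
  have hbc' : (finrank M L : ℝ) * (Real.log |(discr M : ℝ)| + ∑ x ∈ J, lN x.2) ≤
      Real.log |(discr L : ℝ)| + ∑ w ∈ T, lN w := hbc
  have hsig : ∑ i ∈ I, (6 - (μ i : ℝ)) * ∑ v ∈ W i, lN v =
      6 * ∑ x ∈ J, lN x.2 - ∑ x ∈ J, (μ x.1 : ℝ) * lN x.2 := by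
    rw [hJ, Finset.sum_sigma, Finset.sum_sigma, Finset.mul_sum, ← Finset.sum_sub_distrib]
    refine Finset.sum_congr rfl fun i _ => ?_
    simp only
    rw [← Finset.mul_sum]
    ring
  rw [log_multN E hE, log_addN E hE, hsig]
  have e1 : discSum E = ∑ᶠ v : Pr L, (discExp v E : ℝ) * Real.log (Nv v) := rfl
  rw [e1]
  rw [hGs] at key
  rw [mul_add] at hbc'
  linarith

end

/-- **the global inequality** -/
theorem glob : ∃ C : ℝ, 0 < C ∧ ∀ (M L : Type) [Field M] [NumberField M] [Field L] [NumberField L]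
    [Algebra M L] (j : M) (E : WeierstrassCurve L) (τ : InfinitePlace L → UpperHalfPlane),
    E.Δ ≠ 0 → E.c₄ ^ 3 / E.Δ = algebraMap M L j → IsPeriod (E.c₄ ^ 3 / E.Δ) τ →
    ∀ (ι : Type) (I : Finset ι) (μ : ι → ℕ) (W : ι → Finset (HeightOneSpectrum (𝓞 M))),
    (∀ i ∈ I, ∀ v ∈ W i, Spec (μ i) j v) →
    (∀ i ∈ I, ∀ i' ∈ I, i ≠ i' → Disjoint (W i) (W i')) →
    discSum E + ∑ w : InfinitePlace L, (w.mult : ℝ) * arch (τ w) +
      finrank M L * ∑ i ∈ I, (6 - (μ i : ℝ)) * ∑ v ∈ W i, lN v ≤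
    finrank M L * Height.logHeight₁ j + 6 * Real.log (multN E) + 6 * Real.log (addN E) +
      6 * (Real.log |(discr L : ℝ)| - finrank M L * Real.log |(discr M : ℝ)|) +
      C * finrank ℚ L := by
  obtain ⟨c, hc0, hc⟩ := arch_le
  have l6 : 0 < Real.log 6 := Real.log_pos (by norm_num)
  refine ⟨c + 22 * Real.log 6, by positivity, ?_⟩
  intro M L _ _ _ _ _ j E τ hE hj hτ ι I μ W hW hdisj
  have h1 := fin_part j E hE hj I μ W hW hdisj
  have h2 := hc L _ τ hτ
  have h3 := Hj_height (E.c₄ ^ 3 / E.Δ)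
  have h4 : Height.logHeight₁ (E.c₄ ^ 3 / E.Δ) = finrank M L * Height.logHeight₁ j := by
    rw [hj, Pool.Agent.N415.DRVK.ht_ext]
  have h5 : ∑ᶠ v : Pr L, Real.log (max (fv v (E.c₄ ^ 3 / E.Δ)) 1) =
    ∑ᶠ v : HeightOneSpectrum (𝓞 L), Real.log (max (FinitePlace.mk v (E.c₄ ^ 3 / E.Δ)) 1) := rfl
  rw [h5] at h1
  rw [h4] at h3
  have e0 : (c + 22 * Real.log 6) * (finrank ℚ L : ℝ) =
      c * finrank ℚ L + 22 * (finrank ℚ L * Real.log 6) := by ring
  linarith

end Pool.Agent.Helper89V
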