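import Pool.Agent.Helper89V.Exc
import Pool.Agent.N751.FR.Stm
import Pool.Agent.N31.FR.Tot

/-!
# The exceptional set and the inversion
-/

set_option autoImplicit false

namespace Pool.Agent.Helper89V

open NumberField IsDedekindDomain Module Polynomial Pool.Agent.N753.DR Pool.Agent.N751.FR

/-- the minimal polynomial of the inverse -/
noncomputable def invP {K : Type} [Field K] (p : K[X]) : K[X] := C (p.coeff 0)⁻¹ * p.reverse

section

variable {K M : Type} [Field K] [Field M] [Algebra K M]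

theorem invP_props {p : K[X]} (h0 : p.coeff 0 ≠ 0) :
    (invP p).Monic ∧ (invP p).natDegree = p.natDegree := by
  have h1 : p.natTrailingDegree = 0 := by
    rw [natTrailingDegree_eq_zero]
    exact Or.inr h0
  have h2 : p.reverse.natDegree = p.natDegree := by rw [reverse_natDegree, h1, Nat.sub_zero]
  have h3 : p.reverse.leadingCoeff = p.coeff 0 := by
    rw [reverse_leadingCoeff, trailingCoeff, h1]
  refine ⟨?_, ?_⟩
  · unfold invP
    rw [Monic, leadingCoeff_mul, leadingCoeff_C, h3, inv_mul_cancel₀ h0]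
  · unfold invP
    rw [natDegree_C_mul (inv_ne_zero h0), h2]

theorem aeval_invP {x : M} (hx : x ≠ 0) {p : K[X]} (h : aeval x p = 0) :
    aeval x⁻¹ (invP p) = 0 := by
  let _ : Invertible x := invertibleOfNonzero hx
  have h1 : eval₂ (algebraMap K M) (⅟x) p.reverse = 0 :=
    (eval₂_reverse_eq_zero_iff (algebraMap K M) x p).2 h
  unfold invP
  rw [map_mul, aeval_def x⁻¹ p.reverse, ← invOf_eq_inv, h1, mul_zero]

theorem minpoly_inv [FiniteDimensional K M] {x : M} (hx : x ≠ 0) :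
    minpoly K x⁻¹ = invP (minpoly K x) := by
  have key : ∀ {y : M}, y ≠ 0 → minpoly K y⁻¹ ∣ invP (minpoly K y) ∧
      (invP (minpoly K y)).Monic ∧ (invP (minpoly K y)).natDegree = (minpoly K y).natDegree := by
    intro y hy
    have h0 := minpoly.coeff_zero_ne_zero (IsIntegral.of_finite K y) hy
    exact ⟨minpoly.dvd K _ (aeval_invP hy (minpoly.aeval K y)), invP_props h0⟩
  obtain ⟨h1, h2, h3⟩ := key hx
  obtain ⟨k1, k2, k3⟩ := key (inv_ne_zero hx)
  rw [inv_inv] at k1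
  have k4 := natDegree_le_of_dvd k1 k2.ne_zero
  rw [k3] at k4
  refine (Polynomial.eq_of_monic_of_dvd_of_natDegree_le
    (minpoly.monic (IsIntegral.of_finite K x⁻¹)) h2 h1 (by rw [h3]; exact k4)).symm

end

/-- the exceptional set, with the inverses -/
theorem exists_inv (K : Type) [Field K] [NumberField K] (r : ℕ) (hr : 1 ≤ r) :
    ∃ E E₀ : Set K[X], IsExc K r E₀ ∧
      (∀ U : ℝ, 0 ≤ U → {p | p ∈ E ∧ AtH r U p}.Finite ∧
        ({p | p ∈ E ∧ AtH r U p}.ncard : ℝ) ≤ 5 * Real.exp ((r + 1) * U - √U)) ∧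
      ∀ (M : Type) [Field M] [NumberField M] [Algebra K M] (x : M), minpoly K x ∉ E →
        minpoly K x ∉ E₀ ∧ (x ≠ 0 → minpoly K x⁻¹ ∉ E₀) := by
  classical
  obtain ⟨E₀, h1, h2⟩ := sKE K r hr
  refine ⟨{p | p ∈ E₀ ∨ invP p ∈ E₀}, E₀, h2, ?_, ?_⟩
  · intro U hU
    obtain ⟨f1, c1⟩ := h1 U hU
    have hr1 : (1 : ℝ) ≤ r := by exact_mod_cast hr
    have hsq : √U * √U = U := Real.mul_self_sqrt hU
    have hs0 : 0 ≤ √U := Real.sqrt_nonneg U
    have hexp : Real.exp (-1) ≤ Real.exp ((r + 1) * U - √U) := by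
      refine Real.exp_le_exp.2 ?_
      nlinarith [sq_nonneg (√U - 1)]
    -- the second part
    set B : Set K[X] := {p | invP p ∈ E₀ ∧ AtH r U p ∧ p ≠ X} with hB
    have hBx : ∀ p ∈ B, ∃ q, q = invP p ∧ q ∈ E₀ ∧ AtH r U q ∧ invP q = p := by
      rintro p ⟨hp1, ⟨M, i1, i2, i3, x, e1, e2, e3, e4⟩, hp3⟩
      have hfd : FiniteDimensional K M := FiniteDimensional.right ℚ K M
      have hx : x ≠ 0 := by
        rintro rfl
        apply hp3
        rw [← e3, minpoly.zero]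
      have e5 := minpoly_inv (K := K) hx
      have e6 := minpoly_inv (K := K) (inv_ne_zero hx)
      rw [inv_inv] at e6
      have e7 : (minpoly K x⁻¹).natDegree = r := by
        have h0 := minpoly.coeff_zero_ne_zero (IsIntegral.of_finite K x) hx
        rw [e5, (invP_props h0).2, e2]
      refine ⟨minpoly K x⁻¹, by rw [e5, e3], by rw [e5, e3]; exact hp1,
        ⟨M, i1, i2, i3, x⁻¹, e1, e7, rfl, ?_⟩, by rw [← e6, e3]⟩
      rw [Height.logHeight₁_inv]
      exact e4
    have hBmap : ∀ p ∈ B, invP p ∈ {p | p ∈ E₀ ∧ AtH r U p} := by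
      intro p hp
      obtain ⟨q, hq1, hq2, hq3, -⟩ := hBx p hp
      rw [← hq1]
      exact ⟨hq2, hq3⟩
    have hBinj : Set.InjOn invP B := by
      intro p hp p' hp' h
      obtain ⟨q, hq1, -, -, hq4⟩ := hBx p hp
      obtain ⟨q', hq1', -, -, hq4'⟩ := hBx p' hp'
      rw [← hq4, ← hq4', hq1, hq1', h]
    have hBfin : B.Finite := Set.Finite.of_injOn hBmap hBinj f1
    have hBcard := Set.ncard_le_ncard_of_injOn invP hBmap hBinj f1
    have hsub : {p : K[X] | p ∈ {p | p ∈ E₀ ∨ invP p ∈ E₀} ∧ AtH r U p} ⊆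
        ({p | p ∈ E₀ ∧ AtH r U p} ∪ B) ∪ {X} := by
      rintro p ⟨hp1 | hp1, hp2⟩
      · exact Or.inl (Or.inl ⟨hp1, hp2⟩)
      · by_cases hX : p = X
        · exact Or.inr hX
        · exact Or.inl (Or.inr ⟨hp1, hp2, hX⟩)
    have hfin : (({p | p ∈ E₀ ∧ AtH r U p} ∪ B) ∪ {X}).Finite :=
      (f1.union hBfin).union (Set.finite_singleton _)
    refine ⟨hfin.subset hsub, ?_⟩
    have n1 := Set.ncard_le_ncard hsub hfin
    have n2 := Set.ncard_union_le ({p | p ∈ E₀ ∧ AtH r U p} ∪ B) {X}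
    have n3 := Set.ncard_union_le {p | p ∈ E₀ ∧ AtH r U p} B
    rw [Set.ncard_singleton] at n2
    have n4 : ({p : K[X] | p ∈ {p | p ∈ E₀ ∨ invP p ∈ E₀} ∧ AtH r U p}.ncard : ℝ) ≤
        2 * ({p | p ∈ E₀ ∧ AtH r U p}.ncard : ℝ) + 1 := by
      have : {p : K[X] | p ∈ {p | p ∈ E₀ ∨ invP p ∈ E₀} ∧ AtH r U p}.ncard ≤
        2 * {p | p ∈ E₀ ∧ AtH r U p}.ncard + 1 := by omega
      exact_mod_cast this
    have n5 : (1 : ℝ) ≤ 3 * Real.exp ((r + 1) * U - √U) := by
      have h3 : (1 : ℝ) ≤ 3 * Real.exp (-1) := by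
        have h4 : Real.exp 1 ≤ 3 := Real.exp_one_lt_three.le
        have h5 : Real.exp 1 * Real.exp (-1) = 1 := by
          rw [← Real.exp_add]
          simp
        nlinarith [Real.exp_pos (-1)]
      linarith
    linarith
  · intro M _ _ _ x hx
    have hfd : FiniteDimensional K M := FiniteDimensional.right ℚ K M
    refine ⟨fun h => hx (Or.inl h), fun h0 h => hx (Or.inr ?_)⟩
    rw [← minpoly_inv h0]
    exact h

end Pool.Agent.Helper89V
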