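import Pool.Agent.Helper89V.FR1

/-!
# The special primes of a rational function
-/

set_option autoImplicit false

namespace Pool.Agent.Helper89V

open NumberField IsDedekindDomain Module Polynomial Pool.Agent.N753.DR Pool.Agent.N751.FR

section

variable {K : Type} [Field K] [NumberField K]

omit [NumberField K] in
/-- the basic facts on the numerator and the denominator -/
theorem ab_ne {A B : K[X]} (hAB : IsCoprime A B) (h1 : 1 ≤ max A.natDegree B.natDegree) :
    A ≠ 0 ∧ A - 1728 * B ≠ 0 := by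
  have key : ∀ F : K[X], IsUnit F → F.natDegree = 0 := fun F h => natDegree_eq_zero_of_isUnit h
  constructor
  · rintro rfl
    have hB : IsUnit B := isCoprime_zero_left.1 hAB
    rw [natDegree_zero, key B hB] at h1
    simp at h1
  · intro h
    have hA : A = 1728 * B := sub_eq_zero.1 h
    have hB : IsUnit B := by
      rw [hA] at hAB
      exact isCoprime_self.1 (hAB.of_mul_left_right)
    have hA' : A.natDegree ≤ 0 := by
      rw [hA]
      refine natDegree_mul_le.trans ?_
      rw [key B hB]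
      have : (1728 : K[X]).natDegree = 0 := by
        have h2 : (1728 : K[X]) = C (1728 : K) := (map_ofNat C 1728).symm
        rw [h2, natDegree_C]
      omega
    rw [key B hB] at h1
    omega

theorem mul_notMem {M : Type} [Field M] [NumberField M] {w : HeightOneSpectrum (𝓞 M)} {a b : ℕ}
    (h : ((a * b : ℕ) : 𝓞 M) ∉ w.asIdeal) : (a : 𝓞 M) ∉ w.asIdeal ∧ (b : 𝓞 M) ∉ w.asIdeal := by
  refine ⟨fun h1 => h ?_, fun h1 => h ?_⟩
  · rw [Nat.cast_mul]
    exact Ideal.mul_mem_right _ _ h1
  · rw [Nat.cast_mul]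
    exact Ideal.mul_mem_left _ _ h1

theorem val_six {M : Type} [Field M] [NumberField M] {w : HeightOneSpectrum (𝓞 M)}
    (h : ((6 : ℕ) : 𝓞 M) ∉ w.asIdeal) : w.valuation M 6 = 1 := by
  have h1 : w.valuation M (algebraMap (𝓞 M) M ((6 : ℕ) : 𝓞 M)) ≤ 1 := w.valuation_le_one _
  have h2 : ¬ w.valuation M (algebraMap (𝓞 M) M ((6 : ℕ) : 𝓞 M)) < 1 := by
    rw [w.valuation_lt_one_iff_mem]
    exact h
  have h3 : algebraMap (𝓞 M) M ((6 : ℕ) : 𝓞 M) = 6 := by
    rw [map_natCast]
    norm_num
  rw [h3] at h1 h2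
  exact le_antisymm h1 (not_lt.1 h2)

/-- the primes at which a bad place has a simple zero are special -/
theorem spec_fin {A B : K[X]} (hAB : IsCoprime A B) (hB : B ≠ 0)
    (h1 : 1 ≤ max A.natDegree B.natDegree) {P : K[X]} (hP : P ∈ badPl A B) :
    ∃ n : ℕ, n ≠ 0 ∧ ∀ (M : Type) [Field M] [NumberField M] [Algebra K M]
      (w : HeightOneSpectrum (𝓞 M)) (x : M), (n : 𝓞 M) ∉ w.asIdeal → w.valuation M x ≤ 1 →
      w.valuation M (aeval x P) = WithZero.exp (-1 : ℤ) →
      Spec (mu A B P) (aeval x A / aeval x B) w := by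
  classical
  obtain ⟨hA, hD⟩ := ab_ne hAB h1
  unfold badPl at hP
  rw [Finset.mem_filter, Multiset.mem_toFinset] at hP
  obtain ⟨hPf, hPbad⟩ := hP
  have hirr : Irreducible P := UniqueFactorizationMonoid.irreducible_of_normalized_factor P hPf
  obtain ⟨n1, hn1, k1⟩ := simple_val P A hirr hA
  obtain ⟨n2, hn2, k2⟩ := simple_val P B hirr hB
  obtain ⟨n3, hn3, k3⟩ := simple_val P (A - 1728 * B) hirr hD
  refine ⟨6 * (n1 * (n2 * n3)), by positivity, ?_⟩
  intro M _ _ _ w x hw hx hPx
  obtain ⟨w6, hw⟩ := mul_notMem hw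
  obtain ⟨w1, hw⟩ := mul_notMem hw
  obtain ⟨w2, w3⟩ := mul_notMem hw
  have vA := k1 M w x w1 hx hPx
  have vB := k2 M w x w2 hx hPx
  have vD := k3 M w x w3 hx hPx
  have hBx : aeval x B ≠ 0 := by
    intro h
    rw [h, map_zero] at vB
    exact WithZero.exp_ne_zero vB.symm
  have hj : aeval x A / aeval x B - 1728 = aeval x (A - 1728 * B) / aeval x B := by
    rw [map_sub, map_mul, map_ofNat, eq_div_iff hBx, sub_mul, div_mul_cancel₀ _ hBx]
  refine ⟨val_six w6, ?_⟩
  by_cases hPB : P ∣ B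
  · left
    have hPA : ¬ P ∣ A := fun h => hirr.not_isUnit (hAB.isUnit_of_dvd' h hPB)
    have m1 : multiplicity P A = 0 := multiplicity_eq_zero.2 hPA
    have m2 : multiplicity P B ≠ 0 := fun h => (multiplicity_eq_zero.1 h) hPB
    refine ⟨by unfold mu; rw [if_pos hPB], ?_⟩
    rw [map_div₀, vA, vB, m1, ← WithZero.exp_sub, ← WithZero.exp_zero, WithZero.exp_lt_exp]
    omega
  · right
    have m2 : multiplicity P B = 0 := multiplicity_eq_zero.2 hPB
    have hmu : mu A B P = muA (multiplicity P A) (multiplicity P (A - 1728 * B)) := by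
      unfold mu
      rw [if_neg hPB]
    refine ⟨?_, multiplicity P A, multiplicity P (A - 1728 * B), ?_, ?_, hmu.symm⟩
    · rw [hmu]
      unfold muA
      rcases hPbad with h | h | h
      · exact absurd h hPB
      · split_ifs <;> omega
      · split_ifs <;> omega
    · rw [map_div₀, vA, vB, m2, ← WithZero.exp_sub]
      congr 1
      simp
    · rw [hj, map_div₀, vD, vB, m2, ← WithZero.exp_sub]
      congr 1
      simp

/-- the values at the primes of simple poles of `x` -/
theorem inf_val (Q : K[X]) (hQ : Q ≠ 0) : ∃ n : ℕ, n ≠ 0 ∧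
    ∀ (M : Type) [Field M] [NumberField M] [Algebra K M] (w : HeightOneSpectrum (𝓞 M)) (y : M),
      (n : 𝓞 M) ∉ w.asIdeal → y ≠ 0 → w.valuation M y = WithZero.exp (-1 : ℤ) →
      w.valuation M (aeval y⁻¹ Q) = WithZero.exp (Q.natDegree : ℤ) := by
  classical
  have hR : Q.reverse ≠ 0 := by rwa [Ne, reverse_eq_zero]
  obtain ⟨n, hn, h⟩ := simple_val (X : K[X]) Q.reverse irreducible_X hR
  refine ⟨n, hn, ?_⟩
  intro M _ _ _ w y hw hy hv
  have hy1 : w.valuation M y ≤ 1 := by
    rw [hv, ← WithZero.exp_zero, WithZero.exp_le_exp]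
    norm_num
  have h1 := h M w y hw hy1 (by rw [aeval_X]; exact hv)
  have h2 : multiplicity (X : K[X]) Q.reverse = 0 := by
    refine multiplicity_eq_zero.2 fun hd => ?_
    rw [X_dvd_iff, coeff_zero_reverse] at hd
    exact hQ (leadingCoeff_eq_zero.1 hd)
  rw [h2] at h1
  let _ : Invertible y⁻¹ := invertibleOfNonzero (inv_ne_zero hy)
  have h3 := eval₂_reverse_mul_pow (algebraMap K M) y⁻¹ Q
  rw [invOf_eq_inv, inv_inv, ← aeval_def, ← aeval_def] at h3
  rw [← h3, map_mul, h1, map_pow, map_inv₀, hv, ← WithZero.exp_neg, ← WithZero.exp_nsmul]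
  simp

/-- the primes at which `x` has a simple pole are special if infinity is a bad place -/
theorem spec_inf {A B : K[X]} (hAB : IsCoprime A B) (hB : B ≠ 0)
    (h1 : 1 ≤ max A.natDegree B.natDegree) (hinf : InfBad A B) :
    ∃ n : ℕ, n ≠ 0 ∧ ∀ (M : Type) [Field M] [NumberField M] [Algebra K M]
      (w : HeightOneSpectrum (𝓞 M)) (y : M), (n : 𝓞 M) ∉ w.asIdeal → y ≠ 0 →
      w.valuation M y = WithZero.exp (-1 : ℤ) →
      Spec (muInf A B) (aeval y⁻¹ A / aeval y⁻¹ B) w := by
  classical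
  obtain ⟨hA, hD⟩ := ab_ne hAB h1
  obtain ⟨n1, hn1, k1⟩ := inf_val A hA
  obtain ⟨n2, hn2, k2⟩ := inf_val B hB
  obtain ⟨n3, hn3, k3⟩ := inf_val (A - 1728 * B) hD
  refine ⟨6 * (n1 * (n2 * n3)), by positivity, ?_⟩
  intro M _ _ _ w y hw hy hv
  obtain ⟨w6, hw⟩ := mul_notMem hw
  obtain ⟨w1, hw⟩ := mul_notMem hw
  obtain ⟨w2, w3⟩ := mul_notMem hw
  have vA := k1 M w y w1 hy hv
  have vB := k2 M w y w2 hy hv
  have vD := k3 M w y w3 hy hv
  have hBx : aeval y⁻¹ B ≠ 0 := by
    intro h
    rw [h, map_zero] at vB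
    exact WithZero.exp_ne_zero vB.symm
  have hj : aeval y⁻¹ A / aeval y⁻¹ B - 1728 = aeval y⁻¹ (A - 1728 * B) / aeval y⁻¹ B := by
    rw [map_sub, map_mul, map_ofNat, eq_div_iff hBx, sub_mul, div_mul_cancel₀ _ hBx]
  refine ⟨val_six w6, ?_⟩
  by_cases hdeg : B.natDegree < A.natDegree
  · left
    refine ⟨by unfold muInf; rw [if_pos hdeg], ?_⟩
    rw [map_div₀, vA, vB, ← WithZero.exp_sub, ← WithZero.exp_zero, WithZero.exp_lt_exp]
    omega
  · right
    have hmu : muInf A B = muA (B.natDegree - A.natDegree)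
        (B.natDegree - (A - 1728 * B).natDegree) := by
      unfold muInf
      rw [if_neg hdeg]
    have hDB : (A - 1728 * B).natDegree ≤ B.natDegree := by
      refine (natDegree_sub_le _ _).trans (max_le (by omega) ?_)
      refine natDegree_mul_le.trans ?_
      have : (1728 : K[X]).natDegree = 0 := by
        have h2 : (1728 : K[X]) = C (1728 : K) := (map_ofNat C 1728).symm
        rw [h2, natDegree_C]
      omega
    refine ⟨?_, B.natDegree - A.natDegree, B.natDegree - (A - 1728 * B).natDegree, ?_, ?_,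
      hmu.symm⟩
    · rw [hmu]
      unfold muA
      rcases hinf with h | h | h
      · exact absurd h hdeg
      · split_ifs <;> omega
      · split_ifs <;> omega
    · rw [map_div₀, vA, vB, ← WithZero.exp_sub]
      congr 1
      omega
    · rw [hj, map_div₀, vD, vB, ← WithZero.exp_sub]
      congr 1
      omega

omit [NumberField K] in
theorem muInf_zero {A B : K[X]} (h : ¬ InfBad A B) : muInf A B = 0 := by
  unfold InfBad at h
  push Not at h
  obtain ⟨h1, h2, h3⟩ := h
  unfold muInf muA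
  rw [if_neg (not_lt.2 h1)]
  split_ifs <;> omega

omit [NumberField K] in
theorem mu_le (A B P : K[X]) : mu A B P ≤ 4 := by
  unfold mu
  split_ifs
  · omega
  · exact muA_le _ _

omit [NumberField K] in
theorem muInf_le (A B : K[X]) : muInf A B ≤ 4 := by
  unfold muInf
  split_ifs
  · omega
  · exact muA_le _ _

end

end Pool.Agent.Helper89V
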