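import Pool.Agent.Helper89V.FR2
import Pool.Agent.Helper89V.FR3
import Pool.Agent.Helper89V.FR4
import Pool.Agent.N271.FR.One
import Pool.Agent.N490.FR.Ht

/-!
# The Faltings height and the conductor above the points of degree `r`
-/

set_option autoImplicit false

namespace Pool.Agent.Helper89V

open NumberField IsDedekindDomain Module Polynomial Pool.Agent.N753.DR Pool.Agent.N751.FR
open Pool.Agent.Y733.FF (discSum multN addN disc_ge)
open Pool.Agent.TH876.FH (IsPeriod arch)

section

variable {K : Type} [Field K] [NumberField K]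

/-- the special primes for one point which generates the field -/
theorem many_special (r : ℕ) (hr : 1 ≤ r) (E₀ : Set K[X]) (hE₀ : IsExc K r E₀) {A B : K[X]}
    (hAB : IsCoprime A B) (hB : B ≠ 0) (h1 : 1 ≤ max A.natDegree B.natDegree)
    (hdeg : ∀ P ∈ badPl A B, P.natDegree ≤ 2 * r + 1) (ε : ℝ) (hε : 0 < ε) :
    ∃ C : ℝ, 0 ≤ C ∧ ∀ (M : Type) [Field M] [NumberField M] [Algebra K M] (x : M),
      finrank K M = r → (minpoly K x).natDegree = r → minpoly K x ∉ E₀ →
      x ≠ 0 → minpoly K x⁻¹ ∉ E₀ → (minpoly K x⁻¹).natDegree = r →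
      (∀ P ∈ badPl A B, aeval x P ≠ 0) →
      ∃ (I : Finset (Option K[X])) (μ : Option K[X] → ℕ)
        (W : Option K[X] → Finset (HeightOneSpectrum (𝓞 M))),
        (∀ i ∈ I, ∀ v ∈ W i, Spec (μ i) (aeval x A / aeval x B) v) ∧
        (∀ i ∈ I, ∀ i' ∈ I, i ≠ i' → Disjoint (W i) (W i')) ∧
        (6 * (gam A B : ℝ) - Pool.Agent.N751.FR.wt A B + (max A.natDegree B.natDegree : ℕ) - ε) *
          Height.logHeight₁ x ≤ ∑ i ∈ I, (6 - (μ i : ℝ)) * ∑ v ∈ W i, lN v + C := by
  classical
  -- the natural numbers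
  have hn1 : ∀ P : K[X], ∃ n : ℕ, n ≠ 0 ∧ (P ∈ badPl A B → ∀ (M : Type) [Field M] [NumberField M]
      [Algebra K M] (w : HeightOneSpectrum (𝓞 M)) (x : M), (n : 𝓞 M) ∉ w.asIdeal →
      w.valuation M x ≤ 1 → w.valuation M (aeval x P) = WithZero.exp (-1 : ℤ) →
      Spec (mu A B P) (aeval x A / aeval x B) w) := by
    intro P
    by_cases hP : P ∈ badPl A B
    · obtain ⟨n, hn, h⟩ := spec_fin hAB hB h1 hP
      exact ⟨n, hn, fun _ => h⟩
    · exact ⟨1, one_ne_zero, fun h => absurd h hP⟩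
  have hn2 : ∀ P P' : K[X], ∃ n : ℕ, n ≠ 0 ∧ (P ∈ badPl A B → P' ∈ badPl A B → P ≠ P' →
      ∀ (M : Type) [Field M] [NumberField M] [Algebra K M] (w : HeightOneSpectrum (𝓞 M)) (x : M),
      (n : 𝓞 M) ∉ w.asIdeal → w.valuation M x ≤ 1 →
      w.valuation M (aeval x P) = WithZero.exp (-1 : ℤ) → w.valuation M (aeval x P') = 1) := by
    intro P P'
    by_cases h : P ∈ badPl A B ∧ P' ∈ badPl A B ∧ P ≠ P'
    · obtain ⟨hP, hP', hne⟩ := h
      unfold badPl at hP hP'
      rw [Finset.mem_filter, Multiset.mem_toFinset] at hP hP'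
      have i1 := UniqueFactorizationMonoid.irreducible_of_normalized_factor P hP.1
      have i2 := UniqueFactorizationMonoid.irreducible_of_normalized_factor P' hP'.1
      obtain ⟨n, hn, h⟩ := simple_val P P' i1 i2.ne_zero
      refine ⟨n, hn, fun _ _ _ => ?_⟩
      intro M _ _ _ w x hw hx hPx
      have h2 := h M w x hw hx hPx
      have h3 : multiplicity P P' = 0 := by
        refine multiplicity_eq_zero.2 fun hd => hne ?_
        have ha : Associated P P' := i1.associated_of_dvd i2 hd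
        have n1 := UniqueFactorizationMonoid.normalize_normalized_factor P hP.1
        have n2 := UniqueFactorizationMonoid.normalize_normalized_factor P' hP'.1
        rw [← n1, ← n2]
        exact normalize_eq_normalize_iff_associated.2 ha
      rw [h2, h3]
      simp
    · exact ⟨1, one_ne_zero, fun a b c => absurd ⟨a, b, c⟩ h⟩
  have hn3 : ∃ n : ℕ, n ≠ 0 ∧ (InfBad A B → ∀ (M : Type) [Field M] [NumberField M] [Algebra K M]
      (w : HeightOneSpectrum (𝓞 M)) (y : M), (n : 𝓞 M) ∉ w.asIdeal → y ≠ 0 →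
      w.valuation M y = WithZero.exp (-1 : ℤ) →
      Spec (muInf A B) (aeval y⁻¹ A / aeval y⁻¹ B) w) := by
    by_cases h : InfBad A B
    · obtain ⟨n, hn, h2⟩ := spec_inf hAB hB h1 h
      exact ⟨n, hn, fun _ => h2⟩
    · exact ⟨1, one_ne_zero, fun h' => absurd h' h⟩
  choose n1 hn10 hn1 using hn1
  choose n2 hn20 hn2 using hn2
  obtain ⟨n3, hn30, hn3⟩ := hn3
  set S : Finset ℕ := (badPl A B).image n1 ∪ ((badPl A B) ×ˢ (badPl A B)).image
    (fun q => n2 q.1 q.2) ∪ {n3} with hS
  set κ : ℝ := ε / (6 * ((badPl A B).card + 1)) with hκd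
  have hκ : 0 < κ := by positivity
  -- the constants
  have hc1 : ∀ P : K[X], ∃ C : ℝ, 0 ≤ C ∧ (P ∈ badPl A B → ∀ (M : Type) [Field M] [NumberField M]
      [Algebra K M] (x : M), finrank K M = r → (minpoly K x).natDegree = r → minpoly K x ∉ E₀ →
      aeval x P ≠ 0 → ∃ W₁ : Finset (HeightOneSpectrum (𝓞 M)), (∀ w, w ∈ W₁ ↔ Simple S P x w) ∧
      (P.natDegree - κ) * Height.logHeight₁ x ≤ ∑ w ∈ W₁, lN w + C) := by
    intro P
    by_cases hP : P ∈ badPl A B
    · have hP' := hP
      unfold badPl at hP'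
      rw [Finset.mem_filter, Multiset.mem_toFinset] at hP'
      have i1 := UniqueFactorizationMonoid.irreducible_of_normalized_factor P hP'.1
      have i2 : P.Monic := by
        have := UniqueFactorizationMonoid.normalize_normalized_factor P hP'.1
        rw [← this]
        exact monic_normalize i1.ne_zero
      obtain ⟨C, hC⟩ := Pool.Agent.N271.FROne.t K r hr E₀ hE₀ P i2 i1 (hdeg P hP) S κ hκ
      refine ⟨|C|, abs_nonneg C, fun _ => ?_⟩
      intro M _ _ _ x hM hx hxE hPx
      obtain ⟨W₁, W₂, k1, k2, k3, k4, k5⟩ := hC M x hM hx hxE hPx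
      exact ⟨W₁, k1, k3.trans (by linarith [le_abs_self C])⟩
    · exact ⟨0, le_rfl, fun h => absurd h hP⟩
  choose c1 hc10 hc1 using hc1
  obtain ⟨c2, hc2⟩ := Pool.Agent.N271.FROne.t K r hr E₀ hE₀ (X : K[X]) monic_X irreducible_X
    (by rw [natDegree_X]; omega) S κ hκ
  refine ⟨6 * ∑ P ∈ badPl A B, c1 P + 6 * |c2|, by
    have : 0 ≤ ∑ P ∈ badPl A B, c1 P := Finset.sum_nonneg fun P _ => hc10 P
    positivity, ?_⟩
  intro M _ _ _ x hM hx hxE hx0 hyE hy hPx
  have hh0 : 0 ≤ Height.logHeight₁ x := Height.zero_le_logHeight₁ x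
  have hW1 : ∀ P : K[X], ∃ W₁ : Finset (HeightOneSpectrum (𝓞 M)), P ∈ badPl A B →
      (∀ w, w ∈ W₁ ↔ Simple S P x w) ∧
      (P.natDegree - κ) * Height.logHeight₁ x ≤ ∑ w ∈ W₁, lN w + c1 P := by
    intro P
    by_cases hP : P ∈ badPl A B
    · obtain ⟨W₁, h⟩ := hc1 P hP M x hM hx hxE (hPx P hP)
      exact ⟨W₁, fun _ => h⟩
    · exact ⟨∅, fun h => absurd h hP⟩
  choose W₁ hW₁ using hW1
  obtain ⟨V₁, V₂, v1, v2, v3, v4, v5⟩ := hc2 M x⁻¹ hM hy hyE (by
    rw [aeval_X]; exact inv_ne_zero hx0)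
  rw [Height.logHeight₁_inv, natDegree_X] at v3
  have hS1 : ∀ P ∈ badPl A B, n1 P ∈ S := fun P hP => by
    rw [hS, Finset.mem_union, Finset.mem_union]
    exact Or.inl (Or.inl (Finset.mem_image_of_mem _ hP))
  have hS2 : ∀ P ∈ badPl A B, ∀ P' ∈ badPl A B, n2 P P' ∈ S := fun P hP P' hP' => by
    rw [hS, Finset.mem_union, Finset.mem_union]
    exact Or.inl (Or.inr (Finset.mem_image.2 ⟨(P, P'), Finset.mk_mem_product hP hP', rfl⟩))
  have hS3 : n3 ∈ S := by
    rw [hS, Finset.mem_union]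
    exact Or.inr (Finset.mem_singleton_self _)
  have hdisjP : ∀ P ∈ badPl A B, ∀ P' ∈ badPl A B, P ≠ P' → Disjoint (W₁ P) (W₁ P') := by
    intro P hP P' hP' hne
    rw [Finset.disjoint_left]
    intro w hw hw'
    obtain ⟨s1, s2, s3⟩ := ((hW₁ P hP).1 w).1 hw
    obtain ⟨-, -, t3⟩ := ((hW₁ P' hP').1 w).1 hw'
    have h2 := hn2 P P' hP hP' hne M w x (s1 _ (hS2 P hP P' hP') (hn20 _ _)) s2 s3
    rw [h2, ← WithZero.exp_zero, WithZero.exp_inj] at t3
    omega
  have hdisjI : ∀ P ∈ badPl A B, Disjoint V₁ (W₁ P) := by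
    intro P hP
    rw [Finset.disjoint_left]
    intro w hw hw'
    obtain ⟨s1, s2, s3⟩ := (v1 w).1 hw
    obtain ⟨-, t2, -⟩ := ((hW₁ P hP).1 w).1 hw'
    rw [aeval_X, map_inv₀] at s3
    have h2 : w.valuation M x = WithZero.exp (1 : ℤ) := by
      rw [← inv_inv (w.valuation M x), s3, ← WithZero.exp_neg, neg_neg]
    rw [h2, ← WithZero.exp_zero, WithZero.exp_le_exp] at t2
    omega
  refine ⟨Finset.insertNone (badPl A B), fun i => i.elim (muInf A B) (mu A B),
    fun i => i.elim (if InfBad A B then V₁ else ∅) W₁, ?_, ?_, ?_⟩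
  · intro i hi v hv
    cases i with
    | none =>
      simp only [Option.elim] at hv ⊢
      by_cases hinf : InfBad A B
      · rw [if_pos hinf] at hv
        obtain ⟨s1, s2, s3⟩ := (v1 v).1 hv
        rw [aeval_X] at s3
        have h2 := hn3 hinf M v x⁻¹ (s1 _ hS3 hn30) (inv_ne_zero hx0) s3
        rw [inv_inv] at h2
        exact h2
      · rw [if_neg hinf] at hv
        exact absurd hv (Finset.notMem_empty _)
    | some P =>
      simp only [Option.elim] at hv ⊢
      rw [Finset.some_mem_insertNone] at hi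
      obtain ⟨s1, s2, s3⟩ := ((hW₁ P hi).1 v).1 hv
      exact hn1 P hi M v x (s1 _ (hS1 P hi) (hn10 P)) s2 s3
  · have hVd : ∀ P ∈ badPl A B, Disjoint (if InfBad A B then V₁ else ∅) (W₁ P) := by
      intro P hP
      split_ifs
      · exact hdisjI P hP
      · exact Finset.disjoint_empty_left _
    intro i hi i' hi' hne
    cases i with
    | none =>
      cases i' with
      | none => exact absurd rfl hne
      | some P' =>
        rw [Finset.some_mem_insertNone] at hi'
        exact hVd P' hi'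
    | some P =>
      rw [Finset.some_mem_insertNone] at hi
      cases i' with
      | none => exact (hVd P hi).symm
      | some P' =>
        rw [Finset.some_mem_insertNone] at hi'
        exact hdisjP P hi P' hi' fun h => hne (by rw [h])
  · rw [Finset.sum_insertNone]
    simp only [Option.elim]
    set h := Height.logHeight₁ x with hhd
    -- the finite bad places
    have f1 : ∀ P ∈ badPl A B, ((6 - (mu A B P : ℝ)) * P.natDegree - 6 * κ) * h - 6 * c1 P ≤
        (6 - (mu A B P : ℝ)) * ∑ v ∈ W₁ P, lN v := by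
      intro P hP
      have h2 := (hW₁ P hP).2
      have h3 : (0 : ℝ) ≤ mu A B P := Nat.cast_nonneg _
      have h4 : (mu A B P : ℝ) ≤ 4 := by exact_mod_cast mu_le A B P
      have h5 := mul_le_mul_of_nonneg_left h2 (show (0 : ℝ) ≤ 6 - mu A B P by linarith)
      have h6 : 0 ≤ (mu A B P : ℝ) * (κ * h) := by positivity
      have h7 : 0 ≤ (mu A B P : ℝ) * c1 P := mul_nonneg h3 (hc10 P)
      nlinarith
    have f2 : ((6 - (muInf A B : ℝ)) * (if InfBad A B then 1 else 0) - 6 * κ) * h - 6 * |c2| ≤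
        (6 - (muInf A B : ℝ)) * ∑ v ∈ (if InfBad A B then V₁ else ∅), lN v := by
      have h3 : (0 : ℝ) ≤ muInf A B := Nat.cast_nonneg _
      have h4 : (muInf A B : ℝ) ≤ 4 := by exact_mod_cast muInf_le A B
      have h6 : 0 ≤ (muInf A B : ℝ) * (κ * h) := by positivity
      have h7 : 0 ≤ (muInf A B : ℝ) * |c2| := by positivity
      by_cases hinf : InfBad A B
      · rw [if_pos hinf, if_pos hinf]
        have v3' : (1 - κ) * h ≤ ∑ v ∈ V₁, lN v + |c2| := by
          have := le_abs_self c2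
          push_cast at v3
          linarith
        have h5 := mul_le_mul_of_nonneg_left v3' (show (0 : ℝ) ≤ 6 - muInf A B by linarith)
        nlinarith
      · rw [if_neg hinf, if_neg hinf, Finset.sum_empty]
        have h8 : 0 ≤ 6 * κ * h := by positivity
        have h9 := abs_nonneg c2
        nlinarith
    have f3 := Finset.sum_le_sum f1
    rw [Finset.sum_sub_distrib, ← Finset.sum_mul, Finset.sum_sub_distrib, Finset.sum_const,
      nsmul_eq_mul, ← Finset.mul_sum] at f3
    have g1 : (gam A B : ℝ) = ∑ P ∈ badPl A B, (P.natDegree : ℝ) +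
        (if InfBad A B then 1 else 0) := by
      unfold gam
      push_cast
      split_ifs <;> simp
    have g2 : (Pool.Agent.N751.FR.wt A B : ℝ) = (max A.natDegree B.natDegree : ℕ) +
        ∑ P ∈ badPl A B, (mu A B P : ℝ) * P.natDegree + muInf A B := by
      unfold Pool.Agent.N751.FR.wt
      push_cast
      ring
    have g3 : (muInf A B : ℝ) * (if InfBad A B then 1 else 0) = muInf A B := by
      by_cases hinf : InfBad A B
      · rw [if_pos hinf, mul_one]
      · rw [if_neg hinf, muInf_zero hinf]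
        simp
    have g4 : ∑ P ∈ badPl A B, (6 - (mu A B P : ℝ)) * P.natDegree =
        6 * ∑ P ∈ badPl A B, (P.natDegree : ℝ) -
          ∑ P ∈ badPl A B, (mu A B P : ℝ) * P.natDegree := by
      rw [Finset.mul_sum, ← Finset.sum_sub_distrib]
      exact Finset.sum_congr rfl fun P _ => by ring
    have g5 : (((badPl A B).card : ℝ) + 1) * (6 * κ) = ε := by
      rw [hκd]
      field_simp
    have g6 : (6 * (gam A B : ℝ) - Pool.Agent.N751.FR.wt A B + (max A.natDegree B.natDegree : ℕ) - ε) * h =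
        (6 * ∑ P ∈ badPl A B, (P.natDegree : ℝ) -
          ∑ P ∈ badPl A B, (mu A B P : ℝ) * P.natDegree - (badPl A B).card * (6 * κ)) * h +
        ((6 - (muInf A B : ℝ)) * (if InfBad A B then 1 else 0) - 6 * κ) * h := by
      rw [g1, g2, ← g5]
      linear_combination h * g3
    rw [g6]
    rw [g4] at f3
    linarith

end

end Pool.Agent.Helper89V
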