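import Pool.Agent.Helper89V.FR5
import Pool.Agent.N401.FR.Rh3

/-!
# Frey's inequality above the points of degree `r`
-/

set_option autoImplicit false

namespace Pool.Agent.Helper89V

open NumberField IsDedekindDomain Module Polynomial Pool.Agent.N753.DR Pool.Agent.N751.FR
open Pool.Agent.Y733.FF (discSum multN addN disc_ge)
open Pool.Agent.TH876.FH (IsPeriod arch)

/-- the discriminants of the subfields of `K(x)` -/
theorem disc_sub {K L F : Type} [Field K] [NumberField K] [Field L] [NumberField L] [Algebra K L]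
    [Field F] [NumberField F] [Algebra F L] (M : IntermediateField K L) [NumberField M]
    (hF : ∀ z : F, algebraMap F L z ∈ M) :
    (finrank F L : ℝ) * Real.log |(discr F : ℝ)| ≤
      finrank M L * Real.log |(discr M : ℝ)| := by
  let f : F →+* M := (algebraMap F L).codRestrict M hF
  let _ : Algebra F M := f.toAlgebra
  have htow : IsScalarTower F M L := IsScalarTower.of_algebraMap_eq fun z => rfl
  have hfd : FiniteDimensional F M := FiniteDimensional.right ℚ F M
  have hfd2 : FiniteDimensional K L := FiniteDimensional.right ℚ K L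
  have hfd3 : FiniteDimensional M L := inferInstance
  have h2 := disc_ge F M
  have h3 : (finrank F M : ℝ) * finrank M L = finrank F L := by
    exact_mod_cast finrank_mul_finrank F M L
  have h4 := mul_le_mul_of_nonneg_left h2 (Nat.cast_nonneg (α := ℝ) (finrank M L))
  rw [← h3]
  nlinarith

/-- **the main inequality** -/
theorem fr_main (K : Type) [Field K] [NumberField K] (r : ℕ) (hr : 1 ≤ r) :
    ∃ E : Set K[X],
      (∀ U : ℝ, 0 ≤ U → {p | p ∈ E ∧ AtH r U p}.Finite ∧
        ({p | p ∈ E ∧ AtH r U p}.ncard : ℝ) ≤ 5 * Real.exp ((r + 1) * U - √U)) ∧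
      ∀ (A B : K[X]), IsCoprime A B → B ≠ 0 → 1 ≤ max A.natDegree B.natDegree →
      (∀ P ∈ badPl A B, P.natDegree ≤ 2 * r + 1) → ∀ ε : ℝ, 0 < ε → ∃ C : ℝ, 0 ≤ C ∧
      ∀ (L : Type) [Field L] [NumberField L] [Algebra K L] (x : L),
        (minpoly K x).natDegree = r → minpoly K x ∉ E → aeval x B ≠ 0 →
        ∀ (F₀ : Type) [Field F₀] [NumberField F₀] [Algebra F₀ L],
        (∀ z : F₀, algebraMap F₀ L z ∈ IntermediateField.adjoin K {x}) →
        ∀ (W : WeierstrassCurve L) (τ : InfinitePlace L → UpperHalfPlane), W.Δ ≠ 0 →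
        W.c₄ ^ 3 / W.Δ = aeval x A / aeval x B → IsPeriod (W.c₄ ^ 3 / W.Δ) τ →
        discSum W + ∑ w : InfinitePlace L, (w.mult : ℝ) * arch (τ w) +
          (6 * (gam A B : ℝ) - Pool.Agent.N751.FR.wt A B - ε) * Height.logHeight₁ x ≤
        6 * Real.log (multN W) + 6 * Real.log (addN W) +
          6 * (Real.log |(discr L : ℝ)| - finrank F₀ L * Real.log |(discr F₀ : ℝ)|) +
          C * finrank ℚ L := by
  classical
  obtain ⟨E, E₀, hE₀, hcard, hE⟩ := exists_inv K r hr
  refine ⟨E, hcard, ?_⟩
  intro A B hAB hB h1 hdeg ε hε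
  obtain ⟨hA, hD⟩ := ab_ne hAB h1
  obtain ⟨C1, hC1, hsp⟩ := many_special r hr E₀ hE₀ hAB hB h1 hdeg ε hε
  obtain ⟨C2, hC2, hglob⟩ := glob
  obtain ⟨C3, hC3⟩ := Pool.Agent.N490.FR.Ht.t K A B hAB r
  set F : K[X] := X * (A * (A - 1728 * B) * B) with hF
  have hF0 : F ≠ 0 := mul_ne_zero X_ne_zero (mul_ne_zero (mul_ne_zero hA hD) hB)
  obtain ⟨C4, hC4, hroot⟩ := root_ht F hF0
  set cf : ℝ := 6 * (gam A B : ℝ) - Pool.Agent.N751.FR.wt A B - ε with hcf
  set N : ℝ := ((max A.natDegree B.natDegree : ℕ) : ℝ) with hN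
  have hN0 : 0 ≤ N := Nat.cast_nonneg _
  refine ⟨C1 + C2 + |C3| + (|cf| + N) * C4, by positivity, ?_⟩
  intro L _ _ _ x hxr hxE hxB F₀ _ _ _ hF₀ W τ hW hj hτ
  -- the field generated by `x`
  have hfdL : FiniteDimensional K L := FiniteDimensional.right ℚ K L
  have hint : IsIntegral K x := IsIntegral.of_finite K x
  have hnM : NumberField (IntermediateField.adjoin K {x}) := NumberField.of_module_finite K _
  obtain ⟨x', hx'd⟩ : ∃ x' : IntermediateField.adjoin K {x},
      x' = IntermediateField.AdjoinSimple.gen K x := ⟨_, rfl⟩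
  have hmin : minpoly K x' = minpoly K x := by
    rw [hx'd]
    exact IntermediateField.minpoly_gen K x
  have hxx' : algebraMap (IntermediateField.adjoin K {x}) L x' = x := by
    rw [hx'd]
    exact IntermediateField.AdjoinSimple.algebraMap_gen K x
  have hMr : finrank K (IntermediateField.adjoin K {x}) = r := by
    rw [IntermediateField.adjoin.finrank hint, hxr]
  have hev : ∀ Q : K[X], algebraMap (IntermediateField.adjoin K {x}) L (aeval x' Q) =
      aeval x Q := by
    intro Q
    rw [← aeval_algebraMap_apply, hxx']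
  have hjL : W.c₄ ^ 3 / W.Δ = algebraMap (IntermediateField.adjoin K {x}) L
      (aeval x' A / aeval x' B) := by
    rw [hj, map_div₀, hev, hev]
  have hinj : Function.Injective (algebraMap (IntermediateField.adjoin K {x}) L) :=
    (algebraMap (IntermediateField.adjoin K {x}) L).injective
  have hnz : ∀ Q : K[X], aeval x Q ≠ 0 → aeval x' Q ≠ 0 := by
    intro Q hQ h0
    apply hQ
    rw [← hev, h0, map_zero]
  have hfdM : FiniteDimensional K (IntermediateField.adjoin K {x}) := inferInstance
  set n : ℝ := (finrank (IntermediateField.adjoin K {x}) L : ℝ) with hn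
  have hfdML : FiniteDimensional (IntermediateField.adjoin K {x}) L := inferInstance
  have hn1 : (1 : ℝ) ≤ n := by
    rw [hn]
    exact_mod_cast finrank_pos (R := IntermediateField.adjoin K {x}) (M := L)
  have hQM1 : (1 : ℝ) ≤ finrank ℚ (IntermediateField.adjoin K {x}) := by
    exact_mod_cast finrank_pos (R := ℚ) (M := IntermediateField.adjoin K {x})
  have hmul : (finrank ℚ (IntermediateField.adjoin K {x}) : ℝ) * n = finrank ℚ L := by
    rw [hn]
    exact_mod_cast finrank_mul_finrank ℚ (IntermediateField.adjoin K {x}) L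
  have hnL : n ≤ finrank ℚ L := by
    rw [← hmul]
    nlinarith
  have hht : Height.logHeight₁ x = n * Height.logHeight₁ x' := by
    have h2 := Pool.Agent.N415.DRVK.ht_ext (k := IntermediateField.adjoin K {x}) (L := L) x'
    rw [hxx'] at h2
    exact h2
  have hhj : Height.logHeight₁ (aeval x' A / aeval x' B) ≤
      N * Height.logHeight₁ x' + |C3| := by
    refine (hC3 _ x' hMr (hnz B hxB)).1.trans ?_
    linarith [le_abs_self C3]
  have hdisc : Real.log |(discr L : ℝ)| - n * Real.log
      |(discr (IntermediateField.adjoin K {x}) : ℝ)| ≤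
      Real.log |(discr L : ℝ)| - finrank F₀ L * Real.log |(discr F₀ : ℝ)| := by
    have h2 := disc_sub (IntermediateField.adjoin K {x}) hF₀
    have e4 : (finrank (IntermediateField.adjoin K {x}) L : ℝ) = n := rfl
    rw [e4] at h2
    linarith
  have hh0 : 0 ≤ Height.logHeight₁ x' := Height.zero_le_logHeight₁ x'
  have hQL : (0 : ℝ) ≤ finrank ℚ L := Nat.cast_nonneg _
  have n1 : n * C1 ≤ C1 * finrank ℚ L := by
    rw [mul_comm C1]
    exact mul_le_mul_of_nonneg_right hnL hC1
  have n3 : n * |C3| ≤ |C3| * finrank ℚ L := by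
    rw [mul_comm |C3|]
    exact mul_le_mul_of_nonneg_right hnL (abs_nonneg _)
  have n4 : 0 ≤ (|cf| + N) * C4 * finrank ℚ L := by positivity
  have n5 : 0 ≤ C1 * finrank ℚ L := by positivity
  have n2 : 0 ≤ C2 * finrank ℚ L := by positivity
  have e0 : (C1 + C2 + |C3| + (|cf| + N) * C4) * (finrank ℚ L : ℝ) =
      C1 * finrank ℚ L + C2 * finrank ℚ L + |C3| * finrank ℚ L +
        (|cf| + N) * C4 * finrank ℚ L := by
    ring
  have hjn := mul_le_mul_of_nonneg_left hhj (show 0 ≤ n by linarith)
  by_cases hFx : aeval x F = 0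
  · -- bounded height
    have h2 := hroot L x hFx
    have h3 := hglob (IntermediateField.adjoin K {x}) L (aeval x' A / aeval x' B) W τ hW hjL hτ
      ℕ ∅ (fun _ => 0) (fun _ => ∅) (by simp) (by simp)
    rw [Finset.sum_empty, mul_zero, add_zero] at h3
    have e4 : (finrank (IntermediateField.adjoin K {x}) L : ℝ) = n := rfl
    rw [e4] at h3
    have h4 : cf * Height.logHeight₁ x ≤ |cf| * (finrank ℚ L * C4) :=
      (mul_le_mul_of_nonneg_right (le_abs_self cf) (Height.zero_le_logHeight₁ x)).trans
        (mul_le_mul_of_nonneg_left h2 (abs_nonneg cf))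
    have h5 := mul_le_mul_of_nonneg_left h2 hN0
    rw [hht] at h5
    rw [mul_add n] at hjn
    have e5 : n * (N * Height.logHeight₁ x') = N * (n * Height.logHeight₁ x') := by ring
    have e6 : (|cf| + N) * C4 * (finrank ℚ L : ℝ) =
        |cf| * (finrank ℚ L * C4) + N * (finrank ℚ L * C4) := by ring
    rw [e5] at hjn
    rw [e0, e6]
    linarith
  · have hx0 : x ≠ 0 := by
      rintro rfl
      apply hFx
      rw [hF, map_mul, aeval_X, zero_mul]
    have hx'0 : x' ≠ 0 := by
      rintro h0
      apply hx0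
      rw [← hxx', h0, map_zero]
    obtain ⟨e1, e2⟩ := hE (IntermediateField.adjoin K {x}) x' (by rw [hmin]; exact hxE)
    have hdeg' : (minpoly K x'⁻¹).natDegree = r := by
      have h0 := minpoly.coeff_zero_ne_zero (IsIntegral.of_finite K x') hx'0
      rw [minpoly_inv hx'0, (invP_props h0).2, hmin, hxr]
    obtain ⟨I, μ, V, k1, k2, k3⟩ := hsp (IntermediateField.adjoin K {x}) x' hMr
      (by rw [hmin, hxr]) e1 hx'0 (e2 hx'0) hdeg' (by
        intro P hP hP0
        apply hFx
        have hPd : P ∣ A * (A - 1728 * B) * B := by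
          unfold badPl at hP
          rw [Finset.mem_filter, Multiset.mem_toFinset] at hP
          exact UniqueFactorizationMonoid.dvd_of_mem_normalizedFactors hP.1
        obtain ⟨R, hR⟩ := hPd
        have hPx : aeval x P = 0 := by rw [← hev, hP0, map_zero]
        rw [hF, hR, map_mul, map_mul, hPx, zero_mul, mul_zero])
    have h3 := hglob (IntermediateField.adjoin K {x}) L (aeval x' A / aeval x' B) W τ hW hjL hτ
      (Option K[X]) I μ V k1 k2
    have h4 := mul_le_mul_of_nonneg_left k3 (show 0 ≤ n by linarith)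
    rw [hht]
    have e3 : n * ((6 * (gam A B : ℝ) - Pool.Agent.N751.FR.wt A B + N - ε) *
        Height.logHeight₁ x') =
        cf * (n * Height.logHeight₁ x') + n * (N * Height.logHeight₁ x') := by
      rw [hcf]
      ring
    rw [e3, mul_add n] at h4
    rw [mul_add n] at hjn
    have e4 : (finrank (IntermediateField.adjoin K {x}) L : ℝ) = n := rfl
    rw [e4] at h3
    rw [e0]
    linarith

end Pool.Agent.Helper89V
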