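import Pool.Agent.Helper89V.FR4

/-!
# The local inequality with slope three
-/

set_option autoImplicit false

namespace Pool.Agent.Helper89V

open NumberField IsDedekindDomain Module Polynomial Pool.Agent.N753.DR
open Pool.Agent.N751.FR Pool.Agent.Y733.FF Pool.Agent.W223.AK Pool.Agent.Y733.LS
open Pool.Agent.H691R3 hiding muA
open Pool.Agent.TH876.FH (GoodAt IsPeriod arch Hj_height)

theorem muA_zero_mul {a c k : ℕ} (h : muA a c = 0) : muA (k * a) (k * c) = 0 := by
  have k1 : (k * a) % 3 = ((k % 3) * (a % 3)) % 3 := Nat.mul_mod _ _ _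
  have k2 : (k * c) % 2 = ((k % 2) * (c % 2)) % 2 := Nat.mul_mod _ _ _
  have e3 : k % 3 = 0 ∨ k % 3 = 1 ∨ k % 3 = 2 := by omega
  have a3 : a % 3 = 0 ∨ a % 3 = 1 ∨ a % 3 = 2 := by omega
  have e2 : k % 2 = 0 ∨ k % 2 = 1 := by omega
  have c2 : c % 2 = 0 ∨ c % 2 = 1 := by omega
  unfold muA at h ⊢
  rcases a3 with a3 | a3 | a3 <;> rcases e3 with e3 | e3 | e3 <;> rcases c2 with c2 | c2 <;>
    rcases e2 with e2 | e2 <;> simp [k1, k2, a3, e3, c2, e2] at h ⊢

section

variable {K : Type} [Field K] [NumberField K]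

/-- the values at a zero of `P` -/
theorem zero_val (P Q : K[X]) (hP : Irreducible P) (hQ : Q ≠ 0) : ∃ n : ℕ, n ≠ 0 ∧
    ∀ (M : Type) [Field M] [NumberField M] [Algebra K M] (w : HeightOneSpectrum (𝓞 M)) (x : M),
      (n : 𝓞 M) ∉ w.asIdeal → w.valuation M x ≤ 1 → w.valuation M (aeval x P) < 1 →
      w.valuation M (aeval x Q) = w.valuation M (aeval x P) ^ multiplicity P Q := by
  classical
  have hfm : FiniteMultiplicity P Q := FiniteMultiplicity.of_not_isUnit hP.not_isUnit hQ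
  obtain ⟨R, hR, hPR⟩ := hfm.exists_eq_pow_mul_and_not_dvd
  have hcop : IsCoprime P R := (hP.coprime_iff_not_dvd).2 hPR
  obtain ⟨a, b, hab⟩ := hcop
  obtain ⟨n1, hn1, h1⟩ := int_val a
  obtain ⟨n2, hn2, h2⟩ := int_val b
  obtain ⟨n3, hn3, h3⟩ := int_val R
  refine ⟨n1 * (n2 * n3), by positivity, ?_⟩
  intro M _ _ _ w x hw hx hv
  obtain ⟨k1, hw⟩ := mul_notMem hw
  obtain ⟨k2, k3⟩ := mul_notMem hw
  have va := h1 M w x k1 hx
  have vb := h2 M w x k2 hx
  have vR := h3 M w x k3 hx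
  have hlt : w.valuation M (aeval x a * aeval x P) < 1 := by
    rw [map_mul]
    exact lt_of_le_of_lt (mul_le_of_le_one_left' va) hv
  have hone : aeval x a * aeval x P + aeval x b * aeval x R = 1 := by
    have := congrArg (aeval x) hab
    simpa using this
  have hb1 : w.valuation M (aeval x b * aeval x R) = 1 := by
    have e : aeval x b * aeval x R = 1 - aeval x a * aeval x P := by
      linear_combination hone
    rw [e]
    rw [Valuation.map_sub_eq_of_lt_left, map_one]
    rw [map_one]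
    exact hlt
  have hR1 : w.valuation M (aeval x R) = 1 := by
    rw [map_mul] at hb1
    refine le_antisymm vR ?_
    by_contra hc
    rw [not_le] at hc
    have : w.valuation M (aeval x b) * w.valuation M (aeval x R) < 1 :=
      lt_of_le_of_lt (mul_le_of_le_one_left' vb) hc
    exact absurd hb1 this.ne
  have e : aeval x Q = aeval x P ^ multiplicity P Q * aeval x R := by
    conv_lhs => rw [hR]
    rw [map_mul, map_pow]
  rw [e, map_mul, map_pow, hR1, mul_one]

/-- the values near infinity -/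
theorem inf_val2 (Q : K[X]) (hQ : Q ≠ 0) : ∃ n : ℕ, n ≠ 0 ∧
    ∀ (M : Type) [Field M] [NumberField M] [Algebra K M] (w : HeightOneSpectrum (𝓞 M)) (y : M)
      (k : ℕ), (n : 𝓞 M) ∉ w.asIdeal → y ≠ 0 → 1 ≤ k → w.valuation M y = WithZero.exp (-(k : ℤ)) →
      w.valuation M (aeval y⁻¹ Q) = WithZero.exp ((k * Q.natDegree : ℕ) : ℤ) := by
  classical
  have hR : Q.reverse ≠ 0 := by rwa [Ne, reverse_eq_zero]
  obtain ⟨n, hn, h⟩ := zero_val (X : K[X]) Q.reverse irreducible_X hR
  refine ⟨n, hn, ?_⟩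
  intro M _ _ _ w y k hw hy hk hv
  have hy1 : w.valuation M y < 1 := by
    rw [hv, ← WithZero.exp_zero, WithZero.exp_lt_exp]
    omega
  have h1 := h M w y hw hy1.le (by rw [aeval_X]; exact hy1)
  have h2 : multiplicity (X : K[X]) Q.reverse = 0 := by
    refine multiplicity_eq_zero.2 fun hd => ?_
    rw [X_dvd_iff, coeff_zero_reverse] at hd
    exact hQ (leadingCoeff_eq_zero.1 hd)
  rw [h2, pow_zero] at h1
  let _ : Invertible y⁻¹ := invertibleOfNonzero (inv_ne_zero hy)
  have h3 := eval₂_reverse_mul_pow (algebraMap K M) y⁻¹ Q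
  rw [invOf_eq_inv, inv_inv, ← aeval_def, ← aeval_def] at h3
  rw [← h3, map_mul, h1, map_pow, map_inv₀, hv, ← WithZero.exp_neg, ← WithZero.exp_nsmul]
  congr 1
  push_cast
  simp [mul_comm]

open Classical in
/-- a zero of `Q` is a zero of an irreducible factor -/
theorem exists_factor (Q : K[X]) (hQ : Q ≠ 0) : ∃ n : ℕ, n ≠ 0 ∧
    ∀ (M : Type) [Field M] [NumberField M] [Algebra K M] (w : HeightOneSpectrum (𝓞 M)) (x : M),
      (n : 𝓞 M) ∉ w.asIdeal → w.valuation M (aeval x Q) < 1 →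
      ∃ P ∈ UniqueFactorizationMonoid.normalizedFactors Q, w.valuation M (aeval x P) < 1 := by
  classical
  obtain ⟨n, hn, h⟩ := Pool.Agent.N707.DRVkG.sepZ ({Q.leadingCoeff} : Finset K)
  refine ⟨n, hn, ?_⟩
  intro M _ _ _ w x hw hlt
  have h1 := h M w hw _ (Finset.mem_singleton_self _) (leadingCoeff_ne_zero.2 hQ)
  have h2 := leadingCoeff_mul_prod_normalizedFactors Q
  by_contra hcon
  push Not at hcon
  have h3 : ∀ s : Multiset K[X], (∀ P ∈ s, 1 ≤ w.valuation M (aeval x P)) →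
      1 ≤ w.valuation M (aeval x s.prod) := by
    intro s
    induction s using Multiset.induction_on with
    | empty => intro _; simp
    | cons P s ih =>
      intro hs
      rw [Multiset.prod_cons, map_mul, map_mul]
      exact one_le_mul (hs P (Multiset.mem_cons_self P s))
        (ih fun P' hP' => hs P' (Multiset.mem_cons_of_mem hP'))
  have h4 := h3 _ hcon
  rw [← h2, map_mul, aeval_C, map_mul, h1, one_mul] at hlt
  exact absurd hlt (not_lt.2 h4)

end

/-- the local inequality at a prime not dividing six -/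
theorem loc3 {L : Type} [Field L] [NumberField L] (w : HeightOneSpectrum (𝓞 L))
    (E : WeierstrassCurve L) (hE : E.Δ ≠ 0) (h6 : w.valuation L 6 = 1) (t : ℝ) (ht : 0 ≤ t)
    (hj : 1 < w.valuation L (E.c₄ ^ 3 / E.Δ) ∨ ∃ a c : ℕ,
      w.valuation L (E.c₄ ^ 3 / E.Δ) = WithZero.exp (-(a : ℤ)) ∧
      w.valuation L (E.c₄ ^ 3 / E.Δ - 1728) = WithZero.exp (-(c : ℤ)) ∧
      (muA a c : ℝ) * Real.log (Nv w) ≤ t) :
    (discExp w E : ℝ) * Real.log (Nv w) ≤
      Real.log (max (fv w (E.c₄ ^ 3 / E.Δ)) 1) + 6 * aw w E + t := by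
  have hl : 0 < Real.log (Nv w) := log_Nv_pos w
  obtain ⟨f2, f3, f6⟩ := unit6 w h6
  have ha := aw_nonneg w E
  have hlp : 0 ≤ Real.log (max (fv w (E.c₄ ^ 3 / E.Δ)) 1) := Real.log_nonneg (le_max_right _ _)
  by_cases hs : SemiAt w E
  · have h8 := semi_disc w E hE hs
    linarith
  · have h7 : aw w E = Real.log (Nv w) := by
      unfold aw
      exact if_pos ⟨hs, h6⟩
    rcases hj with hp | ⟨a, c, va, vc, hac⟩
    · have hfv : 1 < fv w (E.c₄ ^ 3 / E.Δ) := by
        by_contra hcon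
        rw [not_lt, fv_le_one_iff] at hcon
        exact absurd hp (not_lt.2 hcon)
      have h8 := (disc_bound w E hE).2 f2 f3 hfv
      rw [h7]
      linarith
    · obtain ⟨t1, -, -⟩ := Pool.Agent.N441.FR.t L w E hE h6 a c va vc
      have h2 : (discExp w E : ℝ) ≤ 6 + muA a c := by exact_mod_cast t1
      have h3 := mul_le_mul_of_nonneg_right h2 hl.le
      rw [h7]
      linarith

end Pool.Agent.Helper89V
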