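import Pool.Agent.Helper89V.FR7
import Pool.Agent.Helper89V.FR6

/-!
# The inequality with slope three
-/

set_option autoImplicit false

namespace Pool.Agent.Helper89V

open NumberField IsDedekindDomain Module Polynomial Pool.Agent.N753.DR
open Pool.Agent.N751.FR Pool.Agent.Y733.FF Pool.Agent.W223.AK Pool.Agent.Y733.LS
open Pool.Agent.H691R3 hiding muA
open Pool.Agent.TH876.FH (GoodAt IsPeriod arch Hj_height)

theorem muA_mul' {a c k : ℕ} (hk : 1 ≤ k) : muA (k * a) (k * c) ≤ k * muA a c := by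
  by_cases h : muA a c = 0
  · rw [muA_zero_mul h]
    exact Nat.zero_le _
  · exact muA_mul hk h

section

variable {L : Type} [Field L] [NumberField L]

/-- `log max(1, 1 / |z|)` -/
noncomputable def lam (w : HeightOneSpectrum (𝓞 L)) (z : L) : ℝ := Real.log (max (fv w z⁻¹) 1)

theorem lam_nonneg (w : HeightOneSpectrum (𝓞 L)) (z : L) : 0 ≤ lam w z :=
  Real.log_nonneg (le_max_right _ _)

theorem lam_exp {w : HeightOneSpectrum (𝓞 L)} {z : L} {k : ℕ} (hz : z ≠ 0)
    (h : w.valuation L z = WithZero.exp (-(k : ℤ))) : lam w z = k * Real.log (Nv w) := by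
  have h1 : fv w z ≤ 1 := by
    rw [fv_le_one_iff, h, ← WithZero.exp_zero, WithZero.exp_le_exp]
    omega
  have h2 : 0 < fv w z := (fv w).pos hz
  unfold lam
  rw [map_inv₀, max_eq_left ((one_le_inv₀ h2).2 h1), Real.log_inv, fv_exp w h, neg_neg]

theorem lam_sum (z : L) : ∑ᶠ w : Pr L, lam w z ≤ Height.logHeight₁ z := by
  have h1 := Hj_height z⁻¹
  rw [Height.logHeight₁_inv] at h1
  have h2 : ∑ᶠ w : Pr L, lam w z =
    ∑ᶠ v : HeightOneSpectrum (𝓞 L), Real.log (max (FinitePlace.mk v z⁻¹) 1) := rfl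
  have h3 : 0 ≤ ∑ w : InfinitePlace L, (w.mult : ℝ) * Real.log (max (w z⁻¹) 1) :=
    Finset.sum_nonneg fun w _ => mul_nonneg (Nat.cast_nonneg _)
      (Real.log_nonneg (le_max_right _ _))
  rw [h2, h1]
  linarith

theorem nat_notMem {w : HeightOneSpectrum (𝓞 L)} {a n : ℕ} (h : a ∣ n)
    (hw : (n : 𝓞 L) ∉ w.asIdeal) : (a : 𝓞 L) ∉ w.asIdeal := by
  obtain ⟨k, rfl⟩ := h
  exact (mul_notMem hw).1

theorem nat_mem_log {w : HeightOneSpectrum (𝓞 L)} {n : ℕ} (hn : n ≠ 0)
    (hw : (n : 𝓞 L) ∈ w.asIdeal) : Real.log (Nv w) ≤ -Real.log (fv w (n : L)) := by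
  have h0 : (n : L) ≠ 0 := Nat.cast_ne_zero.2 hn
  have h1 : w.valuation L (n : L) < 1 := by
    have h2 := (w.valuation_lt_one_iff_mem (K := L) (n : 𝓞 L)).2 hw
    simpa using h2
  obtain ⟨m, hm⟩ := val_exp w h0 h1.le
  have hm1 : 1 ≤ m := by
    rw [hm, ← WithZero.exp_zero, WithZero.exp_lt_exp] at h1
    omega
  rw [fv_exp w hm, neg_neg]
  have hl : 0 < Real.log (Nv w) := log_Nv_pos w
  have hm' : (1 : ℝ) ≤ m := by exact_mod_cast hm1
  nlinarith

theorem nat_log_nonneg (w : HeightOneSpectrum (𝓞 L)) {n : ℕ} (hn : n ≠ 0) :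
    0 ≤ -Real.log (fv w (n : L)) := by
  have h0 : 0 < fv w (n : L) := (fv w).pos (Nat.cast_ne_zero.2 hn)
  have h1 : fv w (n : L) ≤ 1 := (fv_Na w).nat n
  have := Real.log_nonpos h0.le h1
  linarith

end

section

variable {K : Type} [Field K] [NumberField K]

theorem loc_fam {A B : K[X]} (hAB : IsCoprime A B) (hB : B ≠ 0)
    (h1 : 1 ≤ max A.natDegree B.natDegree) : ∃ n : ℕ, n ≠ 0 ∧ 6 ∣ n ∧
    ∀ (L : Type) [Field L] [NumberField L] [Algebra K L] (w : HeightOneSpectrum (𝓞 L)) (x : L),
      (n : 𝓞 L) ∉ w.asIdeal → aeval x (A * (A - 1728 * B) * B) ≠ 0 →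
      1 < w.valuation L (aeval x A / aeval x B) ∨ ∃ a c : ℕ,
        w.valuation L (aeval x A / aeval x B) = WithZero.exp (-(a : ℤ)) ∧
        w.valuation L (aeval x A / aeval x B - 1728) = WithZero.exp (-(c : ℤ)) ∧
        (muA a c : ℝ) * Real.log (Nv w) ≤
          ∑ P ∈ badPl A B, (mu A B P : ℝ) * lam w (aeval x P) +
            (muInf A B : ℝ) * lam w x⁻¹ := by
  classical
  obtain ⟨hA, hD⟩ := ab_ne hAB h1
  set F : K[X] := A * (A - 1728 * B) * B with hF
  have hF0 : F ≠ 0 := mul_ne_zero (mul_ne_zero hA hD) hB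
  obtain ⟨n1, hn1, k1⟩ := exists_factor F hF0
  obtain ⟨n2, hn2, k2⟩ := int_val A
  obtain ⟨n3, hn3, k3⟩ := int_val B
  obtain ⟨n4, hn4, k4⟩ := int_val (A - 1728 * B)
  obtain ⟨n5, hn5, k5⟩ := inf_val2 A hA
  obtain ⟨n6, hn6, k6⟩ := inf_val2 B hB
  obtain ⟨n7, hn7, k7⟩ := inf_val2 (A - 1728 * B) hD
  have key : ∀ P : K[X], ∃ n : ℕ, n ≠ 0 ∧ (Irreducible P →
      ∀ (M : Type) [Field M] [NumberField M] [Algebra K M] (w : HeightOneSpectrum (𝓞 M)) (x : M),
      (n : 𝓞 M) ∉ w.asIdeal → w.valuation M x ≤ 1 → w.valuation M (aeval x P) < 1 →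
      w.valuation M (aeval x A) = w.valuation M (aeval x P) ^ multiplicity P A ∧
      w.valuation M (aeval x B) = w.valuation M (aeval x P) ^ multiplicity P B ∧
      w.valuation M (aeval x (A - 1728 * B)) =
        w.valuation M (aeval x P) ^ multiplicity P (A - 1728 * B)) := by
    intro P
    by_cases hP : Irreducible P
    · obtain ⟨m1, hm1, l1⟩ := zero_val P A hP hA
      obtain ⟨m2, hm2, l2⟩ := zero_val P B hP hB
      obtain ⟨m3, hm3, l3⟩ := zero_val P (A - 1728 * B) hP hD
      refine ⟨m1 * (m2 * m3), by positivity, fun _ M _ _ _ w x hw hx hv => ?_⟩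
      obtain ⟨w1, hw⟩ := mul_notMem hw
      obtain ⟨w2, w3⟩ := mul_notMem hw
      exact ⟨l1 M w x w1 hx hv, l2 M w x w2 hx hv, l3 M w x w3 hx hv⟩
    · exact ⟨1, one_ne_zero, fun h => absurd h hP⟩
  choose nP hnP hP' using key
  set T := (UniqueFactorizationMonoid.normalizedFactors F).toFinset with hT
  refine ⟨6 * (n1 * (n2 * (n3 * (n4 * (n5 * (n6 * (n7 * ∏ P ∈ T, nP P))))))), ?_,
    Dvd.intro _ rfl, ?_⟩
  · have : ∏ P ∈ T, nP P ≠ 0 := Finset.prod_ne_zero_iff.2 fun P _ => hnP P
    positivity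
  intro L _ _ _ w x hw hFx
  obtain ⟨-, hw⟩ := mul_notMem hw
  obtain ⟨w1, hw⟩ := mul_notMem hw
  obtain ⟨w2, hw⟩ := mul_notMem hw
  obtain ⟨w3, hw⟩ := mul_notMem hw
  obtain ⟨w4, hw⟩ := mul_notMem hw
  obtain ⟨w5, hw⟩ := mul_notMem hw
  obtain ⟨w6, hw⟩ := mul_notMem hw
  obtain ⟨w7, hw⟩ := mul_notMem hw
  have hl : 0 < Real.log (Nv w) := log_Nv_pos w
  have hAx : aeval x A ≠ 0 := by
    intro h
    apply hFx
    rw [hF, map_mul, map_mul, h, zero_mul, zero_mul]
  have hDx : aeval x (A - 1728 * B) ≠ 0 := by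
    intro h
    apply hFx
    rw [hF, map_mul, map_mul, h, mul_zero, zero_mul]
  have hBx : aeval x B ≠ 0 := by
    intro h
    apply hFx
    rw [hF, map_mul, h, mul_zero]
  have hj : aeval x A / aeval x B - 1728 = aeval x (A - 1728 * B) / aeval x B := by
    rw [map_sub, map_mul, map_ofNat, eq_div_iff hBx, sub_mul, div_mul_cancel₀ _ hBx]
  have hs1 : 0 ≤ ∑ P ∈ badPl A B, (mu A B P : ℝ) * lam w (aeval x P) :=
    Finset.sum_nonneg fun P _ => mul_nonneg (Nat.cast_nonneg _) (lam_nonneg w _)
  have hs2 : 0 ≤ (muInf A B : ℝ) * lam w x⁻¹ := mul_nonneg (Nat.cast_nonneg _) (lam_nonneg w _)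
  by_cases hp : 1 < w.valuation L (aeval x A / aeval x B)
  · exact Or.inl hp
  right
  by_cases hx1 : w.valuation L x ≤ 1
  · by_cases hlt : w.valuation L (aeval x F) < 1
    · -- a zero of an irreducible factor
      obtain ⟨P, hPf, hPv⟩ := k1 L w x w1 hlt
      have hirr : Irreducible P := UniqueFactorizationMonoid.irreducible_of_normalized_factor P hPf
      have hPT : P ∈ T := by rwa [hT, Multiset.mem_toFinset]
      have hPd : P ∣ F := UniqueFactorizationMonoid.dvd_of_mem_normalizedFactors hPf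
      have hPx : aeval x P ≠ 0 := by
        intro h
        obtain ⟨R, hR⟩ := hPd
        apply hFx
        rw [hR, map_mul, h, zero_mul]
      obtain ⟨k, hk⟩ := val_exp w hPx hPv.le
      have hk1 : 1 ≤ k := by
        rw [hk, ← WithZero.exp_zero, WithZero.exp_lt_exp] at hPv
        omega
      obtain ⟨vA, vB, vD⟩ := hP' P hirr L w x
        (nat_notMem (Finset.dvd_prod_of_mem nP hPT) hw) hx1 hPv
      have hpow : ∀ m : ℕ, (WithZero.exp (-(k : ℤ)) : WithZero (Multiplicative ℤ)) ^ m =
          WithZero.exp (-((k * m : ℕ) : ℤ)) := by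
        intro m
        rw [← WithZero.exp_nsmul]
        congr 1
        push_cast
        simp [mul_comm]
      rw [hk, hpow] at vA vB vD
      have hPB : ¬ P ∣ B := by
        intro hPB
        have hPA : ¬ P ∣ A := fun h => hirr.not_isUnit (hAB.isUnit_of_dvd' h hPB)
        have m1 : multiplicity P A = 0 := multiplicity_eq_zero.2 hPA
        have m2 : multiplicity P B ≠ 0 := fun h => (multiplicity_eq_zero.1 h) hPB
        apply hp
        rw [map_div₀, vA, vB, m1, ← WithZero.exp_sub, ← WithZero.exp_zero, WithZero.exp_lt_exp]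
        have : 0 < k * multiplicity P B := Nat.mul_pos hk1 (Nat.pos_of_ne_zero m2)
        rw [mul_zero]
        omega
      have m2 : multiplicity P B = 0 := multiplicity_eq_zero.2 hPB
      rw [m2, mul_zero] at vB
      refine ⟨k * multiplicity P A, k * multiplicity P (A - 1728 * B), ?_, ?_, ?_⟩
      · rw [map_div₀, vA, vB, ← WithZero.exp_sub]
        congr 1
        simp
      · rw [hj, map_div₀, vD, vB, ← WithZero.exp_sub]
        congr 1
        simp
      · have h5 : (muA (k * multiplicity P A) (k * multiplicity P (A - 1728 * B)) : ℝ) ≤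
            k * muA (multiplicity P A) (multiplicity P (A - 1728 * B)) := by
          exact_mod_cast muA_mul' hk1
        by_cases hPbad : P ∈ badPl A B
        · have hmu : mu A B P = muA (multiplicity P A) (multiplicity P (A - 1728 * B)) := by
            unfold Pool.Agent.N751.FR.mu
            rw [if_neg hPB]
          have h6 := Finset.single_le_sum (f := fun P => (mu A B P : ℝ) * lam w (aeval x P))
            (fun P _ => mul_nonneg (Nat.cast_nonneg _) (lam_nonneg w _)) hPbad
          rw [lam_exp hPx hk, hmu] at h6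
          have h7 := mul_le_mul_of_nonneg_right h5 hl.le
          linarith
        · have h0 : muA (multiplicity P A) (multiplicity P (A - 1728 * B)) = 0 := by
            unfold badPl at hPbad
            rw [Finset.mem_filter, Multiset.mem_toFinset] at hPbad
            push Not at hPbad
            obtain ⟨-, b2, b3⟩ := hPbad hPf
            unfold muA
            split_ifs <;> omega
          rw [h0, Nat.cast_zero, mul_zero] at h5
          have h7 := mul_le_mul_of_nonneg_right h5 hl.le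
          linarith
    · -- no zero
      have vA := k2 L w x w2 hx1
      have vB := k3 L w x w3 hx1
      have vD := k4 L w x w4 hx1
      rw [not_lt, hF, map_mul, map_mul, map_mul, map_mul] at hlt
      have e1 : w.valuation L (aeval x B) = 1 := by
        refine le_antisymm vB (hlt.trans ?_)
        exact mul_le_of_le_one_left' (mul_le_one' vA vD)
      have e2 : w.valuation L (aeval x (A - 1728 * B)) = 1 := by
        refine le_antisymm vD (hlt.trans ?_)
        rw [e1, mul_one]
        exact mul_le_of_le_one_left' vA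
      have e3 : w.valuation L (aeval x A) = 1 := by
        refine le_antisymm vA (hlt.trans ?_)
        rw [e1, e2, mul_one, mul_one]
      refine ⟨0, 0, ?_, ?_, ?_⟩
      · rw [map_div₀, e3, e1, div_one, Nat.cast_zero, neg_zero, WithZero.exp_zero]
      · rw [hj, map_div₀, e2, e1, div_one, Nat.cast_zero, neg_zero, WithZero.exp_zero]
      · have : muA 0 0 = 0 := rfl
        rw [this, Nat.cast_zero, zero_mul]
        linarith
  · -- infinity
    rw [not_le] at hx1
    have hx : x ≠ 0 := by
      rintro rfl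
      rw [map_zero] at hx1
      exact absurd hx1 (not_lt.2 zero_le_one)
    have hy0 : x⁻¹ ≠ 0 := inv_ne_zero hx
    have hy1 : w.valuation L x⁻¹ < 1 := by
      rw [map_inv₀]
      exact inv_lt_one_of_one_lt₀ hx1
    obtain ⟨k, hk⟩ := val_exp w hy0 hy1.le
    have hk1 : 1 ≤ k := by
      rw [hk, ← WithZero.exp_zero, WithZero.exp_lt_exp] at hy1
      omega
    have vA := k5 L w x⁻¹ k w5 hy0 hk1 hk
    have vB := k6 L w x⁻¹ k w6 hy0 hk1 hk
    have vD := k7 L w x⁻¹ k w7 hy0 hk1 hk
    rw [inv_inv] at vA vB vD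
    have hdeg : A.natDegree ≤ B.natDegree := by
      by_contra hcon
      rw [not_le] at hcon
      apply hp
      rw [map_div₀, vA, vB, ← WithZero.exp_sub, ← WithZero.exp_zero, WithZero.exp_lt_exp]
      have : k * B.natDegree < k * A.natDegree := Nat.mul_lt_mul_of_pos_left hcon hk1
      omega
    have hDB : (A - 1728 * B).natDegree ≤ B.natDegree := by
      refine (natDegree_sub_le _ _).trans (max_le (by omega) ?_)
      refine natDegree_mul_le.trans ?_
      have : (1728 : K[X]).natDegree = 0 := by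
        have h2 : (1728 : K[X]) = C (1728 : K) := (map_ofNat C 1728).symm
        rw [h2, natDegree_C]
      omega
    have hmu : muInf A B = muA (B.natDegree - A.natDegree)
        (B.natDegree - (A - 1728 * B).natDegree) := by
      unfold muInf
      rw [if_neg (not_lt.2 hdeg)]
    refine ⟨k * (B.natDegree - A.natDegree), k * (B.natDegree - (A - 1728 * B).natDegree),
      ?_, ?_, ?_⟩
    · rw [map_div₀, vA, vB, ← WithZero.exp_sub]
      congr 1
      push_cast [Nat.cast_sub hdeg]
      ring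
    · rw [hj, map_div₀, vD, vB, ← WithZero.exp_sub]
      congr 1
      push_cast [Nat.cast_sub hDB]
      ring
    · have h5 : (muA (k * (B.natDegree - A.natDegree))
          (k * (B.natDegree - (A - 1728 * B).natDegree)) : ℝ) ≤ k * muInf A B := by
        rw [hmu]
        exact_mod_cast muA_mul' hk1
      rw [lam_exp hy0 hk]
      have h7 := mul_le_mul_of_nonneg_right h5 hl.le
      linarith

end

end Pool.Agent.Helper89V
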