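import Pool.Agent.Helper89V.FR8

/-!
# The global inequality with slope three
-/

set_option autoImplicit false

namespace Pool.Agent.Helper89V

open NumberField IsDedekindDomain Module Polynomial Pool.Agent.N753.DR
open Pool.Agent.N751.FR Pool.Agent.Y733.FF Pool.Agent.W223.AK Pool.Agent.Y733.LS
open Pool.Agent.H691R3 hiding muA
open Pool.Agent.TH876.FH (GoodAt IsPeriod arch Hj_height)

/-- the height of the value of a rational function -/
theorem ht_rat (K : Type) [Field K] [NumberField K] {A B : K[X]} (hAB : IsCoprime A B) (r : ℕ) :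
    ∃ C : ℝ, 0 ≤ C ∧ ∀ (L : Type) [Field L] [NumberField L] [Algebra K L] (x : L),
      (minpoly K x).natDegree = r → aeval x B ≠ 0 →
      Height.logHeight₁ (aeval x A / aeval x B) ≤
        (max A.natDegree B.natDegree : ℕ) * Height.logHeight₁ x + C * finrank ℚ L := by
  obtain ⟨C3, hC3⟩ := Pool.Agent.N490.FR.Ht.t K A B hAB r
  refine ⟨|C3|, abs_nonneg _, ?_⟩
  intro L _ _ _ x hxr hxB
  have hfdL : FiniteDimensional K L := FiniteDimensional.right ℚ K L
  have hint : IsIntegral K x := IsIntegral.of_finite K x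
  have hnM : NumberField (IntermediateField.adjoin K {x}) := NumberField.of_module_finite K _
  obtain ⟨x', hx'd⟩ : ∃ x' : IntermediateField.adjoin K {x},
      x' = IntermediateField.AdjoinSimple.gen K x := ⟨_, rfl⟩
  have hxx' : algebraMap (IntermediateField.adjoin K {x}) L x' = x := by
    rw [hx'd]
    exact IntermediateField.AdjoinSimple.algebraMap_gen K x
  have hMr : finrank K (IntermediateField.adjoin K {x}) = r := by
    rw [IntermediateField.adjoin.finrank hint, hxr]
  have hev : ∀ Q : K[X], algebraMap (IntermediateField.adjoin K {x}) L (aeval x' Q) =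
      aeval x Q := by
    intro Q
    rw [← aeval_algebraMap_apply, hxx']
  have hnz : aeval x' B ≠ 0 := by
    intro h0
    apply hxB
    rw [← hev, h0, map_zero]
  have hfdML : FiniteDimensional (IntermediateField.adjoin K {x}) L := inferInstance
  have h1 := (hC3 _ x' hMr hnz).1
  have h2 : Height.logHeight₁ x = finrank (IntermediateField.adjoin K {x}) L *
      Height.logHeight₁ x' := by
    have h2 := Pool.Agent.N415.DRVK.ht_ext (k := IntermediateField.adjoin K {x}) (L := L) x'
    rw [hxx'] at h2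
    exact h2
  have h3 : Height.logHeight₁ (aeval x A / aeval x B) =
      finrank (IntermediateField.adjoin K {x}) L * Height.logHeight₁ (aeval x' A / aeval x' B) := by
    have h3 := Pool.Agent.N415.DRVK.ht_ext (k := IntermediateField.adjoin K {x}) (L := L)
      (aeval x' A / aeval x' B)
    rw [map_div₀, hev, hev] at h3
    exact h3
  have hQM1 : (1 : ℝ) ≤ finrank ℚ (IntermediateField.adjoin K {x}) := by
    exact_mod_cast finrank_pos (R := ℚ) (M := IntermediateField.adjoin K {x})
  have hmul : (finrank ℚ (IntermediateField.adjoin K {x}) : ℝ) *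
      finrank (IntermediateField.adjoin K {x}) L = finrank ℚ L := by
    exact_mod_cast finrank_mul_finrank ℚ (IntermediateField.adjoin K {x}) L
  have hn0 : (0 : ℝ) ≤ finrank (IntermediateField.adjoin K {x}) L := Nat.cast_nonneg _
  have hnL : (finrank (IntermediateField.adjoin K {x}) L : ℝ) ≤ finrank ℚ L := by
    rw [← hmul]
    nlinarith
  have h4 := mul_le_mul_of_nonneg_left h1 hn0
  have h5 : (finrank (IntermediateField.adjoin K {x}) L : ℝ) * C3 ≤ |C3| * finrank ℚ L := by
    calc _ ≤ (finrank (IntermediateField.adjoin K {x}) L : ℝ) * |C3| :=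
          mul_le_mul_of_nonneg_left (le_abs_self C3) hn0
      _ ≤ finrank ℚ L * |C3| := mul_le_mul_of_nonneg_right hnL (abs_nonneg _)
      _ = _ := mul_comm _ _
  rw [h3, h2]
  linarith

/-- **the inequality with slope three** -/
theorem fr_three (K : Type) [Field K] [NumberField K] {A B : K[X]} (hAB : IsCoprime A B)
    (hB : B ≠ 0) (h1 : 1 ≤ max A.natDegree B.natDegree) (r : ℕ) : ∃ C : ℝ, 0 ≤ C ∧
    ∀ (L : Type) [Field L] [NumberField L] [Algebra K L] (x : L),
      (minpoly K x).natDegree = r → aeval x (A * (A - 1728 * B) * B) ≠ 0 →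
      ∀ (W : WeierstrassCurve L) (τ : InfinitePlace L → UpperHalfPlane), W.Δ ≠ 0 →
      W.c₄ ^ 3 / W.Δ = aeval x A / aeval x B → IsPeriod (W.c₄ ^ 3 / W.Δ) τ →
      discSum W + ∑ w : InfinitePlace L, (w.mult : ℝ) * arch (τ w) ≤
        3 * Real.log (addN W) + (Pool.Agent.N751.FR.wt A B : ℝ) * Height.logHeight₁ x +
          C * finrank ℚ L := by
  classical
  obtain ⟨c, hc0, hc⟩ := arch_le
  obtain ⟨n, hn, ⟨n', hn6⟩, hloc⟩ := loc_fam hAB hB h1
  obtain ⟨C1, hC1, hrat⟩ := ht_rat K hAB r
  have hev : ∀ P : K[X], ∃ C : ℝ, 0 ≤ C ∧ ∀ (M : Type) [Field M] [NumberField M] [Algebra K M]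
      (x : M), Height.logHeight₁ (aeval x P) ≤
        P.natDegree * Height.logHeight₁ x + finrank K M * C :=
    fun P => Pool.Agent.N415.DRVK.ht_eval P.natDegree P le_rfl
  choose CP hCP hev' using hev
  have l6 : 0 < Real.log 6 := Real.log_pos (by norm_num)
  have hn1 : (1 : ℝ) ≤ n := by exact_mod_cast Nat.one_le_iff_ne_zero.2 hn
  have ln : 0 ≤ Real.log n := Real.log_nonneg hn1
  have hS0 : 0 ≤ ∑ P ∈ badPl A B, (mu A B P : ℝ) * CP P :=
    Finset.sum_nonneg fun P _ => mul_nonneg (Nat.cast_nonneg _) (hCP P)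
  refine ⟨c + C1 + 12 * Real.log n + 22 * Real.log 6 +
    ∑ P ∈ badPl A B, (mu A B P : ℝ) * CP P, by positivity, ?_⟩
  intro L _ _ _ x hxr hFx W τ hW hj hτ
  have hBx : aeval x B ≠ 0 := by
    intro h
    apply hFx
    rw [map_mul, h, mul_zero]
  set G : HeightOneSpectrum (𝓞 L) → ℝ := fun w =>
    ∑ P ∈ badPl A B, (mu A B P : ℝ) * lam w (aeval x P) + (muInf A B : ℝ) * lam w x⁻¹ with hG
  have hG0 : ∀ w, 0 ≤ G w := fun w => add_nonneg
    (Finset.sum_nonneg fun P _ => mul_nonneg (Nat.cast_nonneg _) (lam_nonneg w _))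
    (mul_nonneg (Nat.cast_nonneg _) (lam_nonneg w _))
  -- the local inequalities
  have hl : ∀ w : Pr L, (discExp w W : ℝ) * Real.log (Nv w) ≤
      Real.log (max (fv w (W.c₄ ^ 3 / W.Δ)) 1) + 6 * aw w W + G w +
        -12 * Real.log (fv w (n : L)) + -22 * Real.log (fv w (6 : L)) := by
    intro w
    have hm := mw_nonneg w W
    have ha := aw_nonneg w W
    obtain ⟨s0, -⟩ := log_six w
    have s1 := nat_log_nonneg w hn
    have hlN : 0 < Real.log (Nv w) := log_Nv_pos w
    by_cases hw : (n : 𝓞 L) ∈ w.asIdeal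
    · have h2 := loc w W hW (δ := 0) le_rfl (by norm_num)
      have h3 := nat_mem_log hn hw
      have h5 : 0 ≤ (1 + (0 : ℝ)) * (if Sp (W.c₄ ^ 3 / W.Δ) w then Real.log (Nv w) else 0) := by
        split_ifs
        · linarith
        · norm_num
      have h6 : mw w W ≤ Real.log (Nv w) := by
        unfold mw
        split_ifs
        · exact le_rfl
        · exact hlN.le
      have h7 : aw w W ≤ Real.log (Nv w) := by
        unfold aw
        split_ifs
        · exact le_rfl
        · exact hlN.le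
      linarith [hG0 w]
    · have h6 : w.valuation L 6 = 1 := val_six (nat_notMem (Dvd.intro n' hn6.symm) hw)
      have h2 := loc3 w W hW h6 (G w) (hG0 w) (by
        rw [hj]
        exact hloc L w x hw hFx)
      linarith
  -- the sum
  have s1 := supp_disc W hW
  have s3 : (Function.support fun v : Pr L =>
    Real.log (max (fv v (W.c₄ ^ 3 / W.Δ)) 1)).Finite := Fs_ht (W.c₄ ^ 3 / W.Δ)
  have s5 := supp_aw W hW
  have s6 : (Function.support fun v : Pr L => Real.log (fv v (6 : L))).Finite :=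
    Fs_log (K := L) (z := (6 : L)) (by norm_num)
  have s7 : (Function.support fun v : Pr L => Real.log (fv v (n : L))).Finite :=
    Fs_log (K := L) (z := (n : L)) (Nat.cast_ne_zero.2 hn)
  have sl : ∀ z : L, (Function.support fun v : Pr L => lam v z).Finite := fun z => Fs_ht z⁻¹
  have slm : ∀ (a : ℝ) (z : L), (Function.support fun v : Pr L => a * lam v z).Finite :=
    fun a z => supp_mul a (sl z)
  have sG1 : (Function.support fun v : Pr L =>
      ∑ P ∈ badPl A B, (mu A B P : ℝ) * lam v (aeval x P)).Finite := by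
    refine ((badPl A B).finite_toSet.biUnion (t := fun P =>
      Function.support fun v : Pr L => (mu A B P : ℝ) * lam v (aeval x P))
      fun P _ => slm _ _).subset ?_
    intro v hv
    rw [Function.mem_support] at hv
    obtain ⟨P, hP, hne⟩ := Finset.exists_ne_zero_of_sum_ne_zero hv
    exact Set.mem_biUnion (Finset.mem_coe.2 hP) hne
  have sG2 := slm (muInf A B : ℝ) x⁻¹
  have sG : (Function.support G).Finite := supp_add sG1 sG2
  have s5' := supp_mul 6 s5
  have s7' := supp_mul (-12) s7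
  have s6' := supp_mul (-22) s6
  have s35 := supp_add s3 s5'
  have s35G := supp_add s35 sG
  have s357 := supp_add s35G s7'
  have key := finsum_le_finsum' s1 (supp_add s357 s6') hl
  rw [sum_add s357 s6', sum_add s35G s7', sum_add s35 sG, sum_add s3 s5',
    sum_mul _ s5, sum_mul _ s6, sum_mul _ s7] at key
  have h6 := fin_nat (K := L) (n := 6) (by norm_num)
  push_cast at h6
  have h7 := fin_nat (K := L) hn
  rw [h6, h7] at key
  have hGs : ∑ᶠ w : Pr L, G w = ∑ P ∈ badPl A B, (mu A B P : ℝ) *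
      ∑ᶠ w : Pr L, lam w (aeval x P) + (muInf A B : ℝ) * ∑ᶠ w : Pr L, lam w x⁻¹ := by
    rw [hG]
    simp only
    rw [sum_add sG1 sG2, sum_mul _ (sl _), finsum_sum_comm _ _ fun P _ => slm _ _]
    congr 1
    exact Finset.sum_congr rfl fun P _ => sum_mul _ (sl _)
  have hxi := lam_sum (L := L) x⁻¹
  rw [Height.logHeight₁_inv] at hxi
  have hxi' := mul_le_mul_of_nonneg_left hxi (Nat.cast_nonneg (α := ℝ) (muInf A B))
  have hKQ : (finrank K L : ℝ) ≤ finrank ℚ L := by
    have h3 : (finrank ℚ K : ℝ) * finrank K L = finrank ℚ L := by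
      exact_mod_cast finrank_mul_finrank ℚ K L
    have h4 : (1 : ℝ) ≤ finrank ℚ K := by
      exact_mod_cast finrank_pos (R := ℚ) (M := K)
    have h5 : (0 : ℝ) ≤ finrank K L := Nat.cast_nonneg _
    nlinarith
  have hPs : ∑ P ∈ badPl A B, (mu A B P : ℝ) * ∑ᶠ w : Pr L, lam w (aeval x P) ≤
      ((∑ P ∈ badPl A B, mu A B P * P.natDegree : ℕ) : ℝ) * Height.logHeight₁ x +
        (∑ P ∈ badPl A B, (mu A B P : ℝ) * CP P) * finrank ℚ L := by
    push_cast
    rw [Finset.sum_mul, Finset.sum_mul, ← Finset.sum_add_distrib]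
    refine Finset.sum_le_sum fun P _ => ?_
    have h3 := (lam_sum (aeval x P)).trans (hev' P L x)
    have h4 : (finrank K L : ℝ) * CP P ≤ finrank ℚ L * CP P :=
      mul_le_mul_of_nonneg_right hKQ (hCP P)
    have h5 := mul_le_mul_of_nonneg_left (h3.trans (add_le_add_right h4 _))
      (Nat.cast_nonneg (α := ℝ) (mu A B P))
    refine h5.trans (le_of_eq ?_)
    ring
  have h2 := hc L _ τ hτ
  have h3 := Hj_height (W.c₄ ^ 3 / W.Δ)
  have h5 : ∑ᶠ v : Pr L, Real.log (max (fv v (W.c₄ ^ 3 / W.Δ)) 1) =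
    ∑ᶠ v : HeightOneSpectrum (𝓞 L), Real.log (max (FinitePlace.mk v (W.c₄ ^ 3 / W.Δ)) 1) := rfl
  rw [h5] at key
  have h8 := hrat L x hxr hBx
  rw [← hj] at h8
  have e1 : discSum W = ∑ᶠ v : Pr L, (discExp v W : ℝ) * Real.log (Nv v) := rfl
  have e2 : (Pool.Agent.N751.FR.wt A B : ℝ) = ((max A.natDegree B.natDegree : ℕ) : ℝ) +
      ((∑ P ∈ badPl A B, mu A B P * P.natDegree : ℕ) : ℝ) + (muInf A B : ℝ) := by
    unfold Pool.Agent.N751.FR.wt
    push_cast
    ring
  rw [log_addN W hW, e1, e2]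
  rw [hGs] at key
  have e0 : (c + C1 + 12 * Real.log n + 22 * Real.log 6 +
      ∑ P ∈ badPl A B, (mu A B P : ℝ) * CP P) * (finrank ℚ L : ℝ) =
      c * finrank ℚ L + C1 * finrank ℚ L + 12 * (finrank ℚ L * Real.log n) +
        22 * (finrank ℚ L * Real.log 6) +
        (∑ P ∈ badPl A B, (mu A B P : ℝ) * CP P) * finrank ℚ L := by ring
  rw [e0]
  have e3 : (((max A.natDegree B.natDegree : ℕ) : ℝ) +
      ((∑ P ∈ badPl A B, mu A B P * P.natDegree : ℕ) : ℝ) + (muInf A B : ℝ)) *
      Height.logHeight₁ x = ((max A.natDegree B.natDegree : ℕ) : ℝ) * Height.logHeight₁ x +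
      ((∑ P ∈ badPl A B, mu A B P * P.natDegree : ℕ) : ℝ) * Height.logHeight₁ x +
      (muInf A B : ℝ) * Height.logHeight₁ x := by ring
  rw [e3]
  linarith

end Pool.Agent.Helper89V
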