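import Pool.Agent.N753.DR.Stm5
import Pool.Agent.Helper89V.Exc

/-!
# Primes at which a number meets one of the points `a_j`
-/

set_option autoImplicit false

namespace Pool.Agent.Helper89V

open NumberField IsDedekindDomain Module Polynomial Height Pool.Agent.N753.DR
open IntermediateField (AdjoinSimple.gen)

/-- `x` meets one of the points `a_j` at the prime `w`, which does not divide the elements of
`S` -/
def NearA {k : Type} [Field k] {q : ℕ} (S : Finset ℕ) (a : Fin q → k) {M : Type} [Field M]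
    [NumberField M] [Algebra k M] (x : M) (w : HeightOneSpectrum (𝓞 M)) : Prop :=
  (∀ p ∈ S, (p : 𝓞 M) ∉ w.asIdeal) ∧ w.valuation M x ≤ 1 ∧
    ∃ j, w.valuation M (x - algebraMap k M (a j)) < 1

section

variable {k : Type} [Field k] {q : ℕ} {S : Finset ℕ} {a : Fin q → k} {M : Type} [Field M]
  [NumberField M] [Algebra k M]

theorem nearA_finite (S : Finset ℕ) {x : M} (hx : ∀ j, x ≠ algebraMap k M (a j)) :
    {w : HeightOneSpectrum (𝓞 M) | NearA S a x w}.Finite := by
  refine (Set.finite_iUnion fun j =>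
    Pool.Agent.N415.DRVK.zeros_finite (sub_ne_zero.2 (hx j))).subset ?_
  rintro w ⟨_, _, j, hj⟩
  exact Set.mem_iUnion.2 ⟨j, hj⟩

theorem nearA_mono {S' : Finset ℕ} (h : S ⊆ S') {x : M} {w : HeightOneSpectrum (𝓞 M)}
    (hw : NearA S' a x w) : NearA S a x w := ⟨fun p hp => hw.1 p (h hp), hw.2⟩

theorem nearA_over {L : Type} [Field L] [NumberField L] [Algebra k L] [Algebra M L]
    [IsScalarTower k M L] (x : M) {w : HeightOneSpectrum (𝓞 M)} {u : HeightOneSpectrum (𝓞 L)}
    (h : u.asIdeal.LiesOver w.asIdeal) : NearA S a (algebraMap M L x) u ↔ NearA S a x w := by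
  unfold NearA
  have h1 : ∀ p : ℕ, (p : 𝓞 L) ∈ u.asIdeal ↔ (p : 𝓞 M) ∈ w.asIdeal := by
    intro p
    rw [h.over, Ideal.under_def, Ideal.mem_comap, map_natCast]
  have h2 := Pool.Agent.N572.DR.Link.val_le_one_iff w u
  refine and_congr ?_ (and_congr (h2 x).1 ?_)
  · exact forall_congr' fun p => forall_congr' fun _ => not_congr (h1 p)
  · refine exists_congr fun j => ?_
    rw [IsScalarTower.algebraMap_apply k M L, ← map_sub]
    exact (h2 _).2

theorem nearA_V {L : Type} [Field L] [NumberField L] [Algebra k L] [Algebra M L]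
    [IsScalarTower k M L] (x : M) (W : Finset (HeightOneSpectrum (𝓞 M)))
    (hW : ∀ w, w ∈ W ↔ NearA S a x w) (V : Finset (HeightOneSpectrum (𝓞 L)))
    (hV : ∀ u, u ∈ V ↔ NearA S a (algebraMap M L x) u) (u : HeightOneSpectrum (𝓞 L)) :
    u ∈ V ↔ ∃ w ∈ W, u.asIdeal.LiesOver w.asIdeal := by
  rw [hV]
  constructor
  · intro h
    have h1 : u.asIdeal.LiesOver (u.under (𝓞 M)).asIdeal := ⟨rfl⟩
    exact ⟨u.under (𝓞 M), (hW _).2 ((nearA_over x h1).1 h), h1⟩
  · rintro ⟨w, hw, h1⟩
    exact (nearA_over x h1).2 ((hW w).1 hw)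

end

/-- a rational prime below `u` -/
noncomputable def chr {L : Type} [Field L] [NumberField L] (u : HeightOneSpectrum (𝓞 L)) : ℕ :=
  Classical.choose (Pool.Agent.N196.PC.exists_prime u)

theorem chr_prime {L : Type} [Field L] [NumberField L] (u : HeightOneSpectrum (𝓞 L)) :
    (chr u).Prime := (Classical.choose_spec (Pool.Agent.N196.PC.exists_prime u)).1

theorem chr_mem {L : Type} [Field L] [NumberField L] (u : HeightOneSpectrum (𝓞 L)) :
    (chr u : 𝓞 L) ∈ u.asIdeal := (Classical.choose_spec (Pool.Agent.N196.PC.exists_prime u)).2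

theorem log_prod_primes (B : Finset ℕ) (hB : ∀ p ∈ B, p.Prime) :
    Real.log ((∏ p ∈ B, p : ℕ) : ℝ) = ∑ p ∈ B, Real.log (p : ℝ) := by
  rw [Nat.cast_prod, Real.log_prod]
  intro p hp
  exact_mod_cast (hB p hp).ne_zero

theorem nonneg_sum_log (B : Finset ℕ) : 0 ≤ ∑ p ∈ B, Real.log (p : ℝ) :=
  Finset.sum_nonneg fun p _ => Real.log_natCast_nonneg p

theorem gen_top {k L : Type} [Field k] [NumberField k] [Field L] [NumberField L] [Algebra k L]
    (t : L) : IntermediateField.adjoin k {AdjoinSimple.gen k t} = ⊤ := by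
  have hfd : FiniteDimensional k L := FiniteDimensional.right ℚ k L
  rw [Field.primitive_element_iff_minpoly_natDegree_eq, IntermediateField.minpoly_gen,
    IntermediateField.adjoin.finrank (IsIntegral.of_finite k t)]

/-- **the line, without the primes above the primes of `B`** -/
theorem line_le {K : Type} [Field K] [NumberField K] {r : ℕ} {E' : Set K[X]}
    (hE' : GoodLine r E') (k : Type) [Field k] [NumberField k] [Algebra K k] {q : ℕ}
    (a : Fin q → k) (ha : Function.Injective a)
    (hdeg : ∀ j, (minpoly K (a j)).natDegree ≤ 2 * r + 1) (S : Finset ℕ) (hS : ∀ p ∈ S, p ≠ 0)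
    {κ : ℝ} (hκ : 0 < κ) :
    ∃ C : ℝ, 0 ≤ C ∧ ∀ (L : Type) [Field L] [NumberField L] [Algebra K L] [Algebra k L]
      [IsScalarTower K k L] (x : L), (minpoly K x).natDegree = r → minpoly K x ∉ E' →
      (∀ j, x ≠ algebraMap k L (a j)) → ∀ B : Finset ℕ, (∀ p ∈ B, p.Prime) →
      ∀ W : Finset (HeightOneSpectrum (𝓞 (IntermediateField.adjoin k {x}))),
        (∀ w, NearA (S ∪ B) a (AdjoinSimple.gen k x) w → w ∈ W) →
        (q - κ) * logHeight₁ x ≤ finrank (IntermediateField.adjoin k {x}) L * ∑ w ∈ W, lN w +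
          finrank ℚ L * (∑ p ∈ B, Real.log (p : ℝ) + C) := by
  classical
  obtain ⟨C, hC⟩ := hE' k q a ha hdeg S κ hκ
  refine ⟨max C 0, le_max_right _ _, ?_⟩
  intro L _ _ _ _ _ x hx hxE hxa B hB W hW
  have hKM : IsScalarTower K (IntermediateField.adjoin k {x}) L :=
    IsScalarTower.of_algebraMap_eq fun z => by
      rw [IsScalarTower.algebraMap_apply K k L,
        IsScalarTower.algebraMap_apply K k (IntermediateField.adjoin k {x})]
      rfl
  have hmin : minpoly K (AdjoinSimple.gen k x) = minpoly K x := by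
    have h := minpoly.algebraMap_eq (A := K) (B := IntermediateField.adjoin k {x}) (B' := L)
      (algebraMap (IntermediateField.adjoin k {x}) L).injective (AdjoinSimple.gen k x)
    rw [← h]
    rfl
  have hxa' : ∀ j, AdjoinSimple.gen k x ≠ algebraMap k (IntermediateField.adjoin k {x}) (a j) := by
    intro j h
    apply hxa j
    have := congrArg (algebraMap (IntermediateField.adjoin k {x}) L) h
    rw [← IsScalarTower.algebraMap_apply] at this
    exact this
  have hfin := nearA_finite (a := a) S hxa'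
  have hmem : ∀ w, w ∈ hfin.toFinset ↔ NearA S a (AdjoinSimple.gen k x) w := by
    intro w
    rw [Set.Finite.mem_toFinset, Set.mem_ofPred_eq]
  have h1 := hC (IntermediateField.adjoin k {x}) (AdjoinSimple.gen k x) (gen_top x)
    (hmin.symm ▸ hx) (hmin.symm ▸ hxE) hxa' hfin.toFinset (fun w h1 h2 h3 =>
      (hmem w).2 ⟨fun p hp => h1 p hp (hS p hp), h2, h3⟩)
  -- the primes above `B`
  have hn0 : (∏ p ∈ B, p) ≠ 0 := Finset.prod_ne_zero_iff.2 fun p hp => (hB p hp).ne_zero
  have h2 := sum_above hn0 (hfin.toFinset.filter fun w => ∃ p ∈ B,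
      (p : 𝓞 (IntermediateField.adjoin k {x})) ∈ w.asIdeal) (by
    intro w hw
    obtain ⟨p, hp, hpw⟩ := (Finset.mem_filter.1 hw).2
    obtain ⟨c, hc⟩ := Finset.dvd_prod_of_mem (fun p => p) hp
    rw [hc, Nat.cast_mul]
    exact Ideal.mul_mem_right _ _ hpw)
  rw [log_prod_primes B hB] at h2
  have h3 : ∑ w ∈ hfin.toFinset, lN w ≤ ∑ w ∈ W, lN w +
      finrank ℚ (IntermediateField.adjoin k {x}) * ∑ p ∈ B, Real.log (p : ℝ) := by
    rw [← Finset.sum_filter_add_sum_filter_not hfin.toFinset (fun w => ∃ p ∈ B,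
      (p : 𝓞 (IntermediateField.adjoin k {x})) ∈ w.asIdeal), add_comm]
    refine add_le_add (Finset.sum_le_sum_of_subset_of_nonneg ?_ fun w _ _ =>
      Pool.Agent.N415.DRVK.lN_nonneg w) h2
    intro w hw
    obtain ⟨h4, h5⟩ := Finset.mem_filter.1 hw
    obtain ⟨h6, h7⟩ := (hmem w).1 h4
    refine hW w ⟨fun p hp => ?_, h7⟩
    rcases Finset.mem_union.1 hp with hp | hp
    · exact h6 p hp
    · exact fun hpw => h5 ⟨p, hp, hpw⟩
  have h4 := gen_ht (K := k) x
  have hF : (0 : ℝ) < finrank (IntermediateField.adjoin k {x}) L := by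
    have : FiniteDimensional (IntermediateField.adjoin k {x}) L :=
      FiniteDimensional.right ℚ (IntermediateField.adjoin k {x}) L
    exact_mod_cast finrank_pos (R := IntermediateField.adjoin k {x}) (M := L)
  have h5 : (finrank (IntermediateField.adjoin k {x}) L : ℝ) *
      finrank ℚ (IntermediateField.adjoin k {x}) = finrank ℚ L := by
    rw [mul_comm]
    exact_mod_cast finrank_mul_finrank ℚ (IntermediateField.adjoin k {x}) L
  have h6 : (1 : ℝ) ≤ finrank ℚ (IntermediateField.adjoin k {x}) := by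
    exact_mod_cast finrank_pos (R := ℚ) (M := IntermediateField.adjoin k {x})
  have h7 : (finrank (IntermediateField.adjoin k {x}) L : ℝ) * C ≤
      finrank ℚ L * max C 0 := by
    rw [← h5]
    have h8 : (0 : ℝ) ≤ max C 0 := le_max_right _ _
    calc (finrank (IntermediateField.adjoin k {x}) L : ℝ) * C
        ≤ finrank (IntermediateField.adjoin k {x}) L * max C 0 :=
          mul_le_mul_of_nonneg_left (le_max_left _ _) hF.le
      _ = finrank (IntermediateField.adjoin k {x}) L * 1 * max C 0 := by ring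
      _ ≤ _ := mul_le_mul_of_nonneg_right (mul_le_mul_of_nonneg_left h6 hF.le) h8
  calc (q - κ) * logHeight₁ x = finrank (IntermediateField.adjoin k {x}) L *
        ((q - κ) * logHeight₁ (AdjoinSimple.gen k x)) := by rw [h4]; ring
    _ ≤ finrank (IntermediateField.adjoin k {x}) L * (∑ w ∈ W, lN w +
      finrank ℚ (IntermediateField.adjoin k {x}) * ∑ p ∈ B, Real.log (p : ℝ) + C) :=
        mul_le_mul_of_nonneg_left (h1.trans (by linarith)) hF.le
    _ = finrank (IntermediateField.adjoin k {x}) L * ∑ w ∈ W, lN w +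
      (finrank (IntermediateField.adjoin k {x}) L *
        finrank ℚ (IntermediateField.adjoin k {x})) * ∑ p ∈ B, Real.log (p : ℝ) +
        finrank (IntermediateField.adjoin k {x}) L * C := by ring
    _ ≤ _ := by
      rw [h5]
      linarith

end Pool.Agent.Helper89V
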