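import Pool.Agent.Helper89V.PCA

/-!
# The covers of the line: `StmKeyB` for `A = k[X]`
-/

set_option autoImplicit false

namespace Pool.Agent.Helper89V

open NumberField IsDedekindDomain Module Polynomial Height Pool.Agent.N753.DR

/-- the function `t` on the curve with the ring of functions `A`, at the point `P` -/
noncomputable def tv {k A : Type} [Field k] [CommRing A] [Algebra k A] [Algebra k[X] A]
    {L : Type} [Field L] [Algebra k L] (P : A →ₐ[k] L) : L := P (algebraMap k[X] A X)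

theorem key_line (hKB : StmKeyB) (k A : Type) [Field k] [NumberField k] [CommRing A]
    [IsDedekindDomain A] [Algebra k A] [Algebra k[X] A] [IsScalarTower k k[X] A]
    [Module.Finite k[X] A] [FaithfulSMul k[X] A] {q : ℕ} (a : Fin q → k) (v : Fin q → ℕ)
    (y : ∀ j, Fin (v j) → A) (F : Fin q → Ideal A) (hF : ∀ j, F j ≠ ⊥)
    (hyF : ∀ j l, ∀ f ∈ F j,
      y j l * f ∈ (Ideal.span {algebraMap k[X] A (X - C (a j))}).radical) {ε : ℝ} (hε : 0 < ε) :
    ∃ (T : ℕ) (C : ℝ) (G : ℚ[X]), T ≠ 0 ∧ 0 ≤ C ∧ G ≠ 0 ∧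
      ∀ (S : Finset ℕ), T ∈ S → ∀ (L : Type) [Field L] [NumberField L] [Algebra k L]
        (P : A →ₐ[k] L), aeval (tv P) G ≠ 0 → (∀ j, tv P ≠ algebraMap k L (a j)) →
        ∀ V W' : Finset (HeightOneSpectrum (𝓞 L)),
          (∀ w ∈ V, NearA S a (tv P) w) →
          (∀ w, (∀ p ∈ S, (p : 𝓞 L) ∉ w.asIdeal) → w.valuation L (tv P) ≤ 1 →
            (∃ j, w.valuation L (tv P - algebraMap k L (a j)) < 1 ∧
              ∀ l, w.valuation L (P (y j l)) < 1) → w ∈ W') →
          ∑ w ∈ V, lN w ≤ ∑ w ∈ W', lN w +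
            ((∑ j, (finrank k (A ⧸ F j) : ℝ)) / finrank k[X] A + ε) * logHeight₁ (tv P) +
              finrank ℚ L * C := by
  obtain ⟨T, C, G, hT, hC, hG, h⟩ := hKB k k[X] A (Algebra.ofId k[X] A) q (fun _ => 1) v
    (fun j _ => X - C (a j)) y F hF (by
      intro j i f hf
      have h1 : (Set.range fun _ : Fin 1 => (Algebra.ofId k[X] A) (X - C (a j))) =
          {algebraMap k[X] A (X - C (a j))} := by
        rw [Set.range_const]
        rfl
      rw [h1]
      exact hyF j i f hf) ε hε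
  refine ⟨T, C, G, hT, hC, hG, ?_⟩
  intro S hTS L _ _ _ P hPG hPa V W' hV hW'
  have hg : ∀ j, P ((Algebra.ofId k[X] A) (X - Polynomial.C (a j))) =
      tv P - algebraMap k L (a j) := by
    intro j
    show P (algebraMap k[X] A (X - Polynomial.C (a j))) = _
    rw [map_sub, map_sub]
    have h2 : algebraMap k[X] A (Polynomial.C (a j)) = algebraMap k A (a j) := by
      rw [IsScalarTower.algebraMap_apply k k[X] A]
      rfl
    rw [h2, P.commutes]
    rfl
  have h1 := h S L P hPG (fun j => ⟨0, by rw [hg]; exact sub_ne_zero.2 (hPa j)⟩) V W'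
    (fun w hw => ⟨(hV w hw).1 T hTS, (hV w hw).1, (hV w hw).2.1, by
      obtain ⟨j, hj⟩ := (hV w hw).2.2
      exact ⟨j, fun _ => by rw [hg]; exact hj⟩⟩)
    (fun w h2 h3 h4 => hW' w h2 h3 (by
      obtain ⟨j, h5, h6⟩ := h4
      refine ⟨j, ?_, h6⟩
      have h7 := h5 0
      rw [hg] at h7
      exact h7))
  exact h1

end Pool.Agent.Helper89V
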